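import Pool.Agent.Smt.StarDefs
import Pool.Agent.H.MP_41922c_al.Transfer
import Pool.Agent.H.MP_41922c_al.OctS0

/-!
# The six identities hold in the octonion algebra; star identities form a star T-ideal (module StarId)

`cj (x * y) = cj y * cj x`, `cj (cj x) = x`; `x + cj x` and `x * cj x` are scalars (in the model
`Oct`: `tr x • e` and `nm x • e`).
For the ideal: for `inv f`: if `φ` is a homomorphism with `φ(x_i*) = cj (φ x_i)` for all `i` then
`φ (inv f) = cj (φ f)` (both sides, as functions of `f`, are homomorphisms `FS F → (CD)ᵐᵒᵖ`, which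
agree on the letters `inl i` and `inr i`: `FreeNonUnitalNonAssocAlgebra.hom_ext`); for `map`: the composite
`φ ∘ lift F (Sum.elim v (inv ∘ v))` is again such a homomorphism.
-/

set_option autoImplicit false

namespace Pool.Agent.Smt

open FreeNonUnitalNonAssocAlgebra Pool.Agent.H.MP_41922c_al

section
variable {F : Type*} [CommRing F] {ν β γ : F}

theorem starId_cj_cj (x : CD F ν β γ) : cj (cj x) = x := by
  refine Prod.ext ?_ ?_
  · show star (star x.1) = x.1
    rw [star_star]
  · show -(-x.2) = x.2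
    rw [neg_neg]

theorem starId_cj_add (x y : CD F ν β γ) : cj (x + y) = cj x + cj y := by
  refine Prod.ext ?_ ?_
  · show star (x.1 + y.1) = star x.1 + star y.1
    rw [star_add]
  · show -(x.2 + y.2) = -x.2 + -y.2
    rw [neg_add]

theorem starId_cj_smul (k : F) (x : CD F ν β γ) : cj (k • x) = k • cj x := by
  refine Prod.ext ?_ ?_
  · show star (k • x.1) = k • star x.1
    rw [QuaternionAlgebra.star_smul]
  · show -(k • x.2) = k • -x.2
    rw [smul_neg]

theorem starId_cj_zero : cj (0 : CD F ν β γ) = 0 := by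
  refine Prod.ext ?_ ?_
  · show star (0 : CD F ν β γ).1 = 0
    rw [CD.zero_fst, star_zero]
  · show -(0 : CD F ν β γ).2 = 0
    rw [CD.zero_snd, neg_zero]

theorem starId_cj_mul (x y : CD F ν β γ) : cj (x * y) = cj y * cj x := by
  refine Prod.ext ?_ ?_
  · show star (x * y).1 = (cj y * cj x).1
    rw [CD.mul_fst, CD.mul_fst]
    show star (x.1 * y.1 + γ • (star y.2 * x.2)) = star y.1 * star x.1 + γ • (star (-x.2) * -y.2)
    rw [star_add, star_mul, QuaternionAlgebra.star_smul, star_mul, star_star, star_neg, neg_mul_neg]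
  · show -(x * y).2 = (cj y * cj x).2
    rw [CD.mul_snd, CD.mul_snd]
    show -(y.2 * x.1 + x.2 * star y.1) = -x.2 * star y.1 + -y.2 * star (star x.1)
    rw [star_star, neg_mul, neg_mul, neg_add, add_comm]

theorem starId_toOct_cj (x : CD F ν β γ) :
    CD.toOct F (cj x) = Oct.tr (CD.toOct F x) • Oct.e - CD.toOct F x := by
  refine Oct.ext8 ?_ ?_ ?_ ?_ ?_ ?_ ?_ ?_ <;> simp [CD.toOct, cj, Oct.tr] <;> ring

instance starId_tower : IsScalarTower F (CD F ν β γ) (CD F ν β γ) where
  smul_assoc k x y := by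
    show (k • x) * y = k • (x * y)
    refine Prod.ext ?_ ?_
    · rw [CD.mul_fst]
      show (k • x.1) * y.1 + γ • (star y.2 * (k • x.2)) = k • (x * y).1
      rw [CD.mul_fst, smul_mul_assoc, mul_smul_comm, smul_add, smul_comm γ k]
    · rw [CD.mul_snd]
      show y.2 * (k • x.1) + (k • x.2) * star y.1 = k • (x * y).2
      rw [CD.mul_snd, smul_mul_assoc, mul_smul_comm, smul_add]

instance starId_comm : SMulCommClass F (CD F ν β γ) (CD F ν β γ) where
  smul_comm k x y := by
    show k • (x * y) = x * (k • y)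
    refine Prod.ext ?_ ?_
    · rw [CD.mul_fst]
      show k • (x * y).1 = x.1 * (k • y.1) + γ • (star (k • y.2) * x.2)
      rw [CD.mul_fst, mul_smul_comm, QuaternionAlgebra.star_smul, smul_mul_assoc, smul_add,
        smul_comm γ k]
    · rw [CD.mul_snd]
      show k • (x * y).2 = (k • y.2) * x.1 + x.2 * star (k • y.1)
      rw [CD.mul_snd, QuaternionAlgebra.star_smul, smul_mul_assoc, mul_smul_comm, smul_add]

/-- `cj` as a homomorphism to the opposite algebra -/
private def starId_cjHom : CD F ν β γ →ₙₐ[F] (CD F ν β γ)ᵐᵒᵖ where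
  toFun x := MulOpposite.op (cj x)
  map_smul' k x := by
    show MulOpposite.op (cj (k • x)) = k • MulOpposite.op (cj x)
    rw [starId_cj_smul, MulOpposite.op_smul]
  map_zero' := by rw [starId_cj_zero, MulOpposite.op_zero]
  map_add' x y := by rw [starId_cj_add, MulOpposite.op_add]
  map_mul' x y := by rw [starId_cj_mul, MulOpposite.op_mul]

/-- the opposite homomorphism -/
private noncomputable def starId_op (φ : FS F →ₙₐ[F] CD F ν β γ) : (FS F)ᵐᵒᵖ →ₙₐ[F] (CD F ν β γ)ᵐᵒᵖ where
  toFun x := MulOpposite.op (φ x.unop)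
  map_smul' k x := by
    show MulOpposite.op (φ (k • x).unop) = k • MulOpposite.op (φ x.unop)
    rw [MulOpposite.unop_smul, map_smul, MulOpposite.op_smul]
  map_zero' := by rw [MulOpposite.unop_zero, map_zero, MulOpposite.op_zero]
  map_add' x y := by rw [MulOpposite.unop_add, map_add, MulOpposite.op_add]
  map_mul' x y := by rw [MulOpposite.unop_mul, map_mul, MulOpposite.op_mul]

theorem starId_inv (φ : FS F →ₙₐ[F] CD F ν β γ)
    (hφ : ∀ i, φ (of F (Sum.inr i)) = cj (φ (of F (Sum.inl i)))) (f : FS F) :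
    φ (inv f) = cj (φ f) := by
  have h : (starId_op φ).comp (invHom F) = starId_cjHom.comp φ := by
    refine hom_ext _ (fun s => ?_)
    rw [NonUnitalAlgHom.comp_apply, NonUnitalAlgHom.comp_apply]
    show MulOpposite.op (φ (invHom F (of F s)).unop) = MulOpposite.op (cj (φ (of F s)))
    rw [invHom, lift_of_apply, MulOpposite.unop_op]
    rcases s with i | i
    · rw [Sum.swap_inl, hφ]
    · rw [Sum.swap_inr, hφ, starId_cj_cj]
  have h1 := congrArg (fun g : FS F →ₙₐ[F] (CD F ν β γ)ᵐᵒᵖ => (g f).unop) h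
  exact h1

end

/-- the six identities hold in the octonion algebra -/
theorem SS_identity {F : Type*} [CommRing F] {ν β γ : F} {f : FS F} (hf : f ∈ SS F) :
    IsStarIdentity ν β γ f := by
  intro φ hφ
  refine CD.toOct_injective (F := F) ?_
  obtain ⟨ψ, hψ⟩ : ∃ ψ : FS F →ₙₐ[F] Oct F ν β γ, ψ = (CD.toOct F).comp φ := ⟨_, rfl⟩
  have e : CD.toOct F (φ f) = ψ f := by rw [hψ]; rfl
  rw [e, map_zero]
  have h1 : ∀ i, ψ (of F (Sum.inl i) + of F (Sum.inr i)) =
      Oct.tr (ψ (of F (Sum.inl i))) • Oct.e := by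
    intro i
    rw [map_add, hψ, NonUnitalAlgHom.comp_apply, NonUnitalAlgHom.comp_apply, hφ, starId_toOct_cj]
    abel
  have h2 : ∀ i, ψ (of F (Sum.inl i) * of F (Sum.inr i)) =
      Oct.nm (ψ (of F (Sum.inl i))) • Oct.e := by
    intro i
    rw [map_mul, hψ, NonUnitalAlgHom.comp_apply, NonUnitalAlgHom.comp_apply, hφ, starId_toOct_cj,
      mul_sub, Oct.mul_smul', Oct.mul_e, Oct.sq]
    abel
  simp only [SS, Set.mem_insert_iff, Set.mem_singleton_iff] at hf
  rcases hf with rfl | rfl | rfl | rfl | rfl | rfl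
  · rw [map_associator]; exact Oct.isAlt.left _ _
  · rw [map_associator]; exact Oct.isAlt.right _ _
  · rw [map_com, h1, Oct.com_smul_e]
  · rw [map_associator, h1, Oct.assoc_smul_e]
  · rw [map_com, h2, Oct.com_smul_e]
  · rw [map_associator, h2, Oct.assoc_smul_e]

/-- the star identities form a star T-ideal -/
theorem isStarTIdeal_identities {F : Type*} [CommRing F] (ν β γ : F) :
    IsStarTIdeal F { carrier := {f : FS F | IsStarIdentity ν β γ f}
                     zero_mem' := fun φ _ => map_zero φ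
                     add_mem' := fun {f g} hf hg φ h => by rw [map_add, hf φ h, hg φ h, add_zero]
                     smul_mem' := fun k f hf φ h => by rw [map_smul, hf φ h, smul_zero] } := by
  refine ⟨fun a f hf φ h => ?_, fun a f hf φ h => ?_, fun f hf φ h => ?_, fun v f hf φ h => ?_⟩
  · rw [map_mul, hf φ h, mul_zero]
  · rw [map_mul, hf φ h, zero_mul]
  · rw [starId_inv φ h, hf φ h, starId_cj_zero]
  · have h1 := hf (φ.comp (lift F (Sum.elim v (fun i => inv (v i))))) (fun i => by
      rw [NonUnitalAlgHom.comp_apply, NonUnitalAlgHom.comp_apply, lift_of_apply, lift_of_apply,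
        Sum.elim_inr, Sum.elim_inl, starId_inv φ h])
    exact h1

end Pool.Agent.Smt
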