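import Pool.Agent.Smt.Alg

/-!
# Algebras with involution with central traces and norms  (module Center)

`k` = the center of `P` (a commutative ring: elements commuting and associating with everything;
Mathlib `Subring.center`, or build it by hand), `t a = a + star a`, `n a = a * star a`.
`sq`: `a a - (a + ā) a + a ā = a ā - ā a = 0` since `a + ā` is central. `t_one`: `1 + star 1 = 2`.
`n_add`: `t(a) t(b) - t(ab) = (a + ā)(b + b̄) - ab - b̄ā = a b̄ + ā (b + b̄) - b̄ ā = a b̄ + b ā`.
`t_comm`: `[a, b] + [b̄, ā] = 0`, `ā = t(a) - a`. `t_assoc`: `(ab)c + c̄(b̄ā) - a(bc) - (c̄b̄)ā =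
(a,b,c) - (c̄,b̄,ā) = (a,b,c) + (c,b,a) = 0`.
-/

set_option autoImplicit false

namespace Pool.Agent.Smt

universe u

section CenterAux

variable (P : Type u) [NonAssocRing P] [StarRing P]

/-- The central elements fixed by the involution. -/
private def CenterK : Subring P where
  carrier := {c | c ∈ Set.center P ∧ star c = c}
  mul_mem' := by
    rintro a b ⟨ha, ha'⟩ ⟨hb, hb'⟩
    refine ⟨Set.mul_mem_center ha hb, ?_⟩
    rw [star_mul, ha', hb']
    exact ((Set.mem_center_iff.1 ha).comm b).eq.symm
  one_mem' := ⟨Set.one_mem_center, star_one P⟩
  add_mem' := by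
    rintro a b ⟨ha, ha'⟩ ⟨hb, hb'⟩
    exact ⟨Set.add_mem_center ha hb, by rw [star_add, ha', hb']⟩
  zero_mem' := ⟨Set.zero_mem_center, star_zero P⟩
  neg_mem' := by
    rintro a ⟨ha, ha'⟩
    exact ⟨Set.neg_mem_center ha, by rw [star_neg, ha']⟩

variable {P}

private theorem centerK_cen (c : CenterK P) : IsMulCentral (c : P) := Set.mem_center_iff.1 c.2.1

private theorem centerK_str (c : CenterK P) : star (c : P) = c := c.2.2

variable (P)

private instance centerKCommRing : CommRing (CenterK P) :=
  { (inferInstance : NonAssocRing (CenterK P)) with
    mul_assoc := fun a b c => Subtype.ext ((centerK_cen a).left_assoc (b : P) (c : P)).symm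
    mul_comm := fun a b => Subtype.ext ((centerK_cen a).comm (b : P)).eq }

private instance centerKModule : Module (CenterK P) P where
  smul c a := (c : P) * a
  one_smul _ := one_mul _
  mul_smul a b x := ((centerK_cen a).left_assoc (b : P) x).symm
  smul_zero _ := mul_zero _
  smul_add _ _ _ := mul_add _ _ _
  add_smul _ _ _ := add_mul _ _ _
  zero_smul _ := zero_mul _

private theorem centerK_smul (c : CenterK P) (a : P) : c • a = (c : P) * a := rfl

end CenterAux

theorem exists_qa_center (P : Type u) [NonAssocRing P] [StarRing P]
    (h1 : ∀ x y : P, (x * x) * y = x * (x * y)) (h2 : ∀ x y : P, (y * x) * x = y * (x * x))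
    (h3 : ∀ x : P, x + star x ∈ Set.center P) (h4 : ∀ x : P, x * star x ∈ Set.center P) :
    ∃ (k : Type u) (_ : CommRing k) (_ : Module k P) (_ : IsScalarTower k P P)
      (_ : SMulCommClass k P P) (Q : QA k P), (∀ a, Q.t a • (1 : P) = a + star a) ∧
      (∀ a, Q.n a • (1 : P) = a * star a) := by
  classical
  have cen : ∀ x : P, IsMulCentral (x + star x) := fun x => Set.mem_center_iff.1 (h3 x)
  -- associators
  have al : ∀ x y z : P, (x * y) * z - x * (y * z) = -((y * x) * z - y * (x * z)) := by
    intro x y z
    have e := h1 (x + y) z
    have e1 := h1 x z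
    have e2 := h1 y z
    simp only [mul_add, add_mul] at e
    rw [e1, e2] at e
    have e3 : x * y * z + y * x * z = x * (y * z) + y * (x * z) := by
      have := congrArg (fun w => w - x * (x * z) - y * (y * z)) e
      calc x * y * z + y * x * z = (x * (x * z) + y * x * z + (x * y * z + y * (y * z)))
            - x * (x * z) - y * (y * z) := by abel
        _ = _ := this
        _ = _ := by abel
    have : x * y * z = x * (y * z) + y * (x * z) - y * x * z := by rw [← e3]; abel
    rw [this]; abel
  have ar : ∀ x y z : P, (x * y) * z - x * (y * z) = -((x * z) * y - x * (z * y)) := by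
    intro x y z
    have e := h2 (y + z) x
    have e1 := h2 y x
    have e2 := h2 z x
    simp only [mul_add, add_mul] at e
    rw [e1, e2] at e
    have e3 : x * y * z + x * z * y = x * (y * z) + x * (z * y) := by
      have := congrArg (fun w => w - x * (y * y) - x * (z * z)) e
      calc x * y * z + x * z * y = (x * (y * y) + x * z * y + (x * y * z + x * (z * z)))
            - x * (y * y) - x * (z * z) := by abel
        _ = _ := this
        _ = _ := by abel
    have : x * y * z = x * (y * z) + x * (z * y) - x * z * y := by rw [← e3]; abel
    rw [this]; abel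
  -- `(x, y, z) = - (z, y, x)`
  have afl : ∀ x y z : P, (x * y) * z - x * (y * z) = -((z * y) * x - z * (y * x)) := by
    intro x y z
    rw [al x y z, ar y x z, al y z x, neg_neg]
  -- associators with conjugates
  have cs1 : ∀ x y z : P, (star x * y) * z - star x * (y * z) = -((x * y) * z - x * (y * z)) := by
    intro x y z
    have e : star x = (x + star x) - x := by abel
    rw [e]
    simp only [sub_mul]
    rw [(cen x).left_assoc y z]
    abel
  have cs2 : ∀ x y z : P, (x * star y) * z - x * (star y * z) = -((x * y) * z - x * (y * z)) := by
    intro x y z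
    rw [al x (star y) z, cs1 y x z, al x y z]
  have cs3 : ∀ x y z : P, (x * y) * star z - x * (y * star z) = -((x * y) * z - x * (y * z)) := by
    intro x y z
    rw [ar x y (star z), cs2 x z y, ar x y z]
  have hst : ∀ a : P, star (a + star a) = a + star a := by
    intro a; rw [star_add, star_star, add_comm]
  have hsn : ∀ a : P, star (a * star a) = a * star a := by
    intro a; rw [star_mul, star_star]
  let T : P → CenterK P := fun a => ⟨a + star a, h3 a, hst a⟩
  let N : P → CenterK P := fun a => ⟨a * star a, h4 a, hsn a⟩
  have hT : ∀ a, ((T a : CenterK P) : P) = a + star a := fun a => rfl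
  have hN : ∀ a, ((N a : CenterK P) : P) = a * star a := fun a => rfl
  refine ⟨CenterK P, centerKCommRing P, centerKModule P, ?_, ?_, ?_⟩
  · exact ⟨fun c a b => ((centerK_cen c).left_assoc a b).symm⟩
  · exact ⟨fun c a b => (centerK_cen c).left_comm a b⟩
  refine ⟨{
    t := {
      toFun := T
      map_add' := fun a b => Subtype.ext (by
        change a + b + star (a + b) = (a + star a) + (b + star b)
        rw [star_add]; abel)
      map_smul' := fun c a => Subtype.ext (by
        change (c : P) * a + star ((c : P) * a) = (c : P) * (a + star a)
        rw [star_mul, centerK_str c, mul_add, ← ((centerK_cen c).comm (star a)).eq]) }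
    n := N
    sq := ?_
    alt_left := h1
    alt_right := fun x y => h2 x y
    t_one := ?_
    n_add := ?_
    t_comm := ?_
    t_assoc := ?_ }, ?_, ?_⟩
  · intro x
    change x * x = (x + star x) * x - (x * star x) * 1
    have e := ((cen x).comm x).eq
    rw [mul_one, e, mul_add]
    abel
  · apply Subtype.ext
    change (1 : P) + star 1 = ((2 : CenterK P) : P)
    rw [star_one]
    have : (2 : CenterK P) = 1 + 1 := by norm_num
    rw [this]
    rfl
  · intro x y
    apply Subtype.ext
    change (x + y) * star (x + y) = x * star x + y * star y +
      ((x + star x) * (y + star y) - (x * y + star (x * y)))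
    have e := ((cen y).comm (star x)).eq
    rw [star_mul, star_add]
    rw [add_mul x (star x) (y + star y), ← e]
    simp only [mul_add, add_mul]
    abel
  · intro x y
    apply Subtype.ext
    change x * y + star (x * y) = y * x + star (y * x)
    rw [star_mul, star_mul]
    have ex : star x = (x + star x) - x := by abel
    have e1 := ((cen x).comm (star y)).eq
    have e2 := ((cen y).comm x).eq
    -- `x (y + ȳ) = (y + ȳ) x` and `(x + x̄) ȳ = ȳ (x + x̄)`
    simp only [mul_add, add_mul] at e1 e2
    have e3 : star x * star y = star y * x + star y * star x - x * star y := by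
      rw [← e1]; abel
    have e4 : x * star y = y * x + star y * x - x * y := by
      rw [e2]; abel
    rw [e3, e4]
    abel
  · intro x y z
    apply Subtype.ext
    change (x * y) * z + star ((x * y) * z) = x * (y * z) + star (x * (y * z))
    rw [star_mul, star_mul, star_mul, star_mul]
    have e1 := afl x y z
    have e2 : (star z * star y) * star x - star z * (star y * star x)
        = -((z * y) * x - z * (y * x)) := by
      rw [cs1, cs2, cs3, neg_neg]
    have e3 : (star z * star y) * star x = star z * (star y * star x)
        + ((x * y) * z - x * (y * z)) := by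
      rw [e1, ← e2]; abel
    rw [e3]; abel
  · intro a
    change (a + star a) * 1 = a + star a
    rw [mul_one]
  · intro a
    change (a * star a) * 1 = a * star a
    rw [mul_one]

end Pool.Agent.Smt
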