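import Pool.Agent.Smt.Basic

/-!
# Typed arcs of a concatenation  (module Arcs)
-/

set_option autoImplicit false
set_option linter.unusedSectionVars false

namespace Pool.Agent.Smt

/-- position of the opener at the last letter of `P` -/
def al (P : List ℤ) : ℤ := if P.length ≤ 1 then 4 * la P + 3 else 4 * la P + 1

/-- arcs inside `P` when `P` is continued and its first letter has been entered -/
def aLR : List ℤ → Multiset (ℤ × ℤ)
  | [] => 0
  | [_] => 0
  | i :: j :: l => (4 * i + 1, 4 * j + 2) ::ₘ aLR (j :: l)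

/-- arcs inside `P` when `P` is continued to the right -/
def aL : List ℤ → Multiset (ℤ × ℤ)
  | [] => 0
  | [_] => 0
  | i :: j :: l => (4 * i + 3, 4 * j + 2) ::ₘ aLR (j :: l)

private theorem Arcs_colE_cons {Q : List ℤ} (j : ℤ) (hQ : Q ≠ []) : colE (j :: Q) = 4 * j + 2 := by
  unfold colE
  cases Q with
  | nil => exact absurd rfl hQ
  | cons a l => simp

private theorem Arcs_colE_single (j : ℤ) : colE [j] = 4 * j := by
  simp [colE]

private theorem Arcs_arcsR_cons (i : ℤ) {Q : List ℤ} (hQ : Q ≠ []) :
    arcsR (i :: Q) = (4 * i + 1, colE Q) ::ₘ arcsR Q := by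
  cases Q with
  | nil => exact absurd rfl hQ
  | cons a l => rfl

private theorem Arcs_arcs_cons (i : ℤ) {Q : List ℤ} (hQ : Q ≠ []) :
    arcs (i :: Q) = (4 * i + 3, colE Q) ::ₘ arcsR Q := by
  cases Q with
  | nil => exact absurd rfl hQ
  | cons a l => rfl

private theorem Arcs_R_append {P Q : List ℤ} (hP : P ≠ []) (hQ : Q ≠ []) :
    arcsR (P ++ Q) = aLR P + {(4 * la P + 1, colE Q)} + arcsR Q := by
  induction P with
  | nil => exact absurd rfl hP
  | cons i P ih =>
    by_cases h : P = []
    · subst h
      rw [List.singleton_append, Arcs_arcsR_cons i hQ, la_single, aLR, zero_add,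
        Multiset.singleton_add]
    · have h1 : P ++ Q ≠ [] := by simp [h]
      rw [List.cons_append, Arcs_arcsR_cons i h1, ih h, la_cons i h]
      cases P with
      | nil => exact absurd rfl h
      | cons j P' =>
        rw [aLR, List.cons_append, Arcs_colE_cons j (by simp [hQ]), Multiset.cons_add,
          Multiset.cons_add]

private theorem Arcs_al_cons (i : ℤ) {P : List ℤ} (h : P ≠ []) : al (i :: P) = 4 * la P + 1 := by
  unfold al
  cases P with
  | nil => exact absurd rfl h
  | cons j P' =>
    rw [if_neg (by simp), la_cons i h]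

private theorem Arcs_al_single (i : ℤ) : al [i] = 4 * i + 3 := by
  simp [al]

theorem arcs_append {P Q : List ℤ} (hP : P ≠ []) (hQ : Q ≠ []) :
    arcs (P ++ Q) = aL P + {(al P, colE Q)} + arcsR Q := by
  cases P with
  | nil => exact absurd rfl hP
  | cons i P =>
    by_cases h : P = []
    · subst h
      rw [List.singleton_append, Arcs_arcs_cons i hQ, Arcs_al_single, aL, zero_add,
        Multiset.singleton_add]
    · have h1 : P ++ Q ≠ [] := by simp [h]
      rw [List.cons_append, Arcs_arcs_cons i h1, Arcs_R_append h hQ, Arcs_al_cons i h]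
      cases P with
      | nil => exact absurd rfl h
      | cons j P' =>
        rw [aL, List.cons_append, Arcs_colE_cons j (by simp [hQ]), Multiset.cons_add,
          Multiset.cons_add]

theorem tau_append {P Q : List ℤ} (hP : P ≠ []) (hQ : Q ≠ []) :
    tau (P ++ Q) = (P.length - 1) + (Q.length - 1) := by
  have h1 := List.length_pos_iff.2 hP
  have h2 := List.length_pos_iff.2 hQ
  unfold tau
  rw [List.length_append, if_neg (by omega)]
  omega

/-- the arcs of `P ++ i :: Q` in terms of `P`, `i`, `Q` -/
theorem arcs_middle {P Q : List ℤ} (i : ℤ) (hP : P ≠ []) (hQ : Q ≠ []) :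
    arcs (P ++ i :: Q) = aL P + {(al P, 4 * i + 2)} + {(4 * i + 1, colE Q)} + arcsR Q := by
  rw [arcs_append hP (by simp), Arcs_colE_cons i hQ, Arcs_arcsR_cons i hQ,
    ← Multiset.singleton_add, ← add_assoc]

theorem arcs_last {P : List ℤ} (i : ℤ) (hP : P ≠ []) :
    arcs (P ++ [i]) = aL P + {(al P, 4 * i)} := by
  rw [arcs_append hP (by simp), Arcs_colE_single, arcsR, add_zero]

theorem arcs_first {Q : List ℤ} (i : ℤ) (hQ : Q ≠ []) :
    arcs (i :: Q) = {(4 * i + 3, colE Q)} + arcsR Q := by
  rw [Arcs_arcs_cons i hQ, Multiset.singleton_add]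

private theorem Arcs_mem_R {l : List ℤ} {e : ℤ × ℤ} (h : e ∈ arcsR l) :
    ∃ P Q, P ≠ [] ∧ Q ≠ [] ∧ l = P ++ Q ∧ e = (4 * la P + 1, colE Q) := by
  induction l with
  | nil => simp [arcsR] at h
  | cons i l ih =>
    by_cases hl : l = []
    · subst hl
      simp [arcsR] at h
    · rw [Arcs_arcsR_cons i hl, Multiset.mem_cons] at h
      rcases h with h | h
      · exact ⟨[i], l, by simp, hl, rfl, by rw [h, la_single]⟩
      · obtain ⟨P, Q, h1, h2, h3, h4⟩ := ih h
        exact ⟨i :: P, Q, by simp, h2, by rw [h3]; rfl, by rw [h4, la_cons i h1]⟩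

/-- an arc splits the block -/
theorem mem_arcs {l : List ℤ} {e : ℤ × ℤ} (h : e ∈ arcs l) :
    (∃ i, l = [i] ∧ e = (4 * i + 1, 4 * i + 2)) ∨
      ∃ P Q, P ≠ [] ∧ Q ≠ [] ∧ l = P ++ Q ∧ e = (al P, colE Q) := by
  cases l with
  | nil => simp [arcs] at h
  | cons i l =>
    by_cases hl : l = []
    · subst hl
      left
      exact ⟨i, rfl, by simpa [arcs] using h⟩
    · right
      rw [Arcs_arcs_cons i hl, Multiset.mem_cons] at h
      rcases h with h | h
      · exact ⟨[i], l, by simp, hl, rfl, by rw [h, Arcs_al_single]⟩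
      · obtain ⟨P, Q, h1, h2, h3, h4⟩ := Arcs_mem_R h
        exact ⟨i :: P, Q, by simp, h2, by rw [h3]; rfl, by rw [h4, Arcs_al_cons i h1]⟩

private theorem Arcs_al_le (P : List ℤ) : al P ≤ 4 * la P + 3 := by
  unfold al
  split_ifs <;> omega

private theorem Arcs_le_al (P : List ℤ) : 4 * la P + 1 ≤ al P := by
  unfold al
  split_ifs <;> omega

private theorem Arcs_colE_le (Q : List ℤ) : colE Q ≤ 4 * hd Q + 2 := by
  unfold colE
  split_ifs <;> omega

private theorem Arcs_le_colE (Q : List ℤ) : 4 * hd Q ≤ colE Q := by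
  unfold colE
  split_ifs <;> omega

/-- arcs of one block are not nested -/
theorem arcs_mono {l : List ℤ} (hl : Inc l) {e e' : ℤ × ℤ} (h : e ∈ arcs l) (h' : e' ∈ arcs l)
    (hlt : e.1 < e'.1) : e.2 ≤ e'.2 := by
  rcases mem_arcs h with ⟨i, h1, h2⟩ | ⟨P, Q, hP, hQ, h1, h2⟩
  · rcases mem_arcs h' with ⟨j, h3, h4⟩ | ⟨P', Q', hP', hQ', h3, h4⟩
    · rw [h1] at h3
      have : i = j := by simpa using h3
      subst this
      rw [h2, h4] at hlt
      exact absurd hlt (lt_irrefl _)
    · exfalso
      rw [h1] at h3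
      have h5 := congrArg List.length h3
      rw [List.length_append, List.length_singleton] at h5
      have h6 := List.length_pos_iff.2 hP'
      have h7 := List.length_pos_iff.2 hQ'
      omega
  · rcases mem_arcs h' with ⟨j, h3, h4⟩ | ⟨P', Q', hP', hQ', h3, h4⟩
    · exfalso
      rw [h1] at h3
      have h5 := congrArg List.length h3
      rw [List.length_append, List.length_singleton] at h5
      have h6 := List.length_pos_iff.2 hP
      have h7 := List.length_pos_iff.2 hQ
      omega
    · rw [h2, h4] at hlt ⊢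
      simp only at hlt ⊢
      have h5 : P ++ Q = P' ++ Q' := by rw [← h1, h3]
      have hinc : Inc (P ++ Q) := by rw [← h1]; exact hl
      have hinc' : Inc (P' ++ Q') := by rw [← h3]; exact hl
      rcases List.append_eq_append_iff.1 h5 with ⟨R, h6, h7⟩ | ⟨R, h6, h7⟩
      · -- `P' = P ++ R`, `Q = R ++ Q'`
        by_cases hR : R = []
        · subst hR
          rw [List.append_nil] at h6
          rw [List.nil_append] at h7
          rw [h6] at hlt
          exact absurd hlt (lt_irrefl _)
        · have h8 : hd Q = hd R := by rw [h7, hd_append hR]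
          have h9 : hd R < hd Q' := by
            have := (inc_append.1 hinc').2.2 (hd R) (by
              rw [h6]
              exact List.mem_append.2 (Or.inr (hd_mem hR))) (hd Q') (hd_mem hQ')
            exact this
          have h10 := Arcs_colE_le Q
          have h11 := Arcs_le_colE Q'
          omega
      · -- `P = P' ++ R`, `Q' = R ++ Q`
        by_cases hR : R = []
        · subst hR
          rw [List.append_nil] at h6
          rw [h6] at hlt
          exact absurd hlt (lt_irrefl _)
        · exfalso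
          have h8 : la P = la R := by rw [h6, la_append hR]
          have h9 : la P' < la R := by
            have h10 : Inc (P' ++ R) := by
              rw [← h6]
              exact (inc_append.1 hinc).1
            exact (inc_append.1 h10).2.2 _ (la_mem hP') _ (la_mem hR)
          have h10 := Arcs_al_le P'
          have h11 := Arcs_le_al P
          omega

theorem arcs_lt {l : List ℤ} (hl : Inc l) {e : ℤ × ℤ} (h : e ∈ arcs l) : e.1 < e.2 := by
  rcases mem_arcs h with ⟨i, h1, h2⟩ | ⟨P, Q, hP, hQ, h1, h2⟩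
  · rw [h2]
    simp only
    omega
  · rw [h2]
    simp only
    rw [h1] at hl
    have h3 := (inc_append.1 hl).2.2 _ (la_mem hP) _ (hd_mem hQ)
    have h4 := Arcs_al_le P
    have h5 := Arcs_le_colE Q
    omega

/-! ### content, span and number of middle letters from the arcs -/

private def Arcs_g (c : Multiset (ℤ × ℤ)) : Multiset ℤ :=
  c.map (fun e => e.1 / 4) + (c.filter (fun e => e.2 % 4 = 0)).map (fun e => e.2 / 4)

private theorem Arcs_g_add (c c' : Multiset (ℤ × ℤ)) : Arcs_g (c + c') = Arcs_g c + Arcs_g c' := by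
  unfold Arcs_g
  rw [Multiset.map_add, Multiset.filter_add, Multiset.map_add]
  abel

private theorem Arcs_g_zero : Arcs_g 0 = 0 := by simp [Arcs_g]

private theorem Arcs_g_cons (e : ℤ × ℤ) (c : Multiset (ℤ × ℤ)) :
    Arcs_g (e ::ₘ c) = Arcs_g {e} + Arcs_g c := by
  rw [← Multiset.singleton_add, Arcs_g_add]

private theorem Arcs_g_R (i : ℤ) (l : List ℤ) :
    Arcs_g (arcsR (i :: l)) = if l = [] then 0 else ((i :: l : List ℤ) : Multiset ℤ) := by
  induction l generalizing i with
  | nil => simp [arcsR, Arcs_g_zero]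
  | cons j l ih =>
    rw [if_neg (by simp), Arcs_arcsR_cons i (by simp), Arcs_g_cons, ih j]
    have h1 : (4 * i + 1) / 4 = i := by omega
    by_cases hl : l = []
    · subst hl
      have h2 : (4 * j) % 4 = 0 := by omega
      have h3 : (4 * j) / 4 = j := by omega
      rw [if_pos rfl, Arcs_colE_single]
      simp only [Arcs_g, Multiset.map_singleton, Multiset.filter_singleton, h1, h2, if_true, h3]
      rfl
    · have h2 : ¬ (4 * j + 2) % 4 = 0 := by omega
      rw [if_neg hl, Arcs_colE_cons j hl]
      simp only [Arcs_g, Multiset.map_singleton, Multiset.filter_singleton, h1, h2, if_false]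
      rfl

private theorem Arcs_g_arcs {l : List ℤ} (h : l ≠ []) : Arcs_g (arcs l) = (l : Multiset ℤ) := by
  cases l with
  | nil => exact absurd rfl h
  | cons i l =>
    cases l with
    | nil =>
      have h1 : (4 * i + 1) / 4 = i := by omega
      have h2 : ¬ (4 * i + 2) % 4 = 0 := by omega
      simp only [arcs, Arcs_g, Multiset.map_singleton, Multiset.filter_singleton, h1, h2, if_false]
      rfl
    | cons j l =>
      rw [Arcs_arcs_cons i (by simp), Arcs_g_cons, Arcs_g_R]
      have h1 : (4 * i + 3) / 4 = i := by omega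
      by_cases hl : l = []
      · subst hl
        have h2 : (4 * j) % 4 = 0 := by omega
        have h3 : (4 * j) / 4 = j := by omega
        rw [if_pos rfl, Arcs_colE_single]
        simp only [Arcs_g, Multiset.map_singleton, Multiset.filter_singleton, h1, h2, if_true, h3]
        rfl
      · have h2 : ¬ (4 * j + 2) % 4 = 0 := by omega
        rw [if_neg hl, Arcs_colE_cons j hl]
        simp only [Arcs_g, Multiset.map_singleton, Multiset.filter_singleton, h1, h2, if_false]
        rfl

private theorem Arcs_sum_map {β : Type*} [AddCommMonoid β] (g : Multiset (ℤ × ℤ) → β)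
    (h0 : g 0 = 0) (hadd : ∀ c c', g (c + c') = g c + g c') (b : Multiset (List ℤ)) :
    g ((b.map arcs).sum) = (b.map (fun l => g (arcs l))).sum := by
  induction b using Multiset.induction with
  | empty => simpa using h0
  | cons l b ih => rw [Multiset.map_cons, Multiset.sum_cons, hadd, ih, Multiset.map_cons,
      Multiset.sum_cons]

/-- the typed arcs and the norms determine the content -/
theorem ct_eq_of_cf {D D' : Dg} (hD : D.Ok) (hD' : D'.Ok) (h : D.cf = D'.cf) (hm : D.m = D'.m) :
    D.ct = D'.ct := by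
  have key : ∀ E : Dg, E.Ok → E.ct = Arcs_g E.cf + (E.m + E.m) := by
    intro E hE
    unfold Dg.ct Dg.cf
    rw [Arcs_sum_map Arcs_g Arcs_g_zero Arcs_g_add]
    congr 2
    exact Multiset.map_congr rfl fun l hl => (Arcs_g_arcs (hE l hl).1).symm
  rw [key D hD, key D' hD', h, hm]

private def Arcs_w (c : Multiset (ℤ × ℤ)) : ℤ := (c.map (fun e => e.2 / 4 - e.1 / 4)).sum

private theorem Arcs_w_add (c c' : Multiset (ℤ × ℤ)) : Arcs_w (c + c') = Arcs_w c + Arcs_w c' := by
  simp [Arcs_w, Multiset.map_add, Multiset.sum_add]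

private theorem Arcs_w_cons (e : ℤ × ℤ) (c : Multiset (ℤ × ℤ)) :
    Arcs_w (e ::ₘ c) = (e.2 / 4 - e.1 / 4) + Arcs_w c := by
  simp [Arcs_w]

private theorem Arcs_colE_div {Q : List ℤ} : colE Q / 4 = hd Q := by
  unfold colE
  split_ifs <;> omega

private theorem Arcs_w_R (i : ℤ) (l : List ℤ) :
    Arcs_w (arcsR (i :: l)) = la (i :: l) - i := by
  induction l generalizing i with
  | nil => simp [arcsR, Arcs_w]
  | cons j l ih =>
    rw [Arcs_arcsR_cons i (by simp), Arcs_w_cons, ih j, la_cons i (by simp), Arcs_colE_div, hd_cons]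
    have h1 : (4 * i + 1) / 4 = i := by omega
    simp only [h1]
    ring

private theorem Arcs_w_arcs {l : List ℤ} (h : l ≠ []) : Arcs_w (arcs l) = la l - hd l := by
  cases l with
  | nil => exact absurd rfl h
  | cons i l =>
    cases l with
    | nil =>
      have h1 : (4 * i + 1) / 4 = i := by omega
      have h2 : (4 * i + 2) / 4 = i := by omega
      simp [arcs, Arcs_w, h1, h2]
    | cons j l =>
      rw [Arcs_arcs_cons i (by simp), Arcs_w_cons, Arcs_w_R, la_cons i (by simp), Arcs_colE_div,
        hd_cons, hd_cons]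
      have h1 : (4 * i + 3) / 4 = i := by omega
      simp only [h1]
      ring

theorem wt_eq_of_cf {D D' : Dg} (hD : D.Ok) (hD' : D'.Ok) (h : D.cf = D'.cf) : D.wt = D'.wt := by
  have key : ∀ E : Dg, E.Ok → E.wt = Arcs_w E.cf := by
    intro E hE
    unfold Dg.wt Dg.cf
    rw [Arcs_sum_map Arcs_w (by simp [Arcs_w]) Arcs_w_add]
    congr 1
    exact Multiset.map_congr rfl fun l hl => (Arcs_w_arcs (hE l hl).1).symm
  rw [key D hD, key D' hD', h]

private def Arcs_t (c : Multiset (ℤ × ℤ)) : ℕ :=
  (c.map (fun e => if e.1 % 4 = 1 then 1 else 0)).sum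

private theorem Arcs_t_cons (e : ℤ × ℤ) (c : Multiset (ℤ × ℤ)) :
    Arcs_t (e ::ₘ c) = (if e.1 % 4 = 1 then 1 else 0) + Arcs_t c := by
  simp [Arcs_t]

private theorem Arcs_t_R (i : ℤ) (l : List ℤ) : Arcs_t (arcsR (i :: l)) = l.length := by
  induction l generalizing i with
  | nil => simp [arcsR, Arcs_t]
  | cons j l ih =>
    rw [Arcs_arcsR_cons i (by simp), Arcs_t_cons, if_pos (by simp only; omega), ih j,
      List.length_cons, add_comm]

private theorem Arcs_t_arcs {l : List ℤ} (h : l ≠ []) : Arcs_t (arcs l) = tau l := by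
  cases l with
  | nil => exact absurd rfl h
  | cons i l =>
    cases l with
    | nil =>
      have h1 : (4 * i + 1) % 4 = 1 := by omega
      simp [arcs, Arcs_t, tau, h1]
    | cons j l =>
      rw [Arcs_arcs_cons i (by simp), Arcs_t_cons, if_neg (by simp only; omega), Arcs_t_R]
      simp [tau]

theorem ta_eq_of_cf {D D' : Dg} (hD : D.Ok) (hD' : D'.Ok) (h : D.cf = D'.cf) : D.ta = D'.ta := by
  have key : ∀ E : Dg, E.Ok → E.ta = Arcs_t E.cf := by
    intro E hE
    unfold Dg.ta Dg.cf
    rw [Arcs_sum_map Arcs_t (by simp [Arcs_t]) (fun c c' => by simp [Arcs_t, Multiset.map_add, Multiset.sum_add])]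
    congr 1
    exact Multiset.map_congr rfl fun l hl => (Arcs_t_arcs (hE l hl).1).symm
  rw [key D hD, key D' hD', h]

private theorem Arcs_card_R (i : ℤ) (l : List ℤ) :
    Multiset.card (arcsR (i :: l)) = l.length := by
  induction l generalizing i with
  | nil => simp [arcsR]
  | cons j l ih =>
    rw [Arcs_arcsR_cons i (by simp), Multiset.card_cons, ih j, List.length_cons]

private theorem Arcs_card_arcs (l : List ℤ) : Multiset.card (arcs l) ≤ l.length := by
  cases l with
  | nil => simp [arcs]
  | cons i l =>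
    cases l with
    | nil => simp [arcs]
    | cons j l =>
      rw [Arcs_arcs_cons i (by simp), Multiset.card_cons, Arcs_card_R, List.length_cons,
        List.length_cons]
      omega

/-- all positions are between `4 m` and `4 M + 3` if all letters are between `m` and `M`; the number
of arcs is at most the number of letters -/
theorem card_cf_le {D : Dg} (hD : D.Ok) : Multiset.card D.cf ≤ Multiset.card D.ct := by
  unfold Dg.cf Dg.ct
  rw [Multiset.card_add]
  have h1 : ∀ b : Multiset (List ℤ), Multiset.card (b.map arcs).sum ≤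
      Multiset.card (b.map (fun l : List ℤ => (Multiset.ofList l : Multiset ℤ))).sum := by
    intro b
    induction b using Multiset.induction with
    | empty => simp
    | cons l b ih =>
      rw [Multiset.map_cons, Multiset.sum_cons, Multiset.card_add, Multiset.map_cons,
        Multiset.sum_cons, Multiset.card_add]
      have := Arcs_card_arcs l
      have h2 : Multiset.card (Multiset.ofList l) = l.length := rfl
      omega
  have := h1 D.b
  omega

private theorem Arcs_mem_ct {D : Dg} {l : List ℤ} (hl : l ∈ D.b) {i : ℤ} (hi : i ∈ l) :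
    i ∈ D.ct := by
  unfold Dg.ct
  refine Multiset.mem_add.2 (Or.inl ?_)
  exact Multiset.mem_join.2 ⟨Multiset.ofList l, Multiset.mem_map.2 ⟨l, hl, rfl⟩, Multiset.mem_coe.2 hi⟩

theorem cf_bound {D : Dg} (hD : D.Ok) {m M : ℤ} (h : ∀ i ∈ D.ct, m ≤ i ∧ i ≤ M) {e : ℤ × ℤ}
    (he : e ∈ D.cf) : 4 * m ≤ e.1 ∧ e.1 ≤ 4 * M + 3 ∧ 4 * m ≤ e.2 ∧ e.2 ≤ 4 * M + 3 := by
  unfold Dg.cf at he
  obtain ⟨c, hc, hec⟩ := Multiset.mem_join.1 he
  obtain ⟨l, hl, rfl⟩ := Multiset.mem_map.1 hc
  rcases mem_arcs hec with ⟨i, h1, h2⟩ | ⟨P, Q, hP, hQ, h1, h2⟩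
  · have h3 := h i (Arcs_mem_ct hl (by rw [h1]; simp))
    rw [h2]
    simp only
    omega
  · have h3 := h (la P) (Arcs_mem_ct hl (by
      rw [h1]
      exact List.mem_append.2 (Or.inl (la_mem hP))))
    have h4 := h (hd Q) (Arcs_mem_ct hl (by
      rw [h1]
      exact List.mem_append.2 (Or.inr (hd_mem hQ))))
    have h5 := Arcs_al_le P
    have h6 := Arcs_le_al P
    have h7 := Arcs_colE_le Q
    have h8 := Arcs_le_colE Q
    rw [h2]
    simp only
    omega

end Pool.Agent.Smt
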