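import Pool.Agent.Smt.Defs

/-!
# The split octonions `M₂ + M₂ v` over a commutative ring, and the special point

`(M + α v) (N + β v) = M N + adj(β) α + (β M + α adj(N)) v`. The rows of `α` are `(a₁, a₂)` and
`(c₁, c₂)`.
-/

set_option autoImplicit false
set_option linter.unusedSectionVars false

namespace Pool.Agent.Smt

/-- split octonions -/
@[ext] structure Oc (R : Type*) where
  (m₁ m₂ m₃ m₄ a₁ a₂ c₁ c₂ : R)

namespace Oc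

variable {R : Type*} [CommRing R]

instance : Zero (Oc R) := ⟨⟨0, 0, 0, 0, 0, 0, 0, 0⟩⟩
instance : One (Oc R) := ⟨⟨1, 0, 0, 1, 0, 0, 0, 0⟩⟩
instance : Add (Oc R) := ⟨fun x y => ⟨x.m₁ + y.m₁, x.m₂ + y.m₂, x.m₃ + y.m₃, x.m₄ + y.m₄,
  x.a₁ + y.a₁, x.a₂ + y.a₂, x.c₁ + y.c₁, x.c₂ + y.c₂⟩⟩
instance : Neg (Oc R) := ⟨fun x => ⟨-x.m₁, -x.m₂, -x.m₃, -x.m₄, -x.a₁, -x.a₂, -x.c₁, -x.c₂⟩⟩
instance : Sub (Oc R) := ⟨fun x y => ⟨x.m₁ - y.m₁, x.m₂ - y.m₂, x.m₃ - y.m₃, x.m₄ - y.m₄,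
  x.a₁ - y.a₁, x.a₂ - y.a₂, x.c₁ - y.c₁, x.c₂ - y.c₂⟩⟩
instance {S : Type*} [SMul S R] : SMul S (Oc R) := ⟨fun r x => ⟨r • x.m₁, r • x.m₂, r • x.m₃,
  r • x.m₄, r • x.a₁, r • x.a₂, r • x.c₁, r • x.c₂⟩⟩
instance : Mul (Oc R) := ⟨fun x y => ⟨
  x.m₁ * y.m₁ + x.m₂ * y.m₃ + (y.c₂ * x.a₁ - y.a₂ * x.c₁),
  x.m₁ * y.m₂ + x.m₂ * y.m₄ + (y.c₂ * x.a₂ - y.a₂ * x.c₂),
  x.m₃ * y.m₁ + x.m₄ * y.m₃ + (-y.c₁ * x.a₁ + y.a₁ * x.c₁),
  x.m₃ * y.m₂ + x.m₄ * y.m₄ + (-y.c₁ * x.a₂ + y.a₁ * x.c₂),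
  y.a₁ * x.m₁ + y.a₂ * x.m₃ + (x.a₁ * y.m₄ - x.a₂ * y.m₃),
  y.a₁ * x.m₂ + y.a₂ * x.m₄ + (-x.a₁ * y.m₂ + x.a₂ * y.m₁),
  y.c₁ * x.m₁ + y.c₂ * x.m₃ + (x.c₁ * y.m₄ - x.c₂ * y.m₃),
  y.c₁ * x.m₂ + y.c₂ * x.m₄ + (-x.c₁ * y.m₂ + x.c₂ * y.m₁)⟩⟩

@[simp] theorem zero_def : (0 : Oc R) = ⟨0, 0, 0, 0, 0, 0, 0, 0⟩ := rfl
@[simp] theorem one_def : (1 : Oc R) = ⟨1, 0, 0, 1, 0, 0, 0, 0⟩ := rfl
@[simp] theorem add_def (x y : Oc R) : x + y = ⟨x.m₁ + y.m₁, x.m₂ + y.m₂, x.m₃ + y.m₃, x.m₄ + y.m₄,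
  x.a₁ + y.a₁, x.a₂ + y.a₂, x.c₁ + y.c₁, x.c₂ + y.c₂⟩ := rfl
@[simp] theorem neg_def (x : Oc R) :
  -x = ⟨-x.m₁, -x.m₂, -x.m₃, -x.m₄, -x.a₁, -x.a₂, -x.c₁, -x.c₂⟩ := rfl
@[simp] theorem sub_def (x y : Oc R) : x - y = ⟨x.m₁ - y.m₁, x.m₂ - y.m₂, x.m₃ - y.m₃, x.m₄ - y.m₄,
  x.a₁ - y.a₁, x.a₂ - y.a₂, x.c₁ - y.c₁, x.c₂ - y.c₂⟩ := rfl
@[simp] theorem smul_def {S : Type*} [SMul S R] (r : S) (x : Oc R) : r • x = ⟨r • x.m₁, r • x.m₂,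
  r • x.m₃, r • x.m₄, r • x.a₁, r • x.a₂, r • x.c₁, r • x.c₂⟩ := rfl
@[simp] theorem mul_def (x y : Oc R) : x * y = ⟨
  x.m₁ * y.m₁ + x.m₂ * y.m₃ + (y.c₂ * x.a₁ - y.a₂ * x.c₁),
  x.m₁ * y.m₂ + x.m₂ * y.m₄ + (y.c₂ * x.a₂ - y.a₂ * x.c₂),
  x.m₃ * y.m₁ + x.m₄ * y.m₃ + (-y.c₁ * x.a₁ + y.a₁ * x.c₁),
  x.m₃ * y.m₂ + x.m₄ * y.m₄ + (-y.c₁ * x.a₂ + y.a₁ * x.c₂),
  y.a₁ * x.m₁ + y.a₂ * x.m₃ + (x.a₁ * y.m₄ - x.a₂ * y.m₃),
  y.a₁ * x.m₂ + y.a₂ * x.m₄ + (-x.a₁ * y.m₂ + x.a₂ * y.m₁),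
  y.c₁ * x.m₁ + y.c₂ * x.m₃ + (x.c₁ * y.m₄ - x.c₂ * y.m₃),
  y.c₁ * x.m₂ + y.c₂ * x.m₄ + (-x.c₁ * y.m₂ + x.c₂ * y.m₁)⟩ := rfl

instance : AddCommGroup (Oc R) where
  add_assoc x y z := by ext <;> simp <;> ring
  zero_add x := by ext <;> simp
  add_zero x := by ext <;> simp
  add_comm x y := by ext <;> simp <;> ring
  neg_add_cancel x := by ext <;> simp
  sub_eq_add_neg x y := by ext <;> simp <;> ring
  nsmul := fun n x => ⟨n • x.m₁, n • x.m₂, n • x.m₃, n • x.m₄, n • x.a₁, n • x.a₂, n • x.c₁,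
    n • x.c₂⟩
  nsmul_zero x := by ext <;> simp
  nsmul_succ n x := by ext <;> simp <;> ring
  zsmul := fun n x => ⟨n • x.m₁, n • x.m₂, n • x.m₃, n • x.m₄, n • x.a₁, n • x.a₂, n • x.c₁,
    n • x.c₂⟩
  zsmul_zero' x := by ext <;> simp
  zsmul_succ' n x := by ext <;> simp <;> ring
  zsmul_neg' n x := by ext <;> simp [Int.negSucc_eq] <;> ring

instance : NonAssocRing (Oc R) where
  left_distrib x y z := by ext <;> simp <;> ring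
  right_distrib x y z := by ext <;> simp <;> ring
  zero_mul x := by ext <;> simp
  mul_zero x := by ext <;> simp
  one_mul x := by ext <;> simp
  mul_one x := by ext <;> simp

instance {S : Type*} [Semiring S] [Module S R] : Module S (Oc R) where
  one_smul x := by ext <;> simp
  mul_smul r s x := by ext <;> simp [mul_smul]
  smul_zero r := by ext <;> simp
  smul_add r x y := by ext <;> simp
  add_smul r s x := by ext <;> simp [add_smul]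
  zero_smul x := by ext <;> simp

instance {S : Type*} [Semiring S] [Module S R] [IsScalarTower S R R] [SMulCommClass S R R] :
    IsScalarTower S (Oc R) (Oc R) where
  smul_assoc r x y := by
    show (r • x) * y = r • (x * y)
    ext <;> simp [smul_add, smul_sub, smul_mul_assoc, mul_smul_comm]

instance {S : Type*} [Semiring S] [Module S R] [IsScalarTower S R R] [SMulCommClass S R R] :
    SMulCommClass S (Oc R) (Oc R) where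
  smul_comm r x y := by
    show r • (x * y) = x * (r • y)
    ext <;> simp [smul_add, smul_sub, smul_mul_assoc, mul_smul_comm]

/-- the involution -/
instance : Star (Oc R) := ⟨fun x => ⟨x.m₄, -x.m₂, -x.m₃, x.m₁, -x.a₁, -x.a₂, -x.c₁, -x.c₂⟩⟩

@[simp] theorem star_def' (x : Oc R) :
    star x = ⟨x.m₄, -x.m₂, -x.m₃, x.m₁, -x.a₁, -x.a₂, -x.c₁, -x.c₂⟩ := rfl

instance : StarRing (Oc R) where
  star_involutive x := by ext <;> simp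
  star_mul x y := by ext <;> simp <;> ring
  star_add x y := by ext <;> simp <;> ring

/-- the trace and the norm -/
def qa (R : Type*) [CommRing R] : QA R (Oc R) where
  t := { toFun := fun x => x.m₁ + x.m₄
         map_add' := fun x y => by simp; ring
         map_smul' := fun r x => by simp; ring }
  n x := x.m₁ * x.m₄ - x.m₂ * x.m₃ - (x.a₁ * x.c₂ - x.a₂ * x.c₁)
  sq x := by ext <;> simp <;> ring
  alt_left x y := by ext <;> simp <;> ring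
  alt_right x y := by ext <;> simp <;> ring
  t_one := by simp; norm_num
  n_add x y := by simp; ring
  t_comm x y := by simp; ring
  t_assoc x y z := by simp; ring

end Oc

open Polynomial in
/-- The special point: at the letter `i < M` with `w = 3 (M - i)`,
`m = X^w [[-y'h', -g'h'], [y'x', g'x']] + X^(w-1) ν E₂₁`,
`α = [[X^(2w-2) x, X^(2w-2) h], [y, g]]`. -/
noncomputable def xi (F : Type*) [CommRing F] (M i : ℤ) :
    Oc (Polynomial (MvPolynomial (ℤ × Fin 9) F)) :=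
  let w : ℕ := (3 * (M - i)).toNat
  let v : Fin 9 → MvPolynomial (ℤ × Fin 9) F := fun j => MvPolynomial.X (i, j)
  -- v 0 = x, v 1 = h, v 2 = g, v 3 = y, v 4 = x', v 5 = h', v 6 = g', v 7 = y', v 8 = ν
  ⟨X ^ w * C (-(v 7 * v 5)), X ^ w * C (-(v 6 * v 5)),
    X ^ w * C (v 7 * v 4) + X ^ (w - 1) * C (v 8), X ^ w * C (v 6 * v 4),
    X ^ (2 * w - 2) * C (v 0), X ^ (2 * w - 2) * C (v 1), C (v 3), C (v 2)⟩

end Pool.Agent.Smt
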