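import Pool.Agent.Smt.Basic
import Pool.Agent.Smt.Oc

/-!
# Leading coefficients at the special point  (module Lead)

`D.val` at `xi F M` is a polynomial in `X` over `F[v]`. Let `w i = 3 (M - i) ≥ 3`. For a nonempty
increasing list `q` (all letters `< M`) let `s` be the sum of the `w i` over all letters of `q`
except the last one and `w₁ = w (hd q)`. The right-normed word `rw' (xi) q` has
* `deg c ≤ s`, with coefficient `P • (closer vector of colE q)` at `s`, `P` the product of the
  typed brackets of `arcsR q`;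
* `deg m ≤ s + w₁`, `deg a ≤ s + 2 w₁ - 2`.
The trace of `xi i * rw' (xi) q` has degree at most `2 w i - 2 + s`, with coefficient
`P • tb (4 i + 3, colE q)`, the only term of top degree being `a₁ c₂ - a₂ c₁`.
-/

set_option autoImplicit false

namespace Pool.Agent.Smt

open Polynomial

/-- the polynomial degree -/
def dgw (M : ℤ) (D : Dg) : ℤ := 3 * (D.ct.map (fun i => M - i)).sum + 3 * D.wt
  - 2 * (D.b.map (fun l => if l.length = 1 then (0 : ℤ) else 1)).sum - (Multiset.card D.m : ℤ)

/-- the typed bracket: openers `4 i + 3` have `(x, h) = (v 0, v 1)`, openers `4 i + 1` have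
`(x', h') = (v 4, v 5)`, closers `4 j` have `(g, y) = (v 2, v 3)`, closers `4 j + 2` have
`(g', y') = (v 6, v 7)` -/
noncomputable def tb (F : Type*) [CommRing F] (e : ℤ × ℤ) : MvPolynomial (ℤ × Fin 9) F :=
  (if e.1 % 4 = 3 then MvPolynomial.X (e.1 / 4, 0) else MvPolynomial.X (e.1 / 4, 4)) *
    (if e.2 % 4 = 0 then MvPolynomial.X (e.2 / 4, 2) else MvPolynomial.X (e.2 / 4, 6)) -
  (if e.1 % 4 = 3 then MvPolynomial.X (e.1 / 4, 1) else MvPolynomial.X (e.1 / 4, 5)) *
    (if e.2 % 4 = 0 then MvPolynomial.X (e.2 / 4, 3) else MvPolynomial.X (e.2 / 4, 7))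

/-- the leading coefficient -/
noncomputable def lc (F : Type*) [CommRing F] (D : Dg) : MvPolynomial (ℤ × Fin 9) F :=
  (D.cf.map (tb F)).prod * (D.m.map (fun i => MvPolynomial.X (i, 8) * MvPolynomial.X (i, 6)
    * MvPolynomial.X (i, 5))).prod

section poly

variable {S : Type*} [CommRing S]

/-- degree at most `d`, coefficient `c` at `d` -/
private def Ld (p : S[X]) (d : ℕ) (c : S) : Prop := p.natDegree ≤ d ∧ p.coeff d = c

private theorem Ld.add {p q : S[X]} {d : ℕ} {a b : S} (h : Ld p d a) (h' : Ld q d b) :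
    Ld (p + q) d (a + b) :=
  ⟨(natDegree_add_le _ _).trans (max_le h.1 h'.1), by rw [coeff_add, h.2, h'.2]⟩

private theorem Ld.neg {p : S[X]} {d : ℕ} {a : S} (h : Ld p d a) : Ld (-p) d (-a) :=
  ⟨by rw [natDegree_neg]; exact h.1, by rw [coeff_neg, h.2]⟩

private theorem Ld.sub {p q : S[X]} {d : ℕ} {a b : S} (h : Ld p d a) (h' : Ld q d b) :
    Ld (p - q) d (a - b) := by
  rw [sub_eq_add_neg, sub_eq_add_neg]; exact h.add h'.neg

private theorem Ld.mul {p q : S[X]} {d e : ℕ} {a b : S} (h : Ld p d a) (h' : Ld q e b) :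
    Ld (p * q) (d + e) (a * b) :=
  ⟨natDegree_mul_le_of_le h.1 h'.1, by rw [coeff_mul_add_eq_of_natDegree_le h.1 h'.1, h.2, h'.2]⟩

private theorem Ld.low {p : S[X]} {d e : ℕ} (h : p.natDegree ≤ e) (he : e < d) : Ld p d 0 :=
  ⟨h.trans he.le, coeff_eq_zero_of_natDegree_lt (h.trans_lt he)⟩

private theorem Ld.cast {p : S[X]} {d e : ℕ} {a b : S} (h : Ld p d a) (hd : d = e) (ha : a = b) :
    Ld p e b := by
  subst hd ha; exact h

private theorem Ld.xc (w : ℕ) (a : S) : Ld (X ^ w * C a) w a := by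
  constructor
  · rw [mul_comm]; exact natDegree_C_mul_X_pow_le a w
  · rw [coeff_mul_C, coeff_X_pow, if_pos rfl, one_mul]

private theorem Ld.c (a : S) : Ld (C a) 0 a := ⟨by simp, by simp⟩

private theorem Ld.one : Ld (1 : S[X]) 0 1 := ⟨by simp, by simp⟩

private theorem Ld.prod {ι : Type*} (s : Multiset ι) (f : ι → S[X]) (d : ι → ℕ) (a : ι → S)
    (h : ∀ i ∈ s, Ld (f i) (d i) (a i)) : Ld (s.map f).prod (s.map d).sum (s.map a).prod := by
  induction s using Multiset.induction_on with
  | empty => simpa using Ld.one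
  | cons i s ih =>
    simp only [Multiset.map_cons, Multiset.prod_cons, Multiset.sum_cons]
    exact (h i (Multiset.mem_cons_self i s)).mul (ih fun j hj => h j (Multiset.mem_cons_of_mem hj))

private theorem dle_add {p q : S[X]} {d : ℕ} (h : p.natDegree ≤ d) (h' : q.natDegree ≤ d) :
    (p + q).natDegree ≤ d := (natDegree_add_le _ _).trans (max_le h h')

private theorem dle_sub {p q : S[X]} {d : ℕ} (h : p.natDegree ≤ d) (h' : q.natDegree ≤ d) :
    (p - q).natDegree ≤ d := (natDegree_sub_le _ _).trans (max_le h h')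

private theorem dle_mul {p q : S[X]} {d e f : ℕ} (h : p.natDegree ≤ d) (h' : q.natDegree ≤ e)
    (hf : d + e ≤ f) : (p * q).natDegree ≤ f := (natDegree_mul_le_of_le h h').trans hf

private theorem dle_neg {p : S[X]} {d : ℕ} (h : p.natDegree ≤ d) : (-p).natDegree ≤ d := by
  rw [natDegree_neg]; exact h

end poly

section letter

variable (F : Type*) [CommRing F] (M i : ℤ)

/-- the weight of a letter -/
private def wn (M i : ℤ) : ℕ := (3 * (M - i)).toNat

private theorem wn_cast {M i : ℤ} (h : i < M) : (wn M i : ℤ) = 3 * (M - i) :=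
  Int.toNat_of_nonneg (by linarith)

private theorem xi_m₁ : Ld (xi F M i).m₁ (wn M i)
    (-(MvPolynomial.X (i, 7) * MvPolynomial.X (i, 5))) := Ld.xc _ _

private theorem xi_m₂ : Ld (xi F M i).m₂ (wn M i)
    (-(MvPolynomial.X (i, 6) * MvPolynomial.X (i, 5))) := Ld.xc _ _

private theorem xi_m₃ (h : 1 ≤ wn M i) : Ld (xi F M i).m₃ (wn M i)
    (MvPolynomial.X (i, 7) * MvPolynomial.X (i, 4)) := by
  have h1 := (Ld.xc (wn M i) (MvPolynomial.X (i, 7) * MvPolynomial.X (i, 4) :
    MvPolynomial (ℤ × Fin 9) F)).add (Ld.low (e := wn M i - 1) (d := wn M i)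
      (Ld.xc (wn M i - 1) (MvPolynomial.X (i, 8) : MvPolynomial (ℤ × Fin 9) F)).1 (by omega))
  exact h1.cast rfl (add_zero _)

private theorem xi_m₄ : Ld (xi F M i).m₄ (wn M i)
    (MvPolynomial.X (i, 6) * MvPolynomial.X (i, 4)) := Ld.xc _ _

private theorem xi_a₁ : Ld (xi F M i).a₁ (2 * wn M i - 2) (MvPolynomial.X (i, 0)) := Ld.xc _ _

private theorem xi_a₂ : Ld (xi F M i).a₂ (2 * wn M i - 2) (MvPolynomial.X (i, 1)) := Ld.xc _ _

private theorem xi_c₁ : Ld (xi F M i).c₁ 0 (MvPolynomial.X (i, 3)) := Ld.c _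

private theorem xi_c₂ : Ld (xi F M i).c₂ 0 (MvPolynomial.X (i, 2)) := Ld.c _

private theorem xi_norm (h : 1 ≤ wn M i) : Ld ((Oc.qa _).n (xi F M i)) (2 * wn M i - 1)
    (MvPolynomial.X (i, 8) * MvPolynomial.X (i, 6) * MvPolynomial.X (i, 5)) := by
  obtain ⟨w, hw⟩ : ∃ w, wn M i = w + 1 := ⟨wn M i - 1, by omega⟩
  have e : (Oc.qa _).n (xi F M i) =
      X ^ (2 * w + 1) * C (MvPolynomial.X (i, 8) * MvPolynomial.X (i, 6) * MvPolynomial.X (i, 5)) -
      X ^ (2 * w) * C (MvPolynomial.X (i, 0) * MvPolynomial.X (i, 2) -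
        MvPolynomial.X (i, 1) * MvPolynomial.X (i, 3)) := by
    have hw' : (3 * (M - i)).toNat = w + 1 := hw
    simp only [Oc.qa, xi, hw']
    have e1 : 2 * (w + 1) - 2 = 2 * w := by omega
    have e2 : w + 1 - 1 = w := by omega
    rw [e1, e2]
    simp only [C_neg, C_mul, C_sub]
    ring
  rw [e]
  have h1 := (Ld.xc (2 * w + 1) (MvPolynomial.X (i, 8) * MvPolynomial.X (i, 6) *
    MvPolynomial.X (i, 5) : MvPolynomial (ℤ × Fin 9) F)).sub
    (Ld.low (Ld.xc (2 * w) (MvPolynomial.X (i, 0) * MvPolynomial.X (i, 2) -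
        MvPolynomial.X (i, 1) * MvPolynomial.X (i, 3) : MvPolynomial (ℤ × Fin 9) F)).1
        (by omega : 2 * w < 2 * w + 1))
  exact h1.cast (by omega) (sub_zero _)

end letter

section word

variable (F : Type*) [CommRing F] (M : ℤ)

/-- sum of the weights of all letters but the last one -/
private def sw (M : ℤ) : List ℤ → ℕ
  | [] => 0
  | [_] => 0
  | i :: j :: l => wn M i + sw M (j :: l)

private theorem sw_cast {q : List ℤ} (h : q ≠ []) (hM : ∀ i ∈ q, i < M) :
    (sw M q : ℤ) + 3 * (M - la q) = 3 * (q.map (fun i => M - i)).sum := by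
  induction q with
  | nil => exact absurd rfl h
  | cons i q ih =>
    cases q with
    | nil => simp [sw]
    | cons j l =>
      have h1 := ih (by simp) (fun i hi => hM i (List.mem_cons_of_mem _ hi))
      have h2 := wn_cast (hM i List.mem_cons_self)
      rw [la_cons i (by simp), List.map_cons, List.sum_cons]
      simp only [sw]
      push_cast
      rw [h2]
      linarith

/-- closer vector, first entry (`y` or `y'`) -/
private noncomputable def cy (e : ℤ) : MvPolynomial (ℤ × Fin 9) F :=
  if e % 4 = 0 then MvPolynomial.X (e / 4, 3) else MvPolynomial.X (e / 4, 7)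

/-- closer vector, second entry (`g` or `g'`) -/
private noncomputable def cg (e : ℤ) : MvPolynomial (ℤ × Fin 9) F :=
  if e % 4 = 0 then MvPolynomial.X (e / 4, 2) else MvPolynomial.X (e / 4, 6)

private theorem tb_mid (i e : ℤ) : tb F (4 * i + 1, e) =
    MvPolynomial.X (i, 4) * cg F e - MvPolynomial.X (i, 5) * cy F e := by
  have h1 : ¬ (4 * i + 1) % 4 = 3 := by omega
  have h2 : (4 * i + 1) / 4 = i := by omega
  simp only [tb, cy, cg, if_neg h1, h2]

private theorem tb_first (i e : ℤ) : tb F (4 * i + 3, e) =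
    MvPolynomial.X (i, 0) * cg F e - MvPolynomial.X (i, 1) * cy F e := by
  have h1 : (4 * i + 3) % 4 = 3 := by omega
  have h2 : (4 * i + 3) / 4 = i := by omega
  simp only [tb, cy, cg, if_pos h1, h2]

private structure Inv (q : List ℤ) : Prop where
  c₁ : Ld (rw' (xi F M) q).c₁ (sw M q) (((arcsR q).map (tb F)).prod * cy F (colE q))
  c₂ : Ld (rw' (xi F M) q).c₂ (sw M q) (((arcsR q).map (tb F)).prod * cg F (colE q))
  m₁ : (rw' (xi F M) q).m₁.natDegree ≤ sw M q + wn M (hd q)
  m₂ : (rw' (xi F M) q).m₂.natDegree ≤ sw M q + wn M (hd q)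
  m₃ : (rw' (xi F M) q).m₃.natDegree ≤ sw M q + wn M (hd q)
  m₄ : (rw' (xi F M) q).m₄.natDegree ≤ sw M q + wn M (hd q)
  a₁ : (rw' (xi F M) q).a₁.natDegree ≤ sw M q + 2 * wn M (hd q) - 2
  a₂ : (rw' (xi F M) q).a₂.natDegree ≤ sw M q + 2 * wn M (hd q) - 2

private theorem inv_all {q : List ℤ} (h : q ≠ []) (hq : Inc q) (hM : ∀ i ∈ q, i < M) :
    Inv F M q := by
  induction q with
  | nil => exact absurd rfl h
  | cons i q ih =>
    have hi := wn_cast (hM i List.mem_cons_self)
    have hi' := hM i List.mem_cons_self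
    have hi3 : 3 ≤ wn M i := by omega
    cases q with
    | nil =>
      have e : rw' (xi F M) [i] = xi F M i := by
        rw [rw_cons, rw_nil, mul_one]
      have hc : colE [i] = 4 * i := by simp [colE]
      have h0 : (4 * i) % 4 = 0 := by omega
      have h1 : (4 * i) / 4 = i := by omega
      have hs : sw M [i] = 0 := rfl
      have hh : hd [i] = i := rfl
      constructor
      · rw [e, hc, cy, if_pos h0, h1]
        exact (xi_c₁ F M i).cast rfl (by simp [arcsR])
      · rw [e, hc, cg, if_pos h0, h1]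
        exact (xi_c₂ F M i).cast rfl (by simp [arcsR])
      · rw [e, hs, hh]; exact (xi_m₁ F M i).1.trans (by omega)
      · rw [e, hs, hh]; exact (xi_m₂ F M i).1.trans (by omega)
      · rw [e, hs, hh]; exact (xi_m₃ F M i (by omega)).1.trans (by omega)
      · rw [e, hs, hh]; exact (xi_m₄ F M i).1.trans (by omega)
      · rw [e, hs, hh]; exact (xi_a₁ F M i).1.trans (by omega)
      · rw [e, hs, hh]; exact (xi_a₂ F M i).1.trans (by omega)
    | cons j l =>
      have hI := ih (by simp) (inc_cons.1 hq).2 (fun i hi => hM i (List.mem_cons_of_mem _ hi))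
      have hij : i < j := (inc_cons.1 hq).1 j List.mem_cons_self
      have hj := wn_cast (hM j (List.mem_cons_of_mem _ List.mem_cons_self))
      have hj' := hM j (List.mem_cons_of_mem _ List.mem_cons_self)
      have hw : wn M j + 3 ≤ wn M i := by omega
      have hw3 : 3 ≤ wn M j := by omega
      obtain ⟨c1, c2, m1, m2, m3, m4, a1, a2⟩ := hI
      rw [hd_cons] at m1 m2 m3 m4 a1 a2
      have hc : colE (i :: j :: l) = 4 * i + 2 := by simp [colE]
      have h0 : ¬ (4 * i + 2) % 4 = 0 := by omega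
      have h1 : (4 * i + 2) / 4 = i := by omega
      have hs : sw M (i :: j :: l) = wn M i + sw M (j :: l) := rfl
      have hh : wn M (hd (i :: j :: l)) = wn M i := rfl
      have hA : ((arcsR (i :: j :: l)).map (tb F)).prod =
          (MvPolynomial.X (i, 4) * cg F (colE (j :: l)) - MvPolynomial.X (i, 5) *
            cy F (colE (j :: l))) * ((arcsR (j :: l)).map (tb F)).prod := by
        rw [arcsR, Multiset.map_cons, Multiset.prod_cons, tb_mid]
      have xm1 := xi_m₁ F M i
      have xm2 := xi_m₂ F M i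
      have xm3 := xi_m₃ F M i (by omega)
      have xm4 := xi_m₄ F M i
      have xa1 := (xi_a₁ F M i).1
      have xa2 := (xi_a₂ F M i).1
      have xc1 := (xi_c₁ F M i).1
      have xc2 := (xi_c₂ F M i).1
      generalize hP : ((arcsR (j :: l)).map (tb F)).prod = P at *
      generalize hY : cy F (colE (j :: l)) = Y at *
      generalize hG : cg F (colE (j :: l)) = G at *
      generalize hy : rw' (xi F M) (j :: l) = y at *
      generalize sw M (j :: l) = s at *
      generalize hx : xi F M i = x at *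
      generalize wn M i = w at *
      generalize wn M j = w' at *
      have e : rw' (xi F M) (i :: j :: l) = x * y := by rw [rw_cons, hy, hx]
      constructor
      · rw [e, hc, cy, if_neg h0, h1, hA, hs, Oc.mul_def]
        have t1 := c1.mul xm1
        have t2 := c2.mul xm3
        have t3 : Ld (x.c₁ * y.m₄ - x.c₂ * y.m₃) (s + w) 0 :=
          Ld.low (e := s + w') (dle_sub (dle_mul xc1 m4 (by omega)) (dle_mul xc2 m3 (by omega)))
            (by omega)
        exact ((t1.add t2).add t3).cast (by omega) (by ring)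
      · rw [e, hc, cg, if_neg h0, h1, hA, hs, Oc.mul_def]
        have t1 := c1.mul xm2
        have t2 := c2.mul xm4
        have t3 : Ld (-x.c₁ * y.m₂ + x.c₂ * y.m₁) (s + w) 0 :=
          Ld.low (e := s + w') (dle_add (dle_mul (dle_neg xc1) m2 (by omega))
            (dle_mul xc2 m1 (by omega))) (by omega)
        exact ((t1.add t2).add t3).cast (by omega) (by ring)
      · rw [e, hs, hh, Oc.mul_def]
        exact dle_add (dle_add (dle_mul xm1.1 m1 (by omega)) (dle_mul xm2.1 m3 (by omega)))
          (dle_sub (dle_mul c2.1 xa1 (by omega)) (dle_mul a2 xc1 (by omega)))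
      · rw [e, hs, hh, Oc.mul_def]
        exact dle_add (dle_add (dle_mul xm1.1 m2 (by omega)) (dle_mul xm2.1 m4 (by omega)))
          (dle_sub (dle_mul c2.1 xa2 (by omega)) (dle_mul a2 xc2 (by omega)))
      · rw [e, hs, hh, Oc.mul_def]
        exact dle_add (dle_add (dle_mul xm3.1 m1 (by omega)) (dle_mul xm4.1 m3 (by omega)))
          (dle_add (dle_mul (dle_neg c1.1) xa1 (by omega)) (dle_mul a1 xc1 (by omega)))
      · rw [e, hs, hh, Oc.mul_def]
        exact dle_add (dle_add (dle_mul xm3.1 m2 (by omega)) (dle_mul xm4.1 m4 (by omega)))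
          (dle_add (dle_mul (dle_neg c1.1) xa2 (by omega)) (dle_mul a1 xc2 (by omega)))
      · rw [e, hs, hh, Oc.mul_def]
        exact dle_add (dle_add (dle_mul a1 xm1.1 (by omega)) (dle_mul a2 xm3.1 (by omega)))
          (dle_sub (dle_mul xa1 m4 (by omega)) (dle_mul xa2 m3 (by omega)))
      · rw [e, hs, hh, Oc.mul_def]
        exact dle_add (dle_add (dle_mul a1 xm2.1 (by omega)) (dle_mul a2 xm4.1 (by omega)))
          (dle_add (dle_mul (dle_neg xa1) m2 (by omega)) (dle_mul xa2 m1 (by omega)))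

/-- the degree of a block -/
private def dT (M : ℤ) : List ℤ → ℕ
  | [] => 0
  | [i] => wn M i
  | i :: j :: l => 2 * wn M i - 2 + sw M (j :: l)

private theorem dT_cast {q : List ℤ} (h : q ≠ []) (hM : ∀ i ∈ q, i < M) :
    (dT M q : ℤ) = 3 * (q.map (fun i => M - i)).sum + 3 * (la q - hd q)
      - 2 * (if q.length = 1 then (0 : ℤ) else 1) := by
  match q, h with
  | [i], _ =>
    have h1 := wn_cast (hM i List.mem_cons_self)
    simp [dT, h1]
  | i :: j :: l, _ =>
    have h1 := wn_cast (hM i List.mem_cons_self)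
    have h1' := hM i List.mem_cons_self
    have h2 := sw_cast M (q := j :: l) (by simp) (fun i hi => hM i (List.mem_cons_of_mem _ hi))
    have h3 : ¬ (i :: j :: l).length = 1 := by simp
    rw [if_neg h3, la_cons i (by simp), hd_cons, List.map_cons, List.sum_cons]
    simp only [dT]
    have h4 : ((2 * wn M i - 2 : ℕ) : ℤ) = 2 * (wn M i : ℤ) - 2 := by omega
    push_cast
    rw [h4, h1]
    linarith

private theorem T_lead {q : List ℤ} (h : q ≠ []) (hq : Inc q) (hM : ∀ i ∈ q, i < M) :
    Ld ((Oc.qa _).T (xi F M) q) (dT M q) ((arcs q).map (tb F)).prod := by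
  match q, h with
  | [i], _ =>
    have e : (Oc.qa _).T (xi F M) [i] = (xi F M i).m₁ + (xi F M i).m₄ := by
      rw [T_single]; rfl
    rw [e]
    have h2 : (4 * i + 2) / 4 = i := by omega
    have h0 : ¬ (4 * i + 2) % 4 = 0 := by omega
    refine ((xi_m₁ F M i).add (xi_m₄ F M i)).cast rfl ?_
    rw [arcs, Multiset.map_singleton, Multiset.prod_singleton, tb_mid, cy, cg, if_neg h0,
      if_neg h0, h2]
    ring
  | i :: j :: l, _ =>
    have hI := inv_all F M (q := j :: l) (by simp) (inc_cons.1 hq).2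
      (fun i hi => hM i (List.mem_cons_of_mem _ hi))
    have hij : i < j := (inc_cons.1 hq).1 j List.mem_cons_self
    have hi := wn_cast (hM i List.mem_cons_self)
    have hi' := hM i List.mem_cons_self
    have hj := wn_cast (hM j (List.mem_cons_of_mem _ List.mem_cons_self))
    have hj' := hM j (List.mem_cons_of_mem _ List.mem_cons_self)
    have hw : wn M j + 3 ≤ wn M i := by omega
    have hw3 : 3 ≤ wn M j := by omega
    obtain ⟨c1, c2, m1, m2, m3, m4, a1, a2⟩ := hI
    rw [hd_cons] at m1 m2 m3 m4 a1 a2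
    have xm1 := (xi_m₁ F M i).1
    have xm2 := (xi_m₂ F M i).1
    have xm3 := (xi_m₃ F M i (by omega)).1
    have xm4 := (xi_m₄ F M i).1
    have xa1 := (xi_a₁ F M i)
    have xa2 := (xi_a₂ F M i)
    have xc1 := (xi_c₁ F M i).1
    have xc2 := (xi_c₂ F M i).1
    have e : (Oc.qa _).T (xi F M) (i :: j :: l) =
        (xi F M i * rw' (xi F M) (j :: l)).m₁ + (xi F M i * rw' (xi F M) (j :: l)).m₄ := by
      rw [T_eq_rw, rw_cons]; rfl
    rw [e, Oc.mul_def, arcs, Multiset.map_cons, Multiset.prod_cons, tb_first]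
    have hd' : dT M (i :: j :: l) = 2 * wn M i - 2 + sw M (j :: l) := rfl
    rw [hd']
    generalize hP : ((arcsR (j :: l)).map (tb F)).prod = P at *
    generalize hY : cy F (colE (j :: l)) = Y at *
    generalize hG : cg F (colE (j :: l)) = G at *
    generalize hy : rw' (xi F M) (j :: l) = y at *
    generalize sw M (j :: l) = s at *
    generalize hx : xi F M i = x at *
    generalize wn M i = w at *
    generalize wn M j = w' at *
    have t1 := c2.mul xa1
    have t2 := (c1.neg).mul xa2
    have t3 : Ld (x.m₁ * y.m₁ + x.m₂ * y.m₃) (2 * w - 2 + s) 0 :=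
      Ld.low (e := w + (s + w')) (dle_add (dle_mul xm1 m1 (by omega)) (dle_mul xm2 m3 (by omega)))
        (by omega)
    have t4 : Ld (x.m₃ * y.m₂ + x.m₄ * y.m₄) (2 * w - 2 + s) 0 :=
      Ld.low (e := w + (s + w')) (dle_add (dle_mul xm3 m2 (by omega)) (dle_mul xm4 m4 (by omega)))
        (by omega)
    have t5 : Ld (y.a₂ * x.c₁) (2 * w - 2 + s) 0 :=
      Ld.low (e := s + 2 * w' - 2) (dle_mul a2 xc1 (by omega)) (by omega)
    have t6 : Ld (y.a₁ * x.c₂) (2 * w - 2 + s) 0 :=
      Ld.low (e := s + 2 * w' - 2) (dle_mul a1 xc2 (by omega)) (by omega)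
    exact ((t3.add ((t1.cast (by omega) rfl).sub t5)).add
      (t4.add ((t2.cast (by omega) rfl).add t6))).cast rfl (by ring)

end word

private theorem ct_map_sum (M : ℤ) (D : Dg) : (D.ct.map (fun i => M - i)).sum =
    (D.b.map (fun l : List ℤ => (l.map (fun i => M - i)).sum)).sum +
      2 * (D.m.map (fun i => M - i)).sum := by
  rw [Dg.ct, Multiset.map_add, Multiset.sum_add, Multiset.map_add, Multiset.sum_add]
  have h : ∀ b : Multiset (List ℤ),
      ((b.map (fun l : List ℤ => (Multiset.ofList l : Multiset ℤ))).sum.map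
        (fun i => M - i)).sum = (b.map (fun l : List ℤ => (l.map (fun i => M - i)).sum)).sum := by
    intro b
    induction b using Multiset.induction_on with
    | empty => simp
    | cons l b ih =>
      rw [Multiset.map_cons, Multiset.sum_cons, Multiset.map_add, Multiset.sum_add, ih,
        Multiset.map_cons, Multiset.sum_cons, Multiset.map_coe, Multiset.sum_coe]
  rw [h]
  ring

private theorem prod_cf (F : Type*) [CommRing F] (D : Dg) : (D.cf.map (tb F)).prod =
    (D.b.map (fun l => ((arcs l).map (tb F)).prod)).prod := by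
  rw [Dg.cf]
  generalize D.b = b
  induction b using Multiset.induction_on with
  | empty => simp
  | cons l b ih =>
    rw [Multiset.map_cons, Multiset.sum_cons, Multiset.map_add, Multiset.prod_add, ih,
      Multiset.map_cons, Multiset.prod_cons]

private theorem sum_b (M : ℤ) (b : Multiset (List ℤ)) (h : ∀ l ∈ b, l ≠ [])
    (hM : ∀ l ∈ b, ∀ i ∈ l, i < M) : (((b.map (dT M)).sum : ℕ) : ℤ) =
    3 * (b.map (fun l : List ℤ => (l.map (fun i => M - i)).sum)).sum +
    3 * (b.map (fun l => la l - hd l)).sum -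
    2 * (b.map (fun l => if l.length = 1 then (0 : ℤ) else 1)).sum := by
  induction b using Multiset.induction_on with
  | empty => simp
  | cons l b ih =>
    have h1 := ih (fun l' hl => h l' (Multiset.mem_cons_of_mem hl))
      (fun l' hl => hM l' (Multiset.mem_cons_of_mem hl))
    have h2 := dT_cast M (h l (Multiset.mem_cons_self l b)) (hM l (Multiset.mem_cons_self l b))
    simp only [Multiset.map_cons, Multiset.sum_cons]
    rw [Nat.cast_add, h1, h2]
    ring

private theorem sum_m (M : ℤ) (m : Multiset ℤ) (hM : ∀ i ∈ m, i < M) :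
    (((m.map (fun i => 2 * wn M i - 1)).sum : ℕ) : ℤ) =
    3 * (2 * (m.map (fun i => M - i)).sum) - (Multiset.card m : ℤ) := by
  induction m using Multiset.induction_on with
  | empty => simp
  | cons i m ih =>
    have h1 := ih (fun l' hl => hM l' (Multiset.mem_cons_of_mem hl))
    have h2 := wn_cast (hM i (Multiset.mem_cons_self i m))
    have h3 := hM i (Multiset.mem_cons_self i m)
    simp only [Multiset.map_cons, Multiset.sum_cons, Multiset.card_cons]
    rw [Nat.cast_add, h1]
    have h4 : ((2 * wn M i - 1 : ℕ) : ℤ) = 2 * (wn M i : ℤ) - 1 := by omega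
    rw [h4, h2]
    push_cast
    ring

private theorem val_lead (F : Type*) [CommRing F] (M : ℤ) (D : Dg) (hD : D.Ok)
    (hM : ∀ i ∈ D.ct, i < M) :
    Ld (D.val (Oc.qa _) (xi F M)) ((D.b.map (dT M)).sum + (D.m.map (fun i => 2 * wn M i - 1)).sum)
      (lc F D) ∧
    (((D.b.map (dT M)).sum + (D.m.map (fun i => 2 * wn M i - 1)).sum : ℕ) : ℤ) = dgw M D := by
  have hb : ∀ l ∈ D.b, ∀ i ∈ l, i < M := by
    intro l hl i hi
    apply hM
    rw [Dg.ct, Multiset.mem_add]
    left
    obtain ⟨b, hb⟩ := Multiset.exists_cons_of_mem hl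
    rw [hb, Multiset.map_cons, Multiset.sum_cons, Multiset.mem_add]
    exact Or.inl hi
  have hm : ∀ i ∈ D.m, i < M := by
    intro i hi
    apply hM
    rw [Dg.ct, Multiset.mem_add, Multiset.mem_add]
    exact Or.inr (Or.inl hi)
  constructor
  · rw [Dg.val, lc, prod_cf]
    refine (Ld.prod _ _ _ _ fun l hl => ?_).mul (Ld.prod _ _ _ _ fun i hi => ?_)
    · exact T_lead F M (hD l hl).1 (hD l hl).2 (hb l hl)
    · have h2 := wn_cast (hm i hi)
      have h3 := hm i hi
      exact xi_norm F M i (by omega)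
  · rw [Nat.cast_add, sum_b M D.b (fun l hl => (hD l hl).1) hb, sum_m M D.m hm, dgw, ct_map_sum,
      Dg.wt]
    ring

theorem lead_deg (F : Type*) [CommRing F] (M : ℤ) (D : Dg) (hD : D.Ok) (hM : ∀ i ∈ D.ct, i < M) :
    ((D.val (Oc.qa _) (xi F M)).natDegree : ℤ) ≤ dgw M D ∧ 0 ≤ dgw M D := by
  obtain ⟨h1, h2⟩ := val_lead F M D hD hM
  rw [← h2]
  exact ⟨by exact_mod_cast h1.1, by positivity⟩

theorem lead_coeff (F : Type*) [CommRing F] (M : ℤ) (D : Dg) (hD : D.Ok) (hM : ∀ i ∈ D.ct, i < M) :
    (D.val (Oc.qa _) (xi F M)).coeff (dgw M D).toNat = lc F D := by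
  obtain ⟨h1, h2⟩ := val_lead F M D hD hM
  rw [← h2, Int.toNat_natCast]
  exact h1.2

end Pool.Agent.Smt
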