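import Pool.Agent.Smt.Rank
import Pool.Agent.Smt.Lead
import Pool.Agent.Smt.Arcs

/-!
# Independence of the standard diagrams at the special point  (module Indep)

Suppose not all `c D` vanish; let `N` be the maximum of `dgw M D` over `D ∈ s`, `c D ≠ 0`. The
coefficient of `X^N` in the sum is `∑_(dgw M D = N) c_D lc D = 0`. The `ν`-exponents (`X (i, 8)`,
not in the brackets) separate the norms `D.m`: for a fixed `m`, `∑_(D.m = m) c_D (∏ over D.cf of tb)
= 0` (cancel the monomial of the norms). The renaming `(i,0),(i,1),(i,2),(i,3),(i,4),...` ↔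
`x_(4i+3), h_(4i+3), g_(4i), y_(4i), x_(4i+1), h_(4i+1), g_(4i+2), y_(4i+2)` (injective) turns the
products into `br D.cf` (arcs have openers `≡ 1, 3` and closers `≡ 0, 2 mod 4`), so `rank_indep`
applies: different `D` with the same `m` have different `cf` (`Rep`: `D = choice D.cf D.m`).
-/

set_option autoImplicit false

namespace Pool.Agent.Smt

open Polynomial

/-- openers are `≡ 1, 3`, closers `≡ 0, 2` modulo 4 -/
private def IndepTy (e : ℤ × ℤ) : Prop :=
  (e.1 % 4 = 3 ∨ e.1 % 4 = 1) ∧ (e.2 % 4 = 0 ∨ e.2 % 4 = 2)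

private theorem indep_colE (q : List ℤ) : colE q % 4 = 0 ∨ colE q % 4 = 2 := by
  unfold colE
  split_ifs <;> omega

private theorem indep_arcsR : ∀ (l : List ℤ) (e : ℤ × ℤ), e ∈ arcsR l → IndepTy e
  | [], e, h => by simp [arcsR] at h
  | [_], e, h => by simp [arcsR] at h
  | i :: j :: l, e, h => by
    rw [arcsR, Multiset.mem_cons] at h
    rcases h with rfl | h
    · exact ⟨Or.inr (by show (4 * i + 1) % 4 = 1; omega), indep_colE _⟩
    · exact indep_arcsR (j :: l) e h

private theorem indep_arcs : ∀ (l : List ℤ) (e : ℤ × ℤ), e ∈ arcs l → IndepTy e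
  | [], e, h => by simp [arcs] at h
  | [i], e, h => by
    rw [arcs, Multiset.mem_singleton] at h
    subst h
    exact ⟨Or.inr (by show (4 * i + 1) % 4 = 1; omega), Or.inr (by show (4 * i + 2) % 4 = 2; omega)⟩
  | i :: j :: l, e, h => by
    rw [arcs, Multiset.mem_cons] at h
    rcases h with rfl | h
    · exact ⟨Or.inl (by show (4 * i + 3) % 4 = 3; omega), indep_colE _⟩
    · exact indep_arcsR (j :: l) e h

private theorem indep_cf (D : Dg) (e : ℤ × ℤ) (h : e ∈ D.cf) : IndepTy e := by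
  have h1 : e ∈ Multiset.join (D.b.map arcs) := h
  obtain ⟨l, hl, he⟩ := Multiset.mem_join.1 h1
  obtain ⟨l', -, rfl⟩ := Multiset.mem_map.1 hl
  exact indep_arcs l' e he

section ring
variable (F : Type*) [Field F]

/-- the variables of the target -/
private noncomputable def indepV (p : ℤ × Fin 9) :
    MvPolynomial ℤ (MvPolynomial (ℤ × Fin 4) F) :=
  (![MvPolynomial.C (MvPolynomial.X (4 * p.1 + 3, 0)), MvPolynomial.C (MvPolynomial.X (4 * p.1 + 3, 2)),
    MvPolynomial.C (MvPolynomial.X (4 * p.1, 1)), MvPolynomial.C (MvPolynomial.X (4 * p.1, 3)),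
    MvPolynomial.C (MvPolynomial.X (4 * p.1 + 1, 0)), MvPolynomial.C (MvPolynomial.X (4 * p.1 + 1, 2)),
    MvPolynomial.C (MvPolynomial.X (4 * p.1 + 2, 1)), MvPolynomial.C (MvPolynomial.X (4 * p.1 + 2, 3)),
    MvPolynomial.X p.1] : Fin 9 → MvPolynomial ℤ (MvPolynomial (ℤ × Fin 4) F)) p.2

private noncomputable def indepH :
    MvPolynomial (ℤ × Fin 9) F →ₐ[F] MvPolynomial ℤ (MvPolynomial (ℤ × Fin 4) F) :=
  MvPolynomial.aeval (indepV F)

private theorem indepH_X (i : ℤ) (j : Fin 9) : indepH F (MvPolynomial.X (i, j)) = indepV F (i, j) :=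
  MvPolynomial.aeval_X _ _

private theorem indepH_C (c : F) :
    indepH F (MvPolynomial.C c) = MvPolynomial.C (MvPolynomial.C c) := by
  rw [indepH, MvPolynomial.aeval_C]
  rfl

private theorem indepH_tb {e : ℤ × ℤ} (h : IndepTy e) : indepH F (tb F e) = MvPolynomial.C
    (MvPolynomial.X (e.1, 0) * MvPolynomial.X (e.2, 1)
      - MvPolynomial.X (e.1, 2) * MvPolynomial.X (e.2, 3)) := by
  obtain ⟨h1, h2⟩ := h
  have a1 : ∀ (r : ℤ), e.1 % 4 = r → 4 * (e.1 / 4) + r = e.1 := fun r hr => by omega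
  have a2 : ∀ (r : ℤ), e.2 % 4 = r → 4 * (e.2 / 4) + r = e.2 := fun r hr => by omega
  have b2 : e.2 % 4 = 0 → 4 * (e.2 / 4) = e.2 := fun hr => by omega
  unfold tb
  rw [map_sub, map_mul, map_mul, map_sub, map_mul, map_mul]
  rcases h1 with h1 | h1 <;> rcases h2 with h2 | h2
  · rw [if_pos h1, if_pos h1, if_pos h2, if_pos h2, indepH_X, indepH_X, indepH_X, indepH_X]
    simp only [indepV]
    simp [a1 _ h1, b2 h2]
  · have h3 : ¬ e.2 % 4 = 0 := by omega
    rw [if_pos h1, if_pos h1, if_neg h3, if_neg h3, indepH_X, indepH_X, indepH_X, indepH_X]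
    simp only [indepV]
    simp [a1 _ h1, a2 _ h2]
  · have h3 : ¬ e.1 % 4 = 3 := by omega
    rw [if_neg h3, if_neg h3, if_pos h2, if_pos h2, indepH_X, indepH_X, indepH_X, indepH_X]
    simp only [indepV]
    simp [a1 _ h1, b2 h2]
  · have h3 : ¬ e.1 % 4 = 3 := by omega
    have h4 : ¬ e.2 % 4 = 0 := by omega
    rw [if_neg h3, if_neg h3, if_neg h4, if_neg h4, indepH_X, indepH_X, indepH_X, indepH_X]
    simp only [indepV]
    simp [a1 _ h1, a2 _ h2]

private theorem indepH_cf (c : Multiset (ℤ × ℤ)) (hc : ∀ e ∈ c, IndepTy e) :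
    indepH F (c.map (tb F)).prod = MvPolynomial.C (br F c) := by
  unfold br
  rw [map_multiset_prod, map_multiset_prod, Multiset.map_map, Multiset.map_map]
  congr 1
  exact Multiset.map_congr rfl fun e he => indepH_tb F (hc e he)

/-- the part of the norms without `ν` -/
private noncomputable def indepQ (m : Multiset ℤ) : MvPolynomial (ℤ × Fin 4) F :=
  (m.map (fun i => (MvPolynomial.X (4 * i + 2, 1) * MvPolynomial.X (4 * i + 1, 2) :
    MvPolynomial (ℤ × Fin 4) F))).prod

private theorem indepQ_ne (m : Multiset ℤ) : indepQ F m ≠ 0 := by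
  unfold indepQ
  intro h
  rw [Multiset.prod_eq_zero_iff] at h
  obtain ⟨i, -, hi⟩ := Multiset.mem_map.1 h
  rcases mul_eq_zero.1 hi with h1 | h1 <;> exact MvPolynomial.X_ne_zero _ h1

private theorem indep_monomial (R : Type*) [CommRing R] (m : Multiset ℤ) :
    (m.map (fun p => (MvPolynomial.X p : MvPolynomial ℤ R))).prod =
      MvPolynomial.monomial (Multiset.toFinsupp m) 1 := by
  induction m using Multiset.induction with
  | empty => simp
  | cons a m ih =>
    rw [Multiset.map_cons, Multiset.prod_cons, ih, ← Multiset.singleton_add, map_add,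
      Multiset.toFinsupp_singleton, MvPolynomial.X, MvPolynomial.monomial_mul, one_mul]

private theorem indepH_m (m : Multiset ℤ) : indepH F (m.map (fun i => MvPolynomial.X (i, 8)
    * MvPolynomial.X (i, 6) * MvPolynomial.X (i, 5))).prod =
      MvPolynomial.monomial (Multiset.toFinsupp m) 1 * MvPolynomial.C (indepQ F m) := by
  rw [← indep_monomial]
  unfold indepQ
  rw [map_multiset_prod, map_multiset_prod, Multiset.map_map, Multiset.map_map,
    ← Multiset.prod_map_mul]
  congr 1
  refine Multiset.map_congr rfl fun i _ => ?_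
  show indepH F (MvPolynomial.X (i, 8) * MvPolynomial.X (i, 6) * MvPolynomial.X (i, 5)) =
    MvPolynomial.X i * MvPolynomial.C (MvPolynomial.X (4 * i + 2, 1) * MvPolynomial.X (4 * i + 1, 2))
  rw [map_mul, map_mul, indepH_X, indepH_X, indepH_X, map_mul, mul_assoc]
  rfl

private theorem indepH_lc (D : Dg) (m0 : Multiset ℤ) (c : F) :
    MvPolynomial.coeff (Multiset.toFinsupp m0) (indepH F (MvPolynomial.C c * lc F D)) =
      if D.m = m0 then MvPolynomial.C c * br F D.cf * indepQ F m0 else 0 := by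
  unfold lc
  rw [map_mul, indepH_C, map_mul, indepH_cf F D.cf (indep_cf D), indepH_m]
  have e1 : (MvPolynomial.C (MvPolynomial.C c) * (MvPolynomial.C (br F D.cf) *
      (MvPolynomial.monomial (Multiset.toFinsupp D.m) 1 * MvPolynomial.C (indepQ F D.m))) :
      MvPolynomial ℤ (MvPolynomial (ℤ × Fin 4) F)) =
      MvPolynomial.C (MvPolynomial.C c * br F D.cf * indepQ F D.m) *
        MvPolynomial.monomial (Multiset.toFinsupp D.m) 1 := by
    rw [map_mul, map_mul]
    ring
  rw [e1, MvPolynomial.coeff_C_mul, MvPolynomial.coeff_monomial]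
  by_cases h : D.m = m0
  · rw [if_pos h, if_pos (by rw [h]), mul_one, h]
  · rw [if_neg h, if_neg (fun h1 => h (Multiset.toFinsupp.injective h1)), mul_zero]

end ring

theorem indep (F : Type*) [Field F] (M : ℤ) (s : Finset Dg)
    (hs : ∀ D ∈ s, D.Rep ∧ ∀ i ∈ D.ct, i < M) (c : Dg → F)
    (h : ∑ D ∈ s, C (MvPolynomial.C (c D)) * D.val (Oc.qa _) (xi F M) = 0) :
    ∀ D ∈ s, c D = 0 := by
  classical
  by_contra hcon
  push Not at hcon
  obtain ⟨D1, hD1, hc1⟩ := hcon
  obtain ⟨D0, hD0, hmax⟩ := Finset.exists_max_image (s.filter fun D => c D ≠ 0) (dgw M)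
    ⟨D1, Finset.mem_filter.2 ⟨hD1, hc1⟩⟩
  obtain ⟨hD0s, hc0⟩ := Finset.mem_filter.1 hD0
  have hok : ∀ D ∈ s, D.Ok ∧ ∀ i ∈ D.ct, i < M := fun D hD => ⟨(hs D hD).1.1, (hs D hD).2⟩
  -- the top coefficient
  have h1 : ∑ D ∈ s, (if dgw M D = dgw M D0 then MvPolynomial.C (c D) * lc F D else 0) = 0 := by
    have h2 := congrArg (fun p => Polynomial.coeff p (dgw M D0).toNat) h
    simp only [Polynomial.finset_sum_coeff, Polynomial.coeff_zero, Polynomial.coeff_C_mul] at h2
    refine (Finset.sum_congr rfl fun D hD => ?_).trans h2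
    by_cases hcD : c D = 0
    · rw [hcD, map_zero, zero_mul, zero_mul, ite_self]
    · have h3 := hmax D (Finset.mem_filter.2 ⟨hD, hcD⟩)
      obtain ⟨h4, h5⟩ := lead_deg F M D (hok D hD).1 (hok D hD).2
      by_cases h6 : dgw M D = dgw M D0
      · rw [if_pos h6, ← h6, lead_coeff F M D (hok D hD).1 (hok D hD).2]
      · rw [if_neg h6, Polynomial.coeff_eq_zero_of_natDegree_lt, mul_zero]
        omega
  -- the norms
  have h2 : ∑ D ∈ s, (if dgw M D = dgw M D0 then
      (if D.m = D0.m then MvPolynomial.C (c D) * br F D.cf * indepQ F D0.m else 0) else 0) = 0 := by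
    have h3 := congrArg (fun p => MvPolynomial.coeff (Multiset.toFinsupp D0.m) (indepH F p)) h1
    simp only [map_sum, MvPolynomial.coeff_sum, map_zero, MvPolynomial.coeff_zero] at h3
    refine (Finset.sum_congr rfl fun D _ => ?_).trans h3
    by_cases h6 : dgw M D = dgw M D0
    · rw [if_pos h6, if_pos h6, indepH_lc]
    · rw [if_neg h6, if_neg h6, map_zero, MvPolynomial.coeff_zero]
  obtain ⟨T, hT⟩ : ∃ T, T = s.filter fun D => dgw M D = dgw M D0 ∧ D.m = D0.m := ⟨_, rfl⟩
  have h3 : ∑ D ∈ T, MvPolynomial.C (c D) * br F D.cf = 0 := by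
    have h4 : (∑ D ∈ T, MvPolynomial.C (c D) * br F D.cf) * indepQ F D0.m = 0 := by
      rw [hT, Finset.sum_filter, Finset.sum_mul]
      refine (Finset.sum_congr rfl fun D _ => ?_).trans h2
      by_cases h6 : dgw M D = dgw M D0
      · by_cases h7 : D.m = D0.m
        · rw [if_pos ⟨h6, h7⟩, if_pos h6, if_pos h7]
        · rw [if_neg (fun h => h7 h.2), if_pos h6, if_neg h7, zero_mul]
      · rw [if_neg (fun h => h6 h.1), if_neg h6, zero_mul]
    exact (mul_eq_zero.1 h4).resolve_right (indepQ_ne F _)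
  have hrep : ∀ D ∈ T, D = Dg.choice D.cf D0.m := by
    intro D hD
    rw [hT, Finset.mem_filter] at hD
    have h4 := (hs D hD.1).1.2.2
    rw [hD.2.2] at h4
    exact h4
  have hinj : Set.InjOn Dg.cf (T : Set Dg) := by
    intro D hD D' hD' hcf
    have hcf' : D.cf = D'.cf := hcf
    rw [hrep D hD, hrep D' hD', hcf']
  have h4 := rank_indep F (T.image Dg.cf) (by
    intro c' hc'
    obtain ⟨D, hD, rfl⟩ := Finset.mem_image.1 hc'
    rw [hT, Finset.mem_filter] at hD
    exact (hs D hD.1).1.2.1) (fun c' => c (Dg.choice c' D0.m)) (by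
    rw [Finset.sum_image hinj]
    refine (Finset.sum_congr rfl fun D hD => ?_).trans h3
    rw [← hrep D hD])
  have hD0T : D0 ∈ T := by
    rw [hT, Finset.mem_filter]
    exact ⟨hD0s, rfl, rfl⟩
  have h5 := h4 D0.cf (Finset.mem_image_of_mem _ hD0T)
  have h6 : c D0 = 0 := by
    rw [hrep D0 hD0T]
    exact h5
  exact hc0 h6

end Pool.Agent.Smt
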