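import Pool.Agent.Smt.Basic

/-!
# Traces of products of left and right words  (module Merge)

Each statement: `AddSubgroup.closure_induction` in `ha` (and `hb`) reduces to generators
`D.val • wd x l`, `E.val • rw' x l'`; then `t(wd l * rw' l') = T (l ++ l')` (`T_append`),
`t((wd l * x i) * rw' l') = T (l ++ i :: l')`, and the span `la - hd` is computed
(`la_append`, `hd_append`). If `l = []` or `l' = []` the span is smaller (`hd_le_la`), use
`KS_mono`; `t 1 = 2`.
-/

set_option autoImplicit false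
set_option linter.unusedSectionVars false

namespace Pool.Agent.Smt

variable {k A : Type*} [CommRing k] [NonAssocRing A] [Module k A] [IsScalarTower k A A]
  [SMulCommClass k A A] (Q : QA k A) (x : ℤ → A)

private theorem Merge_L {C w : ℤ} {d : Multiset ℤ} {S : AddSubgroup k} (f : A →+ k)
    (h : ∀ (D : Dg) (l : List ℤ), D.Ok → Inc l → D.ct + (l : Multiset ℤ) = d →
      D.wt + ol C l ≤ w → f (D.val Q x • wd x l) ∈ S) {a : A} (ha : a ∈ WL Q x C w d) :
    f a ∈ S := by
  have h1 : WL Q x C w d ≤ S.comap f := by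
    refine (AddSubgroup.closure_le _).2 ?_
    rintro v ⟨D, l, h1, h2, h3, h4, rfl⟩
    exact h D l h1 h2 h3 h4
  exact h1 ha

private theorem Merge_R {C w : ℤ} {d : Multiset ℤ} {S : AddSubgroup k} (f : A →+ k)
    (h : ∀ (D : Dg) (l : List ℤ), D.Ok → Inc l → D.ct + (l : Multiset ℤ) = d →
      D.wt + orr C l ≤ w → f (D.val Q x • rw' x l) ∈ S) {a : A} (ha : a ∈ WR Q x C w d) :
    f a ∈ S := by
  have h1 : WR Q x C w d ≤ S.comap f := by
    refine (AddSubgroup.closure_le _).2 ?_
    rintro v ⟨D, l, h1, h2, h3, h4, rfl⟩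
    exact h D l h1 h2 h3 h4
  exact h1 ha

private theorem Merge_hd {C : ℤ} {l l' : List ℤ} (h : ∀ i ∈ l', C ≤ i) (hne : l ++ l' ≠ []) :
    -hd (l ++ l') ≤ ol C l - C := by
  by_cases hl : l = []
  · subst hl
    rw [List.nil_append] at hne ⊢
    have := h _ (hd_mem hne)
    simp only [ol, if_true]
    linarith
  · rw [hd_append hl, ol, if_neg hl]
    linarith

private theorem Merge_la {C : ℤ} {l l' : List ℤ} (h : ∀ i ∈ l, i ≤ C) (hne : l ++ l' ≠ []) :
    la (l ++ l') ≤ orr C l' + C := by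
  by_cases hl : l' = []
  · subst hl
    rw [List.append_nil] at hne ⊢
    have := h _ (la_mem hne)
    simp only [orr, if_true]
    linarith
  · rw [la_append hl, orr, if_neg hl]
    linarith

private theorem Merge_T {w : ℤ} {l : List ℤ} (hl : Inc l) (hw : l ≠ [] → la l - hd l ≤ w)
    (hw0 : l = [] → 0 ≤ w) : Q.T x l ∈ KS Q x w (l : Multiset ℤ) := by
  by_cases h : l = []
  · subst h
    have h1 : Q.T x [] = ((2 : ℕ) : k) * 1 := by
      rw [QA.T, wd_nil, Q.t_one]
      norm_num
    rw [h1]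
    exact KS_mono Q x (hw0 rfl) _ (ofNat_mul_mem_KS Q x 2 (one_mem_KS Q x))
  · exact KS_mono Q x (hw h) _ (T_mem_KS Q x h hl)

private theorem Merge_val {D : Dg} (hD : D.Ok) {w w' : ℤ} {d : Multiset ℤ} {l : List ℤ} {c : k}
    (hc : c ∈ KS Q x w' (l : Multiset ℤ)) (hd : D.ct + (l : Multiset ℤ) = d)
    (hw : D.wt + w' ≤ w) : D.val Q x * c ∈ KS Q x w d := by
  have h1 := KS_mul Q x (mem_KS Q x hD (le_refl D.wt)) hc
  rw [hd] at h1
  exact KS_mono Q x hw _ h1

private theorem Merge_mem {D : Dg} {l : List ℤ} {d : Multiset ℤ}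
    (h : D.ct + (l : Multiset ℤ) = d) {i : ℤ} (hi : i ∈ l) : i ∈ d := by
  rw [← h]
  exact Multiset.mem_add.2 (Or.inr (Multiset.mem_coe.2 hi))

theorem t_WL_WR (C C' w w' : ℤ) (hC : C < C') (d d' : Multiset ℤ) (hd : ∀ i ∈ d, i ≤ C)
    (hd' : ∀ i ∈ d', C' ≤ i) (a b : A) (ha : a ∈ WL Q x C w d) (hb : b ∈ WR Q x C' w' d') :
    Q.t (a * b) ∈ KS Q x (w + w' + (C' - C)) (d + d') := by
  refine Merge_L Q x (Q.t.toAddMonoidHom.comp (AddMonoidHom.mulRight b)) ?_ ha
  intro D l hD hl hc hw
  refine Merge_R Q x (Q.t.toAddMonoidHom.comp (AddMonoidHom.mulLeft (D.val Q x • wd x l))) ?_ hb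
  intro E l' hE hl' hc' hw'
  have e : (Q.t.toAddMonoidHom.comp (AddMonoidHom.mulLeft (D.val Q x • wd x l)))
      (E.val Q x • rw' x l') = (D + E).val Q x * Q.T x (l ++ l') := by
    change Q.t ((D.val Q x • wd x l) * (E.val Q x • rw' x l')) = _
    rw [T_append, val_add, smul_mul_assoc, mul_smul_comm, map_smul, map_smul, smul_eq_mul,
      smul_eq_mul, mul_assoc]
  rw [e]
  have hlC : ∀ i ∈ l, i ≤ C := fun i hi => hd i (Merge_mem hc hi)
  have hlC' : ∀ i ∈ l', C' ≤ i := fun i hi => hd' i (Merge_mem hc' hi)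
  have hinc : Inc (l ++ l') := inc_append.2 ⟨hl, hl', fun a ha b hb => by
    have := hlC a ha
    have := hlC' b hb
    linarith⟩
  have h0 : (0 : ℤ) ≤ ol C l := by
    unfold ol
    split_ifs with h
    · exact le_rfl
    · have := hlC _ (hd_mem h)
      linarith
  have h0' : (0 : ℤ) ≤ orr C' l' := by
    unfold orr
    split_ifs with h
    · exact le_rfl
    · have := hlC' _ (la_mem h)
      linarith
  refine Merge_val Q x (Dg.ok_add.2 ⟨hD, hE⟩) (w' := ol C l + orr C' l' + (C' - C))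
    (Merge_T Q x hinc (fun hne => ?_) (fun _ => by linarith)) ?_ ?_
  · have h1 := Merge_hd (l := l) (l' := l') (C := C) (fun i hi => by
      have := hlC' i hi
      linarith) hne
    have h2 := Merge_la (l := l) (l' := l') (C := C') (fun i hi => by
      have := hlC i hi
      linarith) hne
    linarith
  · rw [Dg.ct_add, ← hc, ← hc', ← Multiset.coe_add]
    abel
  · rw [Dg.wt_add]
    linarith

theorem t_WL_x_WR (C C' w w' : ℤ) (i : ℤ) (hC : C < i) (hC' : i < C') (d d' : Multiset ℤ)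
    (hd : ∀ i ∈ d, i ≤ C) (hd' : ∀ i ∈ d', C' ≤ i) (a b : A) (ha : a ∈ WL Q x C w d)
    (hb : b ∈ WR Q x C' w' d') :
    Q.t ((a * x i) * b) ∈ KS Q x (w + w' + (C' - C)) (d + d' + {i}) := by
  refine Merge_L Q x (Q.t.toAddMonoidHom.comp ((AddMonoidHom.mulRight b).comp
    (AddMonoidHom.mulRight (x i)))) ?_ ha
  intro D l hD hl hc hw
  refine Merge_R Q x (Q.t.toAddMonoidHom.comp (AddMonoidHom.mulLeft
    ((D.val Q x • wd x l) * x i))) ?_ hb
  intro E l' hE hl' hc' hw'
  have e : (Q.t.toAddMonoidHom.comp (AddMonoidHom.mulLeft ((D.val Q x • wd x l) * x i)))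
      (E.val Q x • rw' x l') = (D + E).val Q x * Q.T x ((l ++ [i]) ++ l') := by
    change Q.t (((D.val Q x • wd x l) * x i) * (E.val Q x • rw' x l')) = _
    rw [T_append, val_add, wd_append_single, smul_mul_assoc, smul_mul_assoc, mul_smul_comm,
      map_smul, map_smul, smul_eq_mul, smul_eq_mul, mul_assoc]
  rw [e]
  have hlC : ∀ j ∈ l, j ≤ C := fun j hj => hd j (Merge_mem hc hj)
  have hlC' : ∀ j ∈ l', C' ≤ j := fun j hj => hd' j (Merge_mem hc' hj)
  have hinc : Inc ((l ++ [i]) ++ l') := by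
    refine inc_append.2 ⟨inc_append.2 ⟨hl, inc_single i, fun a ha b hb => ?_⟩, hl',
      fun a ha b hb => ?_⟩
    · rw [List.mem_singleton] at hb
      have := hlC a ha
      rw [hb]
      linarith
    · have h1 := hlC' b hb
      rcases List.mem_append.1 ha with h | h
      · have := hlC a h
        linarith
      · rw [List.mem_singleton] at h
        rw [h]
        linarith
  have hne : (l ++ [i]) ++ l' ≠ [] := by simp
  refine Merge_val Q x (Dg.ok_add.2 ⟨hD, hE⟩) (w' := ol C l + orr C' l' + (C' - C))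
    (Merge_T Q x hinc (fun _ => ?_) (fun h => absurd h hne)) ?_ ?_
  · have h2 := Merge_la (l := l ++ [i]) (l' := l') (C := C') (fun j hj => by
      rcases List.mem_append.1 hj with h | h
      · have := hlC j h
        linarith
      · rw [List.mem_singleton] at h
        rw [h]
        linarith) hne
    have e2 : (l ++ [i]) ++ l' = l ++ ([i] ++ l') := List.append_assoc _ _ _
    have h1 := Merge_hd (l := l) (l' := [i] ++ l') (C := C) (fun j hj => by
      rcases List.mem_append.1 hj with h | h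
      · rw [List.mem_singleton] at h
        rw [h]
        linarith
      · have := hlC' j h
        linarith) (by simp)
    rw [← e2] at h1
    linarith
  · rw [Dg.ct_add, ← hc, ← hc', ← Multiset.coe_add, ← Multiset.coe_add, Multiset.coe_singleton]
    abel
  · rw [Dg.wt_add]
    linarith

theorem t_WL (C w : ℤ) (d : Multiset ℤ) (hd : ∀ i ∈ d, i ≤ C) (a : A) (ha : a ∈ WL Q x C w d) :
    Q.t a ∈ KS Q x w d := by
  refine Merge_L Q x Q.t.toAddMonoidHom ?_ ha
  intro D l hD hl hc hw
  have hlC : ∀ j ∈ l, j ≤ C := fun j hj => hd j (Merge_mem hc hj)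
  have e : Q.t.toAddMonoidHom (D.val Q x • wd x l) = D.val Q x * Q.T x l := by
    change Q.t (D.val Q x • wd x l) = _
    rw [map_smul, smul_eq_mul]
    rfl
  rw [e]
  refine Merge_val Q x hD (w' := ol C l) (Merge_T Q x hl (fun hne => ?_) (fun h => ?_)) hc hw
  · rw [ol, if_neg hne]
    have := hlC _ (la_mem hne)
    linarith
  · rw [ol, if_pos h]

theorem t_WR (C w : ℤ) (d : Multiset ℤ) (hd : ∀ i ∈ d, C ≤ i) (a : A) (ha : a ∈ WR Q x C w d) :
    Q.t a ∈ KS Q x w d := by
  refine Merge_R Q x Q.t.toAddMonoidHom ?_ ha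
  intro D l hD hl hc hw
  have hlC : ∀ j ∈ l, C ≤ j := fun j hj => hd j (Merge_mem hc hj)
  have e : Q.t.toAddMonoidHom (D.val Q x • rw' x l) = D.val Q x * Q.T x l := by
    change Q.t (D.val Q x • rw' x l) = _
    rw [map_smul, smul_eq_mul, T_eq_rw]
  rw [e]
  refine Merge_val Q x hD (w' := orr C l) (Merge_T Q x hl (fun hne => ?_) (fun h => ?_)) hc hw
  · rw [orr, if_neg hne]
    have := hlC _ (hd_mem hne)
    linarith
  · rw [orr, if_pos h]

theorem t_WL_x (C w : ℤ) (i : ℤ) (hC : C < i) (d : Multiset ℤ) (hd : ∀ i ∈ d, i ≤ C) (a : A)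
    (ha : a ∈ WL Q x C w d) : Q.t (a * x i) ∈ KS Q x (w + (i - C)) (d + {i}) := by
  refine Merge_L Q x (Q.t.toAddMonoidHom.comp (AddMonoidHom.mulRight (x i))) ?_ ha
  intro D l hD hl hc hw
  have hlC : ∀ j ∈ l, j ≤ C := fun j hj => hd j (Merge_mem hc hj)
  have e : (Q.t.toAddMonoidHom.comp (AddMonoidHom.mulRight (x i))) (D.val Q x • wd x l) =
      D.val Q x * Q.T x (l ++ [i]) := by
    change Q.t ((D.val Q x • wd x l) * x i) = _
    rw [smul_mul_assoc, map_smul, smul_eq_mul, QA.T, wd_append_single]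
  rw [e]
  have hinc : Inc (l ++ [i]) := inc_append.2 ⟨hl, inc_single i, fun a ha b hb => by
    rw [List.mem_singleton] at hb
    have := hlC a ha
    rw [hb]
    linarith⟩
  refine Merge_val Q x hD (w' := ol C l + (i - C))
    (Merge_T Q x hinc (fun hne => ?_) (fun h => absurd h (by simp))) ?_ (by linarith)
  · have h1 := Merge_hd (l := l) (l' := [i]) (C := C) (fun j hj => by
      rw [List.mem_singleton] at hj
      rw [hj]
      linarith) hne
    rw [la_append_single]
    linarith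
  · rw [← hc, ← Multiset.coe_add, Multiset.coe_singleton]
    abel

theorem t_x_WR (C w : ℤ) (i : ℤ) (hC : i < C) (d : Multiset ℤ) (hd : ∀ i ∈ d, C ≤ i) (a : A)
    (ha : a ∈ WR Q x C w d) : Q.t (x i * a) ∈ KS Q x (w + (C - i)) (d + {i}) := by
  refine Merge_R Q x (Q.t.toAddMonoidHom.comp (AddMonoidHom.mulLeft (x i))) ?_ ha
  intro D l hD hl hc hw
  have hlC : ∀ j ∈ l, C ≤ j := fun j hj => hd j (Merge_mem hc hj)
  have e : (Q.t.toAddMonoidHom.comp (AddMonoidHom.mulLeft (x i))) (D.val Q x • rw' x l) =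
      D.val Q x * Q.T x ([i] ++ l) := by
    change Q.t (x i * (D.val Q x • rw' x l)) = _
    rw [mul_smul_comm, map_smul, smul_eq_mul, T_eq_rw]
    rfl
  rw [e]
  have hinc : Inc ([i] ++ l) := inc_append.2 ⟨inc_single i, hl, fun a ha b hb => by
    rw [List.mem_singleton] at ha
    have := hlC b hb
    rw [ha]
    linarith⟩
  refine Merge_val Q x hD (w' := orr C l + (C - i))
    (Merge_T Q x hinc (fun hne => ?_) (fun h => absurd h (by simp))) ?_ (by linarith)
  · have h1 := Merge_la (l := [i]) (l' := l) (C := C) (fun j hj => by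
      rw [List.mem_singleton] at hj
      rw [hj]
      linarith) hne
    have h2 : Pool.Agent.Smt.hd ([i] ++ l) = i := rfl
    rw [h2]
    linarith
  · rw [← hc, ← Multiset.coe_add, Multiset.coe_singleton]
    abel

end Pool.Agent.Smt
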