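import Pool.Agent.Smt.FilL
import Pool.Agent.Smt.Merge

/-!
# The span of all open diagrams is a subring  (module Open0)

Everything follows from `wd_mul_wd` with a large cut `C` (forget the weights); for the star:
`t(D.val • wd l) = D.val * T l` (`= 2 D.val` for `l = []`).
-/

set_option autoImplicit false
set_option linter.unusedSectionVars false

namespace Pool.Agent.Smt

variable {k A : Type*} [CommRing k] [NonAssocRing A] [Module k A] [IsScalarTower k A A]
  [SMulCommClass k A A] (Q : QA k A) (x : ℤ → A)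

/-- additive span of the (value) • (left-normed word), all letters smaller than `Y` -/
def W0 (Y : ℤ) : AddSubgroup A := AddSubgroup.closure {v | ∃ (D : Dg) (l : List ℤ), D.Ok ∧ Inc l ∧
  (∀ i ∈ D.ct, i < Y) ∧ (∀ i ∈ l, i < Y) ∧ D.val Q x • wd x l = v}

theorem Open0_mem {Y : ℤ} {D : Dg} {l : List ℤ} (hD : D.Ok) (hl : Inc l) (h : ∀ i ∈ D.ct, i < Y)
    (h' : ∀ i ∈ l, i < Y) : D.val Q x • wd x l ∈ W0 Q x Y :=
  AddSubgroup.subset_closure ⟨D, l, hD, hl, h, h', rfl⟩

theorem Open0_smul {Y : ℤ} {D : Dg} (hD : D.Ok) (h : ∀ i ∈ D.ct, i < Y) {a : A}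
    (ha : a ∈ W0 Q x Y) : D.val Q x • a ∈ W0 Q x Y := by
  induction ha using AddSubgroup.closure_induction with
  | mem a ha =>
    obtain ⟨E, l, h1, h2, h3, h4, rfl⟩ := ha
    rw [smul_smul, ← val_add]
    refine Open0_mem Q x (Dg.ok_add.2 ⟨hD, h1⟩) h2 (fun i hi => ?_) h4
    rw [Dg.ct_add, Multiset.mem_add] at hi
    rcases hi with hi | hi
    · exact h i hi
    · exact h3 i hi
  | zero => rw [smul_zero]; exact zero_mem _
  | add a b _ _ ha hb => rw [smul_add]; exact add_mem ha hb
  | neg a _ ha => rw [smul_neg]; exact neg_mem ha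

theorem Open0_WL {Y C w : ℤ} {d : Multiset ℤ} (hd : ∀ i ∈ d, i < Y) {a : A}
    (ha : a ∈ WL Q x C w d) : a ∈ W0 Q x Y := by
  induction ha using AddSubgroup.closure_induction with
  | mem a ha =>
    obtain ⟨D, l, h1, h2, h3, -, rfl⟩ := ha
    refine Open0_mem Q x h1 h2 (fun i hi => hd i ?_) (fun i hi => hd i ?_)
    · rw [← h3, Multiset.mem_add]
      exact Or.inl hi
    · rw [← h3, Multiset.mem_add]
      exact Or.inr (Multiset.mem_coe.2 hi)
  | zero => exact zero_mem _
  | add a b _ _ ha hb => exact add_mem ha hb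
  | neg a _ ha => exact neg_mem ha

theorem W0_x {Y i : ℤ} (hi : i < Y) : x i ∈ W0 Q x Y := by
  have h := Open0_mem Q x (Y := Y) (l := [i]) Dg.ok_e (by simp) (by simp) (by simpa using hi)
  simpa using h

theorem Open0_t {Y : ℤ} {a : A} (h : a ∈ W0 Q x Y) : Q.t a • (1 : A) ∈ W0 Q x Y := by
  induction h using AddSubgroup.closure_induction with
  | mem a ha =>
    obtain ⟨D, l, h1, h2, h3, h4, rfl⟩ := ha
    by_cases hl : l = []
    · subst hl
      have h5 := Open0_mem Q x (l := []) h1 h2 h3 h4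
      rw [wd_nil] at h5 ⊢
      rw [map_smul, Q.t_one, smul_eq_mul, mul_two, add_smul]
      exact add_mem h5 h5
    · have h5 := Open0_mem Q x (Y := Y) (D := D + Dg.bl l) (l := [])
        (Dg.ok_add.2 ⟨h1, Dg.ok_bl hl h2⟩) (by simp) (fun i hi => by
          rw [Dg.ct_add, Multiset.mem_add, Dg.ct_bl, Multiset.mem_coe] at hi
          rcases hi with hi | hi
          · exact h3 i hi
          · exact h4 i hi) (by simp)
      rw [wd_nil, val_add, val_bl] at h5
      rw [map_smul, smul_eq_mul]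
      exact h5
  | zero => rw [map_zero, zero_smul]; exact zero_mem _
  | add a b _ _ ha hb => rw [map_add, add_smul]; exact add_mem ha hb
  | neg a _ ha => rw [map_neg, neg_smul]; exact neg_mem ha

theorem W0_star {Y : ℤ} {a : A} (h : a ∈ W0 Q x Y) : Q.t a • (1 : A) - a ∈ W0 Q x Y :=
  sub_mem (Open0_t Q x h) h

theorem W0_mul {Y : ℤ} {a b : A} (ha : a ∈ W0 Q x Y) (hb : b ∈ W0 Q x Y) : a * b ∈ W0 Q x Y := by
  induction ha using AddSubgroup.closure_induction with
  | mem a ha =>
    obtain ⟨D, l, h1, h2, h3, h4, rfl⟩ := ha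
    induction hb using AddSubgroup.closure_induction with
    | mem b hb =>
      obtain ⟨E, l', g1, g2, g3, g4, rfl⟩ := hb
      rw [smul_mul_assoc, mul_smul_comm]
      refine Open0_smul Q x h1 h3 (Open0_smul Q x g1 g3 ?_)
      refine Open0_WL Q x (fun i hi => ?_) (wd_mul_wd Q x Y l l' h2 g2
        (fun i hi => (h4 i hi).le) (fun i hi => (g4 i hi).le))
      rw [Multiset.mem_add, Multiset.mem_coe, Multiset.mem_coe] at hi
      rcases hi with hi | hi
      · exact h4 i hi
      · exact g4 i hi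
    | zero => rw [mul_zero]; exact zero_mem _
    | add b c _ _ hb hc => rw [mul_add]; exact add_mem hb hc
    | neg b _ hb => rw [mul_neg]; exact neg_mem hb
  | zero => rw [zero_mul]; exact zero_mem _
  | add a c _ _ ha hc => rw [add_mul]; exact add_mem ha hc
  | neg a _ ha => rw [neg_mul]; exact neg_mem ha

end Pool.Agent.Smt
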