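import Pool.Agent.Smt.OpenStd
import Pool.Agent.Smt.Open0
import Pool.Agent.Smt.Indep
import Pool.Agent.Smt.Center

/-!
# Star polynomials vanishing at the special points vanish everywhere  (module Eval)

Let `R = Polynomial (MvPolynomial (ℤ × Fin 9) F)`, `M` larger than all letters occurring in `f`
(plus 1: `Y = M - 1` is the extra letter, so take `M = N + 1`, letters `< N = Y`), and
`P = B × Oc R` (star ring, componentwise); `exists_qa_center P` gives `Q : QA k P`. Letters
`x i = (v i.toNat, xi F M i)` (`i ≥ 0`). For a monomial `w : FreeMagma (ℕ ⊕ ℕ)` with letters `< N`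
its value in `P` (letters `inl i ↦ x i`, `inr i ↦ star (x i) = t(x i) - x i`) is in `W0 Q x N`
(`W0_x`, `W0_star`, `W0_mul`), so by `span_open` (with `Y = N`) in the additive span of the
`u(D, l) = D.val • wd x l`, `(D + bl (l ++ [N])).Rep`. Hence the value of `f` in `P` is an `F`-linear
combination `∑ c_j u(D_j, l_j)` (finite, the `D_j + bl (l_j ++ [N])` pairwise different). Second
component: the value of `f` is 0 (`hf`), so `∑ c_j u(D_j, l_j)(xi) = 0` in `Oc R`; multiply by
`xi F M N` and take the trace: `∑ c_j (D_j + bl (l_j ++ [N])).val (Oc.qa) (xi F M) = 0`; `indep`: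
`c_j = 0`. So `f` has value 0 in `P`, in particular in `B`. Naturality: for the projections
`P → B`, `P → Oc R` the product `D.val • wd x l` in `P` has second component
`D.val (Oc.qa) (xi) • wd (xi) l` because `t(a) • 1 = a + star a`, `n(a) • 1 = a * star a`
(in `P` and in `Oc R`).
-/

set_option autoImplicit false

namespace Pool.Agent.Smt

section octonions

variable {R : Type*} [CommRing R]

theorem Eval_oc_add (x : Oc R) : x + star x = (Oc.qa R).t x • (1 : Oc R) := by
  show x + star x = (x.m₁ + x.m₄) • (1 : Oc R)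
  ext <;> simp <;> ring

theorem Eval_oc_mul (x : Oc R) : x * star x = (Oc.qa R).n x • (1 : Oc R) := by
  show x * star x = (x.m₁ * x.m₄ - x.m₂ * x.m₃ - (x.a₁ * x.c₂ - x.a₂ * x.c₁)) • (1 : Oc R)
  ext <;> simp <;> ring

theorem Eval_oc_smul_mul (r : R) (y z : Oc R) : (r • y) * z = r • (y * z) :=
  smul_mul_assoc r y z

theorem Eval_oc_center (r : R) : r • (1 : Oc R) ∈ Set.center (Oc R) := by
  rw [Set.mem_center_iff]
  refine ⟨fun a => ?_, fun a b => ?_, fun a b => ?_⟩
  · show (r • (1 : Oc R)) * a = a * (r • (1 : Oc R))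
    rw [smul_mul_assoc, mul_smul_comm, one_mul, mul_one]
  · rw [smul_mul_assoc, smul_mul_assoc, one_mul, one_mul, smul_mul_assoc]
  · rw [mul_smul_comm, mul_smul_comm, mul_one, mul_smul_comm, mul_one]

end octonions

section naturality

variable {B R k : Type*} [NonAssocRing B] [CommRing R] [CommRing k] [Module k (B × Oc R)]

/-- the scalar `c` acts on the second component as `r` -/
def Eval_N (B : Type*) {R k : Type*} [NonAssocRing B] [CommRing R] [CommRing k]
    [Module k (B × Oc R)] (c : k) (r : R) : Prop :=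
  (c • (1 : B × Oc R)).2 = r • (1 : Oc R)

variable [IsScalarTower k (B × Oc R) (B × Oc R)]

theorem Eval_N_smul {c : k} {r : R} (h : Eval_N B c r) (p : B × Oc R) :
    (c • p).2 = r • p.2 := by
  have h1 : c • p = (c • (1 : B × Oc R)) * p := by rw [smul_mul_assoc, one_mul]
  rw [h1, Prod.snd_mul, h, smul_mul_assoc, one_mul]

theorem Eval_N_one : Eval_N B (1 : k) (1 : R) := by
  unfold Eval_N
  rw [one_smul, one_smul, Prod.snd_one]

theorem Eval_N_mul {c c' : k} {r r' : R} (h : Eval_N B c r) (h' : Eval_N B c' r') :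
    Eval_N B (c * c') (r * r') := by
  unfold Eval_N
  rw [mul_smul, Eval_N_smul h, h', mul_smul]

theorem Eval_N_prod {ι : Type*} (s : Multiset ι) (f : ι → k) (g : ι → R)
    (h : ∀ i, Eval_N B (f i) (g i)) : Eval_N B (s.map f).prod (s.map g).prod := by
  induction s using Multiset.induction with
  | empty => simpa using Eval_N_one
  | cons i s ih =>
    rw [Multiset.map_cons, Multiset.map_cons, Multiset.prod_cons, Multiset.prod_cons]
    exact Eval_N_mul (h i) ih

omit [CommRing k] [Module k (B × Oc R)] [IsScalarTower k (B × Oc R) (B × Oc R)] in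
theorem Eval_wd (x : ℤ → B × Oc R) (l : List ℤ) : (wd x l).2 = wd (fun i => (x i).2) l := by
  induction l using List.reverseRecOn with
  | nil => rfl
  | append_singleton l i ih => rw [wd_append_single, wd_append_single, Prod.snd_mul, ih]

variable [StarRing B] (Q : QA k (B × Oc R)) (hQt : ∀ a, Q.t a • (1 : B × Oc R) = a + star a)
  (hQn : ∀ a, Q.n a • (1 : B × Oc R) = a * star a)

include hQt hQn in
theorem Eval_val (x : ℤ → B × Oc R) (D : Dg) :
    Eval_N B (D.val Q x) (D.val (Oc.qa R) (fun i => (x i).2)) := by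
  unfold Dg.val
  refine Eval_N_mul (Eval_N_prod _ _ _ fun l => ?_) (Eval_N_prod _ _ _ fun i => ?_)
  · unfold Eval_N QA.T
    rw [hQt, Prod.snd_add, Prod.snd_star, Eval_oc_add, Eval_wd]
  · unfold Eval_N
    rw [hQn, Prod.snd_mul, Prod.snd_star, Eval_oc_mul]

include hQt hQn in
theorem Eval_snd (x : ℤ → B × Oc R) (D : Dg) (l : List ℤ) :
    (D.val Q x • wd x l).2 =
      D.val (Oc.qa R) (fun i => (x i).2) • wd (fun i => (x i).2) l := by
  rw [Eval_N_smul (Eval_val Q hQt hQn x D), Eval_wd]

end naturality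

section diagrams

theorem Eval_mem_ct {D : Dg} {l : List ℤ} (hl : l ∈ D.b) {i : ℤ} (hi : i ∈ l) : i ∈ D.ct := by
  obtain ⟨t, ht⟩ := Multiset.exists_cons_of_mem hl
  unfold Dg.ct
  rw [ht, Multiset.map_cons, Multiset.sum_cons, Multiset.mem_add, Multiset.mem_add]
  exact Or.inl (Or.inl (by simpa using hi))

/-- `E` is `D` with one more block `l ++ [N]` -/
def Eval_G (N : ℤ) (E D : Dg) (l : List ℤ) : Prop :=
  (∀ i ∈ D.ct, i < N) ∧ (∀ i ∈ l, i < N) ∧ E = D + Dg.bl (l ++ [N])

theorem Eval_G_uniq {N : ℤ} {E D D' : Dg} {l l' : List ℤ} (h : Eval_G N E D l)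
    (h' : Eval_G N E D' l') : D = D' ∧ l = l' := by
  obtain ⟨h1, h2, h3⟩ := h
  obtain ⟨h1', h2', h3'⟩ := h'
  rw [h3] at h3'
  have hb : D.b + {l ++ [N]} = D'.b + {l' ++ [N]} := congrArg Dg.b h3'
  have hm : D.m + 0 = D'.m + 0 := congrArg Dg.m h3'
  rw [add_zero, add_zero] at hm
  have hmem : l' ++ [N] ∈ D.b + {l ++ [N]} := by rw [hb]; simp
  rcases Multiset.mem_add.1 hmem with h | h
  · exact absurd (h1 N (Eval_mem_ct h (by simp))) (lt_irrefl N)
  · have h4 : l' ++ [N] = l ++ [N] := by simpa using h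
    have h5 : l' = l := List.append_cancel_right h4
    subst h5
    exact ⟨Dg.ext (add_right_cancel hb) hm, rfl⟩

end diagrams

section main

variable {F k P : Type*} [Field F] [CommRing k] [NonAssocRing P] [Module k P]
  [IsScalarTower k P P] [SMulCommClass k P P] (Q : QA k P) (x : ℤ → P)

open Classical in
/-- the value of the open diagram coded by `E` -/
noncomputable def Eval_U (N : ℤ) (E : Dg) : P :=
  if h : ∃ z : Dg × List ℤ, Eval_G N E z.1 z.2 then
    h.choose.1.val Q x • wd x h.choose.2 else 0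

omit [IsScalarTower k P P] [SMulCommClass k P P] in
theorem Eval_U_eq {N : ℤ} {E D : Dg} {l : List ℤ} (h : Eval_G N E D l) :
    Eval_U Q x N E = D.val Q x • wd x l := by
  have hex : ∃ z : Dg × List ℤ, Eval_G N E z.1 z.2 := ⟨(D, l), h⟩
  unfold Eval_U
  rw [dif_pos hex]
  obtain ⟨h1, h2⟩ := Eval_G_uniq hex.choose_spec h
  rw [h1, h2]

/-- the codes -/
def Eval_E (N : ℤ) : Set Dg := {E | E.Rep ∧ ∃ D l, Eval_G N E D l}

theorem Eval_W0 {N : ℤ} {a : P} (h : a ∈ W0 Q x N) :
    a ∈ AddSubgroup.closure (Eval_U Q x N '' Eval_E N) := by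
  have h1 : W0 Q x N ≤ AddSubgroup.closure (Eval_U Q x N '' Eval_E N) := by
    unfold W0
    rw [AddSubgroup.closure_le]
    rintro v ⟨D, l, hD, hl, hY, hY', rfl⟩
    have h2 := span_open Q x N D l hD hl hY hY'
    refine (AddSubgroup.closure_mono ?_) h2
    rintro v ⟨D', l', h3, h4, h5, rfl⟩
    exact ⟨D' + Dg.bl (l' ++ [N]), ⟨h3, D', l', h4, h5, rfl⟩, Eval_U_eq Q x ⟨h4, h5, rfl⟩⟩
  exact h1 h

variable [StarRing P]

theorem Eval_mono (hQt : ∀ a, Q.t a • (1 : P) = a + star a) (w : FreeMagma (ℕ ⊕ ℕ)) :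
    ∃ N0 : ℤ, ∀ N ≥ N0, ∀ y : ℤ → P,
      FreeMagma.lift (Sum.elim (fun i : ℕ => y i) (fun i : ℕ => star (y i))) w ∈ W0 Q y N := by
  induction w using FreeMagma.recOnMul with
  | ih1 z =>
    cases z with
    | inl i =>
      refine ⟨(i : ℤ) + 1, fun N hN y => ?_⟩
      rw [FreeMagma.lift_of]
      exact W0_x Q y (by omega)
    | inr i =>
      refine ⟨(i : ℤ) + 1, fun N hN y => ?_⟩
      rw [FreeMagma.lift_of]
      show star (y i) ∈ W0 Q y N
      have h1 := W0_star Q y (W0_x Q y (show (i : ℤ) < N by omega))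
      rw [hQt, add_sub_cancel_left] at h1
      exact h1
  | ih2 a b ha hb =>
    obtain ⟨N1, h1⟩ := ha
    obtain ⟨N2, h2⟩ := hb
    refine ⟨max N1 N2, fun N hN y => ?_⟩
    rw [map_mul]
    exact W0_mul Q y (h1 N (le_trans (le_max_left _ _) hN) y)
      (h2 N (le_trans (le_max_right _ _) hN) y)

variable [Module F P] [IsScalarTower F P P] [SMulCommClass F P P]

theorem Eval_span (hQt : ∀ a, Q.t a • (1 : P) = a + star a)
    (f : FreeNonUnitalNonAssocAlgebra F (ℕ ⊕ ℕ)) :
    ∃ N0 : ℤ, ∀ N ≥ N0, ∀ y : ℤ → P, FreeNonUnitalNonAssocAlgebra.lift F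
      (Sum.elim (fun i : ℕ => y i) (fun i : ℕ => star (y i))) f ∈
        Submodule.span F (Eval_U Q y N '' Eval_E N) := by
  induction f using MonoidAlgebra.induction_linear with
  | zero =>
    refine ⟨0, fun N _ y => ?_⟩
    rw [map_zero]
    exact Submodule.zero_mem _
  | add f g hf hg =>
    obtain ⟨N1, h1⟩ := hf
    obtain ⟨N2, h2⟩ := hg
    refine ⟨max N1 N2, fun N hN y => ?_⟩
    rw [map_add]
    exact Submodule.add_mem _ (h1 N (le_trans (le_max_left _ _) hN) y)
      (h2 N (le_trans (le_max_right _ _) hN) y)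
  | single w c =>
    obtain ⟨N1, h1⟩ := Eval_mono Q hQt w
    refine ⟨N1, fun N hN y => ?_⟩
    have h2 : FreeNonUnitalNonAssocAlgebra.lift F
        (Sum.elim (fun i : ℕ => y i) (fun i : ℕ => star (y i)))
        (MonoidAlgebra.single w c) =
        c • FreeMagma.lift (Sum.elim (fun i : ℕ => y i) (fun i : ℕ => star (y i))) w := by
      have h3 : MonoidAlgebra.single w c = c • MonoidAlgebra.ofMagma F (FreeMagma (ℕ ⊕ ℕ)) w := by
        rw [MonoidAlgebra.ofMagma_apply, MonoidAlgebra.smul_single', mul_one]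
      have h4 := DFunLike.congr_fun ((MonoidAlgebra.liftMagma (A := P) F).symm_apply_apply
        (FreeMagma.lift (Sum.elim (fun i : ℕ => y i) (fun i : ℕ => star (y i))))) w
      rw [h3, map_smul]
      exact congrArg (fun z => c • z) h4
    rw [h2]
    refine Submodule.smul_mem _ _ ?_
    have h3 := Eval_W0 Q y (h1 N hN y)
    have h4 : AddSubgroup.closure (Eval_U Q y N '' Eval_E N) ≤
        (Submodule.span F (Eval_U Q y N '' Eval_E N)).toAddSubgroup := by
      rw [AddSubgroup.closure_le]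
      exact Submodule.subset_span
    exact h4 h3

end main

section final

variable {F B : Type*} [Field F] [NonAssocRing B] [StarRing B] [Module F B]
    [IsScalarTower F B B] [SMulCommClass F B B]

/-- the ring of the coordinates -/
abbrev Eval_R (F : Type*) [Field F] := Polynomial (MvPolynomial (ℤ × Fin 9) F)

theorem Eval_lift_fst (g : ℕ ⊕ ℕ → B × Oc (Eval_R F)) (f : FreeNonUnitalNonAssocAlgebra F (ℕ ⊕ ℕ)) :
    (FreeNonUnitalNonAssocAlgebra.lift F g f).1 =
      FreeNonUnitalNonAssocAlgebra.lift F (fun i => (g i).1) f := by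
  have h : (NonUnitalAlgHom.fst F B (Oc (Eval_R F))).comp (FreeNonUnitalNonAssocAlgebra.lift F g) =
      FreeNonUnitalNonAssocAlgebra.lift F (fun i => (g i).1) := by
    refine FreeNonUnitalNonAssocAlgebra.hom_ext F fun i => ?_
    show (FreeNonUnitalNonAssocAlgebra.lift F g (FreeNonUnitalNonAssocAlgebra.of F i)).1 = _
    rw [FreeNonUnitalNonAssocAlgebra.lift_of_apply, FreeNonUnitalNonAssocAlgebra.lift_of_apply]
  exact DFunLike.congr_fun h f

theorem Eval_lift_snd (g : ℕ ⊕ ℕ → B × Oc (Eval_R F)) (f : FreeNonUnitalNonAssocAlgebra F (ℕ ⊕ ℕ)) :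
    (FreeNonUnitalNonAssocAlgebra.lift F g f).2 =
      FreeNonUnitalNonAssocAlgebra.lift F (fun i => (g i).2) f := by
  have h : (NonUnitalAlgHom.snd F B (Oc (Eval_R F))).comp (FreeNonUnitalNonAssocAlgebra.lift F g) =
      FreeNonUnitalNonAssocAlgebra.lift F (fun i => (g i).2) := by
    refine FreeNonUnitalNonAssocAlgebra.hom_ext F fun i => ?_
    show (FreeNonUnitalNonAssocAlgebra.lift F g (FreeNonUnitalNonAssocAlgebra.of F i)).2 = _
    rw [FreeNonUnitalNonAssocAlgebra.lift_of_apply, FreeNonUnitalNonAssocAlgebra.lift_of_apply]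
  exact DFunLike.congr_fun h f

end final

/-- Core: a star polynomial which vanishes at the special points vanishes in all unital algebras -/
theorem eval_zero (F : Type*) [Field F] (B : Type*) [NonAssocRing B] [StarRing B] [Module F B]
    [IsScalarTower F B B] [SMulCommClass F B B] (hF : ∀ (c : F) (b : B), star (c • b) = c • star b)
    (h1 : ∀ x y : B, (x * x) * y = x * (x * y)) (h2 : ∀ x y : B, (y * x) * x = y * (x * x))
    (h3 : ∀ x : B, x + star x ∈ Set.center B) (h4 : ∀ x : B, x * star x ∈ Set.center B)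
    (f : FreeNonUnitalNonAssocAlgebra F (ℕ ⊕ ℕ))
    (hf : ∀ M : ℤ, FreeNonUnitalNonAssocAlgebra.lift F
      (Sum.elim (fun i : ℕ => xi F M i) (fun i : ℕ => star (xi F M i))) f = 0)
    (v : ℕ → B) : FreeNonUnitalNonAssocAlgebra.lift F (Sum.elim v (fun i => star (v i))) f = 0 := by
  classical
  obtain ⟨k, _, _, _, _, Q, hQt, hQn⟩ := exists_qa_center (B × Oc (Eval_R F))
    (fun x y => Prod.ext (h1 x.1 y.1) ((Oc.qa (Eval_R F)).alt_left x.2 y.2))
    (fun x y => Prod.ext (h2 x.1 y.1) ((Oc.qa (Eval_R F)).alt_right x.2 y.2))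
    (fun x => by
      rw [Set.center_prod]
      refine ⟨h3 x.1, ?_⟩
      show x.2 + star x.2 ∈ Set.center (Oc (Eval_R F))
      rw [Eval_oc_add]
      exact Eval_oc_center _)
    (fun x => by
      rw [Set.center_prod]
      refine ⟨h4 x.1, ?_⟩
      show x.2 * star x.2 ∈ Set.center (Oc (Eval_R F))
      rw [Eval_oc_mul]
      exact Eval_oc_center _)
  obtain ⟨N, hN⟩ := Eval_span (F := F) Q hQt f
  let x : ℤ → B × Oc (Eval_R F) := fun i => (v i.toNat, xi F (N + 1) i)
  have hx := hN N le_rfl x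
  rw [Finsupp.mem_span_image_iff_linearCombination] at hx
  obtain ⟨c, hc, hsum⟩ := hx
  rw [Finsupp.mem_supported] at hc
  rw [Finsupp.linearCombination_apply, Finsupp.sum] at hsum
  have hval : FreeNonUnitalNonAssocAlgebra.lift F
      (Sum.elim (fun i : ℕ => x i) (fun i : ℕ => star (x i))) f = 0 := by
    have hzero : ∑ E ∈ c.support, Polynomial.C (MvPolynomial.C (c E)) *
        E.val (Oc.qa (Eval_R F)) (xi F (N + 1)) = 0 := by
      have h5 : (FreeNonUnitalNonAssocAlgebra.lift F
          (Sum.elim (fun i : ℕ => x i) (fun i : ℕ => star (x i))) f).2 = 0 := by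
        rw [Eval_lift_snd]
        rw [← hf (N + 1)]
        congr 2
        funext i
        cases i <;> rfl
      rw [← hsum] at h5
      have h6 : (∑ E ∈ c.support, c E • Eval_U Q x N E).2 =
          ∑ E ∈ c.support, c E • (Eval_U Q x N E).2 := by
        rw [Prod.snd_sum]
        rfl
      rw [h6] at h5
      have h7 : (Oc.qa (Eval_R F)).t
          ((∑ E ∈ c.support, c E • (Eval_U Q x N E).2) * xi F (N + 1) N) = 0 := by
        rw [h5, zero_mul, map_zero]
      rw [Finset.sum_mul, map_sum] at h7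
      rw [← h7]
      refine Finset.sum_congr rfl fun E hE => ?_
      obtain ⟨hrep, D, l, hG⟩ := hc hE
      rw [Eval_U_eq Q x hG, Eval_snd Q hQt hQn]
      have hxi : (fun i => (x i).2) = xi F (N + 1) := rfl
      rw [hxi, hG.2.2]
      have h8 : (D + Dg.bl (l ++ [N])).val (Oc.qa (Eval_R F)) (xi F (N + 1)) =
          D.val (Oc.qa (Eval_R F)) (xi F (N + 1)) *
            (Oc.qa (Eval_R F)).t (wd (xi F (N + 1)) l * xi F (N + 1) N) := by
        rw [← wd_append_single]
        unfold Dg.val QA.T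
        simp only [Dg.add_b, Dg.add_m, Dg.bl_b, Dg.bl_m, add_zero, Multiset.map_add,
          Multiset.prod_add, Multiset.map_singleton, Multiset.prod_singleton]
        ring
      rw [h8, smul_mul_assoc, Eval_oc_smul_mul]
      have h9 : ∀ (a : F) (z : Oc (Eval_R F)), a • z =
          (Polynomial.C (MvPolynomial.C a) : Eval_R F) • z := by
        intro a z
        have h10 : ∀ r : Eval_R F, a • r = Polynomial.C (MvPolynomial.C a) * r := by
          intro r
          rw [Algebra.smul_def]
          rfl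
        ext <;> simp [h10, Oc.smul_def]
      rw [h9, map_smul, map_smul, smul_eq_mul, smul_eq_mul]
    have hc0 := indep F (N + 1) c.support (fun E hE => by
      obtain ⟨hrep, D, l, hG⟩ := hc hE
      refine ⟨hrep, fun i hi => ?_⟩
      rw [hG.2.2, Dg.ct_add, Dg.ct_bl, Multiset.mem_add] at hi
      rcases hi with hi | hi
      · have := hG.1 i hi
        omega
      · rw [Multiset.mem_coe, List.mem_append, List.mem_singleton] at hi
        rcases hi with hi | hi
        · have := hG.2.1 i hi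
          omega
        · omega) c hzero
    have hz : ∀ p : B × Oc (Eval_R F), (0 : F) • p = 0 := fun p => zero_smul F p
    rw [← hsum]
    exact Finset.sum_eq_zero fun E hE => by
      rw [hc0 E hE]
      exact hz _
  have h5 := congrArg Prod.fst hval
  rw [Eval_lift_fst] at h5
  rw [← show (0 : B × Oc (Eval_R F)).1 = 0 from rfl, ← h5]
  congr 2
  funext i
  cases i <;> simp [x]

end Pool.Agent.Smt
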