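import Pool.Agent.Smt.StarDefs
import Pool.Agent.Smt.Eval

/-!
# The quotient by the star T-ideal and its unital hull  (module StarQ)

Let `I = starTIdeal F (SS F)` (a star T-ideal: intersection) and `B₀ = F{X, X*} / I`
(see `QA`, `qmk`, `qhom` in `Pool.Agent.H.MP_41922c_al.TIdeal` for the quotient algebra; add the
involution induced by `inv`). Every choice `v : ℕ → B₀` lifts to `F{X, X*}`, so `B₀` satisfies the
six identities of `SS` for all elements, with `x*` = the involution: `B₀` is alternative, `x + x*` and
`x x*` commute with everything and `(z, y, y') = 0` for them, hence (alternating associator) they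
are in `Set.center`. The unital hull `B = F ⊕ B₀` (Mathlib `Unitization F B₀`, or by hand) with
`(c + b)* = c + b*` satisfies the hypotheses of `eval_zero`:
`(c + b) + (c + b)* = 2c + (b + b*)`, `(c + b)(c + b)* = c² + c (b + b*) + b b*`. Apply `eval_zero`
with `v i` = the class of `x_i` in `B`: the value of `f` is the class of `f` in `B₀ ⊂ B`, so `f ∈ I`.
`inv` is an involution: `inv (inv f) = f`, `inv (f * g) = inv g * inv f`, `inv` linear.
-/

set_option autoImplicit false
set_option linter.unusedSectionVars false

namespace Pool.Agent.Smt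

open FreeNonUnitalNonAssocAlgebra Pool.Agent.H.MP_41922c_al

theorem isStarTIdeal_starTIdeal {F : Type*} [CommRing F] (S : Set (FS F)) :
    IsStarTIdeal F (starTIdeal F S) ∧ S ⊆ (starTIdeal F S : Set (FS F)) := by
  refine ⟨⟨fun a f hf => ?_, fun a f hf => ?_, fun f hf => ?_, fun v f hf => ?_⟩, ?_⟩
  · rw [starTIdeal, Submodule.mem_sInf] at hf ⊢
    exact fun I hI => hI.1.mul_left _ _ (hf I hI)
  · rw [starTIdeal, Submodule.mem_sInf] at hf ⊢
    exact fun I hI => hI.1.mul_right _ _ (hf I hI)
  · rw [starTIdeal, Submodule.mem_sInf] at hf ⊢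
    exact fun I hI => hI.1.inv _ (hf I hI)
  · rw [starTIdeal, Submodule.mem_sInf] at hf ⊢
    exact fun I hI => hI.1.map _ _ (hf I hI)
  · intro f hf
    rw [SetLike.mem_coe, starTIdeal, Submodule.mem_sInf]
    exact fun I hI => hI.2 hf

namespace StarQ

noncomputable section

section inv

variable {F : Type*} [CommRing F]

theorem inv_add (f g : FS F) : inv (f + g) = inv f + inv g := by
  unfold inv
  rw [map_add, MulOpposite.unop_add]

theorem inv_zero : inv (0 : FS F) = 0 := by
  unfold inv
  rw [map_zero, MulOpposite.unop_zero]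

theorem inv_smul (c : F) (f : FS F) : inv (c • f) = c • inv f := by
  unfold inv
  rw [map_smul, MulOpposite.unop_smul]

theorem inv_mul (f g : FS F) : inv (f * g) = inv g * inv f := by
  unfold inv
  rw [map_mul, MulOpposite.unop_mul]

theorem inv_of (s : ℕ ⊕ ℕ) : inv (of F s) = of F s.swap := by
  unfold inv invHom
  rw [lift_of_apply, MulOpposite.unop_op]

theorem inv_sub (f g : FS F) : inv (f - g) = inv f - inv g := by
  have h := inv_add (f - g) g
  rw [sub_add_cancel] at h
  rw [h, add_sub_cancel_right]

/-- the square of the involution as a homomorphism -/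
def inv2 : FS F →ₙₐ[F] FS F where
  toFun f := inv (inv f)
  map_smul' c f := by
    rw [inv_smul, inv_smul]
    rfl
  map_zero' := by rw [inv_zero, inv_zero]
  map_add' f g := by rw [inv_add, inv_add]
  map_mul' f g := by rw [inv_mul, inv_mul]

theorem inv_inv (f : FS F) : inv (inv f) = f := by
  have h : (inv2 : FS F →ₙₐ[F] FS F) = NonUnitalAlgHom.id F (FS F) := by
    refine hom_ext _ (fun s => ?_)
    show inv (inv (of F s)) = of F s
    rw [inv_of, inv_of, Sum.swap_swap]
  exact DFunLike.congr_fun h f

end inv

section quot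

variable {F : Type*} [CommRing F]

/-- the quotient of the free algebra with involution by a T-ideal with involution -/
@[nolint unusedArguments]
def Q {I : Submodule F (FS F)} (_ : IsStarTIdeal F I) : Type _ := FS F ⧸ I

variable {I : Submodule F (FS F)} (hI : IsStarTIdeal F I)

instance : AddCommGroup (Q hI) := inferInstanceAs (AddCommGroup (FS F ⧸ I))
instance : Module F (Q hI) := inferInstanceAs (Module F (FS F ⧸ I))

/-- the class of a polynomial -/
def mk (f : FS F) : Q hI := Submodule.Quotient.mk f

theorem mk_eq (f g : FS F) : mk hI f = mk hI g ↔ f - g ∈ I := Submodule.Quotient.eq I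

theorem mk_surj (x : Q hI) : ∃ f, mk hI f = x := Submodule.Quotient.mk_surjective I x

instance : Mul (Q hI) :=
  ⟨fun x y => mk hI (Classical.choose (mk_surj hI x) * Classical.choose (mk_surj hI y))⟩

theorem mk_mul (f g : FS F) : mk hI f * mk hI g = mk hI (f * g) := by
  have h1 := Classical.choose_spec (mk_surj hI (mk hI f))
  have h2 := Classical.choose_spec (mk_surj hI (mk hI g))
  show mk hI (Classical.choose (mk_surj hI (mk hI f)) *
    Classical.choose (mk_surj hI (mk hI g))) = _
  set f' := Classical.choose (mk_surj hI (mk hI f))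
  set g' := Classical.choose (mk_surj hI (mk hI g))
  rw [mk_eq] at h1 h2 ⊢
  have e : f' * g' - f * g = f' * (g' - g) + (f' - f) * g := by
    rw [mul_sub, sub_mul]; abel
  rw [e]
  exact I.add_mem (hI.mul_left _ _ h2) (hI.mul_right _ _ h1)

theorem mk_add (f g : FS F) : mk hI f + mk hI g = mk hI (f + g) := rfl

theorem mk_sub (f g : FS F) : mk hI f - mk hI g = mk hI (f - g) := rfl

theorem mk_smul (k : F) (f : FS F) : k • mk hI f = mk hI (k • f) := rfl

theorem mk_zero : (0 : Q hI) = mk hI 0 := rfl

instance : NonUnitalNonAssocRing (Q hI) where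
  left_distrib x y z := by
    obtain ⟨x, rfl⟩ := mk_surj hI x
    obtain ⟨y, rfl⟩ := mk_surj hI y
    obtain ⟨z, rfl⟩ := mk_surj hI z
    rw [mk_add, mk_mul, mk_mul, mk_mul, mk_add, mul_add]
  right_distrib x y z := by
    obtain ⟨x, rfl⟩ := mk_surj hI x
    obtain ⟨y, rfl⟩ := mk_surj hI y
    obtain ⟨z, rfl⟩ := mk_surj hI z
    rw [mk_add, mk_mul, mk_mul, mk_mul, mk_add, add_mul]
  zero_mul x := by
    obtain ⟨x, rfl⟩ := mk_surj hI x
    rw [mk_zero, mk_mul, zero_mul]
  mul_zero x := by
    obtain ⟨x, rfl⟩ := mk_surj hI x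
    rw [mk_zero, mk_mul, mul_zero]

instance : IsScalarTower F (Q hI) (Q hI) where
  smul_assoc k x y := by
    obtain ⟨x, rfl⟩ := mk_surj hI x
    obtain ⟨y, rfl⟩ := mk_surj hI y
    show (k • mk hI x) * mk hI y = k • (mk hI x * mk hI y)
    rw [mk_smul, mk_mul, mk_mul, mk_smul, smul_mul_assoc]

instance : SMulCommClass F (Q hI) (Q hI) where
  smul_comm k x y := by
    obtain ⟨x, rfl⟩ := mk_surj hI x
    obtain ⟨y, rfl⟩ := mk_surj hI y
    show k • (mk hI x * mk hI y) = mk hI x * (k • mk hI y)
    rw [mk_smul, mk_mul, mk_mul, mk_smul, mul_smul_comm]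

/-- the canonical homomorphism -/
def qh : FS F →ₙₐ[F] Q hI where
  toFun := mk hI
  map_smul' k f := rfl
  map_zero' := rfl
  map_add' f g := rfl
  map_mul' f g := (mk_mul hI f g).symm

theorem qh_apply (f : FS F) : qh hI f = mk hI f := rfl

theorem mk_eq_zero (f : FS F) : mk hI f = 0 ↔ f ∈ I := by
  rw [mk_zero, mk_eq, sub_zero]

/-! ### the involution of the quotient -/

instance : Star (Q hI) := ⟨fun x => mk hI (inv (Classical.choose (mk_surj hI x)))⟩

theorem star_mk (f : FS F) : star (mk hI f) = mk hI (inv f) := by
  have h1 := Classical.choose_spec (mk_surj hI (mk hI f))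
  show mk hI (inv (Classical.choose (mk_surj hI (mk hI f)))) = _
  rw [mk_eq] at h1 ⊢
  rw [← inv_sub]
  exact hI.inv _ h1

instance : StarRing (Q hI) where
  star_involutive x := by
    obtain ⟨x, rfl⟩ := mk_surj hI x
    rw [star_mk, star_mk, inv_inv]
  star_mul x y := by
    obtain ⟨x, rfl⟩ := mk_surj hI x
    obtain ⟨y, rfl⟩ := mk_surj hI y
    rw [mk_mul, star_mk, star_mk, star_mk, mk_mul, inv_mul]
  star_add x y := by
    obtain ⟨x, rfl⟩ := mk_surj hI x
    obtain ⟨y, rfl⟩ := mk_surj hI y
    rw [mk_add, star_mk, star_mk, star_mk, mk_add, inv_add]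

theorem star_smul' (c : F) (x : Q hI) : star (c • x) = c • star x := by
  obtain ⟨x, rfl⟩ := mk_surj hI x
  rw [mk_smul, star_mk, star_mk, mk_smul, inv_smul]

/-! ### substitution -/

theorem subst {f : FS F} (hf : f ∈ I) (v : ℕ → FS F) :
    lift F (Sum.elim (fun i => mk hI (v i)) (fun i => mk hI (inv (v i)))) f = 0 := by
  have e : lift F (Sum.elim (fun i => mk hI (v i)) (fun i => mk hI (inv (v i)))) =
      (qh hI).comp (lift F (Sum.elim v (fun i => inv (v i)))) := by
    refine hom_ext _ (fun s => ?_)
    rw [NonUnitalAlgHom.comp_apply, lift_of_apply, lift_of_apply, qh_apply]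
    cases s <;> rfl
  rw [e, NonUnitalAlgHom.comp_apply, qh_apply, mk_eq_zero]
  exact hI.map _ _ hf

theorem subst' {f : FS F} (hf : f ∈ I) (v : ℕ → Q hI) :
    lift F (Sum.elim v (fun i => star (v i))) f = 0 := by
  choose s hs using mk_surj hI
  have h := subst hI hf (fun i => s (v i))
  have e1 : (fun i => mk hI (s (v i))) = v := funext fun i => hs _
  have e2 : (fun i => mk hI (inv (s (v i)))) = fun i => star (v i) := by
    funext i
    rw [← star_mk, hs]
  rw [e1, e2] at h
  exact h

end quot

section hull

variable {F : Type*} [Field F] {A : Type*} [NonUnitalNonAssocRing A] [Module F A]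
  [IsScalarTower F A A] [SMulCommClass F A A]

instance : IsScalarTower F (Unitization F A) (Unitization F A) where
  smul_assoc c x y := by
    refine Unitization.ext ?_ ?_
    · simp only [smul_eq_mul, Unitization.fst_mul, Unitization.fst_smul]
      ring
    · simp only [smul_eq_mul, Unitization.snd_mul, Unitization.snd_smul, Unitization.fst_smul,
        smul_mul_assoc, smul_add, smul_smul, mul_comm y.fst c]

instance : SMulCommClass F (Unitization F A) (Unitization F A) where
  smul_comm c x y := by
    refine Unitization.ext ?_ ?_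
    · simp only [smul_eq_mul, Unitization.fst_mul, Unitization.fst_smul]
      ring
    · simp only [smul_eq_mul, Unitization.snd_mul, Unitization.snd_smul, Unitization.fst_smul,
        mul_smul_comm, smul_add, smul_smul, mul_comm x.fst c]

/-- the inclusion in the unital hull -/
def inrHom : A →ₙₐ[F] Unitization F A where
  toFun x := (x : Unitization F A)
  map_smul' c x := Unitization.inr_smul F c x
  map_zero' := Unitization.inr_zero F
  map_add' x y := Unitization.inr_add F x y
  map_mul' x y := Unitization.inr_mul F x y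

theorem inrHom_apply (x : A) : inrHom (F := F) x = (x : Unitization F A) := rfl

/-- `z` commutes and associates with everything -/
def IsC (z : A) : Prop :=
  (∀ y, z * y = y * z) ∧ (∀ y w, (z * y) * w = z * (y * w)) ∧ ∀ y w, (y * w) * z = y * (w * z)

theorem IsC.add {z z' : A} (h : IsC z) (h' : IsC z') : IsC (z + z') := by
  refine ⟨fun y => ?_, fun y w => ?_, fun y w => ?_⟩
  · rw [add_mul, mul_add, h.1, h'.1]
  · rw [add_mul, add_mul, add_mul, h.2.1, h'.2.1]
  · rw [mul_add, mul_add, mul_add, h.2.2, h'.2.2]

theorem IsC.smul {z : A} (h : IsC z) (c : F) : IsC (c • z) := by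
  refine ⟨fun y => ?_, fun y w => ?_, fun y w => ?_⟩
  · rw [smul_mul_assoc, mul_smul_comm, h.1]
  · rw [smul_mul_assoc, smul_mul_assoc, smul_mul_assoc, h.2.1]
  · rw [mul_smul_comm, mul_smul_comm, mul_smul_comm, h.2.2]

theorem center_of {X : Unitization F A} (h : IsC X.snd) : X ∈ Set.center (Unitization F A) := by
  refine ⟨fun y => ?_, fun y w => ?_, fun y w => ?_⟩
  · refine Unitization.ext ?_ ?_
    · simp only [Unitization.fst_mul]
      ring
    · simp only [Unitization.snd_mul]
      rw [h.1]
      abel
  · refine Unitization.ext ?_ ?_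
    · simp only [Unitization.fst_mul]
      ring
    · simp only [Unitization.snd_mul, Unitization.fst_mul, mul_add, add_mul, smul_mul_assoc,
        mul_smul_comm]
      rw [h.2.1]
      module
  · refine Unitization.ext ?_ ?_
    · simp only [Unitization.fst_mul]
      ring
    · simp only [Unitization.snd_mul, Unitization.fst_mul, mul_add, add_mul, smul_mul_assoc,
        mul_smul_comm]
      rw [h.2.2]
      module

theorem hull_left (h : ∀ a b : A, (a * a) * b = a * (a * b)) (x y : Unitization F A) :
    (x * x) * y = x * (x * y) := by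
  refine Unitization.ext ?_ ?_
  · simp only [Unitization.fst_mul]
    ring
  · simp only [Unitization.snd_mul, Unitization.fst_mul, mul_add, add_mul, smul_mul_assoc,
      mul_smul_comm]
    rw [h]
    module

theorem hull_right (h : ∀ a b : A, (b * a) * a = b * (a * a)) (x y : Unitization F A) :
    (y * x) * x = y * (x * x) := by
  refine Unitization.ext ?_ ?_
  · simp only [Unitization.fst_mul]
    ring
  · simp only [Unitization.snd_mul, Unitization.fst_mul, mul_add, add_mul, smul_mul_assoc,
      mul_smul_comm]
    rw [h]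
    module

/-- in an alternative algebra `(z, y, w) = 0` for all `y`, `w` implies `(y, w, z) = 0` -/
theorem isC_of (h1 : ∀ a b : A, (a * a) * b = a * (a * b))
    (h2 : ∀ a b : A, (b * a) * a = b * (a * a)) {z : A} (hc : ∀ y, z * y = y * z)
    (ha : ∀ y w, (z * y) * w = z * (y * w)) : IsC z := by
  refine ⟨hc, ha, fun y w => ?_⟩
  have e1 : (y * w) * z - y * (w * z) = -((y * z) * w - y * (z * w)) := by
    have h := h2 (w + z) y
    simp only [mul_add, add_mul] at h
    rw [h2, h2] at h
    have h' := sub_eq_zero.2 h
    rw [eq_neg_iff_add_eq_zero, ← h']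
    abel
  have e2 : (y * z) * w - y * (z * w) = -((z * y) * w - z * (y * w)) := by
    have h := h1 (y + z) w
    simp only [mul_add, add_mul] at h
    rw [h1, h1] at h
    have h' := sub_eq_zero.2 h
    rw [eq_neg_iff_add_eq_zero, ← h']
    abel
  rw [← sub_eq_zero, e1, e2, ha, sub_self, neg_zero, neg_zero]

end hull

/-! ### the six identities in the quotient -/

section six

variable {F : Type*} [Field F] {I : Submodule F (FS F)} (hI : IsStarTIdeal F I)
  (hS : SS F ⊆ (I : Set (FS F)))

/-- three values -/
def val3 {A : Type*} (a b c : A) : ℕ → A := fun i => if i = 0 then a else if i = 1 then b else c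

include hS

theorem q_left (a b : Q hI) : (a * a) * b = a * (a * b) := by
  have h := subst' hI (f := associator (of F (Sum.inl 0)) (of F (Sum.inl 0)) (of F (Sum.inl 1)))
    (hS (by simp [SS])) (val3 a b b)
  simp only [associator, map_sub, map_mul, lift_of_apply, Sum.elim_inl, val3] at h
  exact sub_eq_zero.1 h

theorem q_right (a b : Q hI) : (b * a) * a = b * (a * a) := by
  have h := subst' hI (f := associator (of F (Sum.inl 1)) (of F (Sum.inl 0)) (of F (Sum.inl 0)))
    (hS (by simp [SS])) (val3 a b b)
  simp only [associator, map_sub, map_mul, lift_of_apply, Sum.elim_inl, val3] at h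
  exact sub_eq_zero.1 h

theorem q_add (a : Q hI) : IsC (a + star a) := by
  refine isC_of (q_left hI hS) (q_right hI hS) (fun y => ?_) (fun y w => ?_)
  · have h := subst' hI (f := com (of F (Sum.inl 0) + of F (Sum.inr 0)) (of F (Sum.inl 1)))
      (hS (by simp [SS])) (val3 a y y)
    simp only [com, map_sub, map_mul, map_add, lift_of_apply, Sum.elim_inl, Sum.elim_inr,
      val3] at h
    exact sub_eq_zero.1 h
  · have h := subst' hI (f := associator (of F (Sum.inl 0) + of F (Sum.inr 0)) (of F (Sum.inl 1))
      (of F (Sum.inl 2))) (hS (by simp [SS])) (val3 a y w)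
    simp only [associator, map_sub, map_mul, map_add, lift_of_apply, Sum.elim_inl, Sum.elim_inr,
      val3] at h
    exact sub_eq_zero.1 h

theorem q_mul (a : Q hI) : IsC (a * star a) := by
  refine isC_of (q_left hI hS) (q_right hI hS) (fun y => ?_) (fun y w => ?_)
  · have h := subst' hI (f := com (of F (Sum.inl 0) * of F (Sum.inr 0)) (of F (Sum.inl 1)))
      (hS (by simp [SS])) (val3 a y y)
    simp only [com, map_sub, map_mul, map_add, lift_of_apply, Sum.elim_inl, Sum.elim_inr,
      val3] at h
    exact sub_eq_zero.1 h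
  · have h := subst' hI (f := associator (of F (Sum.inl 0) * of F (Sum.inr 0)) (of F (Sum.inl 1))
      (of F (Sum.inl 2))) (hS (by simp [SS])) (val3 a y w)
    simp only [associator, map_sub, map_mul, map_add, lift_of_apply, Sum.elim_inl, Sum.elim_inr,
      val3] at h
    exact sub_eq_zero.1 h

end six

end

end StarQ

open StarQ in
theorem mem_starTIdeal {F : Type*} [Field F] (f : FS F)
    (hf : ∀ M : ℤ, lift F (Sum.elim (fun i : ℕ => xi F M i) (fun i : ℕ => star (xi F M i))) f = 0) :
    f ∈ starTIdeal F (SS F) := by
  obtain ⟨hI, hS⟩ := isStarTIdeal_starTIdeal (F := F) (SS F)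
  let _ : StarRing F := starRingOfComm
  have _ : StarModule F (Q hI) := ⟨fun c x => star_smul' hI c x⟩
  have h1 := hull_left (F := F) (q_left hI hS)
  have h2 := hull_right (F := F) (q_right hI hS)
  have h3 : ∀ x : Unitization F (Q hI), x + star x ∈ Set.center (Unitization F (Q hI)) :=
    fun x => center_of (q_add hI hS x.snd)
  have h4 : ∀ x : Unitization F (Q hI), x * star x ∈ Set.center (Unitization F (Q hI)) := by
    intro x
    refine center_of ?_
    have e : (x * star x).snd = x.fst • (x.snd + star x.snd) + x.snd * star x.snd := by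
      rw [Unitization.snd_mul, Unitization.snd_star, Unitization.fst_star, smul_add,
        add_comm (x.fst • x.snd)]
      rfl
    rw [e]
    exact ((q_add hI hS x.snd).smul _).add (q_mul hI hS x.snd)
  have h := eval_zero F (Unitization F (Q hI)) (fun c b => star_smul c b) h1 h2 h3 h4 f hf
    (fun i => ((mk hI (of F (Sum.inl i)) : Q hI) : Unitization F (Q hI)))
  have e : lift F (Sum.elim (fun i => ((mk hI (of F (Sum.inl i)) : Q hI) : Unitization F (Q hI)))
      (fun i => star ((mk hI (of F (Sum.inl i)) : Q hI) : Unitization F (Q hI)))) =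
      (inrHom (F := F)).comp (qh hI) := by
    refine hom_ext _ (fun s => ?_)
    rw [NonUnitalAlgHom.comp_apply, lift_of_apply, qh_apply, inrHom_apply]
    cases s with
    | inl i => rfl
    | inr i =>
      rw [Sum.elim_inr, ← Unitization.inr_star, star_mk, inv_of]
      rfl
  rw [e, NonUnitalAlgHom.comp_apply, qh_apply, inrHom_apply] at h
  rw [← mk_eq_zero hI]
  exact Unitization.inr_injective (R := F) (h.trans (Unitization.inr_zero F).symm)

end Pool.Agent.Smt
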