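import Pool.Agent.Smt.StarTr
import Pool.Agent.Smt.StarId
import Pool.Agent.Smt.StarQ

/-!
# Main theorem on identities with involution
-/

set_option autoImplicit false

namespace Pool.Agent.Smt

open FreeNonUnitalNonAssocAlgebra Pool.Agent.H.MP_41922c_al

theorem main {F : Type*} [Field F] [Infinite F] {ν β γ : F} (h : (1 - 4 * ν) * β * γ ≠ 0)
    (f : FS F) : IsStarIdentity ν β γ f ↔ f ∈ starTIdeal F (SS F) := by
  constructor
  · intro hf
    exact mem_starTIdeal f fun M => star_transfer h hf _ _
  · intro hf
    have h1 := isStarTIdeal_identities ν β γ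
    have h2 : starTIdeal F (SS F) ≤ _ := sInf_le ⟨h1, fun g hg => SS_identity hg⟩
    exact h2 hf

end Pool.Agent.Smt
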