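import Pool.Agent.Smt.Final

/-!
# The class of alternative algebras with central traces and norms; ordinary identities
-/

set_option autoImplicit false

namespace Pool.Agent.Smt

open FreeNonUnitalNonAssocAlgebra Pool.Agent.H.MP_41922c_al

/-- `A` is an alternative algebra with the involution `σ`, such that all elements `x + σ x` and
`x (σ x)` commute and associate with all elements. -/
structure IsCentralInv (F : Type*) [CommRing F] (A : Type*) [NonUnitalNonAssocRing A] [Module F A]
    (σ : A →ₗ[F] A) : Prop where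
  left : ∀ x y : A, associator x x y = 0
  right : ∀ x y : A, associator y x x = 0
  invol : ∀ x : A, σ (σ x) = x
  mul : ∀ x y : A, σ (x * y) = σ y * σ x
  tr_comm : ∀ x y : A, com (x + σ x) y = 0
  tr_assoc : ∀ x y z : A, associator (x + σ x) y z = 0
  nm_comm : ∀ x y : A, com (x * σ x) y = 0
  nm_assoc : ∀ x y z : A, associator (x * σ x) y z = 0

/-- the inclusion `F{X} ⊂ F{X, X*}` -/
noncomputable def unst (F : Type*) [CommRing F] :
    FreeNonUnitalNonAssocAlgebra F ℕ →ₙₐ[F] FS F := lift F (fun i => of F (Sum.inl i))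

section

variable {F : Type*} [CommRing F] {A : Type*} [NonUnitalNonAssocRing A] [Module F A]
  [IsScalarTower F A A] [SMulCommClass F A A] {σ : A →ₗ[F] A}

/-- `σ` as a homomorphism to the opposite algebra -/
private def Class_hom (h : IsCentralInv F A σ) : A →ₙₐ[F] Aᵐᵒᵖ where
  toFun x := MulOpposite.op (σ x)
  map_smul' k x := by
    show MulOpposite.op (σ (k • x)) = k • MulOpposite.op (σ x)
    rw [map_smul, MulOpposite.op_smul]
  map_zero' := by rw [map_zero, MulOpposite.op_zero]
  map_add' x y := by rw [map_add, MulOpposite.op_add]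
  map_mul' x y := by rw [h.mul, MulOpposite.op_mul]

/-- the opposite homomorphism -/
private noncomputable def Class_op (φ : FS F →ₙₐ[F] A) : (FS F)ᵐᵒᵖ →ₙₐ[F] Aᵐᵒᵖ where
  toFun x := MulOpposite.op (φ x.unop)
  map_smul' k x := by
    show MulOpposite.op (φ (k • x).unop) = k • MulOpposite.op (φ x.unop)
    rw [MulOpposite.unop_smul, map_smul, MulOpposite.op_smul]
  map_zero' := by rw [MulOpposite.unop_zero, map_zero, MulOpposite.op_zero]
  map_add' x y := by rw [MulOpposite.unop_add, map_add, MulOpposite.op_add]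
  map_mul' x y := by rw [MulOpposite.unop_mul, map_mul, MulOpposite.op_mul]

theorem Class_inv (h : IsCentralInv F A σ) (φ : FS F →ₙₐ[F] A)
    (hφ : ∀ i, φ (of F (Sum.inr i)) = σ (φ (of F (Sum.inl i)))) (f : FS F) :
    φ (inv f) = σ (φ f) := by
  have h : (Class_op φ).comp (invHom F) = (Class_hom h).comp φ := by
    refine hom_ext _ (fun s => ?_)
    rw [NonUnitalAlgHom.comp_apply, NonUnitalAlgHom.comp_apply]
    show MulOpposite.op (φ (invHom F (of F s)).unop) = MulOpposite.op (σ (φ (of F s)))
    rw [invHom, lift_of_apply, MulOpposite.unop_op]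
    rcases s with i | i
    · rw [Sum.swap_inl, hφ]
    · rw [Sum.swap_inr, hφ, h.invol]
  exact congrArg (fun g : FS F →ₙₐ[F] Aᵐᵒᵖ => (g f).unop) h

/-- consequences of the six identities hold in every alternative algebra with central traces and
norms -/
theorem Class_mem (h : IsCentralInv F A σ) {f : FS F} (hf : f ∈ starTIdeal F (SS F))
    (φ : FS F →ₙₐ[F] A) (hφ : ∀ i, φ (of F (Sum.inr i)) = σ (φ (of F (Sum.inl i)))) : φ f = 0 := by
  let J : Submodule F (FS F) :=
    { carrier := {f : FS F | ∀ φ : FS F →ₙₐ[F] A,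
        (∀ i, φ (of F (Sum.inr i)) = σ (φ (of F (Sum.inl i)))) → φ f = 0}
      zero_mem' := fun φ _ => map_zero φ
      add_mem' := fun {f g} hf hg φ h => by rw [map_add, hf φ h, hg φ h, add_zero]
      smul_mem' := fun k f hf φ h => by rw [map_smul, hf φ h, smul_zero] }
  have h1 : IsStarTIdeal F J := by
    refine ⟨fun a f hf φ h => ?_, fun a f hf φ h => ?_, fun f hf φ h' => ?_, fun v f hf φ h' => ?_⟩
    · rw [map_mul, hf φ h, mul_zero]
    · rw [map_mul, hf φ h, zero_mul]
    · rw [Class_inv h φ h', hf φ h', map_zero]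
    · have h1 := hf (φ.comp (lift F (Sum.elim v (fun i => inv (v i))))) (fun i => by
        rw [NonUnitalAlgHom.comp_apply, NonUnitalAlgHom.comp_apply, lift_of_apply, lift_of_apply,
          Sum.elim_inr, Sum.elim_inl, Class_inv h φ h'])
      exact h1
  have h2 : SS F ⊆ (J : Set (FS F)) := by
    intro g hg φ hφ
    simp only [SS, Set.mem_insert_iff, Set.mem_singleton_iff] at hg
    have hc : ∀ a b : FS F, φ (com a b) = com (φ a) (φ b) := fun a b => by
      simp only [com, map_sub, map_mul]
    have ha : ∀ a b c : FS F, φ (associator a b c) = associator (φ a) (φ b) (φ c) := fun a b c => by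
      simp only [associator_apply, map_sub, map_mul]
    rcases hg with rfl | rfl | rfl | rfl | rfl | rfl
    · rw [ha]; exact h.left _ _
    · rw [ha]; exact h.right _ _
    · rw [hc, map_add, hφ]; exact h.tr_comm _ _
    · rw [ha, map_add, hφ]; exact h.tr_assoc _ _ _
    · rw [hc, map_mul, hφ]; exact h.nm_comm _ _
    · rw [ha, map_mul, hφ]; exact h.nm_assoc _ _ _
  exact (sInf_le ⟨h1, h2⟩ : starTIdeal F (SS F) ≤ J) hf φ hφ

end

/-- the involution `cj` of the octonion algebra, as a linear map -/
def cjL (F : Type*) [CommRing F] (ν β γ : F) : CD F ν β γ →ₗ[F] CD F ν β γ where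
  toFun := cj
  map_add' := starId_cj_add
  map_smul' := starId_cj_smul

theorem Class_cd {F : Type*} [CommRing F] (ν β γ : F) :
    IsCentralInv F (CD F ν β γ) (cjL F ν β γ) := by
  have key : ∀ f ∈ SS F, ∀ x y z : CD F ν β γ, lift F (Sum.elim
      (fun i : ℕ => if i = 0 then x else if i = 1 then y else z)
      (fun i : ℕ => cj (if i = 0 then x else if i = 1 then y else z))) f = 0 := by
    intro f hf x y z
    refine SS_identity hf _ (fun i => ?_)
    rw [lift_of_apply, lift_of_apply, Sum.elim_inr, Sum.elim_inl]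
  simp only [SS, Set.mem_insert_iff, Set.mem_singleton_iff, forall_eq_or_imp, forall_eq] at key
  simp only [com, associator_apply, map_sub, map_mul, map_add, lift_of_apply, Sum.elim_inl,
    Sum.elim_inr, if_true, if_false, OfNat.one_ne_ofNat, OfNat.ofNat_ne_one, one_ne_zero,
    OfNat.ofNat_ne_zero] at key
  obtain ⟨k1, k2, k3, k4, k5, k6⟩ := key
  refine ⟨fun x y => ?_, fun x y => ?_, starId_cj_cj, starId_cj_mul, fun x y => ?_,
    fun x y z => ?_, fun x y => ?_, fun x y z => ?_⟩
  · rw [associator_apply]; exact k1 x y y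
  · rw [associator_apply]; exact k2 x y y
  · exact k3 x y y
  · rw [associator_apply]; exact k4 x y z
  · exact k5 x y y
  · rw [associator_apply]; exact k6 x y z

/-- ordinary identities are the identities with involution without stars -/
theorem unst_iff {F : Type*} [CommRing F] {A : Type*} [NonUnitalNonAssocRing A] [Module F A]
    [IsScalarTower F A A] [SMulCommClass F A A] (σ : A →ₗ[F] A)
    (g : FreeNonUnitalNonAssocAlgebra F ℕ) :
    IsIdentity F A g ↔ ∀ φ : FS F →ₙₐ[F] A,
      (∀ i, φ (of F (Sum.inr i)) = σ (φ (of F (Sum.inl i)))) → φ (unst F g) = 0 := by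
  constructor
  · intro h φ _
    exact h (φ.comp (unst F))
  · intro h ψ
    let φ : FS F →ₙₐ[F] A := lift F (Sum.elim (fun i => ψ (of F i)) (fun i => σ (ψ (of F i))))
    have h1 : φ.comp (unst F) = ψ := by
      refine hom_ext _ (fun i => ?_)
      rw [NonUnitalAlgHom.comp_apply, unst, lift_of_apply, lift_of_apply, Sum.elim_inl]
    have h2 := h φ (fun i => by
      rw [lift_of_apply, lift_of_apply, Sum.elim_inr, Sum.elim_inl])
    rw [← h1]
    exact h2

universe u

theorem main_tfae_star {F : Type u} [Field F] [Infinite F] {ν β γ : F}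
    (h : (1 - 4 * ν) * β * γ ≠ 0) (f : FS F) :
    List.TFAE [IsStarIdentity ν β γ f,
      ∀ (A : Type u) [NonUnitalNonAssocRing A] [Module F A] [IsScalarTower F A A]
        [SMulCommClass F A A] (σ : A →ₗ[F] A), IsCentralInv F A σ → ∀ φ : FS F →ₙₐ[F] A,
        (∀ i, φ (of F (Sum.inr i)) = σ (φ (of F (Sum.inl i)))) → φ f = 0,
      f ∈ starTIdeal F (SS F)] := by
  tfae_have 1 → 3 := (main h f).1
  tfae_have 3 → 2 := fun h3 A _ _ _ _ σ hσ φ hφ => Class_mem hσ h3 φ hφ
  tfae_have 2 → 1 := fun h2 φ hφ => h2 (CD F ν β γ) (cjL F ν β γ) (Class_cd ν β γ) φ hφ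
  tfae_finish

theorem main_tfae_ord {F : Type u} [Field F] [Infinite F] {ν β γ : F}
    (h : (1 - 4 * ν) * β * γ ≠ 0) (g : FreeNonUnitalNonAssocAlgebra F ℕ) :
    List.TFAE [IsIdentity F (CD F ν β γ) g,
      ∀ (A : Type u) [NonUnitalNonAssocRing A] [Module F A] [IsScalarTower F A A]
        [SMulCommClass F A A] (σ : A →ₗ[F] A), IsCentralInv F A σ → IsIdentity F A g,
      unst F g ∈ starTIdeal F (SS F)] := by
  have k := main_tfae_star h (unst F g)
  tfae_have 1 → 3 := fun h1 => (k.out 0 2).1 (fun φ hφ => (unst_iff (cjL F ν β γ) g).1 h1 φ hφ)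
  tfae_have 3 → 2 := fun h3 A _ _ _ _ σ hσ => (unst_iff σ g).2 (fun φ hφ => Class_mem hσ h3 φ hφ)
  tfae_have 2 → 1 := fun h2 => h2 (CD F ν β γ) (cjL F ν β γ) (Class_cd ν β γ)
  tfae_finish

end Pool.Agent.Smt
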