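import Pool.Agent.Smt.Basic

/-!
# Products of right-normed words, with weights  (module FilR)

Mirror image of `FilL` (you may copy its structure, or use `Aᵐᵒᵖ` and `i ↦ -i`). Mirror formulas:
from `QA.lin` and the left alternative law
`b * (u * a) = -(u * (b * a)) + t(u) (b a) + t(b) (u a) - (t(b) t(u) - t(u b)) a` and
`(u * b) * a = -(u * (b * a)) + t(a) (u b) + t(b) (u a) + t(u) (b a) - (t(b) t(u) - t(u b)) a
 - t(u a) b - (t(a) t(b) - t(b a)) u + (t(a) t(b) t(u) - t(a) t(u b) - t(b a) t(u) + t(u (b a))) 1`,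
`u (u z) = t(u) u z - n(u) z`. Strong induction on the number of letters, `u` the smallest letter.
-/

set_option autoImplicit false
set_option linter.unusedSectionVars false

namespace Pool.Agent.Smt

variable {k A : Type*} [CommRing k] [NonAssocRing A] [Module k A] [IsScalarTower k A A]
  [SMulCommClass k A A] (Q : QA k A) (x : ℤ → A)

theorem FilR_m1 (u b a : A) : b * (u * a) = -(u * (b * a)) + Q.t u • (b * a) + Q.t b • (u * a)
    - (Q.t b * Q.t u - Q.t (u * b)) • a := by
  have h := Q.alt_left (u + b) a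
  have hu := Q.alt_left u a
  have hb := Q.alt_left b a
  have e : (u * b + b * u) * a = u * (b * a) + b * (u * a) := by
    simp only [mul_add, add_mul] at h
    rw [hu, hb] at h
    have e1 : (u * b + b * u) * a = (u * (u * a) + b * u * a + (u * b * a + b * (b * a)))
      - u * (u * a) - b * (b * a) := by
      rw [add_mul]
      abel
    rw [e1, h]
    abel
  have e2 : b * (u * a) = (u * b + b * u) * a - u * (b * a) := by
    rw [e]
    abel
  rw [e2, Q.lin u b]
  simp only [sub_mul, add_mul, smul_mul_assoc, one_mul]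
  module

theorem FilR_m2 (u b a : A) : (u * b) * a = -(u * (b * a)) + Q.t a • (u * b) + Q.t b • (u * a)
    + Q.t u • (b * a) - (Q.t b * Q.t u - Q.t (u * b)) • a - Q.t (u * a) • b
    - (Q.t a * Q.t b - Q.t (b * a)) • u
    + (Q.t a * Q.t b * Q.t u - Q.t a * Q.t (u * b) - Q.t (b * a) * Q.t u
        + Q.t (u * (b * a))) • (1 : A) := by
  have h1 : (u * b) * a = Q.t (u * b) • a + Q.t a • (u * b)
      - (Q.t (u * b) * Q.t a - Q.t ((u * b) * a)) • (1 : A) - a * (u * b) := by
    rw [← Q.lin (u * b) a]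
    abel
  have h2 : a * b = Q.t a • b + Q.t b • a - (Q.t a * Q.t b - Q.t (a * b)) • (1 : A) - b * a := by
    rw [← Q.lin a b]
    abel
  rw [h1, FilR_m1 Q u a b, Q.t_assoc u b a]
  rw [h2, Q.t_comm a b]
  simp only [mul_sub, mul_add, mul_smul_comm, mul_one]
  module

theorem FilR_m3 (u z : A) : u * (u * z) = Q.t u • (u * z) - Q.n u • z := by
  rw [← Q.alt_left, Q.sq, sub_mul, smul_mul_assoc, smul_mul_assoc, one_mul]

theorem FilR_cast {C w w' : ℤ} {d d' : Multiset ℤ} {a : A} (h : a ∈ WR Q x C w d) (hw : w ≤ w')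
    (hd : d = d') : a ∈ WR Q x C w' d' := by
  subst hd
  exact WR_mono Q x hw d h

theorem FilR_coe (u : ℤ) (l : List ℤ) :
    ((u :: l : List ℤ) : Multiset ℤ) = {u} + (l : Multiset ℤ) := rfl

theorem FilR_orr_cons (u : ℤ) (l : List ℤ) : orr u (u :: l) = orr u l := by
  unfold orr
  rw [if_neg (List.cons_ne_nil u l)]
  split_ifs with h
  · rw [h, la_single, sub_self]
  · rw [la_cons u h]

theorem FilR_orr_cut {C u : ℤ} {l : List ℤ} (h : l ≠ []) : orr C l = orr u l + (u - C) := by
  unfold orr
  rw [if_neg h, if_neg h]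
  ring

theorem FilR_orr_le {C u : ℤ} (hC : C ≤ u) (l : List ℤ) : orr C l ≤ orr u l + (u - C) := by
  by_cases h : l = []
  · subst h
    unfold orr
    rw [if_pos rfl, if_pos rfl]
    linarith
  · exact (FilR_orr_cut h).le

/-- lowering the cut -/
theorem FilR_cut {C u w : ℤ} (hC : C ≤ u) {d : Multiset ℤ} {z : A} (hz : z ∈ WR Q x u w d) :
    z ∈ WR Q x C (w + (u - C)) d := by
  induction hz using AddSubgroup.closure_induction with
  | mem z hz =>
    obtain ⟨D, l, h1, h2, rfl, h4, rfl⟩ := hz
    refine mem_WR Q x h1 h2 ?_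
    have := FilR_orr_le hC l
    linarith
  | zero => exact zero_mem _
  | add a b _ _ ha hb => exact add_mem ha hb
  | neg a _ ha => exact neg_mem ha

/-- multiplication with the smallest letter -/
theorem FilR_head {u w : ℤ} {d : Multiset ℤ} (hd : ∀ i ∈ d, u ≤ i) {z : A}
    (hz : z ∈ WR Q x u w d) : x u * z ∈ WR Q x u w ({u} + d) := by
  induction hz using AddSubgroup.closure_induction with
  | mem z hz =>
    obtain ⟨D, r, h1, h2, rfl, h4, rfl⟩ := hz
    rw [mul_smul_comm]
    have hr : ∀ i ∈ r, u ≤ i := fun i hi => hd i (Multiset.mem_add.2 (Or.inr hi))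
    by_cases hlt : ∀ i ∈ r, u < i
    · have hw : D.wt + orr u (u :: r) ≤ w := by
        rw [FilR_orr_cons]
        exact h4
      have h5 := mem_WR Q x h1 (inc_cons.2 ⟨hlt, h2⟩) hw
      rw [FilR_coe] at h5
      exact FilR_cast Q x h5 le_rfl (by abel)
    · push Not at hlt
      obtain ⟨i, hi, hiu⟩ := hlt
      cases r with
      | nil => exact absurd hi (List.not_mem_nil)
      | cons j r' =>
        have hj : j = u := by
          have g1 := hr j List.mem_cons_self
          have g2 := hd_le h2 hi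
          rw [hd_cons] at g2
          omega
        subst hj
        rw [rw_cons, FilR_m3 Q, smul_sub, smul_comm (D.val Q x), smul_comm (D.val Q x)]
        have hw : D.wt + orr j r' ≤ w := by
          rw [FilR_orr_cons] at h4
          exact h4
        refine sub_mem ?_ ?_
        · have h5 := mem_WR Q x h1 h2 h4
          exact FilR_cast Q x (KS_smul_WR Q x (t_mem_KS Q x j) h5) (by linarith) rfl
        · have h5 := mem_WR Q x h1 (inc_cons.1 h2).2 hw
          refine FilR_cast Q x (KS_smul_WR Q x (n_mem_KS Q x j) h5) (by linarith) ?_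
          rw [FilR_coe]
          abel
  | zero =>
    rw [mul_zero]
    exact zero_mem _
  | add a b _ _ ha hb =>
    rw [mul_add]
    exact add_mem ha hb
  | neg a _ ha =>
    rw [mul_neg]
    exact neg_mem ha

/-- the trace -/
theorem FilR_t {u w : ℤ} {d : Multiset ℤ} (hdd : ∀ i ∈ d, u ≤ i) {z : A}
    (hz : z ∈ WR Q x u w d) : Q.t z ∈ KS Q x w d := by
  induction hz using AddSubgroup.closure_induction with
  | mem z hz =>
    obtain ⟨D, r, h1, h2, rfl, h4, rfl⟩ := hz
    rw [map_smul, smul_eq_mul]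
    by_cases hr : r = []
    · subst hr
      rw [rw_nil, Q.t_one]
      unfold orr at h4
      rw [if_pos rfl, add_zero] at h4
      have h5 := mem_KS Q x h1 h4
      have h6 : D.val Q x * 2 = D.val Q x + D.val Q x := by ring
      rw [h6]
      have h7 : D.ct + (([] : List ℤ) : Multiset ℤ) = D.ct := by simp
      rw [h7]
      exact add_mem h5 h5
    · rw [← T_eq_rw]
      refine KS_mono Q x ?_ _ (KS_mul Q x (mem_KS Q x h1 le_rfl) (T_mem_KS Q x hr h2))
      unfold orr at h4
      rw [if_neg hr] at h4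
      have := hdd _ (Multiset.mem_add.2 (Or.inr (hd_mem hr)))
      linarith
  | zero =>
    rw [map_zero]
    exact zero_mem _
  | add a b _ _ ha hb =>
    rw [map_add]
    exact add_mem ha hb
  | neg a _ ha =>
    rw [map_neg]
    exact neg_mem ha

theorem FilR_ge {u : ℤ} {d : Multiset ℤ} (hd : ∀ i ∈ d, u ≤ i) : ∀ i ∈ {u} + d, u ≤ i := by
  intro i hi
  rcases Multiset.mem_add.1 hi with h | h
  · rw [Multiset.mem_singleton.1 h]
  · exact hd i h

theorem FilR_ge_add {u : ℤ} {d d' : Multiset ℤ} (hd : ∀ i ∈ d, u ≤ i) (hd' : ∀ i ∈ d', u ≤ i) :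
    ∀ i ∈ d + d', u ≤ i := by
  intro i hi
  rcases Multiset.mem_add.1 hi with h | h
  · exact hd i h
  · exact hd' i h

/-- the smallest letter in the second factor -/
theorem FilR_c2 {u α β : ℤ} {da db : Multiset ℤ} (hda : ∀ i ∈ da, u ≤ i)
    (hdb : ∀ i ∈ db, u ≤ i) {a b : A} (ha : a ∈ WR Q x u α da) (hb : b ∈ WR Q x u β db)
    (hba : b * a ∈ WR Q x u (β + α) (db + da)) :
    b * (x u * a) ∈ WR Q x u (β + α) ({u} + db + da) := by
  rw [FilR_m1 Q]
  have hxb := FilR_head Q x hdb hb
  have hxa := FilR_head Q x hda ha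
  have htb := FilR_t Q x hdb hb
  have htxb := FilR_t Q x (FilR_ge hdb) hxb
  have htx := t_mem_KS Q x u
  refine sub_mem (add_mem (add_mem (neg_mem ?_) ?_) ?_) ?_
  · exact FilR_cast Q x (FilR_head Q x (FilR_ge_add hdb hda) hba) le_rfl (by abel)
  · exact FilR_cast Q x (KS_smul_WR Q x htx hba) (by linarith) (by abel)
  · exact FilR_cast Q x (KS_smul_WR Q x htb hxa) (by linarith) (by abel)
  · rw [sub_smul]
    refine sub_mem ?_ ?_
    · exact FilR_cast Q x (KS_smul_WR Q x (KS_mul Q x htb htx) ha) (by linarith) (by abel)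
    · exact FilR_cast Q x (KS_smul_WR Q x htxb ha) (by linarith) (by abel)

/-- the smallest letter in the first factor -/
theorem FilR_c1 {u α β : ℤ} {da db : Multiset ℤ} (hda : ∀ i ∈ da, u ≤ i)
    (hdb : ∀ i ∈ db, u ≤ i) {a b : A} (ha : a ∈ WR Q x u α da) (hb : b ∈ WR Q x u β db)
    (hba : b * a ∈ WR Q x u (β + α) (db + da)) :
    (x u * b) * a ∈ WR Q x u (β + α) ({u} + db + da) := by
  rw [FilR_m2 Q]
  have hxb := FilR_head Q x hdb hb
  have hxa := FilR_head Q x hda ha
  have hdba := FilR_ge_add hdb hda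
  have hxba := FilR_head Q x hdba hba
  have hta := FilR_t Q x hda ha
  have htb := FilR_t Q x hdb hb
  have htxb := FilR_t Q x (FilR_ge hdb) hxb
  have htxa := FilR_t Q x (FilR_ge hda) hxa
  have htba := FilR_t Q x hdba hba
  have htxba := FilR_t Q x (FilR_ge hdba) hxba
  have htx := t_mem_KS Q x u
  have h1 := one_mem_WR Q x u
  have hx : x u ∈ WR Q x u 0 ({u} + 0) := by
    have := FilR_head Q x (u := u) (d := 0) (by simp) h1
    rwa [mul_one] at this
  refine add_mem (sub_mem (sub_mem (sub_mem (add_mem (add_mem (add_mem (neg_mem ?_) ?_) ?_) ?_) ?_)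
    ?_) ?_) ?_
  · exact FilR_cast Q x hxba le_rfl (by abel)
  · exact FilR_cast Q x (KS_smul_WR Q x hta hxb) (by linarith) (by abel)
  · exact FilR_cast Q x (KS_smul_WR Q x htb hxa) (by linarith) (by abel)
  · exact FilR_cast Q x (KS_smul_WR Q x htx hba) (by linarith) (by abel)
  · rw [sub_smul]
    refine sub_mem ?_ ?_
    · exact FilR_cast Q x (KS_smul_WR Q x (KS_mul Q x htb htx) ha) (by linarith) (by abel)
    · exact FilR_cast Q x (KS_smul_WR Q x htxb ha) (by linarith) (by abel)
  · exact FilR_cast Q x (KS_smul_WR Q x htxa hb) (by linarith) (by abel)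
  · rw [sub_smul]
    refine sub_mem ?_ ?_
    · exact FilR_cast Q x (KS_smul_WR Q x (KS_mul Q x hta htb) hx) (by linarith) (by abel)
    · exact FilR_cast Q x (KS_smul_WR Q x htba hx) (by linarith) (by abel)
  · rw [add_smul, sub_smul, sub_smul]
    refine add_mem (sub_mem (sub_mem ?_ ?_) ?_) ?_
    · exact FilR_cast Q x (KS_smul_WR Q x (KS_mul Q x (KS_mul Q x hta htb) htx) h1) (by linarith)
        (by abel)
    · exact FilR_cast Q x (KS_smul_WR Q x (KS_mul Q x hta htxb) h1) (by linarith) (by abel)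
    · exact FilR_cast Q x (KS_smul_WR Q x (KS_mul Q x htba htx) h1) (by linarith) (by abel)
    · exact FilR_cast Q x (KS_smul_WR Q x htxba h1) (by linarith) (by abel)

/-- the smallest letter in both factors -/
theorem FilR_c3 {u α β : ℤ} {da db : Multiset ℤ} (hda : ∀ i ∈ da, u ≤ i)
    (hdb : ∀ i ∈ db, u ≤ i) {a b : A} (ha : a ∈ WR Q x u α da) (hb : b ∈ WR Q x u β db)
    (hba : b * a ∈ WR Q x u (β + α) (db + da)) :
    (x u * b) * (x u * a) ∈ WR Q x u (β + α) ({u} + ({u} + db) + da) :=
  FilR_c2 Q x hda (FilR_ge hdb) ha (FilR_head Q x hdb hb) (FilR_c1 Q x hda hdb ha hb hba)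

theorem FilR_main : ∀ (n : ℕ) (C : ℤ) (l l' : List ℤ), l.length + l'.length ≤ n → Inc l → Inc l' →
    (∀ i ∈ l, C ≤ i) → (∀ i ∈ l', C ≤ i) →
    rw' x l * rw' x l' ∈ WR Q x C (orr C l + orr C l') ((l : Multiset ℤ) + (l' : Multiset ℤ)) := by
  intro n
  induction n with
  | zero =>
    intro C l l' hn hl hl' h h'
    have e1 : l = [] := List.length_eq_zero_iff.1 (by omega)
    have e2 : l' = [] := List.length_eq_zero_iff.1 (by omega)
    subst e1 e2
    rw [rw_nil, one_mul]
    exact FilR_cast Q x (one_mem_WR Q x C) (by simp [orr]) (by simp)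
  | succ n ih =>
    intro C l l' hn hl hl' h h'
    cases l with
    | nil =>
      rw [rw_nil, one_mul]
      exact FilR_cast Q x (rw_mem_WR Q x hl' C) (by simp [orr]) (by simp)
    | cons u a =>
      cases l' with
      | nil =>
        rw [rw_nil, mul_one]
        exact FilR_cast Q x (rw_mem_WR Q x hl C) (by simp [orr]) (by simp)
      | cons v b =>
        rw [List.length_cons, List.length_cons] at hn
        obtain ⟨hua, hia⟩ := inc_cons.1 hl
        obtain ⟨hvb, hib⟩ := inc_cons.1 hl'
        have hCu : C ≤ u := h u List.mem_cons_self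
        have hCv : C ≤ v := h' v List.mem_cons_self
        rcases lt_trichotomy u v with huv | huv | huv
        · have g1 : ∀ i ∈ a, u ≤ i := fun i hi => (hua i hi).le
          have g2 : ∀ i ∈ v :: b, u ≤ i := fun i hi => by
            have := hd_le hl' hi
            rw [hd_cons] at this
            omega
          have h1 := ih u a (v :: b) (by rw [List.length_cons]; omega) hia hl' g1 g2
          have h2 := FilR_c1 Q x g2 g1 (rw_mem_WR Q x hl' u) (rw_mem_WR Q x hia u) h1
          rw [rw_cons x u]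
          refine FilR_cast Q x (FilR_cut Q x hCu h2) ?_ ?_
          · have e1 := FilR_orr_cut (C := C) (u := u) (List.cons_ne_nil u a)
            have e2 := FilR_orr_cut (C := C) (u := u) (List.cons_ne_nil v b)
            rw [FilR_orr_cons] at e1
            linarith
          · rw [FilR_coe u a]
        · subst huv
          have g1 : ∀ i ∈ a, u ≤ i := fun i hi => (hua i hi).le
          have g2 : ∀ i ∈ b, u ≤ i := fun i hi => (hvb i hi).le
          have h1 := ih u a b (by omega) hia hib g1 g2
          have h2 := FilR_c3 Q x g2 g1 (rw_mem_WR Q x hib u) (rw_mem_WR Q x hia u) h1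
          rw [rw_cons x u, rw_cons x u]
          refine FilR_cast Q x (FilR_cut Q x hCu h2) ?_ ?_
          · have e1 := FilR_orr_cut (C := C) (u := u) (List.cons_ne_nil u a)
            have e2 := FilR_orr_cut (C := C) (u := u) (List.cons_ne_nil u b)
            rw [FilR_orr_cons] at e1 e2
            linarith
          · rw [FilR_coe u a, FilR_coe u b]
            abel
        · have g1 : ∀ i ∈ u :: a, v ≤ i := fun i hi => by
            have := hd_le hl hi
            rw [hd_cons] at this
            omega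
          have g2 : ∀ i ∈ b, v ≤ i := fun i hi => (hvb i hi).le
          have h1 := ih v (u :: a) b (by rw [List.length_cons]; omega) hl hib g1 g2
          have h2 := FilR_c2 Q x g2 g1 (rw_mem_WR Q x hib v) (rw_mem_WR Q x hl v) h1
          rw [rw_cons x v]
          refine FilR_cast Q x (FilR_cut Q x hCv h2) ?_ ?_
          · have e1 := FilR_orr_cut (C := C) (u := v) (List.cons_ne_nil u a)
            have e2 := FilR_orr_cut (C := C) (u := v) (List.cons_ne_nil v b)
            rw [FilR_orr_cons] at e2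
            linarith
          · rw [FilR_coe v b]
            abel

theorem rw_mul_rw (C : ℤ) (l l' : List ℤ) (hl : Inc l) (hl' : Inc l') (h : ∀ i ∈ l, C ≤ i)
    (h' : ∀ i ∈ l', C ≤ i) :
    rw' x l * rw' x l' ∈ WR Q x C (orr C l + orr C l') ((l : Multiset ℤ) + (l' : Multiset ℤ)) :=
  FilR_main Q x _ C l l' le_rfl hl hl' h h'

theorem WR_mul (C w w' : ℤ) (d d' : Multiset ℤ) (hd : ∀ i ∈ d, C ≤ i) (hd' : ∀ i ∈ d', C ≤ i)
    (a b : A) (ha : a ∈ WR Q x C w d) (hb : b ∈ WR Q x C w' d') :
    a * b ∈ WR Q x C (w + w') (d + d') := by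
  induction ha using AddSubgroup.closure_induction with
  | mem a ha =>
    obtain ⟨D, l, h1, h2, rfl, h4, rfl⟩ := ha
    induction hb using AddSubgroup.closure_induction with
    | mem b hb =>
      obtain ⟨E, l', g1, g2, rfl, g4, rfl⟩ := hb
      have h5 := rw_mul_rw Q x C l l' h2 g2
        (fun i hi => hd i (Multiset.mem_add.2 (Or.inr hi)))
        (fun i hi => hd' i (Multiset.mem_add.2 (Or.inr hi)))
      have h6 := KS_smul_WR Q x
        (KS_mul Q x (mem_KS Q x h1 le_rfl) (mem_KS Q x g1 le_rfl)) h5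
      rw [smul_mul_assoc, mul_smul_comm, smul_smul]
      exact FilR_cast Q x h6 (by linarith) (by abel)
    | zero =>
      rw [mul_zero]
      exact zero_mem _
    | add b b' _ _ h h' =>
      rw [mul_add]
      exact add_mem h h'
    | neg b _ h =>
      rw [mul_neg]
      exact neg_mem h
  | zero =>
    rw [zero_mul]
    exact zero_mem _
  | add a a' _ _ h h' =>
    rw [add_mul]
    exact add_mem h h'
  | neg a _ h =>
    rw [neg_mul]
    exact neg_mem h

end Pool.Agent.Smt
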