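import Pool.Agent.Smt.Rel5

/-!
# The relations of degree six
-/

set_option autoImplicit false
set_option linter.unusedSectionVars false
set_option linter.unusedSimpArgs false

namespace Pool.Agent.Smt

variable {k A : Type*} [CommRing k] [NonAssocRing A] [Module k A] [IsScalarTower k A A]
  [SMulCommClass k A A] (Q : QA k A)

theorem QA.relR (a b c d e : A) :
    2 * (Q.t (((a * b) * d) * e) * Q.n c) + Q.t ((a * b) * c) * Q.t ((c * d) * e)
    - Q.t (((a * b) * c) * d) * Q.t (c * e) + Q.t ((((a * b) * c) * d) * e) * Q.t c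
    + Q.t (((a * b) * c) * e) * Q.t (c * d) - Q.t (a * c) * Q.t (((b * c) * d) * e)
    - Q.t ((a * c) * d) * Q.t ((b * c) * e) + Q.t (((a * c) * d) * e) * Q.t (b * c)
    + Q.t ((a * c) * e) * Q.t ((b * c) * d) - Q.t a * Q.t ((b * d) * e) * Q.n c
    - Q.t a * Q.t (b * c) * Q.t ((c * d) * e) + Q.t (a * d) * Q.t (b * e) * Q.n c
    + Q.t (a * d) * Q.t (b * c) * Q.t (c * e) - Q.t ((a * d) * e) * Q.t b * Q.n c
    - Q.t ((a * d) * e) * Q.t (b * c) * Q.t c - Q.t (a * b) * Q.t (d * e) * Q.n c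
    - Q.t (a * b) * Q.t c * Q.t ((c * d) * e) - Q.t ((a * b) * d) * Q.t e * Q.n c
    + Q.t ((a * b) * d) * Q.t c * Q.t (c * e) - Q.t (((a * b) * d) * e) * Q.t c * Q.t c
    - Q.t ((a * b) * e) * Q.t d * Q.n c - Q.t ((a * b) * e) * Q.t c * Q.t (c * d)
    - Q.t ((a * b) * c) * Q.t (d * e) * Q.t c - Q.t ((a * b) * c) * Q.t e * Q.t (c * d)
    - Q.t (((a * b) * c) * e) * Q.t d * Q.t c - Q.t (a * e) * Q.t (b * d) * Q.n c
    - Q.t (a * e) * Q.t (b * c) * Q.t (c * d) + Q.t (a * c) * Q.t d * Q.t ((b * c) * e)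
    - Q.t (a * c) * Q.t (b * d) * Q.t (c * e) + Q.t (a * c) * Q.t ((b * d) * e) * Q.t c
    + Q.t (a * c) * Q.t (b * e) * Q.t (c * d) + Q.t ((a * c) * d) * Q.t b * Q.t (c * e)
    - Q.t (((a * c) * d) * e) * Q.t b * Q.t c - Q.t ((a * c) * e) * Q.t d * Q.t (b * c)
    - Q.t ((a * c) * e) * Q.t b * Q.t (c * d) + Q.t a * Q.t (d * e) * Q.t b * Q.n c
    + Q.t a * Q.t (d * e) * Q.t (b * c) * Q.t c + Q.t a * Q.t b * Q.t c * Q.t ((c * d) * e)
    + Q.t a * Q.t (b * d) * Q.t e * Q.n c + Q.t a * Q.t (b * c) * Q.t e * Q.t (c * d)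
    - Q.t (a * d) * Q.t b * Q.t c * Q.t (c * e) + Q.t ((a * d) * e) * Q.t b * Q.t c * Q.t c
    + Q.t (a * b) * Q.t d * Q.t e * Q.n c + Q.t (a * b) * Q.t (d * e) * Q.t c * Q.t c
    + Q.t (a * b) * Q.t e * Q.t c * Q.t (c * d) + Q.t ((a * b) * e) * Q.t d * Q.t c * Q.t c
    + Q.t ((a * b) * c) * Q.t d * Q.t e * Q.t c + Q.t (a * e) * Q.t d * Q.t b * Q.n c
    + Q.t (a * e) * Q.t d * Q.t (b * c) * Q.t c + Q.t (a * e) * Q.t b * Q.t c * Q.t (c * d)
    - Q.t (a * c) * Q.t d * Q.t (b * e) * Q.t c + Q.t ((a * c) * e) * Q.t d * Q.t b * Q.t c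
    - Q.t a * Q.t d * Q.t b * Q.t e * Q.n c - Q.t a * Q.t d * Q.t (b * c) * Q.t e * Q.t c
    - Q.t a * Q.t (d * e) * Q.t b * Q.t c * Q.t c - Q.t a * Q.t b * Q.t e * Q.t c * Q.t (c * d)
    - Q.t (a * b) * Q.t d * Q.t e * Q.t c * Q.t c - Q.t (a * e) * Q.t d * Q.t b * Q.t c * Q.t c
    + Q.t a * Q.t d * Q.t b * Q.t e * Q.t c * Q.t c = 0 := by
  have h := Q.rel5 (a * c) b c d e
  have e1 := Q.f3 a c b
  have e2 := Q.fsq a c
  have e3 := Q.fsq (a * b) c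
  rw [e1, e2] at h
  simp only [add_mul, sub_mul, neg_mul, smul_mul_assoc, one_mul, map_add, map_sub, map_neg,
    map_smul, smul_eq_mul, smul_add, smul_sub, smul_neg] at h
  rw [e2, e3] at h
  simp only [add_mul, sub_mul, neg_mul, smul_mul_assoc, one_mul, map_add, map_sub, map_neg,
    map_smul, smul_eq_mul, smul_add, smul_sub, smul_neg] at h
  linear_combination h

end Pool.Agent.Smt
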