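import Pool.Agent.Smt.FilL
import Pool.Agent.Smt.FilR
import Pool.Agent.Smt.Merge
import Pool.Agent.Smt.RelR

/-!
# The swap relation at a letter  (module A3)

Apply `Q.relR a b c d e` with `a = wd x P₁`, `b = wd x P₂`, `c = x i`, `d = rw' x Q₁`,
`e = rw' x Q₂`. The eight terms `t((ac)d) t((bc)e)`, `t((ac)e) t((bc)d)`, `t(ad) t(be) n(c)`,
`t(ae) t(bd) n(c)`, `t(ad) t(bc) t(ce)`, `t(ae) t(bc) t(cd)`, `t(ac) t(bd) t(ce)`,
`t(ac) t(be) t(cd)` are those of the statement, all others lie in `KS (w-1) d` as in module A5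
(weight = sum + L + R with `L + R ≤ 3`; `n(c)` and `t(c)` have weight 0).
Cuts `C = i - 1`, `C' = i + 1`.
-/

set_option autoImplicit false
set_option linter.unusedSectionVars false

namespace Pool.Agent.Smt

variable {k A : Type*} [CommRing k] [NonAssocRing A] [Module k A] [IsScalarTower k A A]
  [SMulCommClass k A A] (Q : QA k A) (x : ℤ → A)

/-- change of the weight and of the content -/
theorem A3_conv {w W : ℤ} {d D : Multiset ℤ} {u : k} (h : u ∈ KS Q x w d) (hw : w ≤ W)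
    (hd : d = D) : u ∈ KS Q x W D := by
  subst hd
  exact KS_mono Q x hw _ h

theorem A3_two {w : ℤ} {d : Multiset ℤ} {u : k} (h : u ∈ KS Q x w d) : 2 * u ∈ KS Q x w d := by
  have := ofNat_mul_mem_KS Q x 2 h
  simpa using this

theorem A3 (P₁ P₂ Q₁ Q₂ : List ℤ) (i : ℤ) (h1 : P₁ ≠ []) (h2 : P₂ ≠ []) (h3 : Q₁ ≠ [])
    (h4 : Q₂ ≠ []) (i1 : Inc P₁) (i2 : Inc P₂) (i3 : Inc Q₁) (i4 : Inc Q₂)
    (j1 : ∀ j ∈ P₁, j < i) (j2 : ∀ j ∈ P₂, j < i) (j3 : ∀ j ∈ Q₁, i < j) (j4 : ∀ j ∈ Q₂, i < j) :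
    Q.T x (P₁ ++ i :: Q₁) * Q.T x (P₂ ++ i :: Q₂) - Q.T x (P₁ ++ i :: Q₂) * Q.T x (P₂ ++ i :: Q₁)
      - Q.n (x i) * (Q.T x (P₁ ++ Q₁) * Q.T x (P₂ ++ Q₂) - Q.T x (P₁ ++ Q₂) * Q.T x (P₂ ++ Q₁))
      - (Q.T x (P₁ ++ Q₁) * Q.T x (P₂ ++ [i]) * Q.T x (i :: Q₂)
        - Q.T x (P₁ ++ Q₂) * Q.T x (P₂ ++ [i]) * Q.T x (i :: Q₁)
        - Q.T x (P₁ ++ [i]) * Q.T x (P₂ ++ Q₁) * Q.T x (i :: Q₂)
        + Q.T x (P₁ ++ [i]) * Q.T x (P₂ ++ Q₂) * Q.T x (i :: Q₁)) ∈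
    KS Q x (la Q₁ + la Q₂ - hd P₁ - hd P₂ - 1)
      ((P₁ : Multiset ℤ) + (P₂ : Multiset ℤ) + (Q₁ : Multiset ℤ) + (Q₂ : Multiset ℤ) + {i} + {i}) := by
  -- the four words
  have ma := wd_mem_WL Q x i1 (i - 1)
  have mb := wd_mem_WL Q x i2 (i - 1)
  have md := rw_mem_WR Q x i3 (i + 1)
  have me := rw_mem_WR Q x i4 (i + 1)
  have wa : ol (i - 1) P₁ = i - 1 - hd P₁ := by simp [ol, h1]
  have wb : ol (i - 1) P₂ = i - 1 - hd P₂ := by simp [ol, h2]
  have wd' : orr (i + 1) Q₁ = la Q₁ - (i + 1) := by simp [orr, h3]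
  have we : orr (i + 1) Q₂ = la Q₂ - (i + 1) := by simp [orr, h4]
  rw [wa] at ma
  rw [wb] at mb
  rw [wd'] at md
  rw [we] at me
  have la1 : ∀ j ∈ (P₁ : Multiset ℤ), j ≤ i - 1 := fun j hj => by
    have := j1 j (Multiset.mem_coe.1 hj); omega
  have lb1 : ∀ j ∈ (P₂ : Multiset ℤ), j ≤ i - 1 := fun j hj => by
    have := j2 j (Multiset.mem_coe.1 hj); omega
  have ld1 : ∀ j ∈ (Q₁ : Multiset ℤ), i + 1 ≤ j := fun j hj => by
    have := j3 j (Multiset.mem_coe.1 hj); omega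
  have le1 : ∀ j ∈ (Q₂ : Multiset ℤ), i + 1 ≤ j := fun j hj => by
    have := j4 j (Multiset.mem_coe.1 hj); omega
  have lab : ∀ j ∈ (P₁ : Multiset ℤ) + (P₂ : Multiset ℤ), j ≤ i - 1 := fun j hj => by
    rcases Multiset.mem_add.1 hj with h | h
    · exact la1 j h
    · exact lb1 j h
  have lde : ∀ j ∈ (Q₁ : Multiset ℤ) + (Q₂ : Multiset ℤ), i + 1 ≤ j := fun j hj => by
    rcases Multiset.mem_add.1 hj with h | h
    · exact ld1 j h
    · exact le1 j h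
  have mab := WL_mul Q x (i - 1) _ _ _ _ la1 lb1 _ _ ma mb
  have mde := WR_mul Q x (i + 1) _ _ _ _ ld1 le1 _ _ md me
  -- the eight special terms
  have T1 : Q.T x (P₁ ++ i :: Q₁) = Q.t ((wd x P₁ * x i) * rw' x Q₁) := by
    rw [T_append, rw_cons, Q.t_assoc]
  have T2 : Q.T x (P₂ ++ i :: Q₂) = Q.t ((wd x P₂ * x i) * rw' x Q₂) := by
    rw [T_append, rw_cons, Q.t_assoc]
  have T3 : Q.T x (P₁ ++ i :: Q₂) = Q.t ((wd x P₁ * x i) * rw' x Q₂) := by
    rw [T_append, rw_cons, Q.t_assoc]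
  have T4 : Q.T x (P₂ ++ i :: Q₁) = Q.t ((wd x P₂ * x i) * rw' x Q₁) := by
    rw [T_append, rw_cons, Q.t_assoc]
  have T5 : Q.T x (P₁ ++ Q₁) = Q.t (wd x P₁ * rw' x Q₁) := T_append Q x _ _
  have T6 : Q.T x (P₂ ++ Q₂) = Q.t (wd x P₂ * rw' x Q₂) := T_append Q x _ _
  have T7 : Q.T x (P₁ ++ Q₂) = Q.t (wd x P₁ * rw' x Q₂) := T_append Q x _ _
  have T8 : Q.T x (P₂ ++ Q₁) = Q.t (wd x P₂ * rw' x Q₁) := T_append Q x _ _
  have T9 : Q.T x (P₁ ++ [i]) = Q.t (wd x P₁ * x i) := by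
    rw [T_append, rw_cons, rw_nil, mul_one]
  have T10 : Q.T x (P₂ ++ [i]) = Q.t (wd x P₂ * x i) := by
    rw [T_append, rw_cons, rw_nil, mul_one]
  have T11 : Q.T x (i :: Q₁) = Q.t (x i * rw' x Q₁) := by
    rw [T_eq_rw, rw_cons]
  have T12 : Q.T x (i :: Q₂) = Q.t (x i * rw' x Q₂) := by
    rw [T_eq_rw, rw_cons]
  rw [T1, T2, T3, T4, T5, T6, T7, T8, T9, T10, T11, T12]
  clear T1 T2 T3 T4 T5 T6 T7 T8 T9 T10 T11 T12
  -- one factor
  have fa := t_WL Q x _ _ _ la1 _ ma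
  have fb := t_WL Q x _ _ _ lb1 _ mb
  have fab := t_WL Q x _ _ _ lab _ mab
  have fd := t_WR Q x _ _ _ ld1 _ md
  have fe := t_WR Q x _ _ _ le1 _ me
  have fde := t_WR Q x _ _ _ lde _ mde
  have fc := t_mem_KS Q x i
  have fn := n_mem_KS Q x i
  have hi1 : i - 1 < i := by omega
  have hi2 : i < i + 1 := by omega
  have hi3 : i - 1 < i + 1 := by omega
  have fac := t_WL_x Q x _ _ i hi1 _ la1 _ ma
  have fbc := t_WL_x Q x _ _ i hi1 _ lb1 _ mb
  have fabc := t_WL_x Q x _ _ i hi1 _ lab _ mab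
  have fcd := t_x_WR Q x _ _ i hi2 _ ld1 _ md
  have fce := t_x_WR Q x _ _ i hi2 _ le1 _ me
  have fcde := t_x_WR Q x _ _ i hi2 _ lde _ mde
  have fad := t_WL_WR Q x _ _ _ _ hi3 _ _ la1 ld1 _ _ ma md
  have fae := t_WL_WR Q x _ _ _ _ hi3 _ _ la1 le1 _ _ ma me
  have fade := t_WL_WR Q x _ _ _ _ hi3 _ _ la1 lde _ _ ma mde
  have fbd := t_WL_WR Q x _ _ _ _ hi3 _ _ lb1 ld1 _ _ mb md
  have fbe := t_WL_WR Q x _ _ _ _ hi3 _ _ lb1 le1 _ _ mb me
  have fbde := t_WL_WR Q x _ _ _ _ hi3 _ _ lb1 lde _ _ mb mde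
  have fabd := t_WL_WR Q x _ _ _ _ hi3 _ _ lab ld1 _ _ mab md
  have fabe := t_WL_WR Q x _ _ _ _ hi3 _ _ lab le1 _ _ mab me
  have fabde := t_WL_WR Q x _ _ _ _ hi3 _ _ lab lde _ _ mab mde
  have facd := t_WL_x_WR Q x _ _ _ _ i hi1 hi2 _ _ la1 ld1 _ _ ma md
  have face := t_WL_x_WR Q x _ _ _ _ i hi1 hi2 _ _ la1 le1 _ _ ma me
  have facde := t_WL_x_WR Q x _ _ _ _ i hi1 hi2 _ _ la1 lde _ _ ma mde
  have fbcd := t_WL_x_WR Q x _ _ _ _ i hi1 hi2 _ _ lb1 ld1 _ _ mb md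
  have fbce := t_WL_x_WR Q x _ _ _ _ i hi1 hi2 _ _ lb1 le1 _ _ mb me
  have fbcde := t_WL_x_WR Q x _ _ _ _ i hi1 hi2 _ _ lb1 lde _ _ mb mde
  have fabcd := t_WL_x_WR Q x _ _ _ _ i hi1 hi2 _ _ lab ld1 _ _ mab md
  have fabce := t_WL_x_WR Q x _ _ _ _ i hi1 hi2 _ _ lab le1 _ _ mab me
  have fabcde := t_WL_x_WR Q x _ _ _ _ i hi1 hi2 _ _ lab lde _ _ mab mde
  rw [← Q.t_assoc] at fcde fade fbde fabde facde fbcde fabcde
  have hR := Q.relR (wd x P₁) (wd x P₂) (x i) (rw' x Q₁) (rw' x Q₂)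
  -- names
  clear ma mb md me mab mde
  generalize wd x P₁ = a at *
  generalize wd x P₂ = b at *
  generalize rw' x Q₁ = d at *
  generalize rw' x Q₂ = e at *
  generalize x i = c at *
  have key : Q.t ((a * c) * d) * Q.t ((b * c) * e) - Q.t ((a * c) * e) * Q.t ((b * c) * d)
      - Q.n c * (Q.t (a * d) * Q.t (b * e) - Q.t (a * e) * Q.t (b * d))
      - (Q.t (a * d) * Q.t (b * c) * Q.t (c * e) - Q.t (a * e) * Q.t (b * c) * Q.t (c * d)
        - Q.t (a * c) * Q.t (b * d) * Q.t (c * e) + Q.t (a * c) * Q.t (b * e) * Q.t (c * d)) =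
      2 * (Q.t (((a * b) * d) * e) * Q.n c) + Q.t ((a * b) * c) * Q.t ((c * d) * e)
        - Q.t (((a * b) * c) * d) * Q.t (c * e) + Q.t ((((a * b) * c) * d) * e) * Q.t c
        + Q.t (((a * b) * c) * e) * Q.t (c * d) - Q.t (a * c) * Q.t (((b * c) * d) * e)
        + Q.t (((a * c) * d) * e) * Q.t (b * c) - Q.t a * Q.t ((b * d) * e) * Q.n c
        - Q.t a * Q.t (b * c) * Q.t ((c * d) * e) - Q.t ((a * d) * e) * Q.t b * Q.n c
        - Q.t ((a * d) * e) * Q.t (b * c) * Q.t c - Q.t (a * b) * Q.t (d * e) * Q.n c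
        - Q.t (a * b) * Q.t c * Q.t ((c * d) * e) - Q.t ((a * b) * d) * Q.t e * Q.n c
        + Q.t ((a * b) * d) * Q.t c * Q.t (c * e) - Q.t (((a * b) * d) * e) * Q.t c * Q.t c
        - Q.t ((a * b) * e) * Q.t d * Q.n c - Q.t ((a * b) * e) * Q.t c * Q.t (c * d)
        - Q.t ((a * b) * c) * Q.t (d * e) * Q.t c - Q.t ((a * b) * c) * Q.t e * Q.t (c * d)
        - Q.t (((a * b) * c) * e) * Q.t d * Q.t c + Q.t (a * c) * Q.t d * Q.t ((b * c) * e)
        + Q.t (a * c) * Q.t ((b * d) * e) * Q.t c + Q.t ((a * c) * d) * Q.t b * Q.t (c * e)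
        - Q.t (((a * c) * d) * e) * Q.t b * Q.t c - Q.t ((a * c) * e) * Q.t d * Q.t (b * c)
        - Q.t ((a * c) * e) * Q.t b * Q.t (c * d) + Q.t a * Q.t (d * e) * Q.t b * Q.n c
        + Q.t a * Q.t (d * e) * Q.t (b * c) * Q.t c + Q.t a * Q.t b * Q.t c * Q.t ((c * d) * e)
        + Q.t a * Q.t (b * d) * Q.t e * Q.n c + Q.t a * Q.t (b * c) * Q.t e * Q.t (c * d)
        - Q.t (a * d) * Q.t b * Q.t c * Q.t (c * e) + Q.t ((a * d) * e) * Q.t b * Q.t c * Q.t c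
        + Q.t (a * b) * Q.t d * Q.t e * Q.n c + Q.t (a * b) * Q.t (d * e) * Q.t c * Q.t c
        + Q.t (a * b) * Q.t e * Q.t c * Q.t (c * d) + Q.t ((a * b) * e) * Q.t d * Q.t c * Q.t c
        + Q.t ((a * b) * c) * Q.t d * Q.t e * Q.t c + Q.t (a * e) * Q.t d * Q.t b * Q.n c
        + Q.t (a * e) * Q.t d * Q.t (b * c) * Q.t c + Q.t (a * e) * Q.t b * Q.t c * Q.t (c * d)
        - Q.t (a * c) * Q.t d * Q.t (b * e) * Q.t c + Q.t ((a * c) * e) * Q.t d * Q.t b * Q.t c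
        - Q.t a * Q.t d * Q.t b * Q.t e * Q.n c - Q.t a * Q.t d * Q.t (b * c) * Q.t e * Q.t c
        - Q.t a * Q.t (d * e) * Q.t b * Q.t c * Q.t c
        - Q.t a * Q.t b * Q.t e * Q.t c * Q.t (c * d)
        - Q.t (a * b) * Q.t d * Q.t e * Q.t c * Q.t c
        - Q.t (a * e) * Q.t d * Q.t b * Q.t c * Q.t c
        + Q.t a * Q.t d * Q.t b * Q.t e * Q.t c * Q.t c := by
    linear_combination -hR
  rw [key]
  clear key hR
  obtain ⟨W, hW⟩ : ∃ W, W = la Q₁ + la Q₂ - hd P₁ - hd P₂ - 1 := ⟨_, rfl⟩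
  obtain ⟨D, hD⟩ : ∃ D : Multiset ℤ, D =
    (P₁ : Multiset ℤ) + (P₂ : Multiset ℤ) + (Q₁ : Multiset ℤ) + (Q₂ : Multiset ℤ) + {i} + {i} :=
    ⟨_, rfl⟩
  rw [← hW, ← hD]
  have m1 := A3_conv Q x (W := W) (D := D) (A3_two Q x (KS_mul Q x fabde fn)) (by omega) (by rw [hD] <;> abel)
  have m2 := A3_conv Q x (W := W) (D := D) (KS_mul Q x fabc fcde) (by omega) (by rw [hD] <;> abel)
  have s2 := add_mem m1 m2
  have m3 := A3_conv Q x (W := W) (D := D) (KS_mul Q x fabcd fce) (by omega) (by rw [hD] <;> abel)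
  have s3 := sub_mem s2 m3
  have m4 := A3_conv Q x (W := W) (D := D) (KS_mul Q x fabcde fc) (by omega) (by rw [hD] <;> abel)
  have s4 := add_mem s3 m4
  have m5 := A3_conv Q x (W := W) (D := D) (KS_mul Q x fabce fcd) (by omega) (by rw [hD] <;> abel)
  have s5 := add_mem s4 m5
  have m6 := A3_conv Q x (W := W) (D := D) (KS_mul Q x fac fbcde) (by omega) (by rw [hD] <;> abel)
  have s6 := sub_mem s5 m6
  have m7 := A3_conv Q x (W := W) (D := D) (KS_mul Q x facde fbc) (by omega) (by rw [hD] <;> abel)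
  have s7 := add_mem s6 m7
  have m8 := A3_conv Q x (W := W) (D := D) (KS_mul Q x (KS_mul Q x fa fbde) (fn)) (by omega) (by rw [hD] <;> abel)
  have s8 := sub_mem s7 m8
  have m9 := A3_conv Q x (W := W) (D := D) (KS_mul Q x (KS_mul Q x fa fbc) (fcde)) (by omega) (by rw [hD] <;> abel)
  have s9 := sub_mem s8 m9
  have m10 := A3_conv Q x (W := W) (D := D) (KS_mul Q x (KS_mul Q x fade fb) (fn)) (by omega) (by rw [hD] <;> abel)
  have s10 := sub_mem s9 m10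
  have m11 := A3_conv Q x (W := W) (D := D) (KS_mul Q x (KS_mul Q x fade fbc) (fc)) (by omega) (by rw [hD] <;> abel)
  have s11 := sub_mem s10 m11
  have m12 := A3_conv Q x (W := W) (D := D) (KS_mul Q x (KS_mul Q x fab fde) (fn)) (by omega) (by rw [hD] <;> abel)
  have s12 := sub_mem s11 m12
  have m13 := A3_conv Q x (W := W) (D := D) (KS_mul Q x (KS_mul Q x fab fc) (fcde)) (by omega) (by rw [hD] <;> abel)
  have s13 := sub_mem s12 m13
  have m14 := A3_conv Q x (W := W) (D := D) (KS_mul Q x (KS_mul Q x fabd fe) (fn)) (by omega) (by rw [hD] <;> abel)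
  have s14 := sub_mem s13 m14
  have m15 := A3_conv Q x (W := W) (D := D) (KS_mul Q x (KS_mul Q x fabd fc) (fce)) (by omega) (by rw [hD] <;> abel)
  have s15 := add_mem s14 m15
  have m16 := A3_conv Q x (W := W) (D := D) (KS_mul Q x (KS_mul Q x fabde fc) (fc)) (by omega) (by rw [hD] <;> abel)
  have s16 := sub_mem s15 m16
  have m17 := A3_conv Q x (W := W) (D := D) (KS_mul Q x (KS_mul Q x fabe fd) (fn)) (by omega) (by rw [hD] <;> abel)
  have s17 := sub_mem s16 m17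
  have m18 := A3_conv Q x (W := W) (D := D) (KS_mul Q x (KS_mul Q x fabe fc) (fcd)) (by omega) (by rw [hD] <;> abel)
  have s18 := sub_mem s17 m18
  have m19 := A3_conv Q x (W := W) (D := D) (KS_mul Q x (KS_mul Q x fabc fde) (fc)) (by omega) (by rw [hD] <;> abel)
  have s19 := sub_mem s18 m19
  have m20 := A3_conv Q x (W := W) (D := D) (KS_mul Q x (KS_mul Q x fabc fe) (fcd)) (by omega) (by rw [hD] <;> abel)
  have s20 := sub_mem s19 m20
  have m21 := A3_conv Q x (W := W) (D := D) (KS_mul Q x (KS_mul Q x fabce fd) (fc)) (by omega) (by rw [hD] <;> abel)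
  have s21 := sub_mem s20 m21
  have m22 := A3_conv Q x (W := W) (D := D) (KS_mul Q x (KS_mul Q x fac fd) (fbce)) (by omega) (by rw [hD] <;> abel)
  have s22 := add_mem s21 m22
  have m23 := A3_conv Q x (W := W) (D := D) (KS_mul Q x (KS_mul Q x fac fbde) (fc)) (by omega) (by rw [hD] <;> abel)
  have s23 := add_mem s22 m23
  have m24 := A3_conv Q x (W := W) (D := D) (KS_mul Q x (KS_mul Q x facd fb) (fce)) (by omega) (by rw [hD] <;> abel)
  have s24 := add_mem s23 m24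
  have m25 := A3_conv Q x (W := W) (D := D) (KS_mul Q x (KS_mul Q x facde fb) (fc)) (by omega) (by rw [hD] <;> abel)
  have s25 := sub_mem s24 m25
  have m26 := A3_conv Q x (W := W) (D := D) (KS_mul Q x (KS_mul Q x face fd) (fbc)) (by omega) (by rw [hD] <;> abel)
  have s26 := sub_mem s25 m26
  have m27 := A3_conv Q x (W := W) (D := D) (KS_mul Q x (KS_mul Q x face fb) (fcd)) (by omega) (by rw [hD] <;> abel)
  have s27 := sub_mem s26 m27
  have m28 := A3_conv Q x (W := W) (D := D) (KS_mul Q x (KS_mul Q x (KS_mul Q x fa fde) (fb)) (fn)) (by omega) (by rw [hD] <;> abel)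
  have s28 := add_mem s27 m28
  have m29 := A3_conv Q x (W := W) (D := D) (KS_mul Q x (KS_mul Q x (KS_mul Q x fa fde) (fbc)) (fc)) (by omega) (by rw [hD] <;> abel)
  have s29 := add_mem s28 m29
  have m30 := A3_conv Q x (W := W) (D := D) (KS_mul Q x (KS_mul Q x (KS_mul Q x fa fb) (fc)) (fcde)) (by omega) (by rw [hD] <;> abel)
  have s30 := add_mem s29 m30
  have m31 := A3_conv Q x (W := W) (D := D) (KS_mul Q x (KS_mul Q x (KS_mul Q x fa fbd) (fe)) (fn)) (by omega) (by rw [hD] <;> abel)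
  have s31 := add_mem s30 m31
  have m32 := A3_conv Q x (W := W) (D := D) (KS_mul Q x (KS_mul Q x (KS_mul Q x fa fbc) (fe)) (fcd)) (by omega) (by rw [hD] <;> abel)
  have s32 := add_mem s31 m32
  have m33 := A3_conv Q x (W := W) (D := D) (KS_mul Q x (KS_mul Q x (KS_mul Q x fad fb) (fc)) (fce)) (by omega) (by rw [hD] <;> abel)
  have s33 := sub_mem s32 m33
  have m34 := A3_conv Q x (W := W) (D := D) (KS_mul Q x (KS_mul Q x (KS_mul Q x fade fb) (fc)) (fc)) (by omega) (by rw [hD] <;> abel)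
  have s34 := add_mem s33 m34
  have m35 := A3_conv Q x (W := W) (D := D) (KS_mul Q x (KS_mul Q x (KS_mul Q x fab fd) (fe)) (fn)) (by omega) (by rw [hD] <;> abel)
  have s35 := add_mem s34 m35
  have m36 := A3_conv Q x (W := W) (D := D) (KS_mul Q x (KS_mul Q x (KS_mul Q x fab fde) (fc)) (fc)) (by omega) (by rw [hD] <;> abel)
  have s36 := add_mem s35 m36
  have m37 := A3_conv Q x (W := W) (D := D) (KS_mul Q x (KS_mul Q x (KS_mul Q x fab fe) (fc)) (fcd)) (by omega) (by rw [hD] <;> abel)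
  have s37 := add_mem s36 m37
  have m38 := A3_conv Q x (W := W) (D := D) (KS_mul Q x (KS_mul Q x (KS_mul Q x fabe fd) (fc)) (fc)) (by omega) (by rw [hD] <;> abel)
  have s38 := add_mem s37 m38
  have m39 := A3_conv Q x (W := W) (D := D) (KS_mul Q x (KS_mul Q x (KS_mul Q x fabc fd) (fe)) (fc)) (by omega) (by rw [hD] <;> abel)
  have s39 := add_mem s38 m39
  have m40 := A3_conv Q x (W := W) (D := D) (KS_mul Q x (KS_mul Q x (KS_mul Q x fae fd) (fb)) (fn)) (by omega) (by rw [hD] <;> abel)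
  have s40 := add_mem s39 m40
  have m41 := A3_conv Q x (W := W) (D := D) (KS_mul Q x (KS_mul Q x (KS_mul Q x fae fd) (fbc)) (fc)) (by omega) (by rw [hD] <;> abel)
  have s41 := add_mem s40 m41
  have m42 := A3_conv Q x (W := W) (D := D) (KS_mul Q x (KS_mul Q x (KS_mul Q x fae fb) (fc)) (fcd)) (by omega) (by rw [hD] <;> abel)
  have s42 := add_mem s41 m42
  have m43 := A3_conv Q x (W := W) (D := D) (KS_mul Q x (KS_mul Q x (KS_mul Q x fac fd) (fbe)) (fc)) (by omega) (by rw [hD] <;> abel)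
  have s43 := sub_mem s42 m43
  have m44 := A3_conv Q x (W := W) (D := D) (KS_mul Q x (KS_mul Q x (KS_mul Q x face fd) (fb)) (fc)) (by omega) (by rw [hD] <;> abel)
  have s44 := add_mem s43 m44
  have m45 := A3_conv Q x (W := W) (D := D) (KS_mul Q x (KS_mul Q x (KS_mul Q x (KS_mul Q x fa fd) (fb)) (fe)) (fn)) (by omega) (by rw [hD] <;> abel)
  have s45 := sub_mem s44 m45
  have m46 := A3_conv Q x (W := W) (D := D) (KS_mul Q x (KS_mul Q x (KS_mul Q x (KS_mul Q x fa fd) (fbc)) (fe)) (fc)) (by omega) (by rw [hD] <;> abel)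
  have s46 := sub_mem s45 m46
  have m47 := A3_conv Q x (W := W) (D := D) (KS_mul Q x (KS_mul Q x (KS_mul Q x (KS_mul Q x fa fde) (fb)) (fc)) (fc)) (by omega) (by rw [hD] <;> abel)
  have s47 := sub_mem s46 m47
  have m48 := A3_conv Q x (W := W) (D := D) (KS_mul Q x (KS_mul Q x (KS_mul Q x (KS_mul Q x fa fb) (fe)) (fc)) (fcd)) (by omega) (by rw [hD] <;> abel)
  have s48 := sub_mem s47 m48
  have m49 := A3_conv Q x (W := W) (D := D) (KS_mul Q x (KS_mul Q x (KS_mul Q x (KS_mul Q x fab fd) (fe)) (fc)) (fc)) (by omega) (by rw [hD] <;> abel)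
  have s49 := sub_mem s48 m49
  have m50 := A3_conv Q x (W := W) (D := D) (KS_mul Q x (KS_mul Q x (KS_mul Q x (KS_mul Q x fae fd) (fb)) (fc)) (fc)) (by omega) (by rw [hD] <;> abel)
  have s50 := sub_mem s49 m50
  have m51 := A3_conv Q x (W := W) (D := D) (KS_mul Q x (KS_mul Q x (KS_mul Q x (KS_mul Q x (KS_mul Q x fa fd) (fb)) (fe)) (fc)) (fc)) (by omega) (by rw [hD] <;> abel)
  have s51 := add_mem s50 m51
  exact s51

end Pool.Agent.Smt
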