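import Pool.Agent.Smt.Alg

/-!
# The relation of degree five
-/

set_option autoImplicit false
set_option linter.unusedSectionVars false

namespace Pool.Agent.Smt

variable {k A : Type*} [CommRing k] [NonAssocRing A] [Module k A] [IsScalarTower k A A]
  [SMulCommClass k A A] (Q : QA k A)

theorem QA.rel5 (a b c d e : A) :
    2 * (Q.t ((((a * b) * c) * d) * e)) - Q.t a * Q.t (((b * c) * d) * e)
    - Q.t (a * b) * Q.t ((c * d) * e) - Q.t ((a * b) * c) * Q.t (d * e)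
    - Q.t (((a * b) * c) * d) * Q.t e - Q.t (((a * b) * c) * e) * Q.t d
    + Q.t ((a * b) * d) * Q.t (c * e) - Q.t (((a * b) * d) * e) * Q.t c
    - Q.t ((a * b) * e) * Q.t (c * d) + Q.t (a * c) * Q.t ((b * d) * e)
    - Q.t ((a * c) * d) * Q.t (b * e) - Q.t (((a * c) * d) * e) * Q.t b
    + Q.t ((a * c) * e) * Q.t (b * d) - Q.t (a * d) * Q.t ((b * c) * e)
    - Q.t ((a * d) * e) * Q.t (b * c) + Q.t (a * e) * Q.t ((b * c) * d)
    + Q.t a * Q.t b * Q.t ((c * d) * e) + Q.t a * Q.t (b * c) * Q.t (d * e)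
    + Q.t a * Q.t ((b * c) * e) * Q.t d - Q.t a * Q.t (b * d) * Q.t (c * e)
    + Q.t a * Q.t (b * e) * Q.t (c * d) + Q.t (a * b) * Q.t c * Q.t (d * e)
    + Q.t (a * b) * Q.t (c * d) * Q.t e + Q.t ((a * b) * c) * Q.t d * Q.t e
    + Q.t ((a * b) * e) * Q.t c * Q.t d - Q.t (a * c) * Q.t (b * d) * Q.t e
    + Q.t ((a * c) * d) * Q.t b * Q.t e + Q.t (a * d) * Q.t (b * c) * Q.t e
    + Q.t (a * d) * Q.t (b * e) * Q.t c + Q.t ((a * d) * e) * Q.t b * Q.t c
    - Q.t (a * e) * Q.t (b * d) * Q.t c - Q.t a * Q.t b * Q.t c * Q.t (d * e)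
    - Q.t a * Q.t b * Q.t (c * d) * Q.t e - Q.t a * Q.t (b * c) * Q.t d * Q.t e
    + Q.t a * Q.t (b * d) * Q.t c * Q.t e - Q.t a * Q.t (b * e) * Q.t c * Q.t d
    - Q.t (a * b) * Q.t c * Q.t d * Q.t e - Q.t (a * d) * Q.t b * Q.t c * Q.t e
    + Q.t a * Q.t b * Q.t c * Q.t d * Q.t e = 0 := by
  -- `a (b (c d))` in two ways
  have h1 := Q.f2 a b (c * d)
  have h2 := Q.f2 a c d
  have h3 := Q.f2 b c d
  have h4 := Q.f2 (a * b) c d
  have h5 := Q.f2 a (b * c) d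
  have h6 := Q.f2 a b c
  have t1 : Q.t (b * (c * d)) = Q.t ((b * c) * d) := (Q.t_assoc _ _ _).symm
  have t2 : Q.t (a * (c * d)) = Q.t ((a * c) * d) := (Q.t_assoc _ _ _).symm
  have t3 : Q.t ((a * b) * (c * d)) = Q.t (((a * b) * c) * d) := (Q.t_assoc _ _ _).symm
  have t4 : Q.t (a * (b * c)) = Q.t ((a * b) * c) := (Q.t_assoc _ _ _).symm
  rw [t1, t2, t3, h2, h3, h4] at h1
  rw [t4] at h5
  simp only [mul_add, mul_sub, mul_neg, mul_smul_comm, mul_one] at h1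
  rw [h5, Q.f2 a b d, Q.f2 a c d, h6] at h1
  simp only [add_mul, sub_mul, neg_mul, smul_mul_assoc, one_mul] at h1
  have h7 := congrArg (fun z => Q.t (z * e)) h1
  simp only [add_mul, sub_mul, neg_mul, smul_mul_assoc, one_mul, map_add, map_sub, map_neg,
    map_smul, smul_eq_mul, smul_add, smul_sub, smul_neg] at h7
  have h8 := congrArg Q.t h6
  simp only [t4, map_add, map_sub, map_neg, map_smul, smul_eq_mul, Q.t_one] at h8
  linear_combination (-1 : k) * h7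

end Pool.Agent.Smt
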