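import Pool.Agent.Smt.FilL
import Pool.Agent.Smt.FilR
import Pool.Agent.Smt.Merge
import Pool.Agent.Smt.Rel5

/-!
# The straightening relation at a letter  (module A5)

Apply `Q.rel5 a b c d e` with `a = wd x P₁`, `b = wd x P₂`, `c = x i`, `d = rw' x Q₁`,
`e = rw' x Q₂`. The six terms `t(c) t(ad) t(be)`, `t(c) t(ae) t(bd)`, `t(ad) t((bc)e)`,
`t(ae) t((bc)d)`, `t((ac)d) t(be)`, `t((ac)e) t(bd)` are the six terms of the statement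
(`T_append`, `T_single`, `rw_cons`, `t_assoc`). So the element of the statement is minus the sum of
the other 33 terms, and each of these lies in `KS (w-1) d`, `w = la Q₁ + la Q₂ - hd P₁ - hd P₂`.
Cuts: `C = i - 1` on the left, `C' = i + 1` on the right; `a ∈ WL C (C - hd P₁)`, `a * b ∈ WL C
(sum)` (`WL_mul`), `d * e ∈ WR C' (sum)`; `(((ab)c)d)e` has the same trace as `((ab)c)(de)`. The
weight of a monomial is at most `(C - hd P₁) + (C - hd P₂) + (la Q₁ - C') + (la Q₂ - C') + L + R`,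
where `L` (`R`) = number of factors containing `a` or `b` and something else to the right of them
(`d` or `e` and something else to the left): `t(a), t(ab), t(d), t(de), t(c)`: 0; `t(ac)`: 1;
`t(cd)`: 1; `t(ad)`, `t((ac)d)`: 2 (Merge lemmas). `w` is the value for `L + R = 4`, and
`L + R ≤ 3` for the 33 others (`A5_gen` below does this for arbitrary elements of `WL`, `WR`).
-/

set_option autoImplicit false
set_option linter.unusedSectionVars false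

namespace Pool.Agent.Smt

variable {k A : Type*} [CommRing k] [NonAssocRing A] [Module k A] [IsScalarTower k A A]
  [SMulCommClass k A A] (Q : QA k A) (x : ℤ → A)

private theorem mem_mul2 {u v : k} {w₁ w₂ w : ℤ} {d₁ d₂ d : Multiset ℤ} (hu : u ∈ KS Q x w₁ d₁)
    (hv : v ∈ KS Q x w₂ d₂) (hw : w₁ + w₂ ≤ w) (hd : d₁ + d₂ = d) : u * v ∈ KS Q x w d := by
  subst hd
  exact KS_mono Q x hw _ (KS_mul Q x hu hv)

private theorem mem_mul3 {u v z : k} {w₁ w₂ w₃ w : ℤ} {d₁ d₂ d₃ d : Multiset ℤ}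
    (hu : u ∈ KS Q x w₁ d₁) (hv : v ∈ KS Q x w₂ d₂) (hz : z ∈ KS Q x w₃ d₃)
    (hw : w₁ + w₂ + w₃ ≤ w) (hd : d₁ + d₂ + d₃ = d) : u * v * z ∈ KS Q x w d :=
  mem_mul2 Q x (KS_mul Q x hu hv) hz hw hd

private theorem mem_mul4 {u v z y : k} {w₁ w₂ w₃ w₄ w : ℤ} {d₁ d₂ d₃ d₄ d : Multiset ℤ}
    (hu : u ∈ KS Q x w₁ d₁) (hv : v ∈ KS Q x w₂ d₂) (hz : z ∈ KS Q x w₃ d₃)
    (hy : y ∈ KS Q x w₄ d₄)
    (hw : w₁ + w₂ + w₃ + w₄ ≤ w) (hd : d₁ + d₂ + d₃ + d₄ = d) : u * v * z * y ∈ KS Q x w d :=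
  mem_mul3 Q x (KS_mul Q x hu hv) hz hy hw hd

private theorem mem_mul5 {u v z y s : k} {w₁ w₂ w₃ w₄ w₅ w : ℤ} {d₁ d₂ d₃ d₄ d₅ d : Multiset ℤ}
    (hu : u ∈ KS Q x w₁ d₁) (hv : v ∈ KS Q x w₂ d₂) (hz : z ∈ KS Q x w₃ d₃)
    (hy : y ∈ KS Q x w₄ d₄) (hs : s ∈ KS Q x w₅ d₅)
    (hw : w₁ + w₂ + w₃ + w₄ + w₅ ≤ w) (hd : d₁ + d₂ + d₃ + d₄ + d₅ = d) :
    u * v * z * y * s ∈ KS Q x w d :=
  mem_mul4 Q x (KS_mul Q x hu hv) hz hy hs hw hd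

private theorem A5_gen (i α₁ α₂ β₁ β₂ : ℤ) (p₁ p₂ q₁ q₂ : Multiset ℤ) (a b d e : A)
    (j1 : ∀ j ∈ p₁, j ≤ i - 1) (j2 : ∀ j ∈ p₂, j ≤ i - 1) (j3 : ∀ j ∈ q₁, i + 1 ≤ j)
    (j4 : ∀ j ∈ q₂, i + 1 ≤ j)
    (ha : a ∈ WL Q x (i - 1) α₁ p₁) (hb : b ∈ WL Q x (i - 1) α₂ p₂)
    (hd : d ∈ WR Q x (i + 1) β₁ q₁) (he : e ∈ WR Q x (i + 1) β₂ q₂) :
    Q.t (x i) * Q.t (a * d) * Q.t (b * e) - Q.t (x i) * Q.t (a * e) * Q.t (b * d)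
      - Q.t (a * d) * Q.t ((b * x i) * e) + Q.t (a * e) * Q.t ((b * x i) * d)
      - Q.t ((a * x i) * d) * Q.t (b * e) + Q.t ((a * x i) * e) * Q.t (b * d) ∈
    KS Q x (α₁ + α₂ + β₁ + β₂ + 3) (p₁ + p₂ + q₁ + q₂ + {i}) := by
  have jL : ∀ j ∈ p₁ + p₂, j ≤ i - 1 := by
    intro j hj
    rcases Multiset.mem_add.1 hj with h | h
    · exact j1 j h
    · exact j2 j h
  have jR : ∀ j ∈ q₁ + q₂, i + 1 ≤ j := by
    intro j hj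
    rcases Multiset.mem_add.1 hj with h | h
    · exact j3 j h
    · exact j4 j h
  have hab : a * b ∈ WL Q x (i - 1) (α₁ + α₂) (p₁ + p₂) := WL_mul Q x _ _ _ _ _ j1 j2 _ _ ha hb
  have hde : d * e ∈ WR Q x (i + 1) (β₁ + β₂) (q₁ + q₂) := WR_mul Q x _ _ _ _ _ j3 j4 _ _ hd he
  have lt1 : i - 1 < i := by omega
  have lt2 : i < i + 1 := by omega
  have lt3 : i - 1 < i + 1 := by omega
  have ta : Q.t a ∈ KS Q x α₁ p₁ := t_WL Q x _ _ _ j1 _ ha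
  have tb : Q.t b ∈ KS Q x α₂ p₂ := t_WL Q x _ _ _ j2 _ hb
  have tc : Q.t (x i) ∈ KS Q x 0 {i} := t_mem_KS Q x i
  have td : Q.t d ∈ KS Q x β₁ q₁ := t_WR Q x _ _ _ j3 _ hd
  have te : Q.t e ∈ KS Q x β₂ q₂ := t_WR Q x _ _ _ j4 _ he
  have tab : Q.t (a * b) ∈ KS Q x (α₁ + α₂) (p₁ + p₂) := t_WL Q x _ _ _ jL _ hab
  have tde : Q.t (d * e) ∈ KS Q x (β₁ + β₂) (q₁ + q₂) := t_WR Q x _ _ _ jR _ hde
  have tac : Q.t (a * x i) ∈ KS Q x (α₁ + (i - (i - 1))) (p₁ + {i}) :=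
    t_WL_x Q x _ _ _ lt1 _ j1 _ ha
  have tad : Q.t (a * d) ∈ KS Q x (α₁ + β₁ + (i + 1 - (i - 1)))
      (p₁ + q₁) :=
    t_WL_WR Q x _ _ _ _ lt3 _ _ j1 j3 _ _ ha hd
  have tacd : Q.t ((a * x i) * d) ∈ KS Q x (α₁ + β₁ + (i + 1 - (i - 1)))
      (p₁ + q₁ + {i}) :=
    t_WL_x_WR Q x _ _ _ _ _ lt1 lt2 _ _ j1 j3 _ _ ha hd
  have tae : Q.t (a * e) ∈ KS Q x (α₁ + β₂ + (i + 1 - (i - 1)))
      (p₁ + q₂) :=
    t_WL_WR Q x _ _ _ _ lt3 _ _ j1 j4 _ _ ha he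
  have tace : Q.t ((a * x i) * e) ∈ KS Q x (α₁ + β₂ + (i + 1 - (i - 1)))
      (p₁ + q₂ + {i}) :=
    t_WL_x_WR Q x _ _ _ _ _ lt1 lt2 _ _ j1 j4 _ _ ha he
  have tade : Q.t ((a * d) * e) ∈ KS Q x (α₁ + (β₁ + β₂) + (i + 1 - (i - 1)))
      (p₁ + (q₁ + q₂)) := by
    rw [Q.t_assoc]
    exact t_WL_WR Q x _ _ _ _ lt3 _ _ j1 jR _ _ ha hde
  have tacde : Q.t (((a * x i) * d) * e) ∈ KS Q x (α₁ + (β₁ + β₂) + (i + 1 - (i - 1)))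
      (p₁ + (q₁ + q₂) + {i}) := by
    rw [Q.t_assoc]
    exact t_WL_x_WR Q x _ _ _ _ _ lt1 lt2 _ _ j1 jR _ _ ha hde
  have tbc : Q.t (b * x i) ∈ KS Q x (α₂ + (i - (i - 1))) (p₂ + {i}) :=
    t_WL_x Q x _ _ _ lt1 _ j2 _ hb
  have tbd : Q.t (b * d) ∈ KS Q x (α₂ + β₁ + (i + 1 - (i - 1)))
      (p₂ + q₁) :=
    t_WL_WR Q x _ _ _ _ lt3 _ _ j2 j3 _ _ hb hd
  have tbcd : Q.t ((b * x i) * d) ∈ KS Q x (α₂ + β₁ + (i + 1 - (i - 1)))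
      (p₂ + q₁ + {i}) :=
    t_WL_x_WR Q x _ _ _ _ _ lt1 lt2 _ _ j2 j3 _ _ hb hd
  have tbe : Q.t (b * e) ∈ KS Q x (α₂ + β₂ + (i + 1 - (i - 1)))
      (p₂ + q₂) :=
    t_WL_WR Q x _ _ _ _ lt3 _ _ j2 j4 _ _ hb he
  have tbce : Q.t ((b * x i) * e) ∈ KS Q x (α₂ + β₂ + (i + 1 - (i - 1)))
      (p₂ + q₂ + {i}) :=
    t_WL_x_WR Q x _ _ _ _ _ lt1 lt2 _ _ j2 j4 _ _ hb he
  have tbde : Q.t ((b * d) * e) ∈ KS Q x (α₂ + (β₁ + β₂) + (i + 1 - (i - 1)))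
      (p₂ + (q₁ + q₂)) := by
    rw [Q.t_assoc]
    exact t_WL_WR Q x _ _ _ _ lt3 _ _ j2 jR _ _ hb hde
  have tbcde : Q.t (((b * x i) * d) * e) ∈ KS Q x (α₂ + (β₁ + β₂) + (i + 1 - (i - 1)))
      (p₂ + (q₁ + q₂) + {i}) := by
    rw [Q.t_assoc]
    exact t_WL_x_WR Q x _ _ _ _ _ lt1 lt2 _ _ j2 jR _ _ hb hde
  have tabc : Q.t ((a * b) * x i) ∈ KS Q x ((α₁ + α₂) + (i - (i - 1))) ((p₁ + p₂) + {i}) :=
    t_WL_x Q x _ _ _ lt1 _ jL _ hab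
  have tabd : Q.t ((a * b) * d) ∈ KS Q x ((α₁ + α₂) + β₁ + (i + 1 - (i - 1)))
      ((p₁ + p₂) + q₁) :=
    t_WL_WR Q x _ _ _ _ lt3 _ _ jL j3 _ _ hab hd
  have tabcd : Q.t (((a * b) * x i) * d) ∈ KS Q x ((α₁ + α₂) + β₁ + (i + 1 - (i - 1)))
      ((p₁ + p₂) + q₁ + {i}) :=
    t_WL_x_WR Q x _ _ _ _ _ lt1 lt2 _ _ jL j3 _ _ hab hd
  have tabe : Q.t ((a * b) * e) ∈ KS Q x ((α₁ + α₂) + β₂ + (i + 1 - (i - 1)))
      ((p₁ + p₂) + q₂) :=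
    t_WL_WR Q x _ _ _ _ lt3 _ _ jL j4 _ _ hab he
  have tabce : Q.t (((a * b) * x i) * e) ∈ KS Q x ((α₁ + α₂) + β₂ + (i + 1 - (i - 1)))
      ((p₁ + p₂) + q₂ + {i}) :=
    t_WL_x_WR Q x _ _ _ _ _ lt1 lt2 _ _ jL j4 _ _ hab he
  have tabde : Q.t (((a * b) * d) * e) ∈ KS Q x ((α₁ + α₂) + (β₁ + β₂) + (i + 1 - (i - 1)))
      ((p₁ + p₂) + (q₁ + q₂)) := by
    rw [Q.t_assoc]
    exact t_WL_WR Q x _ _ _ _ lt3 _ _ jL jR _ _ hab hde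
  have tabcde : Q.t ((((a * b) * x i) * d) * e) ∈ KS Q x ((α₁ + α₂) + (β₁ + β₂) + (i + 1 - (i - 1)))
      ((p₁ + p₂) + (q₁ + q₂) + {i}) := by
    rw [Q.t_assoc]
    exact t_WL_x_WR Q x _ _ _ _ _ lt1 lt2 _ _ jL jR _ _ hab hde
  have tcd : Q.t (x i * d) ∈ KS Q x (β₁ + (i + 1 - i)) (q₁ + {i}) :=
    t_x_WR Q x _ _ _ lt2 _ j3 _ hd
  have tce : Q.t (x i * e) ∈ KS Q x (β₂ + (i + 1 - i)) (q₂ + {i}) :=
    t_x_WR Q x _ _ _ lt2 _ j4 _ he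
  have tcde : Q.t ((x i * d) * e) ∈ KS Q x ((β₁ + β₂) + (i + 1 - i)) ((q₁ + q₂) + {i}) := by
    rw [Q.t_assoc]
    exact t_x_WR Q x _ _ _ lt2 _ jR _ hde
  have key : Q.t (x i) * Q.t (a * d) * Q.t (b * e) - Q.t (x i) * Q.t (a * e) * Q.t (b * d)
      - Q.t (a * d) * Q.t ((b * x i) * e) + Q.t (a * e) * Q.t ((b * x i) * d)
      - Q.t ((a * x i) * d) * Q.t (b * e) + Q.t ((a * x i) * e) * Q.t (b * d)
      = - ((2 : ℕ) * Q.t ((((a * b) * x i) * d) * e))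
      + Q.t a * Q.t (((b * x i) * d) * e)
      + Q.t (a * b) * Q.t ((x i * d) * e)
      + Q.t ((a * b) * x i) * Q.t (d * e)
      + Q.t (((a * b) * x i) * d) * Q.t e
      + Q.t (((a * b) * x i) * e) * Q.t d
      - Q.t ((a * b) * d) * Q.t (x i * e)
      + Q.t (((a * b) * d) * e) * Q.t (x i)
      + Q.t ((a * b) * e) * Q.t (x i * d)
      - Q.t (a * x i) * Q.t ((b * d) * e)
      + Q.t (((a * x i) * d) * e) * Q.t b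
      + Q.t ((a * d) * e) * Q.t (b * x i)
      - Q.t a * Q.t b * Q.t ((x i * d) * e)
      - Q.t a * Q.t (b * x i) * Q.t (d * e)
      - Q.t a * Q.t ((b * x i) * e) * Q.t d
      + Q.t a * Q.t (b * d) * Q.t (x i * e)
      - Q.t a * Q.t (b * e) * Q.t (x i * d)
      - Q.t (a * b) * Q.t (x i) * Q.t (d * e)
      - Q.t (a * b) * Q.t (x i * d) * Q.t e
      - Q.t ((a * b) * x i) * Q.t d * Q.t e
      - Q.t ((a * b) * e) * Q.t (x i) * Q.t d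
      + Q.t (a * x i) * Q.t (b * d) * Q.t e
      - Q.t ((a * x i) * d) * Q.t b * Q.t e
      - Q.t (a * d) * Q.t (b * x i) * Q.t e
      - Q.t ((a * d) * e) * Q.t b * Q.t (x i)
      + Q.t a * Q.t b * Q.t (x i) * Q.t (d * e)
      + Q.t a * Q.t b * Q.t (x i * d) * Q.t e
      + Q.t a * Q.t (b * x i) * Q.t d * Q.t e
      - Q.t a * Q.t (b * d) * Q.t (x i) * Q.t e
      + Q.t a * Q.t (b * e) * Q.t (x i) * Q.t d
      + Q.t (a * b) * Q.t (x i) * Q.t d * Q.t e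
      + Q.t (a * d) * Q.t b * Q.t (x i) * Q.t e
      - Q.t a * Q.t b * Q.t (x i) * Q.t d * Q.t e := by
    push_cast
    linear_combination Q.rel5 a b (x i) d e
  rw [key]
  refine sub_mem (add_mem (add_mem (add_mem (sub_mem (add_mem (add_mem (add_mem (sub_mem (sub_mem (sub_mem (add_mem (sub_mem (sub_mem (sub_mem (sub_mem (sub_mem (add_mem (sub_mem (sub_mem (sub_mem (add_mem (add_mem (sub_mem (add_mem (add_mem (sub_mem (add_mem (add_mem (add_mem (add_mem (add_mem (neg_mem ?_) ?_) ?_) ?_) ?_) ?_) ?_) ?_) ?_) ?_) ?_) ?_) ?_) ?_) ?_) ?_) ?_) ?_) ?_) ?_) ?_) ?_) ?_) ?_) ?_) ?_) ?_) ?_) ?_) ?_) ?_) ?_) ?_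
  · refine ofNat_mul_mem_KS Q x 2 ?_
    have hc : p₁ + p₂ + (q₁ + q₂) + {i} = p₁ + p₂ + q₁ + q₂ + {i} := by abel
    rw [← hc]
    exact KS_mono Q x (by omega) _ tabcde
  · exact mem_mul2 Q x ta tbcde (by omega) (by abel)
  · exact mem_mul2 Q x tab tcde (by omega) (by abel)
  · exact mem_mul2 Q x tabc tde (by omega) (by abel)
  · exact mem_mul2 Q x tabcd te (by omega) (by abel)
  · exact mem_mul2 Q x tabce td (by omega) (by abel)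
  · exact mem_mul2 Q x tabd tce (by omega) (by abel)
  · exact mem_mul2 Q x tabde tc (by omega) (by abel)
  · exact mem_mul2 Q x tabe tcd (by omega) (by abel)
  · exact mem_mul2 Q x tac tbde (by omega) (by abel)
  · exact mem_mul2 Q x tacde tb (by omega) (by abel)
  · exact mem_mul2 Q x tade tbc (by omega) (by abel)
  · exact mem_mul3 Q x ta tb tcde (by omega) (by abel)
  · exact mem_mul3 Q x ta tbc tde (by omega) (by abel)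
  · exact mem_mul3 Q x ta tbce td (by omega) (by abel)
  · exact mem_mul3 Q x ta tbd tce (by omega) (by abel)
  · exact mem_mul3 Q x ta tbe tcd (by omega) (by abel)
  · exact mem_mul3 Q x tab tc tde (by omega) (by abel)
  · exact mem_mul3 Q x tab tcd te (by omega) (by abel)
  · exact mem_mul3 Q x tabc td te (by omega) (by abel)
  · exact mem_mul3 Q x tabe tc td (by omega) (by abel)
  · exact mem_mul3 Q x tac tbd te (by omega) (by abel)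
  · exact mem_mul3 Q x tacd tb te (by omega) (by abel)
  · exact mem_mul3 Q x tad tbc te (by omega) (by abel)
  · exact mem_mul3 Q x tade tb tc (by omega) (by abel)
  · exact mem_mul4 Q x ta tb tc tde (by omega) (by abel)
  · exact mem_mul4 Q x ta tb tcd te (by omega) (by abel)
  · exact mem_mul4 Q x ta tbc td te (by omega) (by abel)
  · exact mem_mul4 Q x ta tbd tc te (by omega) (by abel)
  · exact mem_mul4 Q x ta tbe tc td (by omega) (by abel)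
  · exact mem_mul4 Q x tab tc td te (by omega) (by abel)
  · exact mem_mul4 Q x tad tb tc te (by omega) (by abel)
  · exact mem_mul5 Q x ta tb tc td te (by omega) (by abel)

theorem A5 (P₁ P₂ Q₁ Q₂ : List ℤ) (i : ℤ) (h1 : P₁ ≠ []) (h2 : P₂ ≠ []) (h3 : Q₁ ≠ [])
    (h4 : Q₂ ≠ []) (i1 : Inc P₁) (i2 : Inc P₂) (i3 : Inc Q₁) (i4 : Inc Q₂)
    (j1 : ∀ j ∈ P₁, j < i) (j2 : ∀ j ∈ P₂, j < i) (j3 : ∀ j ∈ Q₁, i < j) (j4 : ∀ j ∈ Q₂, i < j) :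
    Q.T x [i] * Q.T x (P₁ ++ Q₁) * Q.T x (P₂ ++ Q₂) - Q.T x [i] * Q.T x (P₁ ++ Q₂) * Q.T x (P₂ ++ Q₁)
      - Q.T x (P₁ ++ Q₁) * Q.T x (P₂ ++ i :: Q₂) + Q.T x (P₁ ++ Q₂) * Q.T x (P₂ ++ i :: Q₁)
      - Q.T x (P₁ ++ i :: Q₁) * Q.T x (P₂ ++ Q₂) + Q.T x (P₁ ++ i :: Q₂) * Q.T x (P₂ ++ Q₁) ∈
    KS Q x (la Q₁ + la Q₂ - hd P₁ - hd P₂ - 1)
      ((P₁ : Multiset ℤ) + (P₂ : Multiset ℤ) + (Q₁ : Multiset ℤ) + (Q₂ : Multiset ℤ) + {i}) := by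
  have m1 : ∀ j ∈ (P₁ : Multiset ℤ), j ≤ i - 1 := fun j hj => by
    have := j1 j (Multiset.mem_coe.1 hj); omega
  have m2 : ∀ j ∈ (P₂ : Multiset ℤ), j ≤ i - 1 := fun j hj => by
    have := j2 j (Multiset.mem_coe.1 hj); omega
  have m3 : ∀ j ∈ (Q₁ : Multiset ℤ), i + 1 ≤ j := fun j hj => by
    have := j3 j (Multiset.mem_coe.1 hj); omega
  have m4 : ∀ j ∈ (Q₂ : Multiset ℤ), i + 1 ≤ j := fun j hj => by
    have := j4 j (Multiset.mem_coe.1 hj); omega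
  have h := A5_gen Q x i (ol (i - 1) P₁) (ol (i - 1) P₂) (orr (i + 1) Q₁) (orr (i + 1) Q₂)
    (P₁ : Multiset ℤ) (P₂ : Multiset ℤ) (Q₁ : Multiset ℤ) (Q₂ : Multiset ℤ)
    (wd x P₁) (wd x P₂) (rw' x Q₁) (rw' x Q₂) m1 m2 m3 m4 (wd_mem_WL Q x i1 _)
    (wd_mem_WL Q x i2 _) (rw_mem_WR Q x i3 _) (rw_mem_WR Q x i4 _)
  have e1 : ol (i - 1) P₁ = i - 1 - hd P₁ := by simp [ol, h1]
  have e2 : ol (i - 1) P₂ = i - 1 - hd P₂ := by simp [ol, h2]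
  have e3 : orr (i + 1) Q₁ = la Q₁ - (i + 1) := by simp [orr, h3]
  have e4 : orr (i + 1) Q₂ = la Q₂ - (i + 1) := by simp [orr, h4]
  have ew : ol (i - 1) P₁ + ol (i - 1) P₂ + orr (i + 1) Q₁ + orr (i + 1) Q₂ + 3
      = la Q₁ + la Q₂ - hd P₁ - hd P₂ - 1 := by
    rw [e1, e2, e3, e4]; ring
  rw [ew] at h
  simp only [T_append, T_single, rw_cons, ← Q.t_assoc]
  exact h

end Pool.Agent.Smt
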