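import Pool.Agent.Smt.Rel5

/-!
# The relations of degree six
-/

set_option autoImplicit false
set_option linter.unusedSectionVars false
set_option linter.unusedSimpArgs false

namespace Pool.Agent.Smt

variable {k A : Type*} [CommRing k] [NonAssocRing A] [Module k A] [IsScalarTower k A A]
  [SMulCommClass k A A] (Q : QA k A)

theorem QA.rel6 (a b c d e f : A) :
    2 * (Q.t (((((a * b) * c) * d) * e) * f)) - Q.t a * Q.t ((((b * c) * d) * e) * f)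
    - Q.t (a * b) * Q.t (((c * d) * e) * f) - 2 * (Q.t ((a * b) * c) * Q.t ((d * e) * f))
    - Q.t (((a * b) * c) * d) * Q.t (e * f) - Q.t ((((a * b) * c) * d) * e) * Q.t f
    - Q.t ((((a * b) * c) * d) * f) * Q.t e + 2 * (Q.t ((a * b) * d) * Q.t ((c * e) * f))
    - Q.t ((a * b) * e) * Q.t ((c * d) * f) - Q.t (((a * b) * e) * f) * Q.t (c * d)
    + Q.t ((a * b) * f) * Q.t ((c * d) * e) - Q.t ((a * c) * d) * Q.t ((b * e) * f)
    - Q.t (((a * c) * d) * e) * Q.t (b * f) - Q.t ((((a * c) * d) * e) * f) * Q.t b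
    + Q.t (((a * c) * d) * f) * Q.t (b * e) - Q.t (a * e) * Q.t (((b * c) * d) * f)
    + Q.t ((a * e) * f) * Q.t ((b * c) * d) + Q.t (a * f) * Q.t (((b * c) * d) * e)
    + Q.t a * Q.t b * Q.t (((c * d) * e) * f) + Q.t a * Q.t (b * c) * Q.t ((d * e) * f)
    + Q.t a * Q.t (((b * c) * d) * f) * Q.t e - Q.t a * Q.t (b * d) * Q.t ((c * e) * f)
    + Q.t a * Q.t ((b * e) * f) * Q.t (c * d) + Q.t (a * b) * Q.t c * Q.t ((d * e) * f)
    + Q.t (a * b) * Q.t (c * d) * Q.t (e * f) + Q.t (a * b) * Q.t ((c * d) * f) * Q.t e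
    - Q.t (a * b) * Q.t ((c * e) * f) * Q.t d + Q.t ((a * b) * c) * Q.t d * Q.t (e * f)
    + Q.t ((a * b) * c) * Q.t (d * e) * Q.t f + Q.t ((a * b) * c) * Q.t (d * f) * Q.t e
    + Q.t (((a * b) * c) * d) * Q.t e * Q.t f - Q.t ((a * b) * d) * Q.t c * Q.t (e * f)
    - Q.t ((a * b) * d) * Q.t (c * e) * Q.t f - Q.t ((a * b) * d) * Q.t (c * f) * Q.t e
    + Q.t ((a * b) * e) * Q.t c * Q.t (d * f) + Q.t ((a * b) * e) * Q.t (c * d) * Q.t f
    + Q.t ((a * b) * e) * Q.t (c * f) * Q.t d - Q.t ((a * b) * f) * Q.t c * Q.t (d * e)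
    - Q.t ((a * b) * f) * Q.t (c * e) * Q.t d + Q.t (a * c) * Q.t b * Q.t ((d * e) * f)
    - Q.t (a * c) * Q.t (b * e) * Q.t (d * f) + Q.t (a * c) * Q.t ((b * e) * f) * Q.t d
    + Q.t (a * c) * Q.t (b * f) * Q.t (d * e) + Q.t ((a * c) * d) * Q.t b * Q.t (e * f)
    + Q.t ((a * c) * d) * Q.t (b * f) * Q.t e + Q.t (((a * c) * d) * e) * Q.t b * Q.t f
    - Q.t (a * d) * Q.t b * Q.t ((c * e) * f) + Q.t (a * d) * Q.t (b * e) * Q.t (c * f)
    + Q.t (a * d) * Q.t ((b * e) * f) * Q.t c - Q.t (a * d) * Q.t (b * f) * Q.t (c * e)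
    + Q.t (a * e) * Q.t b * Q.t ((c * d) * f) + Q.t (a * e) * Q.t (b * c) * Q.t (d * f)
    - Q.t (a * e) * Q.t (b * d) * Q.t (c * f) + Q.t (a * e) * Q.t (b * f) * Q.t (c * d)
    - Q.t ((a * e) * f) * Q.t (b * c) * Q.t d - Q.t ((a * e) * f) * Q.t (b * d) * Q.t c
    - Q.t (a * f) * Q.t b * Q.t ((c * d) * e) - Q.t (a * f) * Q.t (b * c) * Q.t (d * e)
    - Q.t (a * f) * Q.t ((b * c) * d) * Q.t e + Q.t (a * f) * Q.t (b * d) * Q.t (c * e)
    - Q.t (a * f) * Q.t (b * e) * Q.t (c * d) - Q.t a * Q.t b * Q.t c * Q.t ((d * e) * f)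
    - Q.t a * Q.t b * Q.t (c * d) * Q.t (e * f) - Q.t a * Q.t b * Q.t ((c * d) * f) * Q.t e
    + Q.t a * Q.t b * Q.t ((c * e) * f) * Q.t d - Q.t a * Q.t (b * c) * Q.t (d * f) * Q.t e
    + Q.t a * Q.t (b * d) * Q.t c * Q.t (e * f) + Q.t a * Q.t (b * d) * Q.t (c * f) * Q.t e
    - Q.t a * Q.t (b * e) * Q.t (c * f) * Q.t d - Q.t a * Q.t ((b * e) * f) * Q.t c * Q.t d
    - Q.t a * Q.t (b * f) * Q.t (c * d) * Q.t e + Q.t a * Q.t (b * f) * Q.t (c * e) * Q.t d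
    - Q.t (a * b) * Q.t c * Q.t (d * f) * Q.t e - Q.t (a * b) * Q.t (c * d) * Q.t e * Q.t f
    + Q.t (a * b) * Q.t (c * e) * Q.t d * Q.t f - Q.t ((a * b) * c) * Q.t d * Q.t e * Q.t f
    + Q.t ((a * b) * d) * Q.t c * Q.t e * Q.t f - Q.t ((a * b) * e) * Q.t c * Q.t d * Q.t f
    + Q.t ((a * b) * f) * Q.t c * Q.t d * Q.t e - Q.t (a * c) * Q.t b * Q.t d * Q.t (e * f)
    - Q.t (a * c) * Q.t b * Q.t (d * e) * Q.t f - Q.t (a * c) * Q.t (b * f) * Q.t d * Q.t e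
    - Q.t ((a * c) * d) * Q.t b * Q.t e * Q.t f + Q.t (a * d) * Q.t b * Q.t (c * e) * Q.t f
    - Q.t (a * d) * Q.t (b * e) * Q.t c * Q.t f - Q.t (a * e) * Q.t b * Q.t c * Q.t (d * f)
    - Q.t (a * e) * Q.t b * Q.t (c * d) * Q.t f + Q.t (a * e) * Q.t (b * d) * Q.t c * Q.t f
    + Q.t ((a * e) * f) * Q.t b * Q.t c * Q.t d + Q.t (a * f) * Q.t b * Q.t c * Q.t (d * e)
    + Q.t (a * f) * Q.t b * Q.t (c * d) * Q.t e + Q.t (a * f) * Q.t (b * c) * Q.t d * Q.t e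
    + Q.t a * Q.t b * Q.t c * Q.t (d * f) * Q.t e + Q.t a * Q.t b * Q.t (c * d) * Q.t e * Q.t f
    - Q.t a * Q.t b * Q.t (c * e) * Q.t d * Q.t f - Q.t a * Q.t (b * d) * Q.t c * Q.t e * Q.t f
    + Q.t a * Q.t (b * e) * Q.t c * Q.t d * Q.t f + Q.t (a * c) * Q.t b * Q.t d * Q.t e * Q.t f
    - Q.t (a * f) * Q.t b * Q.t c * Q.t d * Q.t e = 0 := by
  have h := Q.rel5 a b (d * c) e f
  have e0 : d * c = Q.t c • d + Q.t d • c - (Q.t c * Q.t d - Q.t (c * d)) • (1 : A) - c * d := by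
    rw [← Q.lin c d]; abel
  have e1 := Q.fG a d c
  have e2 := Q.fG b d c
  have e3 := Q.fG (a * b) d c
  rw [e3, e1, e2, e0] at h
  simp only [add_mul, sub_mul, neg_mul, smul_mul_assoc, one_mul, map_add, map_sub, map_neg,
    map_smul, smul_eq_mul, smul_add, smul_sub, smul_neg, Q.t_one] at h
  linear_combination h

end Pool.Agent.Smt
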