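import Pool.Agent.Smt.FilL
import Pool.Agent.Smt.FilR
import Pool.Agent.Smt.Merge
import Pool.Agent.Smt.Rel6

/-!
# The straightening relation at a cut  (module A6)

Apply `Q.rel6 a b c d e f` with `a = wd x P₁`, `b = wd x P₂`, `c = wd x P₃`, `d = rw' x Q₁`,
`e = rw' x Q₂`, `f = rw' x Q₃`. The six terms with three factors of the form `t(P Q)` are those of
the statement; each of the other 93 terms lies in `KS (w-1) d`,
`w = la Q₁ + la Q₂ + la Q₃ - hd P₁ - hd P₂ - hd P₃`. Cuts: `C = c`, `C' = c + 1`. Words in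
`a, b, c` are in `WL C (sum of the weights C - hd P)` (`WL_mul`), words in `d, e, f`: the traces are
of left-normed words such as `((((a*b)*c)*d)*e)*f`, which has the same trace as
`((a*b)*c) * (d*(e*f))` (`t_assoc`); right-normed words in `d, e, f` are in `WR C' (sum)`. Weight of
a monomial `≤ sum + number of factors containing a letter of {a,b,c} and a letter of {d,e,f}`
(Merge lemmas `t_WL_WR`, `t_WL`, `t_WR`); `w = sum + 3`, the others have at most 2 such factors.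
Same technique as module A5.
-/

set_option autoImplicit false
set_option linter.unusedSectionVars false
set_option linter.unusedVariables false

namespace Pool.Agent.Smt

variable {k A : Type*} [CommRing k] [NonAssocRing A] [Module k A] [IsScalarTower k A A]
  [SMulCommClass k A A] (Q : QA k A) (x : ℤ → A)

private theorem A6_cast {w w' : ℤ} {d d' : Multiset ℤ} {v : k} (h : v ∈ KS Q x w d) (hw : w ≤ w')
    (hd : d = d') : v ∈ KS Q x w' d' := by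
  subst hd
  exact KS_mono Q x hw _ h

private theorem A6_le {C : ℤ} {p q : Multiset ℤ} (hp : ∀ j ∈ p, j ≤ C) (hq : ∀ j ∈ q, j ≤ C) :
    ∀ j ∈ p + q, j ≤ C := fun j hj => (Multiset.mem_add.1 hj).elim (hp j) (hq j)

private theorem A6_ge {C : ℤ} {p q : Multiset ℤ} (hp : ∀ j ∈ p, C ≤ j) (hq : ∀ j ∈ q, C ≤ j) :
    ∀ j ∈ p + q, C ≤ j := fun j hj => (Multiset.mem_add.1 hj).elim (hp j) (hq j)

/-- The relation of degree six, for elements of the filtered spaces. -/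
theorem A6_abs (C : ℤ) (a b c d e f : A) (u1 u2 u3 v1 v2 v3 : ℤ) (p1 p2 p3 q1 q2 q3 : Multiset ℤ)
    (ha : a ∈ WL Q x C u1 p1) (hb : b ∈ WL Q x C u2 p2) (hc : c ∈ WL Q x C u3 p3)
    (hd : d ∈ WR Q x (C + 1) v1 q1) (he : e ∈ WR Q x (C + 1) v2 q2)
    (hf : f ∈ WR Q x (C + 1) v3 q3)
    (b1 : ∀ j ∈ p1, j ≤ C) (b2 : ∀ j ∈ p2, j ≤ C) (b3 : ∀ j ∈ p3, j ≤ C)
    (c1 : ∀ j ∈ q1, C + 1 ≤ j) (c2 : ∀ j ∈ q2, C + 1 ≤ j) (c3 : ∀ j ∈ q3, C + 1 ≤ j) :
    Q.t (a * d) * Q.t (b * e) * Q.t (c * f) - Q.t (a * d) * Q.t (b * f) * Q.t (c * e)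
      - Q.t (a * e) * Q.t (b * d) * Q.t (c * f) + Q.t (a * e) * Q.t (b * f) * Q.t (c * d)
      + Q.t (a * f) * Q.t (b * d) * Q.t (c * e) - Q.t (a * f) * Q.t (b * e) * Q.t (c * d) ∈
    KS Q x (u1 + u2 + u3 + v1 + v2 + v3 + 2) (p1 + p2 + p3 + q1 + q2 + q3) := by
  have wab := WL_mul Q x C u1 u2 p1 p2 b1 b2 a b ha hb
  have wac := WL_mul Q x C u1 u3 p1 p3 b1 b3 a c ha hc
  have wbc := WL_mul Q x C u2 u3 p2 p3 b2 b3 b c hb hc
  have b12 := A6_le b1 b2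
  have b13 := A6_le b1 b3
  have b23 := A6_le b2 b3
  have wabc := WL_mul Q x C (u1 + u2) u3 (p1 + p2) p3 b12 b3 (a * b) c wab hc
  have b123 := A6_le b12 b3
  have wde := WR_mul Q x (C + 1) v1 v2 q1 q2 c1 c2 d e hd he
  have wdf := WR_mul Q x (C + 1) v1 v3 q1 q3 c1 c3 d f hd hf
  have wef := WR_mul Q x (C + 1) v2 v3 q2 q3 c2 c3 e f he hf
  have c12 := A6_ge c1 c2
  have c13 := A6_ge c1 c3
  have c23 := A6_ge c2 c3
  have wdef := WR_mul Q x (C + 1) v1 (v2 + v3) q1 (q2 + q3) c1 c23 d (e * f) hd wef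
  have c123 := A6_ge c1 c23
  have Fa : Q.t a ∈ KS Q x (u1) (p1) := by
    exact A6_cast Q x (t_WL Q x C _ _ b1 _ ha) (by omega) (by abel)
  have Fb : Q.t b ∈ KS Q x (u2) (p2) := by
    exact A6_cast Q x (t_WL Q x C _ _ b2 _ hb) (by omega) (by abel)
  have Fc : Q.t c ∈ KS Q x (u3) (p3) := by
    exact A6_cast Q x (t_WL Q x C _ _ b3 _ hc) (by omega) (by abel)
  have Fd : Q.t d ∈ KS Q x (v1) (q1) := by
    exact A6_cast Q x (t_WR Q x (C + 1) _ _ c1 _ hd) (by omega) (by abel)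
  have Fe : Q.t e ∈ KS Q x (v2) (q2) := by
    exact A6_cast Q x (t_WR Q x (C + 1) _ _ c2 _ he) (by omega) (by abel)
  have Ff : Q.t f ∈ KS Q x (v3) (q3) := by
    exact A6_cast Q x (t_WR Q x (C + 1) _ _ c3 _ hf) (by omega) (by abel)
  have Fab : Q.t (a * b) ∈ KS Q x (u1 + u2) (p1 + p2) := by
    exact A6_cast Q x (t_WL Q x C _ _ b12 _ wab) (by omega) (by abel)
  have Fac : Q.t (a * c) ∈ KS Q x (u1 + u3) (p1 + p3) := by
    exact A6_cast Q x (t_WL Q x C _ _ b13 _ wac) (by omega) (by abel)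
  have Fad : Q.t (a * d) ∈ KS Q x (u1 + v1 + 1) (p1 + q1) := by
    exact A6_cast Q x (t_WL_WR Q x C (C + 1) _ _ (by omega) _ _ b1 c1 _ _ ha hd) (by omega)
      (by abel)
  have Fae : Q.t (a * e) ∈ KS Q x (u1 + v2 + 1) (p1 + q2) := by
    exact A6_cast Q x (t_WL_WR Q x C (C + 1) _ _ (by omega) _ _ b1 c2 _ _ ha he) (by omega)
      (by abel)
  have Faf : Q.t (a * f) ∈ KS Q x (u1 + v3 + 1) (p1 + q3) := by
    exact A6_cast Q x (t_WL_WR Q x C (C + 1) _ _ (by omega) _ _ b1 c3 _ _ ha hf) (by omega)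
      (by abel)
  have Fbc : Q.t (b * c) ∈ KS Q x (u2 + u3) (p2 + p3) := by
    exact A6_cast Q x (t_WL Q x C _ _ b23 _ wbc) (by omega) (by abel)
  have Fbd : Q.t (b * d) ∈ KS Q x (u2 + v1 + 1) (p2 + q1) := by
    exact A6_cast Q x (t_WL_WR Q x C (C + 1) _ _ (by omega) _ _ b2 c1 _ _ hb hd) (by omega)
      (by abel)
  have Fbe : Q.t (b * e) ∈ KS Q x (u2 + v2 + 1) (p2 + q2) := by
    exact A6_cast Q x (t_WL_WR Q x C (C + 1) _ _ (by omega) _ _ b2 c2 _ _ hb he) (by omega)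
      (by abel)
  have Fbf : Q.t (b * f) ∈ KS Q x (u2 + v3 + 1) (p2 + q3) := by
    exact A6_cast Q x (t_WL_WR Q x C (C + 1) _ _ (by omega) _ _ b2 c3 _ _ hb hf) (by omega)
      (by abel)
  have Fcd : Q.t (c * d) ∈ KS Q x (u3 + v1 + 1) (p3 + q1) := by
    exact A6_cast Q x (t_WL_WR Q x C (C + 1) _ _ (by omega) _ _ b3 c1 _ _ hc hd) (by omega)
      (by abel)
  have Fce : Q.t (c * e) ∈ KS Q x (u3 + v2 + 1) (p3 + q2) := by
    exact A6_cast Q x (t_WL_WR Q x C (C + 1) _ _ (by omega) _ _ b3 c2 _ _ hc he) (by omega)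
      (by abel)
  have Fcf : Q.t (c * f) ∈ KS Q x (u3 + v3 + 1) (p3 + q3) := by
    exact A6_cast Q x (t_WL_WR Q x C (C + 1) _ _ (by omega) _ _ b3 c3 _ _ hc hf) (by omega)
      (by abel)
  have Fde : Q.t (d * e) ∈ KS Q x (v1 + v2) (q1 + q2) := by
    exact A6_cast Q x (t_WR Q x (C + 1) _ _ c12 _ wde) (by omega) (by abel)
  have Fdf : Q.t (d * f) ∈ KS Q x (v1 + v3) (q1 + q3) := by
    exact A6_cast Q x (t_WR Q x (C + 1) _ _ c13 _ wdf) (by omega) (by abel)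
  have Fef : Q.t (e * f) ∈ KS Q x (v2 + v3) (q2 + q3) := by
    exact A6_cast Q x (t_WR Q x (C + 1) _ _ c23 _ wef) (by omega) (by abel)
  have Fabc : Q.t ((a * b) * c) ∈ KS Q x (u1 + u2 + u3) (p1 + p2 + p3) := by
    exact A6_cast Q x (t_WL Q x C _ _ b123 _ wabc) (by omega) (by abel)
  have Fabd : Q.t ((a * b) * d) ∈ KS Q x (u1 + u2 + v1 + 1) (p1 + p2 + q1) := by
    exact A6_cast Q x (t_WL_WR Q x C (C + 1) _ _ (by omega) _ _ b12 c1 _ _ wab hd) (by omega)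
      (by abel)
  have Fabe : Q.t ((a * b) * e) ∈ KS Q x (u1 + u2 + v2 + 1) (p1 + p2 + q2) := by
    exact A6_cast Q x (t_WL_WR Q x C (C + 1) _ _ (by omega) _ _ b12 c2 _ _ wab he) (by omega)
      (by abel)
  have Fabf : Q.t ((a * b) * f) ∈ KS Q x (u1 + u2 + v3 + 1) (p1 + p2 + q3) := by
    exact A6_cast Q x (t_WL_WR Q x C (C + 1) _ _ (by omega) _ _ b12 c3 _ _ wab hf) (by omega)
      (by abel)
  have Facd : Q.t ((a * c) * d) ∈ KS Q x (u1 + u3 + v1 + 1) (p1 + p3 + q1) := by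
    exact A6_cast Q x (t_WL_WR Q x C (C + 1) _ _ (by omega) _ _ b13 c1 _ _ wac hd) (by omega)
      (by abel)
  have Faef : Q.t ((a * e) * f) ∈ KS Q x (u1 + v2 + v3 + 1) (p1 + q2 + q3) := by
    rw [Q.t_assoc]
    exact A6_cast Q x (t_WL_WR Q x C (C + 1) _ _ (by omega) _ _ b1 c23 _ _ ha wef) (by omega)
      (by abel)
  have Fbcd : Q.t ((b * c) * d) ∈ KS Q x (u2 + u3 + v1 + 1) (p2 + p3 + q1) := by
    exact A6_cast Q x (t_WL_WR Q x C (C + 1) _ _ (by omega) _ _ b23 c1 _ _ wbc hd) (by omega)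
      (by abel)
  have Fbef : Q.t ((b * e) * f) ∈ KS Q x (u2 + v2 + v3 + 1) (p2 + q2 + q3) := by
    rw [Q.t_assoc]
    exact A6_cast Q x (t_WL_WR Q x C (C + 1) _ _ (by omega) _ _ b2 c23 _ _ hb wef) (by omega)
      (by abel)
  have Fcde : Q.t ((c * d) * e) ∈ KS Q x (u3 + v1 + v2 + 1) (p3 + q1 + q2) := by
    rw [Q.t_assoc]
    exact A6_cast Q x (t_WL_WR Q x C (C + 1) _ _ (by omega) _ _ b3 c12 _ _ hc wde) (by omega)
      (by abel)
  have Fcdf : Q.t ((c * d) * f) ∈ KS Q x (u3 + v1 + v3 + 1) (p3 + q1 + q3) := by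
    rw [Q.t_assoc]
    exact A6_cast Q x (t_WL_WR Q x C (C + 1) _ _ (by omega) _ _ b3 c13 _ _ hc wdf) (by omega)
      (by abel)
  have Fcef : Q.t ((c * e) * f) ∈ KS Q x (u3 + v2 + v3 + 1) (p3 + q2 + q3) := by
    rw [Q.t_assoc]
    exact A6_cast Q x (t_WL_WR Q x C (C + 1) _ _ (by omega) _ _ b3 c23 _ _ hc wef) (by omega)
      (by abel)
  have Fdef : Q.t ((d * e) * f) ∈ KS Q x (v1 + v2 + v3) (q1 + q2 + q3) := by
    rw [Q.t_assoc]
    exact A6_cast Q x (t_WR Q x (C + 1) _ _ c123 _ wdef) (by omega) (by abel)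
  have Fabcd : Q.t (((a * b) * c) * d) ∈ KS Q x (u1 + u2 + u3 + v1 + 1) (p1 + p2 + p3 + q1) := by
    exact A6_cast Q x (t_WL_WR Q x C (C + 1) _ _ (by omega) _ _ b123 c1 _ _ wabc hd) (by omega)
      (by abel)
  have Fabef : Q.t (((a * b) * e) * f) ∈ KS Q x (u1 + u2 + v2 + v3 + 1) (p1 + p2 + q2 + q3) := by
    rw [Q.t_assoc]
    exact A6_cast Q x (t_WL_WR Q x C (C + 1) _ _ (by omega) _ _ b12 c23 _ _ wab wef) (by omega)
      (by abel)
  have Facde : Q.t (((a * c) * d) * e) ∈ KS Q x (u1 + u3 + v1 + v2 + 1) (p1 + p3 + q1 + q2) := by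
    rw [Q.t_assoc]
    exact A6_cast Q x (t_WL_WR Q x C (C + 1) _ _ (by omega) _ _ b13 c12 _ _ wac wde) (by omega)
      (by abel)
  have Facdf : Q.t (((a * c) * d) * f) ∈ KS Q x (u1 + u3 + v1 + v3 + 1) (p1 + p3 + q1 + q3) := by
    rw [Q.t_assoc]
    exact A6_cast Q x (t_WL_WR Q x C (C + 1) _ _ (by omega) _ _ b13 c13 _ _ wac wdf) (by omega)
      (by abel)
  have Fbcde : Q.t (((b * c) * d) * e) ∈ KS Q x (u2 + u3 + v1 + v2 + 1) (p2 + p3 + q1 + q2) := by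
    rw [Q.t_assoc]
    exact A6_cast Q x (t_WL_WR Q x C (C + 1) _ _ (by omega) _ _ b23 c12 _ _ wbc wde) (by omega)
      (by abel)
  have Fbcdf : Q.t (((b * c) * d) * f) ∈ KS Q x (u2 + u3 + v1 + v3 + 1) (p2 + p3 + q1 + q3) := by
    rw [Q.t_assoc]
    exact A6_cast Q x (t_WL_WR Q x C (C + 1) _ _ (by omega) _ _ b23 c13 _ _ wbc wdf) (by omega)
      (by abel)
  have Fcdef : Q.t (((c * d) * e) * f) ∈ KS Q x (u3 + v1 + v2 + v3 + 1) (p3 + q1 + q2 + q3) := by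
    rw [Q.t_assoc, Q.t_assoc]
    exact A6_cast Q x (t_WL_WR Q x C (C + 1) _ _ (by omega) _ _ b3 c123 _ _ hc wdef) (by omega)
      (by abel)
  have Fabcde : Q.t ((((a * b) * c) * d) * e) ∈ KS Q x (u1 + u2 + u3 + v1 + v2 + 1) (p1 + p2 + p3 + q1 + q2) := by
    rw [Q.t_assoc]
    exact A6_cast Q x (t_WL_WR Q x C (C + 1) _ _ (by omega) _ _ b123 c12 _ _ wabc wde) (by omega)
      (by abel)
  have Fabcdf : Q.t ((((a * b) * c) * d) * f) ∈ KS Q x (u1 + u2 + u3 + v1 + v3 + 1) (p1 + p2 + p3 + q1 + q3) := by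
    rw [Q.t_assoc]
    exact A6_cast Q x (t_WL_WR Q x C (C + 1) _ _ (by omega) _ _ b123 c13 _ _ wabc wdf) (by omega)
      (by abel)
  have Facdef : Q.t ((((a * c) * d) * e) * f) ∈ KS Q x (u1 + u3 + v1 + v2 + v3 + 1) (p1 + p3 + q1 + q2 + q3) := by
    rw [Q.t_assoc, Q.t_assoc]
    exact A6_cast Q x (t_WL_WR Q x C (C + 1) _ _ (by omega) _ _ b13 c123 _ _ wac wdef) (by omega)
      (by abel)
  have Fbcdef : Q.t ((((b * c) * d) * e) * f) ∈ KS Q x (u2 + u3 + v1 + v2 + v3 + 1) (p2 + p3 + q1 + q2 + q3) := by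
    rw [Q.t_assoc, Q.t_assoc]
    exact A6_cast Q x (t_WL_WR Q x C (C + 1) _ _ (by omega) _ _ b23 c123 _ _ wbc wdef) (by omega)
      (by abel)
  have Fabcdef : Q.t (((((a * b) * c) * d) * e) * f) ∈ KS Q x (u1 + u2 + u3 + v1 + v2 + v3 + 1) (p1 + p2 + p3 + q1 + q2 + q3) := by
    rw [Q.t_assoc, Q.t_assoc]
    exact A6_cast Q x (t_WL_WR Q x C (C + 1) _ _ (by omega) _ _ b123 c123 _ _ wabc wdef) (by omega)
      (by abel)
  set W : ℤ := u1 + u2 + u3 + v1 + v2 + v3 + 2 with hW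
  set D : Multiset ℤ := p1 + p2 + p3 + q1 + q2 + q3 with hD
  have m0 : Q.t (((((a * b) * c) * d) * e) * f) ∈ KS Q x W D :=
    A6_cast Q x Fabcdef (by omega) (by rw [hD]; try abel)
  have m1 : Q.t a * Q.t ((((b * c) * d) * e) * f) ∈ KS Q x W D :=
    A6_cast Q x (KS_mul Q x Fa Fbcdef) (by omega) (by rw [hD]; try abel)
  have m2 : Q.t (a * b) * Q.t (((c * d) * e) * f) ∈ KS Q x W D :=
    A6_cast Q x (KS_mul Q x Fab Fcdef) (by omega) (by rw [hD]; try abel)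
  have m3 : Q.t ((a * b) * c) * Q.t ((d * e) * f) ∈ KS Q x W D :=
    A6_cast Q x (KS_mul Q x Fabc Fdef) (by omega) (by rw [hD]; try abel)
  have m4 : Q.t (((a * b) * c) * d) * Q.t (e * f) ∈ KS Q x W D :=
    A6_cast Q x (KS_mul Q x Fabcd Fef) (by omega) (by rw [hD]; try abel)
  have m5 : Q.t ((((a * b) * c) * d) * e) * Q.t f ∈ KS Q x W D :=
    A6_cast Q x (KS_mul Q x Fabcde Ff) (by omega) (by rw [hD]; try abel)
  have m6 : Q.t ((((a * b) * c) * d) * f) * Q.t e ∈ KS Q x W D :=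
    A6_cast Q x (KS_mul Q x Fabcdf Fe) (by omega) (by rw [hD]; try abel)
  have m7 : Q.t ((a * b) * d) * Q.t ((c * e) * f) ∈ KS Q x W D :=
    A6_cast Q x (KS_mul Q x Fabd Fcef) (by omega) (by rw [hD]; try abel)
  have m8 : Q.t ((a * b) * e) * Q.t ((c * d) * f) ∈ KS Q x W D :=
    A6_cast Q x (KS_mul Q x Fabe Fcdf) (by omega) (by rw [hD]; try abel)
  have m9 : Q.t (((a * b) * e) * f) * Q.t (c * d) ∈ KS Q x W D :=
    A6_cast Q x (KS_mul Q x Fabef Fcd) (by omega) (by rw [hD]; try abel)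
  have m10 : Q.t ((a * b) * f) * Q.t ((c * d) * e) ∈ KS Q x W D :=
    A6_cast Q x (KS_mul Q x Fabf Fcde) (by omega) (by rw [hD]; try abel)
  have m11 : Q.t ((a * c) * d) * Q.t ((b * e) * f) ∈ KS Q x W D :=
    A6_cast Q x (KS_mul Q x Facd Fbef) (by omega) (by rw [hD]; try abel)
  have m12 : Q.t (((a * c) * d) * e) * Q.t (b * f) ∈ KS Q x W D :=
    A6_cast Q x (KS_mul Q x Facde Fbf) (by omega) (by rw [hD]; try abel)
  have m13 : Q.t ((((a * c) * d) * e) * f) * Q.t b ∈ KS Q x W D :=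
    A6_cast Q x (KS_mul Q x Facdef Fb) (by omega) (by rw [hD]; try abel)
  have m14 : Q.t (((a * c) * d) * f) * Q.t (b * e) ∈ KS Q x W D :=
    A6_cast Q x (KS_mul Q x Facdf Fbe) (by omega) (by rw [hD]; try abel)
  have m15 : Q.t (a * e) * Q.t (((b * c) * d) * f) ∈ KS Q x W D :=
    A6_cast Q x (KS_mul Q x Fae Fbcdf) (by omega) (by rw [hD]; try abel)
  have m16 : Q.t ((a * e) * f) * Q.t ((b * c) * d) ∈ KS Q x W D :=
    A6_cast Q x (KS_mul Q x Faef Fbcd) (by omega) (by rw [hD]; try abel)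
  have m17 : Q.t (a * f) * Q.t (((b * c) * d) * e) ∈ KS Q x W D :=
    A6_cast Q x (KS_mul Q x Faf Fbcde) (by omega) (by rw [hD]; try abel)
  have m18 : Q.t a * Q.t b * Q.t (((c * d) * e) * f) ∈ KS Q x W D :=
    A6_cast Q x (KS_mul Q x (KS_mul Q x Fa Fb) Fcdef) (by omega) (by rw [hD]; try abel)
  have m19 : Q.t a * Q.t (b * c) * Q.t ((d * e) * f) ∈ KS Q x W D :=
    A6_cast Q x (KS_mul Q x (KS_mul Q x Fa Fbc) Fdef) (by omega) (by rw [hD]; try abel)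
  have m20 : Q.t a * Q.t (((b * c) * d) * f) * Q.t e ∈ KS Q x W D :=
    A6_cast Q x (KS_mul Q x (KS_mul Q x Fa Fbcdf) Fe) (by omega) (by rw [hD]; try abel)
  have m21 : Q.t a * Q.t (b * d) * Q.t ((c * e) * f) ∈ KS Q x W D :=
    A6_cast Q x (KS_mul Q x (KS_mul Q x Fa Fbd) Fcef) (by omega) (by rw [hD]; try abel)
  have m22 : Q.t a * Q.t ((b * e) * f) * Q.t (c * d) ∈ KS Q x W D :=
    A6_cast Q x (KS_mul Q x (KS_mul Q x Fa Fbef) Fcd) (by omega) (by rw [hD]; try abel)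
  have m23 : Q.t (a * b) * Q.t c * Q.t ((d * e) * f) ∈ KS Q x W D :=
    A6_cast Q x (KS_mul Q x (KS_mul Q x Fab Fc) Fdef) (by omega) (by rw [hD]; try abel)
  have m24 : Q.t (a * b) * Q.t (c * d) * Q.t (e * f) ∈ KS Q x W D :=
    A6_cast Q x (KS_mul Q x (KS_mul Q x Fab Fcd) Fef) (by omega) (by rw [hD]; try abel)
  have m25 : Q.t (a * b) * Q.t ((c * d) * f) * Q.t e ∈ KS Q x W D :=
    A6_cast Q x (KS_mul Q x (KS_mul Q x Fab Fcdf) Fe) (by omega) (by rw [hD]; try abel)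
  have m26 : Q.t (a * b) * Q.t ((c * e) * f) * Q.t d ∈ KS Q x W D :=
    A6_cast Q x (KS_mul Q x (KS_mul Q x Fab Fcef) Fd) (by omega) (by rw [hD]; try abel)
  have m27 : Q.t ((a * b) * c) * Q.t d * Q.t (e * f) ∈ KS Q x W D :=
    A6_cast Q x (KS_mul Q x (KS_mul Q x Fabc Fd) Fef) (by omega) (by rw [hD]; try abel)
  have m28 : Q.t ((a * b) * c) * Q.t (d * e) * Q.t f ∈ KS Q x W D :=
    A6_cast Q x (KS_mul Q x (KS_mul Q x Fabc Fde) Ff) (by omega) (by rw [hD]; try abel)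
  have m29 : Q.t ((a * b) * c) * Q.t (d * f) * Q.t e ∈ KS Q x W D :=
    A6_cast Q x (KS_mul Q x (KS_mul Q x Fabc Fdf) Fe) (by omega) (by rw [hD]; try abel)
  have m30 : Q.t (((a * b) * c) * d) * Q.t e * Q.t f ∈ KS Q x W D :=
    A6_cast Q x (KS_mul Q x (KS_mul Q x Fabcd Fe) Ff) (by omega) (by rw [hD]; try abel)
  have m31 : Q.t ((a * b) * d) * Q.t c * Q.t (e * f) ∈ KS Q x W D :=
    A6_cast Q x (KS_mul Q x (KS_mul Q x Fabd Fc) Fef) (by omega) (by rw [hD]; try abel)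
  have m32 : Q.t ((a * b) * d) * Q.t (c * e) * Q.t f ∈ KS Q x W D :=
    A6_cast Q x (KS_mul Q x (KS_mul Q x Fabd Fce) Ff) (by omega) (by rw [hD]; try abel)
  have m33 : Q.t ((a * b) * d) * Q.t (c * f) * Q.t e ∈ KS Q x W D :=
    A6_cast Q x (KS_mul Q x (KS_mul Q x Fabd Fcf) Fe) (by omega) (by rw [hD]; try abel)
  have m34 : Q.t ((a * b) * e) * Q.t c * Q.t (d * f) ∈ KS Q x W D :=
    A6_cast Q x (KS_mul Q x (KS_mul Q x Fabe Fc) Fdf) (by omega) (by rw [hD]; try abel)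
  have m35 : Q.t ((a * b) * e) * Q.t (c * d) * Q.t f ∈ KS Q x W D :=
    A6_cast Q x (KS_mul Q x (KS_mul Q x Fabe Fcd) Ff) (by omega) (by rw [hD]; try abel)
  have m36 : Q.t ((a * b) * e) * Q.t (c * f) * Q.t d ∈ KS Q x W D :=
    A6_cast Q x (KS_mul Q x (KS_mul Q x Fabe Fcf) Fd) (by omega) (by rw [hD]; try abel)
  have m37 : Q.t ((a * b) * f) * Q.t c * Q.t (d * e) ∈ KS Q x W D :=
    A6_cast Q x (KS_mul Q x (KS_mul Q x Fabf Fc) Fde) (by omega) (by rw [hD]; try abel)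
  have m38 : Q.t ((a * b) * f) * Q.t (c * e) * Q.t d ∈ KS Q x W D :=
    A6_cast Q x (KS_mul Q x (KS_mul Q x Fabf Fce) Fd) (by omega) (by rw [hD]; try abel)
  have m39 : Q.t (a * c) * Q.t b * Q.t ((d * e) * f) ∈ KS Q x W D :=
    A6_cast Q x (KS_mul Q x (KS_mul Q x Fac Fb) Fdef) (by omega) (by rw [hD]; try abel)
  have m40 : Q.t (a * c) * Q.t (b * e) * Q.t (d * f) ∈ KS Q x W D :=
    A6_cast Q x (KS_mul Q x (KS_mul Q x Fac Fbe) Fdf) (by omega) (by rw [hD]; try abel)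
  have m41 : Q.t (a * c) * Q.t ((b * e) * f) * Q.t d ∈ KS Q x W D :=
    A6_cast Q x (KS_mul Q x (KS_mul Q x Fac Fbef) Fd) (by omega) (by rw [hD]; try abel)
  have m42 : Q.t (a * c) * Q.t (b * f) * Q.t (d * e) ∈ KS Q x W D :=
    A6_cast Q x (KS_mul Q x (KS_mul Q x Fac Fbf) Fde) (by omega) (by rw [hD]; try abel)
  have m43 : Q.t ((a * c) * d) * Q.t b * Q.t (e * f) ∈ KS Q x W D :=
    A6_cast Q x (KS_mul Q x (KS_mul Q x Facd Fb) Fef) (by omega) (by rw [hD]; try abel)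
  have m44 : Q.t ((a * c) * d) * Q.t (b * f) * Q.t e ∈ KS Q x W D :=
    A6_cast Q x (KS_mul Q x (KS_mul Q x Facd Fbf) Fe) (by omega) (by rw [hD]; try abel)
  have m45 : Q.t (((a * c) * d) * e) * Q.t b * Q.t f ∈ KS Q x W D :=
    A6_cast Q x (KS_mul Q x (KS_mul Q x Facde Fb) Ff) (by omega) (by rw [hD]; try abel)
  have m46 : Q.t (a * d) * Q.t b * Q.t ((c * e) * f) ∈ KS Q x W D :=
    A6_cast Q x (KS_mul Q x (KS_mul Q x Fad Fb) Fcef) (by omega) (by rw [hD]; try abel)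
  have m47 : Q.t (a * d) * Q.t ((b * e) * f) * Q.t c ∈ KS Q x W D :=
    A6_cast Q x (KS_mul Q x (KS_mul Q x Fad Fbef) Fc) (by omega) (by rw [hD]; try abel)
  have m48 : Q.t (a * e) * Q.t b * Q.t ((c * d) * f) ∈ KS Q x W D :=
    A6_cast Q x (KS_mul Q x (KS_mul Q x Fae Fb) Fcdf) (by omega) (by rw [hD]; try abel)
  have m49 : Q.t (a * e) * Q.t (b * c) * Q.t (d * f) ∈ KS Q x W D :=
    A6_cast Q x (KS_mul Q x (KS_mul Q x Fae Fbc) Fdf) (by omega) (by rw [hD]; try abel)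
  have m50 : Q.t ((a * e) * f) * Q.t (b * c) * Q.t d ∈ KS Q x W D :=
    A6_cast Q x (KS_mul Q x (KS_mul Q x Faef Fbc) Fd) (by omega) (by rw [hD]; try abel)
  have m51 : Q.t ((a * e) * f) * Q.t (b * d) * Q.t c ∈ KS Q x W D :=
    A6_cast Q x (KS_mul Q x (KS_mul Q x Faef Fbd) Fc) (by omega) (by rw [hD]; try abel)
  have m52 : Q.t (a * f) * Q.t b * Q.t ((c * d) * e) ∈ KS Q x W D :=
    A6_cast Q x (KS_mul Q x (KS_mul Q x Faf Fb) Fcde) (by omega) (by rw [hD]; try abel)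
  have m53 : Q.t (a * f) * Q.t (b * c) * Q.t (d * e) ∈ KS Q x W D :=
    A6_cast Q x (KS_mul Q x (KS_mul Q x Faf Fbc) Fde) (by omega) (by rw [hD]; try abel)
  have m54 : Q.t (a * f) * Q.t ((b * c) * d) * Q.t e ∈ KS Q x W D :=
    A6_cast Q x (KS_mul Q x (KS_mul Q x Faf Fbcd) Fe) (by omega) (by rw [hD]; try abel)
  have m55 : Q.t a * Q.t b * Q.t c * Q.t ((d * e) * f) ∈ KS Q x W D :=
    A6_cast Q x (KS_mul Q x (KS_mul Q x (KS_mul Q x Fa Fb) Fc) Fdef) (by omega) (by rw [hD]; try abel)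
  have m56 : Q.t a * Q.t b * Q.t (c * d) * Q.t (e * f) ∈ KS Q x W D :=
    A6_cast Q x (KS_mul Q x (KS_mul Q x (KS_mul Q x Fa Fb) Fcd) Fef) (by omega) (by rw [hD]; try abel)
  have m57 : Q.t a * Q.t b * Q.t ((c * d) * f) * Q.t e ∈ KS Q x W D :=
    A6_cast Q x (KS_mul Q x (KS_mul Q x (KS_mul Q x Fa Fb) Fcdf) Fe) (by omega) (by rw [hD]; try abel)
  have m58 : Q.t a * Q.t b * Q.t ((c * e) * f) * Q.t d ∈ KS Q x W D :=
    A6_cast Q x (KS_mul Q x (KS_mul Q x (KS_mul Q x Fa Fb) Fcef) Fd) (by omega) (by rw [hD]; try abel)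
  have m59 : Q.t a * Q.t (b * c) * Q.t (d * f) * Q.t e ∈ KS Q x W D :=
    A6_cast Q x (KS_mul Q x (KS_mul Q x (KS_mul Q x Fa Fbc) Fdf) Fe) (by omega) (by rw [hD]; try abel)
  have m60 : Q.t a * Q.t (b * d) * Q.t c * Q.t (e * f) ∈ KS Q x W D :=
    A6_cast Q x (KS_mul Q x (KS_mul Q x (KS_mul Q x Fa Fbd) Fc) Fef) (by omega) (by rw [hD]; try abel)
  have m61 : Q.t a * Q.t (b * d) * Q.t (c * f) * Q.t e ∈ KS Q x W D :=
    A6_cast Q x (KS_mul Q x (KS_mul Q x (KS_mul Q x Fa Fbd) Fcf) Fe) (by omega) (by rw [hD]; try abel)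
  have m62 : Q.t a * Q.t (b * e) * Q.t (c * f) * Q.t d ∈ KS Q x W D :=
    A6_cast Q x (KS_mul Q x (KS_mul Q x (KS_mul Q x Fa Fbe) Fcf) Fd) (by omega) (by rw [hD]; try abel)
  have m63 : Q.t a * Q.t ((b * e) * f) * Q.t c * Q.t d ∈ KS Q x W D :=
    A6_cast Q x (KS_mul Q x (KS_mul Q x (KS_mul Q x Fa Fbef) Fc) Fd) (by omega) (by rw [hD]; try abel)
  have m64 : Q.t a * Q.t (b * f) * Q.t (c * d) * Q.t e ∈ KS Q x W D :=
    A6_cast Q x (KS_mul Q x (KS_mul Q x (KS_mul Q x Fa Fbf) Fcd) Fe) (by omega) (by rw [hD]; try abel)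
  have m65 : Q.t a * Q.t (b * f) * Q.t (c * e) * Q.t d ∈ KS Q x W D :=
    A6_cast Q x (KS_mul Q x (KS_mul Q x (KS_mul Q x Fa Fbf) Fce) Fd) (by omega) (by rw [hD]; try abel)
  have m66 : Q.t (a * b) * Q.t c * Q.t (d * f) * Q.t e ∈ KS Q x W D :=
    A6_cast Q x (KS_mul Q x (KS_mul Q x (KS_mul Q x Fab Fc) Fdf) Fe) (by omega) (by rw [hD]; try abel)
  have m67 : Q.t (a * b) * Q.t (c * d) * Q.t e * Q.t f ∈ KS Q x W D :=
    A6_cast Q x (KS_mul Q x (KS_mul Q x (KS_mul Q x Fab Fcd) Fe) Ff) (by omega) (by rw [hD]; try abel)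
  have m68 : Q.t (a * b) * Q.t (c * e) * Q.t d * Q.t f ∈ KS Q x W D :=
    A6_cast Q x (KS_mul Q x (KS_mul Q x (KS_mul Q x Fab Fce) Fd) Ff) (by omega) (by rw [hD]; try abel)
  have m69 : Q.t ((a * b) * c) * Q.t d * Q.t e * Q.t f ∈ KS Q x W D :=
    A6_cast Q x (KS_mul Q x (KS_mul Q x (KS_mul Q x Fabc Fd) Fe) Ff) (by omega) (by rw [hD]; try abel)
  have m70 : Q.t ((a * b) * d) * Q.t c * Q.t e * Q.t f ∈ KS Q x W D :=
    A6_cast Q x (KS_mul Q x (KS_mul Q x (KS_mul Q x Fabd Fc) Fe) Ff) (by omega) (by rw [hD]; try abel)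
  have m71 : Q.t ((a * b) * e) * Q.t c * Q.t d * Q.t f ∈ KS Q x W D :=
    A6_cast Q x (KS_mul Q x (KS_mul Q x (KS_mul Q x Fabe Fc) Fd) Ff) (by omega) (by rw [hD]; try abel)
  have m72 : Q.t ((a * b) * f) * Q.t c * Q.t d * Q.t e ∈ KS Q x W D :=
    A6_cast Q x (KS_mul Q x (KS_mul Q x (KS_mul Q x Fabf Fc) Fd) Fe) (by omega) (by rw [hD]; try abel)
  have m73 : Q.t (a * c) * Q.t b * Q.t d * Q.t (e * f) ∈ KS Q x W D :=
    A6_cast Q x (KS_mul Q x (KS_mul Q x (KS_mul Q x Fac Fb) Fd) Fef) (by omega) (by rw [hD]; try abel)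
  have m74 : Q.t (a * c) * Q.t b * Q.t (d * e) * Q.t f ∈ KS Q x W D :=
    A6_cast Q x (KS_mul Q x (KS_mul Q x (KS_mul Q x Fac Fb) Fde) Ff) (by omega) (by rw [hD]; try abel)
  have m75 : Q.t (a * c) * Q.t (b * f) * Q.t d * Q.t e ∈ KS Q x W D :=
    A6_cast Q x (KS_mul Q x (KS_mul Q x (KS_mul Q x Fac Fbf) Fd) Fe) (by omega) (by rw [hD]; try abel)
  have m76 : Q.t ((a * c) * d) * Q.t b * Q.t e * Q.t f ∈ KS Q x W D :=
    A6_cast Q x (KS_mul Q x (KS_mul Q x (KS_mul Q x Facd Fb) Fe) Ff) (by omega) (by rw [hD]; try abel)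
  have m77 : Q.t (a * d) * Q.t b * Q.t (c * e) * Q.t f ∈ KS Q x W D :=
    A6_cast Q x (KS_mul Q x (KS_mul Q x (KS_mul Q x Fad Fb) Fce) Ff) (by omega) (by rw [hD]; try abel)
  have m78 : Q.t (a * d) * Q.t (b * e) * Q.t c * Q.t f ∈ KS Q x W D :=
    A6_cast Q x (KS_mul Q x (KS_mul Q x (KS_mul Q x Fad Fbe) Fc) Ff) (by omega) (by rw [hD]; try abel)
  have m79 : Q.t (a * e) * Q.t b * Q.t c * Q.t (d * f) ∈ KS Q x W D :=
    A6_cast Q x (KS_mul Q x (KS_mul Q x (KS_mul Q x Fae Fb) Fc) Fdf) (by omega) (by rw [hD]; try abel)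
  have m80 : Q.t (a * e) * Q.t b * Q.t (c * d) * Q.t f ∈ KS Q x W D :=
    A6_cast Q x (KS_mul Q x (KS_mul Q x (KS_mul Q x Fae Fb) Fcd) Ff) (by omega) (by rw [hD]; try abel)
  have m81 : Q.t (a * e) * Q.t (b * d) * Q.t c * Q.t f ∈ KS Q x W D :=
    A6_cast Q x (KS_mul Q x (KS_mul Q x (KS_mul Q x Fae Fbd) Fc) Ff) (by omega) (by rw [hD]; try abel)
  have m82 : Q.t ((a * e) * f) * Q.t b * Q.t c * Q.t d ∈ KS Q x W D :=
    A6_cast Q x (KS_mul Q x (KS_mul Q x (KS_mul Q x Faef Fb) Fc) Fd) (by omega) (by rw [hD]; try abel)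
  have m83 : Q.t (a * f) * Q.t b * Q.t c * Q.t (d * e) ∈ KS Q x W D :=
    A6_cast Q x (KS_mul Q x (KS_mul Q x (KS_mul Q x Faf Fb) Fc) Fde) (by omega) (by rw [hD]; try abel)
  have m84 : Q.t (a * f) * Q.t b * Q.t (c * d) * Q.t e ∈ KS Q x W D :=
    A6_cast Q x (KS_mul Q x (KS_mul Q x (KS_mul Q x Faf Fb) Fcd) Fe) (by omega) (by rw [hD]; try abel)
  have m85 : Q.t (a * f) * Q.t (b * c) * Q.t d * Q.t e ∈ KS Q x W D :=
    A6_cast Q x (KS_mul Q x (KS_mul Q x (KS_mul Q x Faf Fbc) Fd) Fe) (by omega) (by rw [hD]; try abel)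
  have m86 : Q.t a * Q.t b * Q.t c * Q.t (d * f) * Q.t e ∈ KS Q x W D :=
    A6_cast Q x (KS_mul Q x (KS_mul Q x (KS_mul Q x (KS_mul Q x Fa Fb) Fc) Fdf) Fe) (by omega) (by rw [hD]; try abel)
  have m87 : Q.t a * Q.t b * Q.t (c * d) * Q.t e * Q.t f ∈ KS Q x W D :=
    A6_cast Q x (KS_mul Q x (KS_mul Q x (KS_mul Q x (KS_mul Q x Fa Fb) Fcd) Fe) Ff) (by omega) (by rw [hD]; try abel)
  have m88 : Q.t a * Q.t b * Q.t (c * e) * Q.t d * Q.t f ∈ KS Q x W D :=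
    A6_cast Q x (KS_mul Q x (KS_mul Q x (KS_mul Q x (KS_mul Q x Fa Fb) Fce) Fd) Ff) (by omega) (by rw [hD]; try abel)
  have m89 : Q.t a * Q.t (b * d) * Q.t c * Q.t e * Q.t f ∈ KS Q x W D :=
    A6_cast Q x (KS_mul Q x (KS_mul Q x (KS_mul Q x (KS_mul Q x Fa Fbd) Fc) Fe) Ff) (by omega) (by rw [hD]; try abel)
  have m90 : Q.t a * Q.t (b * e) * Q.t c * Q.t d * Q.t f ∈ KS Q x W D :=
    A6_cast Q x (KS_mul Q x (KS_mul Q x (KS_mul Q x (KS_mul Q x Fa Fbe) Fc) Fd) Ff) (by omega) (by rw [hD]; try abel)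
  have m91 : Q.t (a * c) * Q.t b * Q.t d * Q.t e * Q.t f ∈ KS Q x W D :=
    A6_cast Q x (KS_mul Q x (KS_mul Q x (KS_mul Q x (KS_mul Q x Fac Fb) Fd) Fe) Ff) (by omega) (by rw [hD]; try abel)
  have m92 : Q.t (a * f) * Q.t b * Q.t c * Q.t d * Q.t e ∈ KS Q x W D :=
    A6_cast Q x (KS_mul Q x (KS_mul Q x (KS_mul Q x (KS_mul Q x Faf Fb) Fc) Fd) Fe) (by omega) (by rw [hD]; try abel)
  have hrel := Q.rel6 a b c d e f
  have key : Q.t (a * d) * Q.t (b * e) * Q.t (c * f) - Q.t (a * d) * Q.t (b * f) * Q.t (c * e)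
      - Q.t (a * e) * Q.t (b * d) * Q.t (c * f) + Q.t (a * e) * Q.t (b * f) * Q.t (c * d)
      + Q.t (a * f) * Q.t (b * d) * Q.t (c * e) - Q.t (a * f) * Q.t (b * e) * Q.t (c * d) =
      0
      - (Q.t (((((a * b) * c) * d) * e) * f))
      - (Q.t (((((a * b) * c) * d) * e) * f))
      + (Q.t a * Q.t ((((b * c) * d) * e) * f))
      + (Q.t (a * b) * Q.t (((c * d) * e) * f))
      + (Q.t ((a * b) * c) * Q.t ((d * e) * f))
      + (Q.t ((a * b) * c) * Q.t ((d * e) * f))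
      + (Q.t (((a * b) * c) * d) * Q.t (e * f))
      + (Q.t ((((a * b) * c) * d) * e) * Q.t f)
      + (Q.t ((((a * b) * c) * d) * f) * Q.t e)
      - (Q.t ((a * b) * d) * Q.t ((c * e) * f))
      - (Q.t ((a * b) * d) * Q.t ((c * e) * f))
      + (Q.t ((a * b) * e) * Q.t ((c * d) * f))
      + (Q.t (((a * b) * e) * f) * Q.t (c * d))
      - (Q.t ((a * b) * f) * Q.t ((c * d) * e))
      + (Q.t ((a * c) * d) * Q.t ((b * e) * f))
      + (Q.t (((a * c) * d) * e) * Q.t (b * f))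
      + (Q.t ((((a * c) * d) * e) * f) * Q.t b)
      - (Q.t (((a * c) * d) * f) * Q.t (b * e))
      + (Q.t (a * e) * Q.t (((b * c) * d) * f))
      - (Q.t ((a * e) * f) * Q.t ((b * c) * d))
      - (Q.t (a * f) * Q.t (((b * c) * d) * e))
      - (Q.t a * Q.t b * Q.t (((c * d) * e) * f))
      - (Q.t a * Q.t (b * c) * Q.t ((d * e) * f))
      - (Q.t a * Q.t (((b * c) * d) * f) * Q.t e)
      + (Q.t a * Q.t (b * d) * Q.t ((c * e) * f))
      - (Q.t a * Q.t ((b * e) * f) * Q.t (c * d))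
      - (Q.t (a * b) * Q.t c * Q.t ((d * e) * f))
      - (Q.t (a * b) * Q.t (c * d) * Q.t (e * f))
      - (Q.t (a * b) * Q.t ((c * d) * f) * Q.t e)
      + (Q.t (a * b) * Q.t ((c * e) * f) * Q.t d)
      - (Q.t ((a * b) * c) * Q.t d * Q.t (e * f))
      - (Q.t ((a * b) * c) * Q.t (d * e) * Q.t f)
      - (Q.t ((a * b) * c) * Q.t (d * f) * Q.t e)
      - (Q.t (((a * b) * c) * d) * Q.t e * Q.t f)
      + (Q.t ((a * b) * d) * Q.t c * Q.t (e * f))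
      + (Q.t ((a * b) * d) * Q.t (c * e) * Q.t f)
      + (Q.t ((a * b) * d) * Q.t (c * f) * Q.t e)
      - (Q.t ((a * b) * e) * Q.t c * Q.t (d * f))
      - (Q.t ((a * b) * e) * Q.t (c * d) * Q.t f)
      - (Q.t ((a * b) * e) * Q.t (c * f) * Q.t d)
      + (Q.t ((a * b) * f) * Q.t c * Q.t (d * e))
      + (Q.t ((a * b) * f) * Q.t (c * e) * Q.t d)
      - (Q.t (a * c) * Q.t b * Q.t ((d * e) * f))
      + (Q.t (a * c) * Q.t (b * e) * Q.t (d * f))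
      - (Q.t (a * c) * Q.t ((b * e) * f) * Q.t d)
      - (Q.t (a * c) * Q.t (b * f) * Q.t (d * e))
      - (Q.t ((a * c) * d) * Q.t b * Q.t (e * f))
      - (Q.t ((a * c) * d) * Q.t (b * f) * Q.t e)
      - (Q.t (((a * c) * d) * e) * Q.t b * Q.t f)
      + (Q.t (a * d) * Q.t b * Q.t ((c * e) * f))
      - (Q.t (a * d) * Q.t ((b * e) * f) * Q.t c)
      - (Q.t (a * e) * Q.t b * Q.t ((c * d) * f))
      - (Q.t (a * e) * Q.t (b * c) * Q.t (d * f))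
      + (Q.t ((a * e) * f) * Q.t (b * c) * Q.t d)
      + (Q.t ((a * e) * f) * Q.t (b * d) * Q.t c)
      + (Q.t (a * f) * Q.t b * Q.t ((c * d) * e))
      + (Q.t (a * f) * Q.t (b * c) * Q.t (d * e))
      + (Q.t (a * f) * Q.t ((b * c) * d) * Q.t e)
      + (Q.t a * Q.t b * Q.t c * Q.t ((d * e) * f))
      + (Q.t a * Q.t b * Q.t (c * d) * Q.t (e * f))
      + (Q.t a * Q.t b * Q.t ((c * d) * f) * Q.t e)
      - (Q.t a * Q.t b * Q.t ((c * e) * f) * Q.t d)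
      + (Q.t a * Q.t (b * c) * Q.t (d * f) * Q.t e)
      - (Q.t a * Q.t (b * d) * Q.t c * Q.t (e * f))
      - (Q.t a * Q.t (b * d) * Q.t (c * f) * Q.t e)
      + (Q.t a * Q.t (b * e) * Q.t (c * f) * Q.t d)
      + (Q.t a * Q.t ((b * e) * f) * Q.t c * Q.t d)
      + (Q.t a * Q.t (b * f) * Q.t (c * d) * Q.t e)
      - (Q.t a * Q.t (b * f) * Q.t (c * e) * Q.t d)
      + (Q.t (a * b) * Q.t c * Q.t (d * f) * Q.t e)
      + (Q.t (a * b) * Q.t (c * d) * Q.t e * Q.t f)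
      - (Q.t (a * b) * Q.t (c * e) * Q.t d * Q.t f)
      + (Q.t ((a * b) * c) * Q.t d * Q.t e * Q.t f)
      - (Q.t ((a * b) * d) * Q.t c * Q.t e * Q.t f)
      + (Q.t ((a * b) * e) * Q.t c * Q.t d * Q.t f)
      - (Q.t ((a * b) * f) * Q.t c * Q.t d * Q.t e)
      + (Q.t (a * c) * Q.t b * Q.t d * Q.t (e * f))
      + (Q.t (a * c) * Q.t b * Q.t (d * e) * Q.t f)
      + (Q.t (a * c) * Q.t (b * f) * Q.t d * Q.t e)
      + (Q.t ((a * c) * d) * Q.t b * Q.t e * Q.t f)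
      - (Q.t (a * d) * Q.t b * Q.t (c * e) * Q.t f)
      + (Q.t (a * d) * Q.t (b * e) * Q.t c * Q.t f)
      + (Q.t (a * e) * Q.t b * Q.t c * Q.t (d * f))
      + (Q.t (a * e) * Q.t b * Q.t (c * d) * Q.t f)
      - (Q.t (a * e) * Q.t (b * d) * Q.t c * Q.t f)
      - (Q.t ((a * e) * f) * Q.t b * Q.t c * Q.t d)
      - (Q.t (a * f) * Q.t b * Q.t c * Q.t (d * e))
      - (Q.t (a * f) * Q.t b * Q.t (c * d) * Q.t e)
      - (Q.t (a * f) * Q.t (b * c) * Q.t d * Q.t e)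
      - (Q.t a * Q.t b * Q.t c * Q.t (d * f) * Q.t e)
      - (Q.t a * Q.t b * Q.t (c * d) * Q.t e * Q.t f)
      + (Q.t a * Q.t b * Q.t (c * e) * Q.t d * Q.t f)
      + (Q.t a * Q.t (b * d) * Q.t c * Q.t e * Q.t f)
      - (Q.t a * Q.t (b * e) * Q.t c * Q.t d * Q.t f)
      - (Q.t (a * c) * Q.t b * Q.t d * Q.t e * Q.t f)
      + (Q.t (a * f) * Q.t b * Q.t c * Q.t d * Q.t e) := by
    linear_combination hrel
  rw [key]
  have s0 := AddSubgroup.zero_mem (KS Q x W D)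
  have s1 := sub_mem s0 m0
  have s2 := sub_mem s1 m0
  have s3 := add_mem s2 m1
  have s4 := add_mem s3 m2
  have s5 := add_mem s4 m3
  have s6 := add_mem s5 m3
  have s7 := add_mem s6 m4
  have s8 := add_mem s7 m5
  have s9 := add_mem s8 m6
  have s10 := sub_mem s9 m7
  have s11 := sub_mem s10 m7
  have s12 := add_mem s11 m8
  have s13 := add_mem s12 m9
  have s14 := sub_mem s13 m10
  have s15 := add_mem s14 m11
  have s16 := add_mem s15 m12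
  have s17 := add_mem s16 m13
  have s18 := sub_mem s17 m14
  have s19 := add_mem s18 m15
  have s20 := sub_mem s19 m16
  have s21 := sub_mem s20 m17
  have s22 := sub_mem s21 m18
  have s23 := sub_mem s22 m19
  have s24 := sub_mem s23 m20
  have s25 := add_mem s24 m21
  have s26 := sub_mem s25 m22
  have s27 := sub_mem s26 m23
  have s28 := sub_mem s27 m24
  have s29 := sub_mem s28 m25
  have s30 := add_mem s29 m26
  have s31 := sub_mem s30 m27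
  have s32 := sub_mem s31 m28
  have s33 := sub_mem s32 m29
  have s34 := sub_mem s33 m30
  have s35 := add_mem s34 m31
  have s36 := add_mem s35 m32
  have s37 := add_mem s36 m33
  have s38 := sub_mem s37 m34
  have s39 := sub_mem s38 m35
  have s40 := sub_mem s39 m36
  have s41 := add_mem s40 m37
  have s42 := add_mem s41 m38
  have s43 := sub_mem s42 m39
  have s44 := add_mem s43 m40
  have s45 := sub_mem s44 m41
  have s46 := sub_mem s45 m42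
  have s47 := sub_mem s46 m43
  have s48 := sub_mem s47 m44
  have s49 := sub_mem s48 m45
  have s50 := add_mem s49 m46
  have s51 := sub_mem s50 m47
  have s52 := sub_mem s51 m48
  have s53 := sub_mem s52 m49
  have s54 := add_mem s53 m50
  have s55 := add_mem s54 m51
  have s56 := add_mem s55 m52
  have s57 := add_mem s56 m53
  have s58 := add_mem s57 m54
  have s59 := add_mem s58 m55
  have s60 := add_mem s59 m56
  have s61 := add_mem s60 m57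
  have s62 := sub_mem s61 m58
  have s63 := add_mem s62 m59
  have s64 := sub_mem s63 m60
  have s65 := sub_mem s64 m61
  have s66 := add_mem s65 m62
  have s67 := add_mem s66 m63
  have s68 := add_mem s67 m64
  have s69 := sub_mem s68 m65
  have s70 := add_mem s69 m66
  have s71 := add_mem s70 m67
  have s72 := sub_mem s71 m68
  have s73 := add_mem s72 m69
  have s74 := sub_mem s73 m70
  have s75 := add_mem s74 m71
  have s76 := sub_mem s75 m72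
  have s77 := add_mem s76 m73
  have s78 := add_mem s77 m74
  have s79 := add_mem s78 m75
  have s80 := add_mem s79 m76
  have s81 := sub_mem s80 m77
  have s82 := add_mem s81 m78
  have s83 := add_mem s82 m79
  have s84 := add_mem s83 m80
  have s85 := sub_mem s84 m81
  have s86 := sub_mem s85 m82
  have s87 := sub_mem s86 m83
  have s88 := sub_mem s87 m84
  have s89 := sub_mem s88 m85
  have s90 := sub_mem s89 m86
  have s91 := sub_mem s90 m87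
  have s92 := add_mem s91 m88
  have s93 := add_mem s92 m89
  have s94 := sub_mem s93 m90
  have s95 := sub_mem s94 m91
  have s96 := add_mem s95 m92
  exact s96

theorem A6 (P₁ P₂ P₃ Q₁ Q₂ Q₃ : List ℤ) (c : ℤ) (h1 : P₁ ≠ []) (h2 : P₂ ≠ []) (h3 : P₃ ≠ [])
    (h4 : Q₁ ≠ []) (h5 : Q₂ ≠ []) (h6 : Q₃ ≠ []) (i1 : Inc P₁) (i2 : Inc P₂) (i3 : Inc P₃)
    (i4 : Inc Q₁) (i5 : Inc Q₂) (i6 : Inc Q₃) (j1 : ∀ j ∈ P₁, j ≤ c) (j2 : ∀ j ∈ P₂, j ≤ c)
    (j3 : ∀ j ∈ P₃, j ≤ c) (j4 : ∀ j ∈ Q₁, c < j) (j5 : ∀ j ∈ Q₂, c < j) (j6 : ∀ j ∈ Q₃, c < j) :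
    Q.T x (P₁ ++ Q₁) * Q.T x (P₂ ++ Q₂) * Q.T x (P₃ ++ Q₃)
      - Q.T x (P₁ ++ Q₁) * Q.T x (P₂ ++ Q₃) * Q.T x (P₃ ++ Q₂)
      - Q.T x (P₁ ++ Q₂) * Q.T x (P₂ ++ Q₁) * Q.T x (P₃ ++ Q₃)
      + Q.T x (P₁ ++ Q₂) * Q.T x (P₂ ++ Q₃) * Q.T x (P₃ ++ Q₁)
      + Q.T x (P₁ ++ Q₃) * Q.T x (P₂ ++ Q₁) * Q.T x (P₃ ++ Q₂)
      - Q.T x (P₁ ++ Q₃) * Q.T x (P₂ ++ Q₂) * Q.T x (P₃ ++ Q₁) ∈
    KS Q x (la Q₁ + la Q₂ + la Q₃ - hd P₁ - hd P₂ - hd P₃ - 1)
      ((P₁ : Multiset ℤ) + (P₂ : Multiset ℤ) + (P₃ : Multiset ℤ) + (Q₁ : Multiset ℤ)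
        + (Q₂ : Multiset ℤ) + (Q₃ : Multiset ℤ)) := by
  have ha := wd_mem_WL Q x i1 c
  have hb := wd_mem_WL Q x i2 c
  have hc := wd_mem_WL Q x i3 c
  have hd' := rw_mem_WR Q x i4 (c + 1)
  have he := rw_mem_WR Q x i5 (c + 1)
  have hf := rw_mem_WR Q x i6 (c + 1)
  have h := A6_abs Q x c _ _ _ _ _ _ _ _ _ _ _ _ _ _ _ _ _ _ ha hb hc hd' he hf
    (fun j hj => j1 j (Multiset.mem_coe.1 hj)) (fun j hj => j2 j (Multiset.mem_coe.1 hj))
    (fun j hj => j3 j (Multiset.mem_coe.1 hj))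
    (fun j hj => by have := j4 j (Multiset.mem_coe.1 hj); omega)
    (fun j hj => by have := j5 j (Multiset.mem_coe.1 hj); omega)
    (fun j hj => by have := j6 j (Multiset.mem_coe.1 hj); omega)
  simp only [T_append]
  refine A6_cast Q x h ?_ rfl
  simp only [ol, orr, if_neg h1, if_neg h2, if_neg h3, if_neg h4, if_neg h5, if_neg h6]
  omega

end Pool.Agent.Smt
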