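import Pool.Agent.Smt.Defs

/-!
# Products in a quadratic alternative algebra
-/

set_option autoImplicit false
set_option linter.unusedSectionVars false

namespace Pool.Agent.Smt

variable {k A : Type*} [CommRing k] [NonAssocRing A] [Module k A] [IsScalarTower k A A]
  [SMulCommClass k A A] (Q : QA k A)

theorem QA.lin (a b : A) : a * b + b * a =
    Q.t a • b + Q.t b • a - (Q.t a * Q.t b - Q.t (a * b)) • (1 : A) := by
  have h := Q.sq (a + b)
  rw [Q.n_add, map_add, mul_add, add_mul, add_mul, Q.sq a, Q.sq b] at h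
  have e : a * b + b * a = (Q.t a • a - Q.n a • (1 : A) + b * a + (a * b + (Q.t b • b - Q.n b • (1 : A))))
    - (Q.t a • a - Q.n a • (1 : A)) - (Q.t b • b - Q.n b • (1 : A)) := by abel
  rw [e, h]
  module

include Q in
theorem QA.alt_right_lin (y a b : A) : (y * a) * b + (y * b) * a = y * (a * b + b * a) := by
  have h := Q.alt_right (a + b) y
  have ha := Q.alt_right a y
  have hb := Q.alt_right b y
  simp only [mul_add, add_mul] at h ⊢
  rw [ha, hb] at h
  have e : (y * a) * b + (y * b) * a = (y * (a * a) + y * b * a + (y * a * b + y * (b * b)))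
    - y * (a * a) - y * (b * b) := by abel
  rw [e, h]
  abel

theorem QA.f3 (a u b : A) : (a * u) * b = -((a * b) * u) + Q.t u • (a * b) + Q.t b • (a * u)
    - (Q.t b * Q.t u - Q.t (b * u)) • a := by
  have h := Q.alt_right_lin a u b
  rw [Q.lin u b] at h
  have e : (a * u) * b = ((a * u) * b + (a * b) * u) - (a * b) * u := by abel
  rw [e, h, mul_sub, mul_add, mul_smul_comm, mul_smul_comm, mul_smul_comm, mul_one,
    Q.t_comm u b]
  module

theorem QA.fsq (z a : A) : (z * a) * a = Q.t a • (z * a) - Q.n a • z := by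
  rw [Q.alt_right, Q.sq, mul_sub, mul_smul_comm, mul_smul_comm, mul_one]

theorem QA.f2 (a b u : A) : a * (b * u) = -((a * b) * u) + Q.t a • (b * u) + Q.t b • (a * u)
    + Q.t u • (a * b) - (Q.t b * Q.t u - Q.t (b * u)) • a - Q.t (a * u) • b
    - (Q.t a * Q.t b - Q.t (a * b)) • u
    + (Q.t a * Q.t b * Q.t u - Q.t a * Q.t (b * u) - Q.t (a * b) * Q.t u
        + Q.t ((a * b) * u)) • (1 : A) := by
  have h1 : a * (b * u) = Q.t a • (b * u) + Q.t (b * u) • a
      - (Q.t a * Q.t (b * u) - Q.t ((a * b) * u)) • (1 : A) - (b * u) * a := by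
    rw [Q.t_assoc, ← Q.lin a (b * u)]; abel
  have h2 : b * a = Q.t a • b + Q.t b • a - (Q.t a * Q.t b - Q.t (a * b)) • (1 : A) - a * b := by
    rw [← Q.lin a b]; abel
  rw [h1, Q.f3 b u a, h2]
  simp only [sub_mul, add_mul, smul_mul_assoc, one_mul]
  module

/-- moving a pair -/
theorem QA.fG (w s r : A) : w * (s * r) = (w * r) * s - Q.t w • (r * s)
    + (Q.t w * Q.t r - Q.t (w * r)) • s + Q.t (w * s) • r
    + (Q.t w * Q.t (r * s) - Q.t w * Q.t r * Q.t s + Q.t (w * r) * Q.t s
      - Q.t ((w * r) * s)) • (1 : A) := by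
  have h1 : s * r = Q.t r • s + Q.t s • r - (Q.t r * Q.t s - Q.t (r * s)) • (1 : A) - r * s := by
    rw [← Q.lin r s]; abel
  rw [h1, mul_sub, mul_sub, mul_add, mul_smul_comm, mul_smul_comm, mul_smul_comm, mul_one,
    Q.f2 w r s]
  module

end Pool.Agent.Smt
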