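import Pool.Agent.Smt.Alg

/-!
# Basic facts on words, diagrams and the filtered spans
-/

set_option autoImplicit false
set_option linter.unusedSectionVars false

namespace Pool.Agent.Smt

/-! ### lists -/

theorem hd_append {l l' : List ℤ} (h : l ≠ []) : hd (l ++ l') = hd l := by
  cases l with
  | nil => exact absurd rfl h
  | cons a l => rfl

@[simp] theorem hd_cons (i : ℤ) (l : List ℤ) : hd (i :: l) = i := rfl

theorem la_append {l l' : List ℤ} (h : l' ≠ []) : la (l ++ l') = la l' := by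
  simp [la, List.getLastD_eq_getLast?, List.getLast?_append_of_ne_nil _ h]

@[simp] theorem la_append_single (l : List ℤ) (i : ℤ) : la (l ++ [i]) = i := by
  rw [la_append (by simp)]; rfl

@[simp] theorem la_single (i : ℤ) : la [i] = i := rfl

theorem la_cons {l : List ℤ} (i : ℤ) (h : l ≠ []) : la (i :: l) = la l := by
  rw [← List.singleton_append, la_append h]

theorem hd_mem {l : List ℤ} (h : l ≠ []) : hd l ∈ l := by
  cases l with
  | nil => exact absurd rfl h
  | cons a l => simp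

theorem la_mem {l : List ℤ} (h : l ≠ []) : la l ∈ l := by
  rw [la, List.getLastD_eq_getLast?, List.getLast?_eq_getLast_of_ne_nil h]
  exact List.getLast_mem h

theorem inc_append {l l' : List ℤ} :
    Inc (l ++ l') ↔ Inc l ∧ Inc l' ∧ ∀ a ∈ l, ∀ b ∈ l', a < b := List.pairwise_append

theorem inc_cons {i : ℤ} {l : List ℤ} : Inc (i :: l) ↔ (∀ j ∈ l, i < j) ∧ Inc l :=
  List.pairwise_cons

@[simp] theorem inc_nil : Inc [] := List.Pairwise.nil

@[simp] theorem inc_single (i : ℤ) : Inc [i] := List.pairwise_singleton _ _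

theorem hd_le {l : List ℤ} (h : Inc l) {i : ℤ} (hi : i ∈ l) : hd l ≤ i := by
  cases l with
  | nil => simp at hi
  | cons a l =>
    rcases List.mem_cons.1 hi with rfl | hi
    · exact le_rfl
    · exact ((inc_cons.1 h).1 i hi).le

theorem le_la {l : List ℤ} (h : Inc l) {i : ℤ} (hi : i ∈ l) : i ≤ la l := by
  induction l with
  | nil => simp at hi
  | cons a l ih =>
    by_cases hl : l = []
    · subst hl
      rcases List.mem_cons.1 hi with rfl | hi
      · exact le_rfl
      · simp at hi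
    · rw [la_cons a hl]
      rcases List.mem_cons.1 hi with rfl | hi
      · exact ((inc_cons.1 h).1 _ (la_mem hl)).le
      · exact ih (inc_cons.1 h).2 hi

theorem hd_le_la {l : List ℤ} (h : Inc l) : hd l ≤ la l := by
  by_cases hl : l = []
  · subst hl; exact le_rfl
  · exact hd_le h (la_mem hl)

/-! ### diagrams -/

namespace Dg

/-- the empty diagram -/
def e : Dg := ⟨0, 0⟩

/-- one block -/
def bl (l : List ℤ) : Dg := ⟨{l}, 0⟩

/-- one norm -/
def nm (i : ℤ) : Dg := ⟨0, {i}⟩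

@[simp] theorem e_b : e.b = 0 := rfl
@[simp] theorem e_m : e.m = 0 := rfl
@[simp] theorem bl_b (l : List ℤ) : (bl l).b = {l} := rfl
@[simp] theorem bl_m (l : List ℤ) : (bl l).m = 0 := rfl
@[simp] theorem nm_b (i : ℤ) : (nm i).b = 0 := rfl
@[simp] theorem nm_m (i : ℤ) : (nm i).m = {i} := rfl

theorem ok_e : e.Ok := by simp [Ok]
theorem ok_bl {l : List ℤ} (h : l ≠ []) (h' : Inc l) : (bl l).Ok := by simp [Ok, h, h']
theorem ok_nm (i : ℤ) : (nm i).Ok := by simp [Ok]
theorem ok_add {D E : Dg} : (D + E).Ok ↔ D.Ok ∧ E.Ok := by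
  simp only [Ok, add_b, Multiset.mem_add]
  constructor
  · exact fun h => ⟨fun l hl => h l (Or.inl hl), fun l hl => h l (Or.inr hl)⟩
  · rintro ⟨h1, h2⟩ l (hl | hl)
    · exact h1 l hl
    · exact h2 l hl

@[simp] theorem ct_e : e.ct = 0 := by simp [ct]
@[simp] theorem ct_bl (l : List ℤ) : (bl l).ct = (l : Multiset ℤ) := by simp [ct]
@[simp] theorem ct_nm (i : ℤ) : (nm i).ct = {i} + {i} := by simp [ct]
@[simp] theorem ct_add (D E : Dg) : (D + E).ct = D.ct + E.ct := by
  simp only [ct, add_b, add_m, Multiset.map_add, Multiset.sum_add]; abel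

@[simp] theorem wt_e : e.wt = 0 := by simp [wt]
@[simp] theorem wt_bl (l : List ℤ) : (bl l).wt = la l - hd l := by simp [wt]
@[simp] theorem wt_nm (i : ℤ) : (nm i).wt = 0 := by simp [wt]
@[simp] theorem wt_add (D E : Dg) : (D + E).wt = D.wt + E.wt := by
  simp [wt, Multiset.map_add, Multiset.sum_add]

@[simp] theorem cf_e : e.cf = 0 := by simp [cf]
@[simp] theorem cf_bl (l : List ℤ) : (bl l).cf = arcs l := by simp [cf]
@[simp] theorem cf_nm (i : ℤ) : (nm i).cf = 0 := by simp [cf]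
@[simp] theorem cf_add (D E : Dg) : (D + E).cf = D.cf + E.cf := by
  simp [cf, Multiset.map_add, Multiset.sum_add]

@[simp] theorem ta_e : e.ta = 0 := by simp [ta]
@[simp] theorem ta_bl (l : List ℤ) : (bl l).ta = tau l := by simp [ta]
@[simp] theorem ta_nm (i : ℤ) : (nm i).ta = 0 := by simp [ta]
@[simp] theorem ta_add (D E : Dg) : (D + E).ta = D.ta + E.ta := by
  simp [ta, Multiset.map_add, Multiset.sum_add]

theorem wt_nonneg {D : Dg} (h : D.Ok) : 0 ≤ D.wt := by
  refine Multiset.sum_nonneg fun a ha => ?_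
  obtain ⟨l, hl, rfl⟩ := Multiset.mem_map.1 ha
  have := hd_le_la (h l hl).2
  linarith

end Dg

theorem phi_add (c c' : Multiset (ℤ × ℤ)) : phi (c + c') = phi c + phi c' := by
  simp [phi, Multiset.map_add, Multiset.sum_add]

theorem phi_cons (e : ℤ × ℤ) (c : Multiset (ℤ × ℤ)) : phi (e ::ₘ c) = e.1 * e.2 + phi c := by
  simp [phi]

@[simp] theorem phi_zero : phi 0 = 0 := by simp [phi]

@[simp] theorem phi_single (e : ℤ × ℤ) : phi {e} = e.1 * e.2 := by simp [phi]

section

variable {k A : Type*} [CommRing k] [NonAssocRing A] [Module k A] [IsScalarTower k A A]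
  [SMulCommClass k A A] (Q : QA k A) (x : ℤ → A)

/-! ### words -/

@[simp] theorem wd_nil : wd x [] = 1 := rfl

theorem wd_append_single (l : List ℤ) (i : ℤ) : wd x (l ++ [i]) = wd x l * x i := by
  simp [wd, List.foldl_append]

@[simp] theorem wd_single (i : ℤ) : wd x [i] = x i := by simp [wd]

@[simp] theorem rw_nil : rw' x [] = 1 := rfl

@[simp] theorem rw_cons (i : ℤ) (l : List ℤ) : rw' x (i :: l) = x i * rw' x l := rfl

theorem T_append (l l' : List ℤ) : Q.T x (l ++ l') = Q.t (wd x l * rw' x l') := by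
  induction l' generalizing l with
  | nil => simp [QA.T]
  | cons i l' ih =>
    have e : l ++ i :: l' = (l ++ [i]) ++ l' := by simp
    rw [e, ih, wd_append_single, Q.t_assoc, rw_cons]

theorem T_eq_rw (l : List ℤ) : Q.T x l = Q.t (rw' x l) := by
  have := T_append Q x [] l
  rwa [List.nil_append, wd_nil, one_mul] at this

theorem T_single (i : ℤ) : Q.T x [i] = Q.t (x i) := by simp [QA.T]

/-! ### values -/

@[simp] theorem val_e : Dg.e.val Q x = 1 := by simp [Dg.val]
@[simp] theorem val_bl (l : List ℤ) : (Dg.bl l).val Q x = Q.T x l := by simp [Dg.val]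
@[simp] theorem val_nm (i : ℤ) : (Dg.nm i).val Q x = Q.n (x i) := by simp [Dg.val]
@[simp] theorem val_add (D E : Dg) : (D + E).val Q x = D.val Q x * E.val Q x := by
  simp only [Dg.val, Dg.add_b, Dg.add_m, Multiset.map_add, Multiset.prod_add]; ring

/-! ### filtered spans -/

theorem mem_KS {D : Dg} (h : D.Ok) {w : ℤ} (hw : D.wt ≤ w) : D.val Q x ∈ KS Q x w D.ct :=
  AddSubgroup.subset_closure ⟨D, h, rfl, hw, rfl⟩

theorem KS_mono {w w' : ℤ} (h : w ≤ w') (d : Multiset ℤ) : KS Q x w d ≤ KS Q x w' d := by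
  refine AddSubgroup.closure_mono ?_
  rintro v ⟨D, h1, h2, h3, h4⟩
  exact ⟨D, h1, h2, h3.trans h, h4⟩

theorem KS_mul {w w' : ℤ} {d d' : Multiset ℤ} {a b : k} (ha : a ∈ KS Q x w d)
    (hb : b ∈ KS Q x w' d') : a * b ∈ KS Q x (w + w') (d + d') := by
  induction ha using AddSubgroup.closure_induction with
  | mem a ha =>
    obtain ⟨D, h1, h2, h3, rfl⟩ := ha
    induction hb using AddSubgroup.closure_induction with
    | mem b hb =>
      obtain ⟨E, g1, g2, g3, rfl⟩ := hb
      rw [← val_add, ← h2, ← g2, ← Dg.ct_add]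
      exact mem_KS Q x (Dg.ok_add.2 ⟨h1, g1⟩) (by rw [Dg.wt_add]; linarith)
    | zero => rw [mul_zero]; exact zero_mem _
    | add b b' _ _ h h' => rw [mul_add]; exact add_mem h h'
    | neg b _ h => rw [mul_neg]; exact neg_mem h
  | zero => rw [zero_mul]; exact zero_mem _
  | add a a' _ _ h h' => rw [add_mul]; exact add_mem h h'
  | neg a _ h => rw [neg_mul]; exact neg_mem h

theorem one_mem_KS : (1 : k) ∈ KS Q x 0 0 := by
  have := mem_KS Q x Dg.ok_e (w := 0) (by simp)
  simpa using this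

theorem T_mem_KS {l : List ℤ} (h : l ≠ []) (h' : Inc l) :
    Q.T x l ∈ KS Q x (la l - hd l) (l : Multiset ℤ) := by
  have := mem_KS Q x (Dg.ok_bl h h') (w := la l - hd l) (by simp)
  simpa using this

theorem t_mem_KS (i : ℤ) : Q.t (x i) ∈ KS Q x 0 {i} := by
  have := T_mem_KS Q x (l := [i]) (by simp) (by simp)
  simpa [T_single] using this

theorem n_mem_KS (i : ℤ) : Q.n (x i) ∈ KS Q x 0 ({i} + {i}) := by
  have := mem_KS Q x (Dg.ok_nm i) (w := 0) (by simp)
  simpa using this

theorem ofNat_mul_mem_KS {w : ℤ} {d : Multiset ℤ} (n : ℕ) {a : k} (ha : a ∈ KS Q x w d) :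
    (n : k) * a ∈ KS Q x w d := by
  rw [← nsmul_eq_mul]; exact nsmul_mem ha n

theorem mem_WL {D : Dg} (h : D.Ok) {l : List ℤ} (hl : Inc l) {C w : ℤ} (hw : D.wt + ol C l ≤ w) :
    D.val Q x • wd x l ∈ WL Q x C w (D.ct + (l : Multiset ℤ)) :=
  AddSubgroup.subset_closure ⟨D, l, h, hl, rfl, hw, rfl⟩

theorem WL_mono {C w w' : ℤ} (h : w ≤ w') (d : Multiset ℤ) : WL Q x C w d ≤ WL Q x C w' d := by
  refine AddSubgroup.closure_mono ?_
  rintro v ⟨D, l, h1, h2, h3, h4, h5⟩
  exact ⟨D, l, h1, h2, h3, h4.trans h, h5⟩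

theorem KS_smul_WL {C w w' : ℤ} {d d' : Multiset ℤ} {c : k} {a : A} (hc : c ∈ KS Q x w d)
    (ha : a ∈ WL Q x C w' d') : c • a ∈ WL Q x C (w + w') (d + d') := by
  induction hc using AddSubgroup.closure_induction with
  | mem c hc =>
    obtain ⟨D, h1, h2, h3, rfl⟩ := hc
    induction ha using AddSubgroup.closure_induction with
    | mem a ha =>
      obtain ⟨E, l, g1, g2, g3, g4, rfl⟩ := ha
      have e : d + d' = (D + E).ct + (l : Multiset ℤ) := by rw [Dg.ct_add, h2, ← g3]; abel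
      rw [smul_smul, ← val_add, e]
      exact mem_WL Q x (Dg.ok_add.2 ⟨h1, g1⟩) g2 (by rw [Dg.wt_add]; linarith)
    | zero => rw [smul_zero]; exact zero_mem _
    | add b b' _ _ h h' => rw [smul_add]; exact add_mem h h'
    | neg b _ h => rw [smul_neg]; exact neg_mem h
  | zero => rw [zero_smul]; exact zero_mem _
  | add a a' _ _ h h' => rw [add_smul]; exact add_mem h h'
  | neg a _ h => rw [neg_smul]; exact neg_mem h

theorem wd_mem_WL {l : List ℤ} (hl : Inc l) (C : ℤ) :
    wd x l ∈ WL Q x C (ol C l) (l : Multiset ℤ) := by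
  have := mem_WL Q x Dg.ok_e hl (C := C) (w := ol C l) (by simp)
  simpa using this

theorem one_mem_WL (C : ℤ) : (1 : A) ∈ WL Q x C 0 0 := by
  have := wd_mem_WL Q x (l := []) (by simp) C
  simpa [ol] using this

theorem mem_WR {D : Dg} (h : D.Ok) {l : List ℤ} (hl : Inc l) {C w : ℤ} (hw : D.wt + orr C l ≤ w) :
    D.val Q x • rw' x l ∈ WR Q x C w (D.ct + (l : Multiset ℤ)) :=
  AddSubgroup.subset_closure ⟨D, l, h, hl, rfl, hw, rfl⟩

theorem WR_mono {C w w' : ℤ} (h : w ≤ w') (d : Multiset ℤ) : WR Q x C w d ≤ WR Q x C w' d := by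
  refine AddSubgroup.closure_mono ?_
  rintro v ⟨D, l, h1, h2, h3, h4, h5⟩
  exact ⟨D, l, h1, h2, h3, h4.trans h, h5⟩

theorem KS_smul_WR {C w w' : ℤ} {d d' : Multiset ℤ} {c : k} {a : A} (hc : c ∈ KS Q x w d)
    (ha : a ∈ WR Q x C w' d') : c • a ∈ WR Q x C (w + w') (d + d') := by
  induction hc using AddSubgroup.closure_induction with
  | mem c hc =>
    obtain ⟨D, h1, h2, h3, rfl⟩ := hc
    induction ha using AddSubgroup.closure_induction with
    | mem a ha =>
      obtain ⟨E, l, g1, g2, g3, g4, rfl⟩ := ha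
      have e : d + d' = (D + E).ct + (l : Multiset ℤ) := by rw [Dg.ct_add, h2, ← g3]; abel
      rw [smul_smul, ← val_add, e]
      exact mem_WR Q x (Dg.ok_add.2 ⟨h1, g1⟩) g2 (by rw [Dg.wt_add]; linarith)
    | zero => rw [smul_zero]; exact zero_mem _
    | add b b' _ _ h h' => rw [smul_add]; exact add_mem h h'
    | neg b _ h => rw [smul_neg]; exact neg_mem h
  | zero => rw [zero_smul]; exact zero_mem _
  | add a a' _ _ h h' => rw [add_smul]; exact add_mem h h'
  | neg a _ h => rw [neg_smul]; exact neg_mem h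

theorem rw_mem_WR {l : List ℤ} (hl : Inc l) (C : ℤ) :
    rw' x l ∈ WR Q x C (orr C l) (l : Multiset ℤ) := by
  have := mem_WR Q x Dg.ok_e hl (C := C) (w := orr C l) (by simp)
  simpa using this

theorem one_mem_WR (C : ℤ) : (1 : A) ∈ WR Q x C 0 0 := by
  have := rw_mem_WR Q x (l := []) (by simp) C
  simpa [orr] using this

theorem mem_LtS {D D' : Dg} (h : D'.Ok) (h' : D'.Lt D) : D'.val Q x ∈ LtS Q x D :=
  AddSubgroup.subset_closure ⟨D', h, h', rfl⟩

/-- the span of the smaller content-`D.ct` elements of smaller span lies in `LtS` -/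
theorem KS_le_LtS (D : Dg) {w : ℤ} (hw : w < D.wt) : KS Q x w D.ct ≤ LtS Q x D := by
  refine AddSubgroup.closure_mono ?_
  rintro v ⟨D', h1, h2, h3, h4⟩
  exact ⟨D', h1, ⟨h2, Or.inl (h3.trans_lt hw)⟩, h4⟩

end

end Pool.Agent.Smt
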