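import Pool.Agent.Smt.Arcs

/-!
# Diagrams with the same typed arcs are connected by exchanges of tails  (module Conn)

Purely combinatorial. `Sw` is one exchange of tails at a middle letter; `EqvGen`/`ReflTransGen`.
Proof of `conn`: induction on the number of blocks of `D'`. Sub-claim: for every block `l' ∈ D'.b`
there is `D''` connected to `D` with `l' ∈ D''.b` and the same `cf`, `m`. If `l' = [i]`: the loop
`(4i+1, 4i+2) ∈ D.cf` can only come from the block `[i]` (the arc `(4i+1, colE Q)` of a longer block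
has `colE Q ≥ 4i + 4`). If `l' = s₁ :: s₂ :: ...`: by induction on `n`, `1 ≤ n ≤ length l'`, there is
`D''` connected to `D` with a block `B` having the first `n` letters of `l'`, and (if `n ≥ 2`) such
that `B` has exactly `n` letters iff `l'` has: for `n = 2` take the block of the arc
`(4 s₁ + 3, colE (s₂ :: ...))` (an opener `4 s₁ + 3` is the first letter of its block); step
`n → n+1` (`s_n` is a middle letter of `l'`, so of `B`): the arc `(4 s_n + 1, colE (s_(n+1) :: ...))`
lies in some block `R` of `D''`; if `R = B` (as the same occurrence) nothing to do; else exchange the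
tails of `B` and `R` at `s_n`. Then remove `l'` from both diagrams (`cf` is additive) and use the
induction hypothesis; `Sw` is stable under adding a block.
-/

set_option autoImplicit false

namespace Pool.Agent.Smt

/-- one exchange of tails at a middle letter -/
def Sw (D D' : Dg) : Prop := ∃ (P₁ P₂ Q₁ Q₂ : List ℤ) (i : ℤ) (E : Dg), P₁ ≠ [] ∧ P₂ ≠ [] ∧ Q₁ ≠ [] ∧
  Q₂ ≠ [] ∧ D = Dg.bl (P₁ ++ i :: Q₁) + Dg.bl (P₂ ++ i :: Q₂) + E ∧
  D' = Dg.bl (P₁ ++ i :: Q₂) + Dg.bl (P₂ ++ i :: Q₁) + E

private theorem Conn_mem_cf {D : Dg} {e : ℤ × ℤ} : e ∈ D.cf ↔ ∃ l ∈ D.b, e ∈ arcs l := by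
  unfold Dg.cf
  constructor
  · intro he
    obtain ⟨c, hc, hec⟩ := Multiset.mem_join.1 he
    obtain ⟨l, hl, rfl⟩ := Multiset.mem_map.1 hc
    exact ⟨l, hl, hec⟩
  · rintro ⟨l, hl, he⟩
    exact Multiset.mem_join.2 ⟨arcs l, Multiset.mem_map_of_mem _ hl, he⟩

private theorem Conn_al3 {P : List ℤ} (hP : P ≠ []) {s : ℤ} (h : al P = 4 * s + 3) : P = [s] := by
  unfold al at h
  have h1 := List.length_pos_iff.2 hP
  split_ifs at h with h2
  · have h3 : P.length = 1 := by omega
    obtain ⟨a, rfl⟩ := List.length_eq_one_iff.1 h3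
    rw [la_single] at h
    have : a = s := by omega
    rw [this]
  · omega

private theorem Conn_al1 {P : List ℤ} {s : ℤ} (h : al P = 4 * s + 1) :
    ∃ P', P' ≠ [] ∧ P = P' ++ [s] := by
  unfold al at h
  split_ifs at h with h2
  · omega
  · rcases List.eq_nil_or_concat' P with h3 | ⟨P', a, h3⟩
    · rw [h3] at h2
      simp at h2
    · rw [h3] at h h2
      rw [la_append_single] at h
      have h4 : a = s := by omega
      refine ⟨P', ?_, by rw [h3, h4]⟩
      rintro rfl
      simp at h2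

private theorem Conn_colE {Q : List ℤ} (hQ : Q ≠ []) {j : ℤ} {q : List ℤ}
    (h : colE Q = colE (j :: q)) : ∃ Q', Q = j :: Q' ∧ (Q' = [] ↔ q = []) := by
  cases Q with
  | nil => exact absurd rfl hQ
  | cons a Q' =>
    unfold colE at h
    simp only [hd_cons, List.length_cons] at h
    have key : a = j ∧ (Q'.length = 0 ↔ q.length = 0) := by
      split_ifs at h with h1 h2 h2 <;> omega
    refine ⟨Q', by rw [key.1], ?_⟩
    rw [← List.length_eq_zero_iff, ← List.length_eq_zero_iff]
    exact key.2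

theorem Sw.ok {D D' : Dg} (h : Sw D D') (hD : D.Ok) : D'.Ok := by
  obtain ⟨P₁, P₂, Q₁, Q₂, i, E, h1, h2, h3, h4, rfl, rfl⟩ := h
  rw [Dg.ok_add, Dg.ok_add] at hD ⊢
  obtain ⟨⟨ha, hb⟩, hE⟩ := hD
  have ha' : Inc (P₁ ++ i :: Q₁) := (ha (P₁ ++ i :: Q₁) (by simp)).2
  have hb' : Inc (P₂ ++ i :: Q₂) := (hb (P₂ ++ i :: Q₂) (by simp)).2
  rw [inc_append, inc_cons] at ha' hb'
  obtain ⟨a1, ⟨a2, a3⟩, a4⟩ := ha'
  obtain ⟨b1, ⟨b2, b3⟩, b4⟩ := hb'
  refine ⟨⟨Dg.ok_bl (by simp) ?_, Dg.ok_bl (by simp) ?_⟩, hE⟩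
  · rw [inc_append, inc_cons]
    refine ⟨a1, ⟨b2, b3⟩, fun a ha b hb => ?_⟩
    have h5 : a < i := a4 a ha i (by simp)
    rcases List.mem_cons.1 hb with rfl | hb
    · exact h5
    · exact h5.trans (b2 b hb)
  · rw [inc_append, inc_cons]
    refine ⟨b1, ⟨a2, a3⟩, fun a ha b hb => ?_⟩
    have h5 : a < i := b4 a ha i (by simp)
    rcases List.mem_cons.1 hb with rfl | hb
    · exact h5
    · exact h5.trans (a2 b hb)

theorem Sw.cf_eq {D D' : Dg} (h : Sw D D') : D'.cf = D.cf ∧ D'.m = D.m := by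
  obtain ⟨P₁, P₂, Q₁, Q₂, i, E, h1, h2, h3, h4, rfl, rfl⟩ := h
  constructor
  · simp only [Dg.cf_add, Dg.cf_bl]
    rw [arcs_middle i h1 h3, arcs_middle i h2 h4, arcs_middle i h1 h4, arcs_middle i h2 h3]
    abel
  · simp

private theorem Conn_ok {D D' : Dg} (h : Relation.ReflTransGen Sw D D') (hD : D.Ok) : D'.Ok := by
  induction h with
  | refl => exact hD
  | tail _ h ih => exact h.ok ih

private theorem Conn_cf {D D' : Dg} (h : Relation.ReflTransGen Sw D D') :
    D'.cf = D.cf ∧ D'.m = D.m := by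
  induction h with
  | refl => exact ⟨rfl, rfl⟩
  | tail _ h ih => exact ⟨h.cf_eq.1.trans ih.1, h.cf_eq.2.trans ih.2⟩

private theorem Conn_add {D D' : Dg} (F : Dg) (h : Relation.ReflTransGen Sw D D') :
    Relation.ReflTransGen Sw (F + D) (F + D') := by
  induction h with
  | refl => exact Relation.ReflTransGen.refl
  | tail _ h ih =>
    refine ih.tail ?_
    obtain ⟨P₁, P₂, Q₁, Q₂, i, E, h1, h2, h3, h4, rfl, rfl⟩ := h
    refine ⟨P₁, P₂, Q₁, Q₂, i, F + E, h1, h2, h3, h4, ?_, ?_⟩
    · ext1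
      · simp only [Dg.add_b]; abel
      · simp only [Dg.add_m]; abel
    · ext1
      · simp only [Dg.add_b]; abel
      · simp only [Dg.add_m]; abel

/-- a block can be split off -/
private theorem Conn_split {D : Dg} {l : List ℤ} (h : l ∈ D.b) :
    ∃ E : Dg, D = Dg.bl l + E := by
  obtain ⟨c, hc⟩ := Multiset.exists_cons_of_mem h
  refine ⟨⟨c, D.m⟩, ?_⟩
  ext1
  · simp [hc]
  · simp

private theorem Conn_unique {P P' Q Q' : List ℤ} {i : ℤ} (hinc : Inc (P ++ i :: Q))
    (h : P ++ i :: Q = P' ++ i :: Q') : P = P' ∧ Q = Q' := by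
  have hinc' : Inc (P' ++ i :: Q') := by rw [← h]; exact hinc
  rcases List.append_eq_append_iff.1 h with ⟨R, h6, h7⟩ | ⟨R, h6, h7⟩
  · cases R with
    | nil =>
      rw [List.append_nil] at h6
      rw [List.nil_append] at h7
      exact ⟨h6.symm, (List.cons.inj h7).2⟩
    | cons a R =>
      exfalso
      rw [List.cons_append] at h7
      have h8 : i = a := (List.cons.inj h7).1
      have h9 := (inc_append.1 hinc').2.2 i (by rw [h6, ← h8]; simp) i (by simp)
      exact lt_irrefl _ h9
  · cases R with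
    | nil =>
      rw [List.append_nil] at h6
      rw [List.nil_append] at h7
      exact ⟨h6, (List.cons.inj h7).2.symm⟩
    | cons a R =>
      exfalso
      rw [List.cons_append] at h7
      have h8 : i = a := (List.cons.inj h7).1
      have h9 := (inc_append.1 hinc).2.2 i (by rw [h6, ← h8]; simp) i (by simp)
      exact lt_irrefl _ h9

private theorem Conn_prefix {D D' : Dg} (hD : D.Ok) (hD' : D'.Ok) (h : D.cf = D'.cf)
    {l' : List ℤ} (hl' : l' ∈ D'.b) (n : ℕ) : ∀ p q : List ℤ, p.length = n + 2 → l' = p ++ q →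
    ∃ D'' : Dg, Relation.ReflTransGen Sw D D'' ∧ ∃ r : List ℤ, p ++ r ∈ D''.b ∧
      (r = [] ↔ q = []) := by
  have hinc : Inc l' := (hD' l' hl').2
  induction n with
  | zero =>
    intro p q hp hl
    obtain ⟨s, t, rfl⟩ := List.length_eq_two.1 (by simpa using hp)
    have harc : ((4 * s + 3, colE (t :: q)) : ℤ × ℤ) ∈ D.cf := by
      rw [h, Conn_mem_cf]
      refine ⟨l', hl', ?_⟩
      rw [hl, show [s, t] ++ q = s :: (t :: q) from rfl, arcs_first s (by simp)]
      simp
    obtain ⟨R, hR, hRe⟩ := Conn_mem_cf.1 harc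
    rcases mem_arcs hRe with ⟨i, h1, h2⟩ | ⟨P, Q, hP, hQ, h1, h2⟩
    · exfalso
      have := congrArg Prod.fst h2
      simp only at this
      omega
    · have h3 := congrArg Prod.fst h2
      have h4 := congrArg Prod.snd h2
      simp only at h3 h4
      have h5 := Conn_al3 hP h3.symm
      obtain ⟨Q', h6, h7⟩ := Conn_colE hQ h4.symm
      refine ⟨D, Relation.ReflTransGen.refl, Q', ?_, h7⟩
      rw [h1, h5, h6] at hR
      exact hR
  | succ n ih =>
    intro p q hp hl
    rcases List.eq_nil_or_concat' p with h3 | ⟨p₁, j, h3⟩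
    · rw [h3] at hp
      simp at hp
    have hp1 : p₁.length = n + 2 := by
      rw [h3, List.length_append, List.length_singleton] at hp
      omega
    obtain ⟨D₁, hconn, r, hr, hrq⟩ := ih p₁ (j :: q) hp1 (by rw [hl, h3]; simp)
    rcases List.eq_nil_or_concat' p₁ with h4 | ⟨p', i, h4⟩
    · rw [h4] at hp1
      simp at hp1
    have hp' : p' ≠ [] := by
      rintro rfl
      rw [h4] at hp1
      simp at hp1
    have hr0 : r ≠ [] := fun h => by simpa using hrq.1 h
    have hl2 : l' = p' ++ i :: (j :: q) := by rw [hl, h3, h4]; simp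
    have hD1 := Conn_ok hconn hD
    have harc : ((4 * i + 1, colE (j :: q)) : ℤ × ℤ) ∈ D₁.cf := by
      rw [(Conn_cf hconn).1, h, Conn_mem_cf]
      refine ⟨l', hl', ?_⟩
      rw [hl2, arcs_middle i hp' (by simp)]
      simp
    have hij : i < j := by
      rw [hl2, inc_append, inc_cons] at hinc
      exact hinc.2.1.1 j (by simp)
    obtain ⟨R, hR, hRe⟩ := Conn_mem_cf.1 harc
    rcases mem_arcs hRe with ⟨i', h5, h6⟩ | ⟨P, Q, hP, hQ, h5, h6⟩
    · exfalso
      have h7 := congrArg Prod.fst h6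
      have h8 := congrArg Prod.snd h6
      simp only at h7 h8
      unfold colE at h8
      simp only [hd_cons] at h8
      split_ifs at h8 <;> omega
    · have h7 := congrArg Prod.fst h6
      have h8 := congrArg Prod.snd h6
      simp only at h7 h8
      obtain ⟨P', hP', h9⟩ := Conn_al1 h7.symm
      obtain ⟨Q', h10, h11⟩ := Conn_colE hQ h8.symm
      have hRe2 : R = P' ++ i :: Q := by rw [h5, h9]; simp
      have hB : p₁ ++ r = p' ++ i :: r := by rw [h4]; simp
      rw [hB] at hr
      by_cases hRB : R = p' ++ i :: r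
      · refine ⟨D₁, hconn, Q', ?_, h11⟩
        have hincR : Inc (P' ++ i :: Q) := by rw [← hRe2]; exact (hD1 R hR).2
        have h12 := Conn_unique hincR (hRe2.symm.trans hRB)
        have h13 : p ++ Q' = R := by
          rw [hRe2, h12.1, h10, h3, h4]
          simp
        rw [h13]
        exact hR
      · obtain ⟨E₁, hE₁⟩ := Conn_split hr
        have hR2 : R ∈ E₁.b := by
          rw [hE₁, Dg.add_b, Multiset.mem_add, Dg.bl_b, Multiset.mem_singleton] at hR
          exact hR.resolve_left hRB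
        obtain ⟨E, hE⟩ := Conn_split hR2
        refine ⟨Dg.bl (p' ++ i :: Q) + Dg.bl (P' ++ i :: r) + E, hconn.tail ?_, Q', ?_, h11⟩
        · refine ⟨p', P', r, Q, i, E, hp', hP', hr0, hQ, ?_, rfl⟩
          rw [hE₁, hE, hRe2]
          ext1
          · simp only [Dg.add_b]; abel
          · simp only [Dg.add_m]; abel
        · have h13 : p ++ Q' = p' ++ i :: Q := by
            rw [h10, h3, h4]
            simp
          rw [h13]
          simp

private theorem Conn_block {D D' : Dg} (hD : D.Ok) (hD' : D'.Ok) (h : D.cf = D'.cf)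
    {l' : List ℤ} (hl' : l' ∈ D'.b) :
    ∃ D'' : Dg, Relation.ReflTransGen Sw D D'' ∧ l' ∈ D''.b := by
  have hinc : Inc l' := (hD' l' hl').2
  by_cases hlen : l'.length ≤ 1
  · have h1 := List.length_pos_iff.2 (hD' l' hl').1
    obtain ⟨i, rfl⟩ := List.length_eq_one_iff.1 (show l'.length = 1 by omega)
    have harc : ((4 * i + 1, 4 * i + 2) : ℤ × ℤ) ∈ D.cf := by
      rw [h, Conn_mem_cf]
      exact ⟨[i], hl', by simp [arcs]⟩
    obtain ⟨R, hR, hRe⟩ := Conn_mem_cf.1 harc
    refine ⟨D, Relation.ReflTransGen.refl, ?_⟩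
    rcases mem_arcs hRe with ⟨i', h5, h6⟩ | ⟨P, Q, hP, hQ, h5, h6⟩
    · have h7 := congrArg Prod.fst h6
      simp only at h7
      have : i' = i := by omega
      rw [h5, this] at hR
      exact hR
    · exfalso
      have hincR := (hD R hR).2
      have h8 := arcs_lt hincR hRe
      have h7 := congrArg Prod.fst h6
      have h9 := congrArg Prod.snd h6
      simp only at h7 h9
      obtain ⟨P', hP', h10⟩ := Conn_al1 h7.symm
      have h11 : la P = i := by rw [h10, la_append_single]
      have h12 : hd Q = i := by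
        unfold colE at h9
        split_ifs at h9 <;> omega
      rw [h5, inc_append] at hincR
      have h13 := hincR.2.2 (la P) (la_mem hP) (hd Q) (hd_mem hQ)
      omega
  · obtain ⟨D'', hconn, r, hr, hrq⟩ := Conn_prefix hD hD' h hl' (l'.length - 2) l' []
      (by omega) (by simp)
    have : r = [] := hrq.2 rfl
    rw [this, List.append_nil] at hr
    exact ⟨D'', hconn, hr⟩

private theorem Conn_arcs_ne {l : List ℤ} (h : l ≠ []) : arcs l ≠ 0 := by
  cases l with
  | nil => exact absurd rfl h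
  | cons i l =>
    cases l with
    | nil => simp [arcs]
    | cons j l => simp [arcs]

private theorem Conn_main (n : ℕ) : ∀ D D' : Dg, Multiset.card D'.b = n → D.Ok → D'.Ok →
    D.cf = D'.cf → D.m = D'.m → Relation.ReflTransGen Sw D D' := by
  induction n with
  | zero =>
    intro D D' hn hD hD' h hm
    have hb' : D'.b = 0 := Multiset.card_eq_zero.1 hn
    have hb : D.b = 0 := by
      by_contra hne
      obtain ⟨l, hl⟩ := Multiset.exists_mem_of_ne_zero hne
      obtain ⟨e, he⟩ := Multiset.exists_mem_of_ne_zero (Conn_arcs_ne (hD l hl).1)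
      have h1 : e ∈ D.cf := Conn_mem_cf.2 ⟨l, hl, he⟩
      rw [h, Conn_mem_cf, hb'] at h1
      obtain ⟨l2, hl2, _⟩ := h1
      simp at hl2
    have : D = D' := by
      ext1
      · rw [hb, hb']
      · exact hm
    rw [this]
  | succ n ih =>
    intro D D' hn hD hD' h hm
    obtain ⟨l', hl'⟩ := Multiset.exists_mem_of_ne_zero (s := D'.b) (by
      intro h0
      rw [h0] at hn
      simp at hn)
    obtain ⟨D'', hconn, hl''⟩ := Conn_block hD hD' h hl'
    obtain ⟨E'', hE''⟩ := Conn_split hl''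
    obtain ⟨E', hE'⟩ := Conn_split hl'
    have hcf := Conn_cf hconn
    have hok := Conn_ok hconn hD
    rw [hE''] at hcf hok hconn
    rw [hE'] at h hm hD' hn
    refine hconn.trans ?_
    rw [hE']
    refine Conn_add _ (ih E'' E' ?_ (Dg.ok_add.1 hok).2 (Dg.ok_add.1 hD').2 ?_ ?_)
    · rw [Dg.add_b, Multiset.card_add, Dg.bl_b, Multiset.card_singleton] at hn
      omega
    · have h1 := hcf.1.trans h
      rw [Dg.cf_add, Dg.cf_add] at h1
      exact add_left_cancel h1
    · have h1 := hcf.2.trans hm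
      rw [Dg.add_m, Dg.add_m] at h1
      exact add_left_cancel h1

theorem conn {D D' : Dg} (hD : D.Ok) (hD' : D'.Ok) (h : D.cf = D'.cf) (hm : D.m = D'.m) :
    Relation.ReflTransGen Sw D D' :=
  Conn_main _ D D' rfl hD hD' h hm

end Pool.Agent.Smt
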