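import Mathlib

/-!
# Quadratic alternative algebras, diagrams (definitions)

Standard monomial theory for the trace identities of the octonions.
Letters are indexed by `ℤ`; a *block* is a nonempty strictly increasing list of letters; a *diagram*
is a multiset of blocks together with a multiset of letters (norms). The value of a diagram is the
product of the traces of the left-normed words of its blocks and of the norms of its letters.
-/

set_option autoImplicit false

namespace Pool.Agent.Smt

/-- A quadratic alternative algebra `A` over the commutative ring `k`: trace `t`, norm `n`. -/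
structure QA (k A : Type*) [CommRing k] [NonAssocRing A] [Module k A] where
  t : A →ₗ[k] k
  n : A → k
  sq : ∀ x : A, x * x = t x • x - n x • (1 : A)
  alt_left : ∀ x y : A, (x * x) * y = x * (x * y)
  alt_right : ∀ x y : A, (y * x) * x = y * (x * x)
  t_one : t 1 = 2
  n_add : ∀ x y : A, n (x + y) = n x + n y + (t x * t y - t (x * y))
  t_comm : ∀ x y : A, t (x * y) = t (y * x)
  t_assoc : ∀ x y z : A, t ((x * y) * z) = t (x * (y * z))

section words

variable {A : Type*} [NonAssocRing A] (x : ℤ → A)

/-- left-normed word `((x₁ x₂) x₃) ...` -/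
def wd (l : List ℤ) : A := l.foldl (fun a i => a * x i) 1

/-- right-normed word `x₁ (x₂ (x₃ ...))` -/
def rw' (l : List ℤ) : A := l.foldr (fun i a => x i * a) 1

end words

/-- first letter of a block -/
def hd (l : List ℤ) : ℤ := l.headD 0

/-- last letter of a block -/
def la (l : List ℤ) : ℤ := l.getLastD 0

/-- strictly increasing list -/
def Inc (l : List ℤ) : Prop := l.Pairwise (· < ·)

/-- a diagram: blocks and norms -/
@[ext] structure Dg where
  b : Multiset (List ℤ)
  m : Multiset ℤ

instance : Inhabited Dg := ⟨⟨0, 0⟩⟩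

namespace Dg

/-- all blocks are nonempty and increasing -/
def Ok (D : Dg) : Prop := ∀ l ∈ D.b, l ≠ [] ∧ Inc l

/-- the content: all letters with multiplicity (a norm counts twice) -/
def ct (D : Dg) : Multiset ℤ :=
  (D.b.map (fun l : List ℤ => (Multiset.ofList l : Multiset ℤ))).sum + (D.m + D.m)

/-- the span -/
def wt (D : Dg) : ℤ := (D.b.map (fun l => la l - hd l)).sum

instance : Add Dg := ⟨fun D E => ⟨D.b + E.b, D.m + E.m⟩⟩

@[simp] theorem add_b (D E : Dg) : (D + E).b = D.b + E.b := rfl
@[simp] theorem add_m (D E : Dg) : (D + E).m = D.m + E.m := rfl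

end Dg

/-! ### typed arcs -/

/-- the type (position) of the right end of an arc entering the list `q` -/
def colE (q : List ℤ) : ℤ := if q.length ≤ 1 then 4 * hd q else 4 * hd q + 2

/-- arcs of a list whose first letter has been entered -/
def arcsR : List ℤ → Multiset (ℤ × ℤ)
  | [] => 0
  | [_] => 0
  | i :: j :: l => (4 * i + 1, colE (j :: l)) ::ₘ arcsR (j :: l)

/-- typed arcs of a block: openers `4 i + 3` (first letter) or `4 i + 1` (middle letter), closers
`4 j` (last letter) or `4 j + 2` (middle letter); a one-letter block is the loop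
`(4 i + 1, 4 i + 2)` -/
def arcs : List ℤ → Multiset (ℤ × ℤ)
  | [] => 0
  | [i] => {(4 * i + 1, 4 * i + 2)}
  | i :: j :: l => (4 * i + 3, colE (j :: l)) ::ₘ arcsR (j :: l)

/-- number of middle letters (one for a loop) -/
def tau (l : List ℤ) : ℕ := if l.length = 1 then 1 else l.length - 2

/-- `∑ position(α) position(β)` -/
def phi (c : Multiset (ℤ × ℤ)) : ℤ := (c.map (fun e => e.1 * e.2)).sum

/-- no three nested arcs -/
def NoNest (c : Multiset (ℤ × ℤ)) : Prop :=
  ¬ ∃ e₁ ∈ c, ∃ e₂ ∈ c, ∃ e₃ ∈ c, e₁.1 < e₂.1 ∧ e₂.1 < e₃.1 ∧ e₃.2 < e₂.2 ∧ e₂.2 < e₁.2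

namespace Dg

/-- the typed arcs of a diagram -/
def cf (D : Dg) : Multiset (ℤ × ℤ) := (D.b.map arcs).sum

/-- number of middle letters and loops -/
def ta (D : Dg) : ℕ := (D.b.map tau).sum

/-- `∑ position(α) position(β)` -/
def ph (D : Dg) : ℤ := phi D.cf

/-- the order on diagrams of the same content -/
def Lt (D' D : Dg) : Prop :=
  D'.ct = D.ct ∧ (D'.wt < D.wt ∨ (D'.wt = D.wt ∧ (D'.ta < D.ta ∨ (D'.ta = D.ta ∧ D.ph < D'.ph))))

/-- a chosen diagram with given typed arcs and norms -/
noncomputable def choice (c : Multiset (ℤ × ℤ)) (m : Multiset ℤ) : Dg :=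
  Classical.epsilon (fun D : Dg => D.Ok ∧ D.cf = c ∧ D.m = m)

/-- the chosen standard diagrams -/
def Rep (D : Dg) : Prop := D.Ok ∧ NoNest D.cf ∧ D = choice D.cf D.m

end Dg

section values

variable {k A : Type*} [CommRing k] [NonAssocRing A] [Module k A] (Q : QA k A) (x : ℤ → A)

/-- trace of the left-normed word of a block -/
def QA.T (l : List ℤ) : k := Q.t (wd x l)

/-- the value of a diagram -/
def Dg.val (D : Dg) : k := (D.b.map (Q.T x)).prod * (D.m.map (fun i => Q.n (x i))).prod

/-- additive span of the values of the diagrams of content `d` and span at most `w` -/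
def KS (w : ℤ) (d : Multiset ℤ) : AddSubgroup k :=
  AddSubgroup.closure {v | ∃ D : Dg, D.Ok ∧ D.ct = d ∧ D.wt ≤ w ∧ D.val Q x = v}

/-- weight of an open block to the left of the cut `C` -/
def ol (C : ℤ) (l : List ℤ) : ℤ := if l = [] then 0 else C - hd l

/-- weight of an open block to the right of the cut `C` -/
def orr (C : ℤ) (l : List ℤ) : ℤ := if l = [] then 0 else la l - C

/-- additive span of the (value) • (left-normed word), content `d`, weight at most `w` for the left
cut `C` -/
def WL (C w : ℤ) (d : Multiset ℤ) : AddSubgroup A :=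
  AddSubgroup.closure {v | ∃ (D : Dg) (l : List ℤ), D.Ok ∧ Inc l ∧ D.ct + (l : Multiset ℤ) = d ∧
    D.wt + ol C l ≤ w ∧ D.val Q x • wd x l = v}

/-- additive span of the (value) • (right-normed word), content `d`, weight at most `w` for the
right cut `C` -/
def WR (C w : ℤ) (d : Multiset ℤ) : AddSubgroup A :=
  AddSubgroup.closure {v | ∃ (D : Dg) (l : List ℤ), D.Ok ∧ Inc l ∧ D.ct + (l : Multiset ℤ) = d ∧
    D.wt + orr C l ≤ w ∧ D.val Q x • rw' x l = v}

/-- additive span of the values of the smaller diagrams -/
def LtS (D : Dg) : AddSubgroup k :=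
  AddSubgroup.closure {v | ∃ D' : Dg, D'.Ok ∧ D'.Lt D ∧ D'.val Q x = v}

end values

end Pool.Agent.Smt
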