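import Pool.Agent.Smt.Basic

/-!
# Extension by a generic element  (module Ext)

`k' = k ⊕ ε A` (square zero extension of `k` by the `k`-module `A`; use `TrivSqZeroExt k A` or
`k × A` with your own ring structure), `A' = A ⊕ Hom_k(A, A)`; for `N : A →ₗ[k] A`, `a b v : A`,
`p : A` (the scalar `ε p`):
`(N a)(v) = N(a v)`, `(a N)(v) = N(v a)`, `N N' = 0`, `((ε p) • a)(v) = t(a v) • p`, `(ε p) • N = 0`,
`t'(a + N) = t(a) + ε N(1)`, `n'(a + N) = n(a) + ε (t(a) • N(1) - N(a))`.
`y` = the identity map, `π(c + ε p) = p`, `i`, `j` the inclusions: `t'(a y) = ε y(a) = ε a`.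
Checks: `sq`: `a N + N a = t(a) N + (ε N(1)) • a - (ε (t(a) N(1) - N(a))) • 1`, evaluate at `v` and use
`QA.lin a v`. `alt_left`: `((aN + Na) b)(v) = N((bv)a) + N(a(bv))`, `(a(Nb) + N(ab))(v) =
N(b(va)) + N((ab)v)`, equal because the associator is alternating (`(b,v,a) = (a,b,v)`);
`((aa)M)(v) = M(v(aa)) = M((va)a)`. `alt_right` similarly (`(a,v,b) = (v,b,a)`). `t_assoc`,
`t_comm`: `t'(aN) = ε N(a) = t'(Na)`, ... Module axioms and `(c • z) * w = c • (z * w)`:
`t((a b) v) = t(a (b v))`, `t(b (v a)) = t((a b) v)`.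
-/

set_option autoImplicit false
set_option linter.unusedSectionVars false

namespace Pool.Agent.Smt

universe u v

variable {k : Type u} {A : Type v} [CommRing k] [NonAssocRing A] [Module k A] [IsScalarTower k A A]
  [SMulCommClass k A A] (Q : QA k A)

/-- square zero extension of `k` by `A` -/
@[ext] structure ExtK (k : Type u) (A : Type v) : Type (max u v) where
  c : k
  p : A

/-- `A ⊕ Hom(A, A)` -/
@[ext] structure ExtA {k : Type u} {A : Type v} [CommRing k] [NonAssocRing A] [Module k A]
    (Q : QA k A) : Type (max u v) where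
  a : A
  N : A →ₗ[k] A

namespace ExtK

instance : Zero (ExtK k A) := ⟨⟨0, 0⟩⟩
instance : One (ExtK k A) := ⟨⟨1, 0⟩⟩
instance : Add (ExtK k A) := ⟨fun x y => ⟨x.c + y.c, x.p + y.p⟩⟩
instance : Neg (ExtK k A) := ⟨fun x => ⟨-x.c, -x.p⟩⟩
instance : Mul (ExtK k A) := ⟨fun x y => ⟨x.c * y.c, x.c • y.p + y.c • x.p⟩⟩

@[simp] theorem zero_c : (0 : ExtK k A).c = 0 := rfl
@[simp] theorem zero_p : (0 : ExtK k A).p = 0 := rfl
@[simp] theorem one_c : (1 : ExtK k A).c = 1 := rfl
@[simp] theorem one_p : (1 : ExtK k A).p = 0 := rfl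
@[simp] theorem add_c (x y : ExtK k A) : (x + y).c = x.c + y.c := rfl
@[simp] theorem add_p (x y : ExtK k A) : (x + y).p = x.p + y.p := rfl
@[simp] theorem neg_c (x : ExtK k A) : (-x).c = -x.c := rfl
@[simp] theorem neg_p (x : ExtK k A) : (-x).p = -x.p := rfl
@[simp] theorem mul_c (x y : ExtK k A) : (x * y).c = x.c * y.c := rfl
@[simp] theorem mul_p (x y : ExtK k A) : (x * y).p = x.c • y.p + y.c • x.p := rfl

instance : CommRing (ExtK k A) where
  add_assoc x y z := by ext <;> simp [add_assoc]
  zero_add x := by ext <;> simp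
  add_zero x := by ext <;> simp
  add_comm x y := by ext <;> simp [add_comm]
  neg_add_cancel x := by ext <;> simp
  left_distrib x y z := by
    ext
    · simp [mul_add]
    · simp only [mul_p, add_p, add_c]
      module
  right_distrib x y z := by
    ext
    · simp [add_mul]
    · simp only [mul_p, add_p, add_c]
      module
  zero_mul x := by ext <;> simp
  mul_zero x := by ext <;> simp
  mul_assoc x y z := by
    ext
    · simp [mul_assoc]
    · simp only [mul_p, mul_c]
      module
  one_mul x := by ext <;> simp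
  mul_one x := by ext <;> simp
  mul_comm x y := by
    ext
    · simp [mul_comm]
    · simp only [mul_p]
      module
  nsmul := nsmulRec
  zsmul := zsmulRec

@[simp] theorem sub_c (x y : ExtK k A) : (x - y).c = x.c - y.c := by
  rw [sub_eq_add_neg, add_c, neg_c, ← sub_eq_add_neg]
@[simp] theorem sub_p (x y : ExtK k A) : (x - y).p = x.p - y.p := by
  rw [sub_eq_add_neg, add_p, neg_p, ← sub_eq_add_neg]

end ExtK

namespace ExtA

variable {Q}

instance : Zero (ExtA Q) := ⟨⟨0, 0⟩⟩
instance : One (ExtA Q) := ⟨⟨1, 0⟩⟩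
instance : Add (ExtA Q) := ⟨fun x y => ⟨x.a + y.a, x.N + y.N⟩⟩
instance : Neg (ExtA Q) := ⟨fun x => ⟨-x.a, -x.N⟩⟩
instance : Mul (ExtA Q) := ⟨fun x y => ⟨x.a * y.a,
  x.N ∘ₗ LinearMap.mulLeft k y.a + y.N ∘ₗ LinearMap.mulRight k x.a⟩⟩
instance : SMul (ExtK k A) (ExtA Q) := ⟨fun c x => ⟨c.c • x.a,
  c.c • x.N + (Q.t ∘ₗ LinearMap.mulLeft k x.a).smulRight c.p⟩⟩

@[simp] theorem zero_a : (0 : ExtA Q).a = 0 := rfl
@[simp] theorem zero_N : (0 : ExtA Q).N = 0 := rfl
@[simp] theorem one_a : (1 : ExtA Q).a = 1 := rfl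
@[simp] theorem one_N : (1 : ExtA Q).N = 0 := rfl
@[simp] theorem add_a (x y : ExtA Q) : (x + y).a = x.a + y.a := rfl
@[simp] theorem add_N (x y : ExtA Q) : (x + y).N = x.N + y.N := rfl
@[simp] theorem neg_a (x : ExtA Q) : (-x).a = -x.a := rfl
@[simp] theorem neg_N (x : ExtA Q) : (-x).N = -x.N := rfl
@[simp] theorem mul_a (x y : ExtA Q) : (x * y).a = x.a * y.a := rfl
@[simp] theorem mul_N (x y : ExtA Q) (v : A) :
    (x * y).N v = x.N (y.a * v) + y.N (v * x.a) := rfl
@[simp] theorem smul_a (c : ExtK k A) (x : ExtA Q) : (c • x).a = c.c • x.a := rfl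
@[simp] theorem smul_N (c : ExtK k A) (x : ExtA Q) (v : A) :
    (c • x).N v = c.c • x.N v + Q.t (x.a * v) • c.p := rfl

theorem ext_iff' {x y : ExtA Q} (h1 : x.a = y.a) (h2 : ∀ v, x.N v = y.N v) : x = y :=
  ExtA.ext h1 (LinearMap.ext h2)

instance : NonAssocRing (ExtA Q) where
  add_assoc x y z := by ext <;> simp [add_assoc]
  zero_add x := by ext <;> simp
  add_zero x := by ext <;> simp
  add_comm x y := by ext <;> simp [add_comm]
  neg_add_cancel x := by ext <;> simp
  left_distrib x y z := by
    refine ext_iff' (mul_add _ _ _) fun v => ?_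
    simp only [mul_N, add_a, add_N, add_mul, map_add, LinearMap.add_apply]
    abel
  right_distrib x y z := by
    refine ext_iff' (add_mul _ _ _) fun v => ?_
    simp only [mul_N, add_a, add_N, mul_add, map_add, LinearMap.add_apply]
    abel
  zero_mul x := by
    refine ext_iff' (zero_mul _) fun v => ?_
    simp
  mul_zero x := by
    refine ext_iff' (mul_zero _) fun v => ?_
    simp
  one_mul x := by
    refine ext_iff' (one_mul _) fun v => ?_
    simp
  mul_one x := by
    refine ext_iff' (mul_one _) fun v => ?_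
    simp
  nsmul := nsmulRec
  zsmul := zsmulRec

@[simp] theorem sub_a (x y : ExtA Q) : (x - y).a = x.a - y.a := by
  rw [sub_eq_add_neg, add_a, neg_a, ← sub_eq_add_neg]
@[simp] theorem sub_N (x y : ExtA Q) : (x - y).N = x.N - y.N := by
  rw [sub_eq_add_neg, add_N, neg_N, ← sub_eq_add_neg]

instance : Module (ExtK k A) (ExtA Q) where
  one_smul x := by
    refine ext_iff' (one_smul _ _) fun v => ?_
    simp
  mul_smul c d x := by
    refine ext_iff' (mul_smul _ _ _) fun v => ?_
    simp only [smul_N, smul_a, ExtK.mul_c, ExtK.mul_p, smul_mul_assoc, map_smul, smul_eq_mul]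
    module
  smul_zero c := by
    refine ext_iff' (smul_zero _) fun v => ?_
    simp
  smul_add c x y := by
    refine ext_iff' (smul_add _ _ _) fun v => ?_
    simp only [smul_N, add_a, add_N, LinearMap.add_apply, add_mul, map_add]
    module
  add_smul c d x := by
    refine ext_iff' (add_smul _ _ _) fun v => ?_
    simp only [smul_N, add_N, LinearMap.add_apply, ExtK.add_c, ExtK.add_p]
    module
  zero_smul x := by
    refine ext_iff' (zero_smul _ _) fun v => ?_
    simp

instance : IsScalarTower (ExtK k A) (ExtA Q) (ExtA Q) where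
  smul_assoc c x y := by
    refine ext_iff' (smul_mul_assoc _ _ _) fun v => ?_
    simp only [smul_eq_mul, mul_N, smul_N, smul_a, mul_a, mul_smul_comm, map_smul, Q.t_assoc]
    module

instance : SMulCommClass (ExtK k A) (ExtA Q) (ExtA Q) where
  smul_comm c x y := by
    refine ext_iff' (mul_smul_comm _ _ _).symm fun v => ?_
    have h : Q.t (x.a * (y.a * v)) = Q.t (y.a * (v * x.a)) := by
      rw [Q.t_comm, Q.t_assoc]
    simp only [smul_eq_mul, mul_N, smul_N, smul_a, mul_a, smul_mul_assoc, map_smul, Q.t_assoc, h]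
    module

end ExtA

include Q in
private theorem Ext_left (a b v : A) : (a * b + b * a) * v = a * (b * v) + b * (a * v) := by
  have h := Q.alt_left (a + b) v
  have ha := Q.alt_left a v
  have hb := Q.alt_left b v
  simp only [mul_add, add_mul] at h ⊢
  rw [ha, hb] at h
  have e : a * b * v + b * a * v = (a * (a * v) + b * a * v + (a * b * v + b * (b * v)))
    - a * (a * v) - b * (b * v) := by abel
  rw [e, h]
  abel

include Q in
/-- the associator is cyclic -/
private theorem Ext_cyc (a b v : A) :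
    a * (b * v) + (b * v) * a = (a * b) * v + b * (v * a) := by
  have h1 := Ext_left Q a b v
  have h2 := Q.alt_right_lin b a v
  rw [add_mul] at h1
  rw [mul_add] at h2
  have e : a * (b * v) + (b * v) * a =
      (a * (b * v) + b * (a * v)) + (b * a * v + b * v * a) - b * a * v - b * (a * v) := by abel
  rw [e, ← h1, h2]
  abel

/-- the extended quadratic algebra -/
def extQ : QA (ExtK k A) (ExtA Q) where
  t :=
    { toFun := fun x => ⟨Q.t x.a, x.N 1⟩
      map_add' := fun x y => by ext <;> simp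
      map_smul' := fun c x => by
        ext
        · simp
        · simp }
  n x := ⟨Q.n x.a, Q.t x.a • x.N 1 - x.N x.a⟩
  sq x := by
    refine ExtA.ext_iff' (by
      rw [ExtA.mul_a, ExtA.sub_a, ExtA.smul_a, ExtA.smul_a, ExtA.one_a]
      exact Q.sq x.a) fun v => ?_
    have h := congrArg x.N (Q.lin x.a v)
    simp only [map_add, map_sub, map_smul] at h
    simp only [LinearMap.coe_mk, AddHom.coe_mk, ExtA.mul_N, ExtA.sub_N, LinearMap.sub_apply,
      ExtA.smul_N, ExtA.one_N, ExtA.one_a, one_mul, LinearMap.zero_apply, smul_zero, zero_add]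
    rw [h]
    module
  alt_left x y := by
    refine ExtA.ext_iff' (Q.alt_left _ _) fun v => ?_
    have h := congrArg x.N (Ext_cyc Q x.a y.a v)
    simp only [map_add] at h
    simp only [ExtA.mul_N, ExtA.mul_a]
    rw [h, Q.alt_right]
    abel
  alt_right x y := by
    refine ExtA.ext_iff' (Q.alt_right _ _) fun v => ?_
    have h := congrArg x.N (Ext_cyc Q x.a v y.a)
    simp only [map_add] at h
    simp only [ExtA.mul_N, ExtA.mul_a]
    rw [h, ← Q.alt_left]
    abel
  t_one := by
    have h2 : (1 + 1 : ExtK k A) = ⟨2, 0⟩ := by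
      ext
      · show (1 : k) + 1 = 2
        exact one_add_one_eq_two
      · show (0 : A) + 0 = 0
        exact add_zero 0
    rw [← one_add_one_eq_two, h2]
    ext
    · simp [Q.t_one]
    · simp
  n_add x y := by
    ext
    · simp [Q.n_add]
    · simp only [LinearMap.coe_mk, AddHom.coe_mk, ExtA.add_a, ExtA.add_N, map_add,
        LinearMap.add_apply, ExtK.add_p, ExtK.sub_p, ExtK.mul_p, ExtA.mul_N, mul_one, one_mul]
      module
  t_comm x y := by
    ext
    · simp [Q.t_comm x.a y.a]
    · simp [add_comm]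
  t_assoc x y z := by
    ext
    · simp [Q.t_assoc]
    · simp only [LinearMap.coe_mk, AddHom.coe_mk, ExtA.mul_N, ExtA.mul_a, mul_one, one_mul]
      abel

theorem exists_ext : ∃ (k' : Type (max u v)) (A' : Type (max u v)) (_ : CommRing k')
    (_ : NonAssocRing A') (_ : Module k' A') (_ : IsScalarTower k' A' A')
    (_ : SMulCommClass k' A' A') (Q' : QA k' A') (i : k →+* k') (j : A →+* A') (y : A')
    (π : k' →+ A), (∀ a, Q'.t (j a) = i (Q.t a)) ∧ (∀ a, Q'.n (j a) = i (Q.n a)) ∧
    (∀ c z, π (i c * z) = c • π z) ∧ (∀ a, π (Q'.t (j a * y)) = a) := by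
  refine ⟨ExtK k A, ExtA Q, inferInstance, inferInstance, inferInstance, inferInstance,
    inferInstance, extQ Q,
    { toFun := fun c => ⟨c, 0⟩
      map_one' := rfl
      map_zero' := rfl
      map_mul' := fun c d => by ext <;> simp
      map_add' := fun c d => by ext <;> simp },
    { toFun := fun a => ⟨a, 0⟩
      map_one' := rfl
      map_zero' := rfl
      map_mul' := fun a b => ExtA.ext_iff' rfl fun v => by simp
      map_add' := fun a b => ExtA.ext_iff' rfl fun v => by simp },
    ⟨0, LinearMap.id⟩,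
    { toFun := fun z => z.p
      map_zero' := rfl
      map_add' := fun _ _ => rfl }, fun a => ?_, fun a => ?_, fun c z => ?_, fun a => ?_⟩
  · ext
    · rfl
    · rfl
  · ext
    · rfl
    · show Q.t a • (0 : A) - 0 = 0
      simp
  · show c • z.p + z.c • (0 : A) = c • z.p
    simp
  · show (0 : A →ₗ[k] A) (0 * 1) + (LinearMap.id : A →ₗ[k] A) (1 * a) = a
    simp

end Pool.Agent.Smt
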