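import Pool.Agent.Smt.Basic

/-!
# Products of left-normed words, with weights  (module FilL)

`wd_mul_wd` by strong induction on `l.length + l'.length`, for all `C`. Cases `l = []`, `l' = []`
are trivial (`wd_mem_WL`, `ol C [] = 0`). Otherwise let `u` be the largest letter of `l` and `l'`
(`la l` or `la l'`); write `l = a ++ [u]` or `l` has all letters `< u`; same for `l'`. Let
`α = ol u a`, `β = ol u b` (weights for the cut `u`, the letters of `a`, `b` are `< u`),
`Δ = C - u ≥ 0`. Then `ol C (a ++ [u]) = α + Δ` (`a ≠ []`), `ol C [u] = Δ`, `ol C b = β + Δ`.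
* `(a u) b` : `QA.f3`: `-(ab)u + t(u) ab + t(b) au - (t(b) t(u) - t(bu)) a`; induction hypothesis for
  `a b` with cut `u`: `ab ∈ WL u (α + β) (a + b)`. Aux lemma: `z ∈ WL u w d`, all letters of `d`
  `< u` implies `z * x u ∈ WL C (w + Δ) (d + {u})` and `z ∈ WL C (w + Δ) d`, `t(z) ∈ KS w d`,
  `t(z * x u) ∈ KS w (d + {u})` (generators: `wd (r ++ [u])`, its trace has span `u - hd r = ol u r`;
  for `r = []` use `t 1 = 2`).
* `a (b u)` : `QA.f2`.
* `(a u)(b u)` : `QA.f2 (a u) b u`, `(a u) b` by `f3`, `(z u) u` by `QA.fsq`.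
* `u b`, `u (b u)`, `(a u) u`, `u u` : the case `a = []` resp. `b = []`: the same formulas with
  `a = 1` (`QA.lin`, `QA.f2`, `QA.fsq`).
All weights are `≤ (α + Δ) + (β + Δ)` (resp. `Δ + (β + Δ)` ...), because `Δ ≥ 0`.
-/

set_option autoImplicit false
set_option linter.unusedSectionVars false

namespace Pool.Agent.Smt

variable {k A : Type*} [CommRing k] [NonAssocRing A] [Module k A] [IsScalarTower k A A]
  [SMulCommClass k A A] (Q : QA k A) (x : ℤ → A)

theorem FilL_ol_append (C u : ℤ) (r : List ℤ) : ol C (r ++ [u]) = ol u r + (C - u) := by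
  unfold ol
  by_cases hr : r = []
  · subst hr
    simp
  · rw [if_neg (by simp), if_neg hr, hd_append hr]
    ring

theorem FilL_ol_cut {C u : ℤ} (h : u ≤ C) (r : List ℤ) : ol C r ≤ ol u r + (C - u) := by
  unfold ol
  split_ifs <;> linarith

theorem FilL_sm {C w1 w2 w : ℤ} {d1 d2 d : Multiset ℤ} {c : k} {z : A} (hc : c ∈ KS Q x w1 d1)
    (hz : z ∈ WL Q x C w2 d2) (hw : w1 + w2 ≤ w) (hd : d1 + d2 = d) : c • z ∈ WL Q x C w d := by
  subst hd
  exact WL_mono Q x hw _ (KS_smul_WL Q x hc hz)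

theorem FilL_km {w1 w2 w : ℤ} {d1 d2 d : Multiset ℤ} {c c' : k} (hc : c ∈ KS Q x w1 d1)
    (hc' : c' ∈ KS Q x w2 d2) (hw : w1 + w2 ≤ w) (hd : d1 + d2 = d) : c * c' ∈ KS Q x w d := by
  subst hd
  exact KS_mono Q x hw _ (KS_mul Q x hc hc')

theorem FilL_wm {C w1 w : ℤ} {d1 d : Multiset ℤ} {z : A} (hz : z ∈ WL Q x C w1 d1)
    (hw : w1 ≤ w) (hd : d1 = d) : z ∈ WL Q x C w d := by
  subst hd
  exact WL_mono Q x hw _ hz

theorem FilL_kk {w1 w : ℤ} {d1 d : Multiset ℤ} {c : k} (hc : c ∈ KS Q x w1 d1)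
    (hw : w1 ≤ w) (hd : d1 = d) : c ∈ KS Q x w d := by
  subst hd
  exact KS_mono Q x hw _ hc

/-- change of the cut -/
theorem FilL_cut {C u w : ℤ} {d : Multiset ℤ} {z : A} (h : u ≤ C) (hz : z ∈ WL Q x u w d) :
    z ∈ WL Q x C (w + (C - u)) d := by
  induction hz using AddSubgroup.closure_induction with
  | mem z hz =>
    obtain ⟨D, l, h1, h2, h3, h4, rfl⟩ := hz
    rw [← h3]
    have := FilL_ol_cut h l
    exact mem_WL Q x h1 h2 (by linarith)
  | zero => exact zero_mem _
  | add b b' _ _ h h' => exact add_mem h h'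
  | neg b _ h => exact neg_mem h

/-- appending the letter `u` -/
theorem FilL_mulu (C : ℤ) {u w : ℤ} {d : Multiset ℤ} {z : A} (hd : ∀ i ∈ d, i < u)
    (hz : z ∈ WL Q x u w d) : z * x u ∈ WL Q x C (w + (C - u)) (d + {u}) := by
  induction hz using AddSubgroup.closure_induction with
  | mem z hz =>
    obtain ⟨D, l, h1, h2, h3, h4, rfl⟩ := hz
    have hlu : ∀ i ∈ l, i < u := by
      intro i hi
      apply hd
      rw [← h3]
      exact Multiset.mem_add.2 (Or.inr (by simpa using hi))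
    have e : d + {u} = D.ct + ((l ++ [u] : List ℤ) : Multiset ℤ) := by
      rw [← h3, ← Multiset.coe_add, Multiset.coe_singleton, add_assoc]
    rw [smul_mul_assoc, ← wd_append_single, e]
    refine mem_WL Q x h1 ?_ ?_
    · rw [inc_append]
      exact ⟨h2, inc_single _, fun a ha b hb => by
        rw [List.mem_singleton] at hb
        rw [hb]
        exact hlu a ha⟩
    · rw [FilL_ol_append]
      linarith
  | zero => rw [zero_mul]; exact zero_mem _
  | add b b' _ _ h h' => rw [add_mul]; exact add_mem h h'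
  | neg b _ h => rw [neg_mul]; exact neg_mem h

theorem FilL_t {u w : ℤ} {d : Multiset ℤ} {z : A} (hd : ∀ i ∈ d, i < u)
    (hz : z ∈ WL Q x u w d) : Q.t z ∈ KS Q x w d := by
  induction hz using AddSubgroup.closure_induction with
  | mem z hz =>
    obtain ⟨D, l, h1, h2, h3, h4, rfl⟩ := hz
    rw [map_smul, smul_eq_mul]
    by_cases hl : l = []
    · subst hl
      have h5 := ofNat_mul_mem_KS Q x 2 (mem_KS Q x h1 (w := w) (by simpa [ol] using h4))
      rw [wd_nil, Q.t_one, mul_comm, ← h3]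
      simpa using h5
    · have hlu : la l < u := by
        apply hd
        rw [← h3]
        exact Multiset.mem_add.2 (Or.inr (by simpa using la_mem hl))
      rw [ol, if_neg hl] at h4
      exact FilL_km Q x (mem_KS Q x h1 le_rfl) (T_mem_KS Q x hl h2) (by linarith) h3
  | zero => rw [map_zero]; exact zero_mem _
  | add b b' _ _ h h' => rw [map_add]; exact add_mem h h'
  | neg b _ h => rw [map_neg]; exact neg_mem h

theorem FilL_tu {u w : ℤ} {d : Multiset ℤ} {z : A} (hd : ∀ i ∈ d, i < u)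
    (hz : z ∈ WL Q x u w d) : Q.t (z * x u) ∈ KS Q x w (d + {u}) := by
  induction hz using AddSubgroup.closure_induction with
  | mem z hz =>
    obtain ⟨D, l, h1, h2, h3, h4, rfl⟩ := hz
    have hlu : ∀ i ∈ l, i < u := by
      intro i hi
      apply hd
      rw [← h3]
      exact Multiset.mem_add.2 (Or.inr (by simpa using hi))
    have hinc : Inc (l ++ [u]) := by
      rw [inc_append]
      exact ⟨h2, inc_single _, fun a ha b hb => by
        rw [List.mem_singleton] at hb
        rw [hb]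
        exact hlu a ha⟩
    have e : D.ct + ((l ++ [u] : List ℤ) : Multiset ℤ) = d + {u} := by
      rw [← h3, ← Multiset.coe_add, Multiset.coe_singleton, add_assoc]
    rw [smul_mul_assoc, map_smul, smul_eq_mul, ← wd_append_single]
    refine FilL_km Q x (mem_KS Q x h1 le_rfl) (T_mem_KS Q x (l := l ++ [u]) (by simp) hinc) ?_ e
    rw [la_append_single]
    unfold ol at h4
    by_cases hl : l = []
    · subst hl
      simpa using h4
    · rw [if_neg hl] at h4
      rw [hd_append hl]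
      linarith
  | zero => rw [zero_mul, map_zero]; exact zero_mem _
  | add b b' _ _ h h' => rw [add_mul, map_add]; exact add_mem h h'
  | neg b _ h => rw [neg_mul, map_neg]; exact neg_mem h

/-- appending the letter `u` twice -/
theorem FilL_mulu2 {C u w : ℤ} {d : Multiset ℤ} {z : A} (h : u ≤ C) (hd : ∀ i ∈ d, i < u)
    (hz : z ∈ WL Q x u w d) : (z * x u) * x u ∈ WL Q x C (w + (C - u)) (d + {u} + {u}) := by
  rw [Q.fsq]
  refine sub_mem ?_ ?_
  · exact FilL_sm Q x (t_mem_KS Q x u) (FilL_mulu Q x C hd hz) (by linarith) (by abel)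
  · exact FilL_sm Q x (n_mem_KS Q x u) (FilL_cut Q x h hz) (by linarith) (by abel)

theorem FilL_tu2 {u w : ℤ} {d : Multiset ℤ} {z : A} (hd : ∀ i ∈ d, i < u)
    (hz : z ∈ WL Q x u w d) : Q.t ((z * x u) * x u) ∈ KS Q x w (d + {u} + {u}) := by
  rw [Q.fsq, map_sub, map_smul, map_smul, smul_eq_mul, smul_eq_mul]
  refine sub_mem ?_ ?_
  · exact FilL_km Q x (t_mem_KS Q x u) (FilL_tu Q x hd hz) (by linarith) (by abel)
  · exact FilL_km Q x (n_mem_KS Q x u) (FilL_t Q x hd hz) (by linarith) (by abel)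

section products

variable {C u α β : ℤ} {dA dB : Multiset ℤ} {a b : A}

theorem FilL_P1 (h : u ≤ C) (hdA : ∀ i ∈ dA, i < u) (hdB : ∀ i ∈ dB, i < u)
    (ha : a ∈ WL Q x u α dA) (hb : b ∈ WL Q x u β dB)
    (hab : a * b ∈ WL Q x u (α + β) (dA + dB)) :
    (a * x u) * b ∈ WL Q x C (α + β + (C - u)) (dA + dB + {u}) := by
  have hdAB : ∀ i ∈ dA + dB, i < u := by
    intro i hi
    rcases Multiset.mem_add.1 hi with hi | hi
    · exact hdA i hi
    · exact hdB i hi
  rw [Q.f3 a (x u) b]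
  refine sub_mem (add_mem (add_mem (neg_mem ?_) ?_) ?_) ?_
  · exact FilL_mulu Q x C hdAB hab
  · exact FilL_sm Q x (t_mem_KS Q x u) (FilL_cut Q x h hab) (by linarith) (by abel)
  · exact FilL_sm Q x (FilL_t Q x hdB hb) (FilL_mulu Q x C hdA ha) (by linarith) (by abel)
  · rw [sub_smul]
    refine sub_mem ?_ ?_
    · exact FilL_sm Q x (FilL_km Q x (FilL_t Q x hdB hb) (t_mem_KS Q x u) le_rfl rfl)
        (FilL_cut Q x h ha) (by linarith) (by abel)
    · exact FilL_sm Q x (FilL_tu Q x hdB hb) (FilL_cut Q x h ha) (by linarith) (by abel)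

theorem FilL_P1t (hdA : ∀ i ∈ dA, i < u) (hdB : ∀ i ∈ dB, i < u)
    (ha : a ∈ WL Q x u α dA) (hb : b ∈ WL Q x u β dB)
    (hab : a * b ∈ WL Q x u (α + β) (dA + dB)) :
    Q.t ((a * x u) * b) ∈ KS Q x (α + β) (dA + dB + {u}) := by
  have hdAB : ∀ i ∈ dA + dB, i < u := by
    intro i hi
    rcases Multiset.mem_add.1 hi with hi | hi
    · exact hdA i hi
    · exact hdB i hi
  rw [Q.f3 a (x u) b]
  simp only [map_sub, map_add, map_neg, map_smul, smul_eq_mul, sub_mul]
  refine sub_mem (add_mem (add_mem (neg_mem ?_) ?_) ?_) (sub_mem ?_ ?_)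
  · exact FilL_tu Q x hdAB hab
  · exact FilL_km Q x (t_mem_KS Q x u) (FilL_t Q x hdAB hab) (by linarith) (by abel)
  · exact FilL_km Q x (FilL_t Q x hdB hb) (FilL_tu Q x hdA ha) (by linarith) (by abel)
  · exact FilL_km Q x (FilL_km Q x (FilL_t Q x hdB hb) (t_mem_KS Q x u) le_rfl rfl)
      (FilL_t Q x hdA ha) (by linarith) (by abel)
  · exact FilL_km Q x (FilL_tu Q x hdB hb) (FilL_t Q x hdA ha) (by linarith) (by abel)

theorem FilL_P1u (h : u ≤ C) (hdA : ∀ i ∈ dA, i < u) (hdB : ∀ i ∈ dB, i < u)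
    (ha : a ∈ WL Q x u α dA) (hb : b ∈ WL Q x u β dB)
    (hab : a * b ∈ WL Q x u (α + β) (dA + dB)) :
    ((a * x u) * b) * x u ∈ WL Q x C (α + β + (C - u)) (dA + dB + {u} + {u}) := by
  have hdAB : ∀ i ∈ dA + dB, i < u := by
    intro i hi
    rcases Multiset.mem_add.1 hi with hi | hi
    · exact hdA i hi
    · exact hdB i hi
  rw [Q.f3 a (x u) b]
  simp only [add_mul, sub_mul, neg_mul, smul_mul_assoc, sub_smul]
  refine sub_mem (add_mem (add_mem (neg_mem ?_) ?_) ?_) (sub_mem ?_ ?_)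
  · exact FilL_mulu2 Q x h hdAB hab
  · exact FilL_sm Q x (t_mem_KS Q x u) (FilL_mulu Q x C hdAB hab) (by linarith) (by abel)
  · exact FilL_sm Q x (FilL_t Q x hdB hb) (FilL_mulu2 Q x h hdA ha) (by linarith) (by abel)
  · exact FilL_sm Q x (FilL_km Q x (FilL_t Q x hdB hb) (t_mem_KS Q x u) le_rfl rfl)
      (FilL_mulu Q x C hdA ha) (by linarith) (by abel)
  · exact FilL_sm Q x (FilL_tu Q x hdB hb) (FilL_mulu Q x C hdA ha) (by linarith) (by abel)

theorem FilL_P1tu (hdA : ∀ i ∈ dA, i < u) (hdB : ∀ i ∈ dB, i < u)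
    (ha : a ∈ WL Q x u α dA) (hb : b ∈ WL Q x u β dB)
    (hab : a * b ∈ WL Q x u (α + β) (dA + dB)) :
    Q.t (((a * x u) * b) * x u) ∈ KS Q x (α + β) (dA + dB + {u} + {u}) := by
  have hdAB : ∀ i ∈ dA + dB, i < u := by
    intro i hi
    rcases Multiset.mem_add.1 hi with hi | hi
    · exact hdA i hi
    · exact hdB i hi
  rw [Q.f3 a (x u) b]
  simp only [add_mul, sub_mul, neg_mul, smul_mul_assoc, sub_smul, map_sub, map_add, map_neg,
    map_smul, smul_eq_mul]
  refine sub_mem (add_mem (add_mem (neg_mem ?_) ?_) ?_) (sub_mem ?_ ?_)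
  · exact FilL_tu2 Q x hdAB hab
  · exact FilL_km Q x (t_mem_KS Q x u) (FilL_tu Q x hdAB hab) (by linarith) (by abel)
  · exact FilL_km Q x (FilL_t Q x hdB hb) (FilL_tu2 Q x hdA ha) (by linarith) (by abel)
  · exact FilL_km Q x (FilL_km Q x (FilL_t Q x hdB hb) (t_mem_KS Q x u) le_rfl rfl)
      (FilL_tu Q x hdA ha) (by linarith) (by abel)
  · exact FilL_km Q x (FilL_tu Q x hdB hb) (FilL_tu Q x hdA ha) (by linarith) (by abel)

theorem FilL_u (C u : ℤ) : x u ∈ WL Q x C (C - u) {u} := by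
  have := wd_mem_WL Q x (l := [u]) (inc_single _) C
  simpa [ol] using this

theorem FilL_one {C w : ℤ} (hw : 0 ≤ w) : (1 : A) ∈ WL Q x C w 0 :=
  WL_mono Q x hw _ (one_mem_WL Q x C)

theorem FilL_P2 (h : u ≤ C) (hdA : ∀ i ∈ dA, i < u) (hdB : ∀ i ∈ dB, i < u)
    (ha : a ∈ WL Q x u α dA) (hb : b ∈ WL Q x u β dB)
    (hab : a * b ∈ WL Q x u (α + β) (dA + dB)) :
    a * (b * x u) ∈ WL Q x C (α + β + (C - u)) (dA + dB + {u}) := by
  have hdAB : ∀ i ∈ dA + dB, i < u := by
    intro i hi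
    rcases Multiset.mem_add.1 hi with hi | hi
    · exact hdA i hi
    · exact hdB i hi
  have tA := FilL_t Q x hdA ha
  have tB := FilL_t Q x hdB hb
  have tAB := FilL_t Q x hdAB hab
  have tAu := FilL_tu Q x hdA ha
  have tBu := FilL_tu Q x hdB hb
  have tABu := FilL_tu Q x hdAB hab
  have tu := t_mem_KS Q x u
  have h1 : (1 : A) ∈ WL Q x C (C - u) 0 := FilL_one Q x (by linarith)
  rw [Q.f2]
  simp only [sub_smul, add_smul]
  refine add_mem (sub_mem (sub_mem (sub_mem (add_mem (add_mem (add_mem (neg_mem ?_) ?_) ?_) ?_)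
    (sub_mem ?_ ?_)) ?_) (sub_mem ?_ ?_)) (add_mem (sub_mem (sub_mem ?_ ?_) ?_) ?_)
  · exact FilL_mulu Q x C hdAB hab
  · exact FilL_sm Q x tA (FilL_mulu Q x C hdB hb) (by linarith) (by abel)
  · exact FilL_sm Q x tB (FilL_mulu Q x C hdA ha) (by linarith) (by abel)
  · exact FilL_sm Q x tu (FilL_cut Q x h hab) (by linarith) (by abel)
  · exact FilL_sm Q x (FilL_km Q x tB tu le_rfl rfl) (FilL_cut Q x h ha) (by linarith) (by abel)
  · exact FilL_sm Q x tBu (FilL_cut Q x h ha) (by linarith) (by abel)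
  · exact FilL_sm Q x tAu (FilL_cut Q x h hb) (by linarith) (by abel)
  · exact FilL_sm Q x (FilL_km Q x tA tB le_rfl rfl) (FilL_u Q x C u) (by linarith) (by abel)
  · exact FilL_sm Q x tAB (FilL_u Q x C u) (by linarith) (by abel)
  · exact FilL_sm Q x (FilL_km Q x (FilL_km Q x tA tB le_rfl rfl) tu le_rfl rfl) h1
      (by linarith) (by abel)
  · exact FilL_sm Q x (FilL_km Q x tA tBu le_rfl rfl) h1 (by linarith) (by abel)
  · exact FilL_sm Q x (FilL_km Q x tAB tu le_rfl rfl) h1 (by linarith) (by abel)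
  · exact FilL_sm Q x tABu h1 (by linarith) (by abel)

theorem FilL_P3 (h : u ≤ C) (hdA : ∀ i ∈ dA, i < u) (hdB : ∀ i ∈ dB, i < u)
    (ha : a ∈ WL Q x u α dA) (hb : b ∈ WL Q x u β dB)
    (hab : a * b ∈ WL Q x u (α + β) (dA + dB)) :
    (a * x u) * (b * x u) ∈ WL Q x C (α + β + (C - u)) (dA + dB + {u} + {u}) := by
  have tB := FilL_t Q x hdB hb
  have tAu := FilL_tu Q x hdA ha
  have tBu := FilL_tu Q x hdB hb
  have tAuu := FilL_tu2 Q x hdA ha
  have tu := t_mem_KS Q x u
  have tZ := FilL_P1t Q x hdA hdB ha hb hab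
  have tZu := FilL_P1tu Q x hdA hdB ha hb hab
  have h1 : (1 : A) ∈ WL Q x C (C - u) 0 := FilL_one Q x (by linarith)
  rw [Q.f2]
  simp only [sub_smul, add_smul]
  refine add_mem (sub_mem (sub_mem (sub_mem (add_mem (add_mem (add_mem (neg_mem ?_) ?_) ?_) ?_)
    (sub_mem ?_ ?_)) ?_) (sub_mem ?_ ?_)) (add_mem (sub_mem (sub_mem ?_ ?_) ?_) ?_)
  · exact FilL_P1u Q x h hdA hdB ha hb hab
  · exact FilL_sm Q x tAu (FilL_mulu Q x C hdB hb) (by linarith) (by abel)
  · exact FilL_sm Q x tB (FilL_mulu2 Q x h hdA ha) (by linarith) (by abel)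
  · exact FilL_sm Q x tu (FilL_P1 Q x h hdA hdB ha hb hab) (by linarith) (by abel)
  · exact FilL_sm Q x (FilL_km Q x tB tu le_rfl rfl) (FilL_mulu Q x C hdA ha) (by linarith)
      (by abel)
  · exact FilL_sm Q x tBu (FilL_mulu Q x C hdA ha) (by linarith) (by abel)
  · exact FilL_sm Q x tAuu (FilL_cut Q x h hb) (by linarith) (by abel)
  · exact FilL_sm Q x (FilL_km Q x tAu tB le_rfl rfl) (FilL_u Q x C u) (by linarith) (by abel)
  · exact FilL_sm Q x tZ (FilL_u Q x C u) (by linarith) (by abel)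
  · exact FilL_sm Q x (FilL_km Q x (FilL_km Q x tAu tB le_rfl rfl) tu le_rfl rfl) h1
      (by linarith) (by abel)
  · exact FilL_sm Q x (FilL_km Q x tAu tBu le_rfl rfl) h1 (by linarith) (by abel)
  · exact FilL_sm Q x (FilL_km Q x tZ tu le_rfl rfl) h1 (by linarith) (by abel)
  · exact FilL_sm Q x tZu h1 (by linarith) (by abel)

end products

theorem FilL_main (n : ℕ) : ∀ (C : ℤ) (l l' : List ℤ), l.length + l'.length ≤ n → Inc l →
    Inc l' → (∀ i ∈ l, i ≤ C) → (∀ i ∈ l', i ≤ C) →
    wd x l * wd x l' ∈ WL Q x C (ol C l + ol C l') ((l : Multiset ℤ) + (l' : Multiset ℤ)) := by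
  induction n with
  | zero =>
    intro C l l' hn _ _ _ _
    have h1 : l = [] := List.length_eq_zero_iff.1 (by omega)
    have h2 : l' = [] := List.length_eq_zero_iff.1 (by omega)
    subst h1 h2
    rw [wd_nil, one_mul]
    exact FilL_wm Q x (one_mem_WL Q x C) (by simp [ol]) (by simp)
  | succ n ih =>
    intro C l l' hn hl hl' h h'
    rcases List.eq_nil_or_concat' l with rfl | ⟨a, u, rfl⟩
    · rw [wd_nil, one_mul]
      exact FilL_wm Q x (wd_mem_WL Q x hl' C) (by simp [ol]) (by simp)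
    rcases List.eq_nil_or_concat' l' with rfl | ⟨b, v, rfl⟩
    · rw [wd_nil, mul_one]
      exact FilL_wm Q x (wd_mem_WL Q x hl C) (by simp [ol]) (by simp)
    have hu : u ≤ C := h u (by simp)
    have hv : v ≤ C := h' v (by simp)
    obtain ⟨ha, -, hau⟩ := inc_append.1 hl
    obtain ⟨hb, -, hbv⟩ := inc_append.1 hl'
    have hau' : ∀ i ∈ (a : Multiset ℤ), i < u := fun i hi =>
      hau i (by simpa using hi) u (by simp)
    have hbv' : ∀ i ∈ (b : Multiset ℤ), i < v := fun i hi =>
      hbv i (by simpa using hi) v (by simp)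
    simp only [List.length_append, List.length_singleton] at hn
    rcases lt_trichotomy u v with huv | huv | huv
    · -- the largest letter is the last letter of the second word
      have hav' : ∀ i ∈ ((a ++ [u] : List ℤ) : Multiset ℤ), i < v := by
        intro i hi
        have hi2 : i ∈ a ++ [u] := by simpa using hi
        rcases List.mem_append.1 hi2 with hi3 | hi3
        · exact (hau i hi3 u (by simp)).trans huv
        · rw [List.mem_singleton] at hi3
          rw [hi3]; exact huv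
      have hAB := ih v (a ++ [u]) b (by simp; omega) hl hb
        (fun i hi => (hav' i (by simpa using hi)).le) (fun i hi => (hbv' i (by simpa using hi)).le)
      have h2 := FilL_P2 Q x hv hav' hbv' (wd_mem_WL Q x hl v) (wd_mem_WL Q x hb v) hAB
      rw [wd_append_single x b v]
      refine FilL_wm Q x h2 ?_ ?_
      · rw [FilL_ol_append C v b]
        have h3 : ol C (a ++ [u]) = ol v (a ++ [u]) + (C - v) := by
          unfold ol
          rw [if_neg (by simp), if_neg (by simp)]
          ring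
        rw [h3]
        linarith
      · rw [← Multiset.coe_add b [v], Multiset.coe_singleton]
        abel
    · subst huv
      have hAB := ih u a b (by omega) ha hb
        (fun i hi => (hau' i (by simpa using hi)).le) (fun i hi => (hbv' i (by simpa using hi)).le)
      have h2 := FilL_P3 Q x hu hau' hbv' (wd_mem_WL Q x ha u) (wd_mem_WL Q x hb u) hAB
      rw [wd_append_single x a u, wd_append_single x b u]
      refine FilL_wm Q x h2 ?_ ?_
      · rw [FilL_ol_append C u a, FilL_ol_append C u b]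
        linarith
      · rw [← Multiset.coe_add b [u], ← Multiset.coe_add a [u], Multiset.coe_singleton]
        abel
    · have hbu' : ∀ i ∈ ((b ++ [v] : List ℤ) : Multiset ℤ), i < u := by
        intro i hi
        have hi2 : i ∈ b ++ [v] := by simpa using hi
        rcases List.mem_append.1 hi2 with hi3 | hi3
        · exact (hbv i hi3 v (by simp)).trans huv
        · rw [List.mem_singleton] at hi3
          rw [hi3]; exact huv
      have hAB := ih u a (b ++ [v]) (by simp; omega) ha hl'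
        (fun i hi => (hau' i (by simpa using hi)).le) (fun i hi => (hbu' i (by simpa using hi)).le)
      have h2 := FilL_P1 Q x hu hau' hbu' (wd_mem_WL Q x ha u) (wd_mem_WL Q x hl' u) hAB
      rw [wd_append_single x a u]
      refine FilL_wm Q x h2 ?_ ?_
      · rw [FilL_ol_append C u a]
        have h3 : ol C (b ++ [v]) = ol u (b ++ [v]) + (C - u) := by
          unfold ol
          rw [if_neg (by simp), if_neg (by simp)]
          ring
        rw [h3]
        linarith
      · rw [← Multiset.coe_add a [u], Multiset.coe_singleton]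
        abel

theorem wd_mul_wd (C : ℤ) (l l' : List ℤ) (hl : Inc l) (hl' : Inc l') (h : ∀ i ∈ l, i ≤ C)
    (h' : ∀ i ∈ l', i ≤ C) :
    wd x l * wd x l' ∈ WL Q x C (ol C l + ol C l') ((l : Multiset ℤ) + (l' : Multiset ℤ)) :=
  FilL_main Q x _ C l l' le_rfl hl hl' h h'

theorem WL_mul (C w w' : ℤ) (d d' : Multiset ℤ) (hd : ∀ i ∈ d, i ≤ C) (hd' : ∀ i ∈ d', i ≤ C)
    (a b : A) (ha : a ∈ WL Q x C w d) (hb : b ∈ WL Q x C w' d') :
    a * b ∈ WL Q x C (w + w') (d + d') := by
  induction ha using AddSubgroup.closure_induction with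
  | mem a ha =>
    obtain ⟨D, l, h1, h2, h3, h4, rfl⟩ := ha
    induction hb using AddSubgroup.closure_induction with
    | mem b hb =>
      obtain ⟨E, l', g1, g2, g3, g4, rfl⟩ := hb
      have hl : ∀ i ∈ l, i ≤ C := fun i hi => hd i (by
        rw [← h3]
        exact Multiset.mem_add.2 (Or.inr (by simpa using hi)))
      have hl' : ∀ i ∈ l', i ≤ C := fun i hi => hd' i (by
        rw [← g3]
        exact Multiset.mem_add.2 (Or.inr (by simpa using hi)))
      rw [smul_mul_smul_comm]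
      refine FilL_sm Q x (FilL_km Q x (mem_KS Q x h1 le_rfl) (mem_KS Q x g1 le_rfl) le_rfl rfl)
        (wd_mul_wd Q x C l l' h2 g2 hl hl') (by linarith) ?_
      rw [← h3, ← g3]
      abel
    | zero => rw [mul_zero]; exact zero_mem _
    | add b b' _ _ h h' => rw [mul_add]; exact add_mem h h'
    | neg b _ h => rw [mul_neg]; exact neg_mem h
  | zero => rw [zero_mul]; exact zero_mem _
  | add a a' _ _ h h' => rw [add_mul]; exact add_mem h h'
  | neg a _ h => rw [neg_mul]; exact neg_mem h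

end Pool.Agent.Smt
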