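import Pool.Agent.Smt.Span
import Pool.Agent.Smt.Ext

/-!
# The open standard diagrams span  (module OpenStd)

Take `exists_ext`. Letters of `A'`: `x' m = j (x m)` for `m ≠ Y`, `x' Y = y`. The diagram
`D + bl (l ++ [Y])` has value `i (D.val) * t'(j (wd x l) * y)` (letters of `D`, `l` are `< Y`), so
`π (value) = D.val • wd x l`. Apply `span_std` to it (in `A'`) and `π` (additive, map the closure).
A `Rep` diagram `D'` of the same content contains `Y` exactly once, as the largest letter, so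
`D' = D'' + bl (l' ++ [Y])` with all letters of `D''`, `l'` smaller than `Y` (`Y` is not a norm), and
`π (D'.val) = D''.val • wd x l'`.
-/

set_option autoImplicit false
set_option linter.unusedSectionVars false

namespace Pool.Agent.Smt

variable {k A : Type*} [CommRing k] [NonAssocRing A] [Module k A] [IsScalarTower k A A]
  [SMulCommClass k A A] (Q : QA k A) (x : ℤ → A)

theorem OpenStd_mem_ct {D : Dg} {l : List ℤ} (hl : l ∈ D.b) {m : ℤ} (hm : m ∈ l) :
    m ∈ D.ct := by
  obtain ⟨s, hs⟩ := Multiset.exists_cons_of_mem hl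
  unfold Dg.ct
  rw [hs, Multiset.map_cons, Multiset.sum_cons, Multiset.mem_add, Multiset.mem_add]
  exact Or.inl (Or.inl (Multiset.mem_coe.2 hm))

theorem OpenStd_mem_m {D : Dg} {m : ℤ} (hm : m ∈ D.m) : m ∈ D.ct := by
  unfold Dg.ct
  rw [Multiset.mem_add, Multiset.mem_add]
  exact Or.inr (Or.inl hm)

theorem OpenStd_mem_sum (Y : ℤ) (s : Multiset (List ℤ))
    (h : Y ∈ (s.map (fun l : List ℤ => (Multiset.ofList l : Multiset ℤ))).sum) :
    ∃ L ∈ s, Y ∈ L := by
  induction s using Multiset.induction_on with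
  | empty => simp at h
  | cons a s ih =>
    rw [Multiset.map_cons, Multiset.sum_cons, Multiset.mem_add] at h
    rcases h with h | h
    · exact ⟨a, Multiset.mem_cons_self a s, Multiset.mem_coe.1 h⟩
    · obtain ⟨L, hL, h1⟩ := ih h
      exact ⟨L, Multiset.mem_cons_of_mem hL, h1⟩

/-- The block of the largest letter. -/
theorem OpenStd_split {Y : ℤ} {D' : Dg} {d : Multiset ℤ} (hok : D'.Ok) (hd : ∀ m ∈ d, m < Y)
    (hct : D'.ct = d + {Y}) : ∃ (D'' : Dg) (l' : List ℤ), D' = D'' + Dg.bl (l' ++ [Y]) ∧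
      D''.ct + (l' : Multiset ℤ) = d := by
  classical
  have hYd : Y ∉ d := fun h => lt_irrefl _ (hd Y h)
  have hle : ∀ m ∈ D'.ct, m ≤ Y := by
    intro m hm
    rw [hct, Multiset.mem_add, Multiset.mem_singleton] at hm
    rcases hm with hm | hm
    · exact (hd m hm).le
    · exact hm.le
  have hYm : Y ∉ D'.m := by
    intro h
    have h1 : Multiset.count Y D'.ct = 1 := by
      rw [hct, Multiset.count_add, Multiset.count_eq_zero_of_notMem hYd,
        Multiset.count_singleton_self]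
    have h2 : 1 ≤ Multiset.count Y D'.m := Multiset.one_le_count_iff_mem.2 h
    unfold Dg.ct at h1
    rw [Multiset.count_add, Multiset.count_add] at h1
    omega
  have hY : Y ∈ D'.ct := by
    rw [hct, Multiset.mem_add, Multiset.mem_singleton]
    exact Or.inr rfl
  have hYb : ∃ L ∈ D'.b, Y ∈ L := by
    apply OpenStd_mem_sum
    unfold Dg.ct at hY
    rw [Multiset.mem_add, Multiset.mem_add] at hY
    rcases hY with h | h | h
    · exact h
    · exact absurd h hYm
    · exact absurd h hYm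
  obtain ⟨L, hL, hYL⟩ := hYb
  obtain ⟨hne, hinc⟩ := hok L hL
  have hla : la L = Y := le_antisymm (hle _ (OpenStd_mem_ct hL (la_mem hne))) (le_la hinc hYL)
  have hlist : L.dropLast ++ [Y] = L := by
    have h1 := List.dropLast_append_getLast hne
    have h2 : L.getLast hne = Y := by
      rw [← hla, la, List.getLastD_eq_getLast?, List.getLast?_eq_getLast_of_ne_nil hne]
      rfl
    rwa [h2] at h1
  obtain ⟨b'', hb''⟩ := Multiset.exists_cons_of_mem hL
  have hD : D' = (⟨b'', D'.m⟩ : Dg) + Dg.bl (L.dropLast ++ [Y]) := by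
    ext1
    · rw [Dg.add_b, Dg.bl_b, hlist, hb'', ← Multiset.singleton_add, add_comm]
    · rw [Dg.add_m, Dg.bl_m, add_zero]
  refine ⟨⟨b'', D'.m⟩, L.dropLast, hD, ?_⟩
  have h1 : D'.ct = (⟨b'', D'.m⟩ : Dg).ct + ((L.dropLast : Multiset ℤ) + {Y}) := by
    conv_lhs => rw [hD]
    rw [Dg.ct_add, Dg.ct_bl, ← Multiset.coe_add, Multiset.coe_singleton]
  rw [hct, ← add_assoc] at h1
  exact (add_right_cancel h1).symm

theorem OpenStd_wd {B B' : Type*} [NonAssocRing B] [NonAssocRing B'] (j : B →+* B')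
    (x : ℤ → B) (x' : ℤ → B') (l : List ℤ) (h : ∀ m ∈ l, x' m = j (x m)) :
    wd x' l = j (wd x l) := by
  induction l using List.reverseRecOn with
  | nil => rw [wd_nil, wd_nil, map_one]
  | append_singleton l m ih =>
    rw [wd_append_single, wd_append_single, map_mul,
      ih (fun a ha => h a (List.mem_append.2 (Or.inl ha))),
      h m (List.mem_append.2 (Or.inr (List.mem_singleton.2 rfl)))]

theorem OpenStd_val {k A k' A' : Type*} [CommRing k] [NonAssocRing A] [Module k A]
    [CommRing k'] [NonAssocRing A'] [Module k' A'] (Q : QA k A) (Q' : QA k' A') (i : k →+* k')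
    (j : A →+* A') (x : ℤ → A) (x' : ℤ → A') (hT : ∀ a, Q'.t (j a) = i (Q.t a))
    (hN : ∀ a, Q'.n (j a) = i (Q.n a)) (D : Dg) (h : ∀ m ∈ D.ct, x' m = j (x m)) :
    D.val Q' x' = i (D.val Q x) := by
  unfold Dg.val
  rw [map_mul, map_multiset_prod, map_multiset_prod, Multiset.map_map, Multiset.map_map]
  congr 2
  · refine Multiset.map_congr rfl fun l hl => ?_
    show Q'.t (wd x' l) = i (Q.t (wd x l))
    rw [OpenStd_wd j x x' l (fun m hm => h m (OpenStd_mem_ct hl hm)), hT]
  · refine Multiset.map_congr rfl fun m hm => ?_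
    show Q'.n (x' m) = i (Q.n (x m))
    rw [h m (OpenStd_mem_m hm), hN]

theorem span_open (Y : ℤ) (D : Dg) (l : List ℤ) (hD : D.Ok) (hl : Inc l) (hY : ∀ i ∈ D.ct, i < Y)
    (hY' : ∀ i ∈ l, i < Y) : D.val Q x • wd x l ∈ AddSubgroup.closure {v | ∃ (D' : Dg)
      (l' : List ℤ), (D' + Dg.bl (l' ++ [Y])).Rep ∧ (∀ i ∈ D'.ct, i < Y) ∧ (∀ i ∈ l', i < Y) ∧
        D'.val Q x • wd x l' = v} := by
  obtain ⟨k', A', _, _, _, _, _, Q', i, j, y, π, hT, hN, hπ1, hπ2⟩ := exists_ext Q
  obtain ⟨x', hx'⟩ : ∃ x' : ℤ → A', x' = fun m => if m = Y then y else j (x m) := ⟨_, rfl⟩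
  have hxY : x' Y = y := by rw [hx']; simp
  have hxm : ∀ m, m ≠ Y → x' m = j (x m) := by
    intro m hm
    rw [hx']
    simp [hm]
  have hval : ∀ (E : Dg) (l : List ℤ), (∀ m ∈ E.ct, m < Y) → (∀ m ∈ l, m < Y) →
      π ((E + Dg.bl (l ++ [Y])).val Q' x') = E.val Q x • wd x l := by
    intro E l h1 h2
    rw [val_add, val_bl, OpenStd_val Q Q' i j x x' hT hN E
      (fun m hm => hxm m (ne_of_lt (h1 m hm))), hπ1]
    congr 1
    show π (Q'.t (wd x' (l ++ [Y]))) = wd x l
    rw [wd_append_single, OpenStd_wd j x x' l (fun m hm => hxm m (ne_of_lt (h2 m hm))), hxY,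
      hπ2]
  have hE : (D + Dg.bl (l ++ [Y])).Ok := by
    rw [Dg.ok_add]
    refine ⟨hD, Dg.ok_bl (by simp) ?_⟩
    rw [inc_append]
    refine ⟨hl, inc_single Y, fun a ha b hb => ?_⟩
    rw [List.mem_singleton.1 hb]
    exact hY' a ha
  have hct : (D + Dg.bl (l ++ [Y])).ct = (D.ct + (l : Multiset ℤ)) + {Y} := by
    rw [Dg.ct_add, Dg.ct_bl, ← Multiset.coe_add, Multiset.coe_singleton, add_assoc]
  have hd : ∀ m ∈ D.ct + (l : Multiset ℤ), m < Y := by
    intro m hm
    rw [Multiset.mem_add] at hm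
    rcases hm with hm | hm
    · exact hY m hm
    · exact hY' m (Multiset.mem_coe.1 hm)
  have h1 := span_std Q' x' (D + Dg.bl (l ++ [Y])) hE
  have h2 : ∀ v ∈ AddSubgroup.closure {v | ∃ D' : Dg, D'.Rep ∧
      D'.ct = (D + Dg.bl (l ++ [Y])).ct ∧ D'.val Q' x' = v},
      π v ∈ AddSubgroup.closure {v | ∃ (D' : Dg)
      (l' : List ℤ), (D' + Dg.bl (l' ++ [Y])).Rep ∧ (∀ i ∈ D'.ct, i < Y) ∧ (∀ i ∈ l', i < Y) ∧
        D'.val Q x • wd x l' = v} := by
    intro v hv
    induction hv using AddSubgroup.closure_induction with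
    | mem v hv =>
      obtain ⟨D', hrep, hc, rfl⟩ := hv
      rw [hct] at hc
      obtain ⟨D'', l', hD', hc'⟩ := OpenStd_split hrep.1 hd hc
      have h3 : ∀ m ∈ D''.ct, m < Y := fun m hm =>
        hd m (by rw [← hc']; exact Multiset.mem_add.2 (Or.inl hm))
      have h4 : ∀ m ∈ l', m < Y := fun m hm =>
        hd m (by rw [← hc']; exact Multiset.mem_add.2 (Or.inr (Multiset.mem_coe.2 hm)))
      rw [hD'] at hrep ⊢
      exact AddSubgroup.subset_closure ⟨D'', l', hrep, h3, h4, (hval D'' l' h3 h4).symm⟩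
    | zero => rw [map_zero]; exact zero_mem _
    | add a b _ _ ha hb => rw [map_add]; exact add_mem ha hb
    | neg a _ ha => rw [map_neg]; exact neg_mem ha
  have h3 := h2 _ h1
  rwa [hval D l hY hY'] at h3


end Pool.Agent.Smt
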