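import Pool.Agent.Smt.Defs

/-!
# Independence of the bracket monomials without 3-nests  (module Rank)

`br c = ∏_(α,β)∈c (x_α g_β - h_α y_β)` (variables `X (α,0) = x_α`, `X (β,1) = g_β`, `X (α,2) = h_α`,
`X (β,3) = y_β`). For `c` without 3-nests colour an arc 2 if it is strictly nested inside another arc
of `c`, else 1: `c = c₁ + c₂`; neither part contains two strictly nested arcs. The monomial
`∏_(c₁) x_α g_β ∏_(c₂) h_α y_β` occurs in `br c'` only if `c' = c` or `phi c' < phi c`
(rearrangement inequality), and in `br c` it has the coefficient `± 1`.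
-/

set_option autoImplicit false

namespace Pool.Agent.Smt

/-- the product of the brackets `x_α g_β - h_α y_β` over the arcs -/
noncomputable def br (F : Type*) [CommRing F] (c : Multiset (ℤ × ℤ)) : MvPolynomial (ℤ × Fin 4) F :=
  (c.map (fun e => MvPolynomial.X (e.1, 0) * MvPolynomial.X (e.2, 1)
    - MvPolynomial.X (e.1, 2) * MvPolynomial.X (e.2, 3))).prod

/-- the variables of the monomial given by two sets of arcs -/
private def rankM (B₁ B₂ : Multiset (ℤ × ℤ)) : Multiset (ℤ × Fin 4) :=
  B₁.map (fun e => (e.1, 0)) + B₁.map (fun e => (e.2, 1)) + B₂.map (fun e => (e.1, 2)) +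
    B₂.map (fun e => (e.2, 3))

private def rankP (j : Fin 4) (M : Multiset (ℤ × Fin 4)) : Multiset ℤ :=
  (M.filter (fun p => p.2 = j)).map Prod.fst

private theorem rankP_add (j : Fin 4) (M N : Multiset (ℤ × Fin 4)) :
    rankP j (M + N) = rankP j M + rankP j N := by
  simp [rankP, Multiset.filter_add]

private theorem rankP_map (i j : Fin 4) (f : ℤ × ℤ → ℤ) (B : Multiset (ℤ × ℤ)) :
    rankP j (B.map (fun e => (f e, i))) = if i = j then B.map f else 0 := by
  unfold rankP
  rw [Multiset.filter_map, Multiset.map_map]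
  split_ifs with h
  · rw [Multiset.filter_eq_self.2]
    · rfl
    · intro a _
      exact h
  · rw [Multiset.filter_eq_nil.2]
    · rfl
    · intro a _ h'
      exact h h'

private theorem rankM_inj {B₁ B₂ C₁ C₂ : Multiset (ℤ × ℤ)} (h : rankM B₁ B₂ = rankM C₁ C₂) :
    (B₁.map Prod.fst = C₁.map Prod.fst ∧ B₁.map Prod.snd = C₁.map Prod.snd) ∧
      (B₂.map Prod.fst = C₂.map Prod.fst ∧ B₂.map Prod.snd = C₂.map Prod.snd) := by
  have key : ∀ j, rankP j (rankM B₁ B₂) = rankP j (rankM C₁ C₂) := fun j => by rw [h]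
  have e : ∀ (j : Fin 4) (B₁ B₂ : Multiset (ℤ × ℤ)), rankP j (rankM B₁ B₂) =
      (if (0 : Fin 4) = j then B₁.map Prod.fst else 0) + (if (1 : Fin 4) = j then B₁.map Prod.snd else 0) +
      (if (2 : Fin 4) = j then B₂.map Prod.fst else 0) +
      (if (3 : Fin 4) = j then B₂.map Prod.snd else 0) := by
    intro j B₁ B₂
    unfold rankM
    rw [rankP_add, rankP_add, rankP_add, rankP_map 0 j Prod.fst, rankP_map 1 j Prod.snd,
      rankP_map 2 j Prod.fst, rankP_map 3 j Prod.snd]
  refine ⟨⟨?_, ?_⟩, ?_, ?_⟩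
  · have := key 0
    rw [e, e] at this
    simpa using this
  · have := key 1
    rw [e, e] at this
    simpa using this
  · have := key 2
    rw [e, e] at this
    simpa using this
  · have := key 3
    rw [e, e] at this
    simpa using this

/-- no two strictly nested arcs -/
private def RankN (C : Multiset (ℤ × ℤ)) : Prop := ∀ e ∈ C, ∀ e' ∈ C, e.1 < e'.1 → e.2 ≤ e'.2

private theorem rank_phi_cons (e : ℤ × ℤ) (c : Multiset (ℤ × ℤ)) :
    phi (e ::ₘ c) = e.1 * e.2 + phi c := by
  simp [phi]

private theorem rank_phi_add (c c' : Multiset (ℤ × ℤ)) : phi (c + c') = phi c + phi c' := by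
  simp [phi]

/-- a largest arc -/
private theorem rank_top {C : Multiset (ℤ × ℤ)} (hC : RankN C) (h0 : C ≠ 0) :
    ∃ e ∈ C, ∀ e' ∈ C, e'.1 ≤ e.1 ∧ e'.2 ≤ e.2 := by
  classical
  have hne : C.toFinset.Nonempty := by
    rw [Finset.nonempty_iff_ne_empty]
    intro h
    exact h0 (Multiset.toFinset_eq_empty.1 h)
  obtain ⟨e0, he0, hmax0⟩ := Finset.exists_max_image C.toFinset Prod.fst hne
  have hne1 : (C.toFinset.filter fun e => e.1 = e0.1).Nonempty :=
    ⟨e0, Finset.mem_filter.2 ⟨he0, rfl⟩⟩
  obtain ⟨e, he, hmax⟩ := Finset.exists_max_image _ Prod.snd hne1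
  obtain ⟨he1, he2⟩ := Finset.mem_filter.1 he
  refine ⟨e, Multiset.mem_toFinset.1 he1, fun e' he' => ?_⟩
  have h1 := hmax0 e' (Multiset.mem_toFinset.2 he')
  rw [← he2] at h1
  refine ⟨h1, ?_⟩
  rcases h1.lt_or_eq with h2 | h2
  · exact hC e' he' e (Multiset.mem_toFinset.1 he1) h2
  · exact hmax e' (Finset.mem_filter.2 ⟨Multiset.mem_toFinset.2 he', h2.trans he2⟩)

/-- rearrangement inequality -/
private theorem rank_rearr : ∀ (n : ℕ) (C B : Multiset (ℤ × ℤ)), Multiset.card C = n → RankN C →
    B.map Prod.fst = C.map Prod.fst → B.map Prod.snd = C.map Prod.snd →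
    phi B ≤ phi C ∧ (phi B = phi C → B = C) := by
  intro n
  induction n with
  | zero =>
    intro C B hn _ h1 _
    have hC : C = 0 := Multiset.card_eq_zero.1 hn
    subst hC
    have hB : B = 0 := by
      rw [Multiset.map_zero, Multiset.map_eq_zero] at h1
      exact h1
    subst hB
    exact ⟨le_rfl, fun _ => rfl⟩
  | succ n ih =>
    intro C B hn hC h1 h2
    have hC0 : C ≠ 0 := by
      rintro rfl
      simp at hn
    obtain ⟨e, he, htop⟩ := rank_top hC hC0
    obtain ⟨C0, rfl⟩ := Multiset.exists_cons_of_mem he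
    have hn0 : Multiset.card C0 = n := by
      rw [Multiset.card_cons] at hn
      omega
    have hC0 : RankN C0 := fun a ha b hb =>
      hC a (Multiset.mem_cons_of_mem ha) b (Multiset.mem_cons_of_mem hb)
    by_cases heB : e ∈ B
    · obtain ⟨B0, rfl⟩ := Multiset.exists_cons_of_mem heB
      rw [Multiset.map_cons, Multiset.map_cons, Multiset.cons_inj_right] at h1 h2
      obtain ⟨h3, h4⟩ := ih C0 B0 hn0 hC0 h1 h2
      rw [rank_phi_cons, rank_phi_cons]
      refine ⟨by linarith, fun h => ?_⟩
      rw [h4 (by linarith)]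
    · -- exchange
      have hb1 : e.1 ∈ B.map Prod.fst := by
        rw [h1]
        exact Multiset.mem_map_of_mem _ he
      obtain ⟨p, hp, hp1⟩ := Multiset.mem_map.1 hb1
      have hb2 : e.2 ∈ B.map Prod.snd := by
        rw [h2]
        exact Multiset.mem_map_of_mem _ he
      obtain ⟨q, hq, hq2⟩ := Multiset.mem_map.1 hb2
      have hp2 : p.2 < e.2 := by
        have h3 : p.2 ∈ (e ::ₘ C0).map Prod.snd := by
          rw [← h2]
          exact Multiset.mem_map_of_mem _ hp
        obtain ⟨r, hr, hr2⟩ := Multiset.mem_map.1 h3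
        have h4 := (htop r hr).2
        rw [hr2] at h4
        refine lt_of_le_of_ne h4 fun h5 => heB ?_
        have h6 : p = e := Prod.ext hp1 h5
        rw [← h6]
        exact hp
      have hq1 : q.1 < e.1 := by
        have h3 : q.1 ∈ (e ::ₘ C0).map Prod.fst := by
          rw [← h1]
          exact Multiset.mem_map_of_mem _ hq
        obtain ⟨r, hr, hr2⟩ := Multiset.mem_map.1 h3
        have h4 := (htop r hr).1
        rw [hr2] at h4
        refine lt_of_le_of_ne h4 fun h5 => heB ?_
        have h6 : q = e := Prod.ext h5 hq2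
        rw [← h6]
        exact hq
      have hpq : q ≠ p := by
        rintro rfl
        rw [hp1] at hq1
        exact lt_irrefl _ hq1
      obtain ⟨B1, rfl⟩ := Multiset.exists_cons_of_mem hp
      have hqB : q ∈ B1 := (Multiset.mem_cons.1 hq).resolve_left hpq
      obtain ⟨B0, rfl⟩ := Multiset.exists_cons_of_mem hqB
      have h1' : ((q.1, p.2) ::ₘ B0).map Prod.fst = C0.map Prod.fst := by
        rw [Multiset.map_cons, Multiset.map_cons, Multiset.map_cons, hp1,
          Multiset.cons_inj_right] at h1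
        rw [Multiset.map_cons]
        exact h1
      have h2' : ((q.1, p.2) ::ₘ B0).map Prod.snd = C0.map Prod.snd := by
        rw [Multiset.map_cons, Multiset.map_cons, Multiset.map_cons, hq2, Multiset.cons_swap,
          Multiset.cons_inj_right] at h2
        rw [Multiset.map_cons]
        exact h2
      obtain ⟨h3, -⟩ := ih C0 _ hn0 hC0 h1' h2'
      rw [rank_phi_cons] at h3
      simp only at h3
      rw [rank_phi_cons, rank_phi_cons, rank_phi_cons, hp1, hq2]
      have h4 : 0 < (e.1 - q.1) * (e.2 - p.2) := mul_pos (by linarith) (by linarith)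
      have h5 : e.1 * p.2 + (q.1 * e.2 + phi B0) < e.1 * e.2 + phi C0 := by nlinarith
      exact ⟨h5.le, fun h => absurd h h5.ne⟩

/-- the arcs that are strictly nested in another arc -/
private def RankIn (c : Multiset (ℤ × ℤ)) (e : ℤ × ℤ) : Prop := ∃ e' ∈ c, e'.1 < e.1 ∧ e.2 < e'.2

open Classical in
private theorem rank_split {c : Multiset (ℤ × ℤ)} (hc : NoNest c) :
    RankN (c.filter fun e => ¬ RankIn c e) ∧ RankN (c.filter fun e => RankIn c e) := by
  constructor
  · intro e he e' he' hlt
    rw [Multiset.mem_filter] at he he'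
    by_contra hcon
    exact he'.2 ⟨e, he.1, hlt, not_le.1 hcon⟩
  · intro e he e' he' hlt
    rw [Multiset.mem_filter] at he he'
    by_contra hcon
    obtain ⟨d, hd, h1, h2⟩ := he.2
    exact hc ⟨d, hd, e, he.1, e', he'.1, h1, hlt, not_le.1 hcon, h2⟩

private theorem rank_monomial (F : Type*) [CommRing F] (M : Multiset (ℤ × Fin 4)) :
    (M.map (fun p => (MvPolynomial.X p : MvPolynomial (ℤ × Fin 4) F))).prod =
      MvPolynomial.monomial (Multiset.toFinsupp M) 1 := by
  induction M using Multiset.induction with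
  | empty => simp
  | cons a M ih =>
    rw [Multiset.map_cons, Multiset.prod_cons, ih, ← Multiset.singleton_add, map_add,
      Multiset.toFinsupp_singleton, MvPolynomial.X, MvPolynomial.monomial_mul, one_mul]

/-- expansion of the product of brackets -/
private theorem rank_expand (F : Type*) [CommRing F] {n : ℕ} (v : Fin n → ℤ × ℤ)
    (m : (ℤ × Fin 4) →₀ ℕ) : ∃ σ : Finset (Fin n) → ℤˣ,
    MvPolynomial.coeff m (br F ((Finset.univ : Finset (Fin n)).val.map v)) =
      ∑ t : Finset (Fin n), if Multiset.toFinsupp (rankM (t.val.map v) (tᶜ.val.map v)) = m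
        then ((σ t : ℤ) : F) else 0 := by
  classical
  refine ⟨fun t => (-1) ^ tᶜ.card, ?_⟩
  have h1 : br F ((Finset.univ : Finset (Fin n)).val.map v) =
      ∏ i : Fin n, ((MvPolynomial.X ((v i).1, 0) * MvPolynomial.X ((v i).2, 1)) +
        (-(MvPolynomial.X ((v i).1, 2) * MvPolynomial.X ((v i).2, 3)))) := by
    unfold br
    rw [Multiset.map_map]
    exact Finset.prod_congr rfl fun i _ => (sub_eq_add_neg _ _)
  rw [h1, Finset.prod_add, MvPolynomial.coeff_sum, Finset.powerset_univ]
  refine Finset.sum_congr rfl fun t _ => ?_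
  have h2 : (∏ i ∈ t, (MvPolynomial.X ((v i).1, 0) * MvPolynomial.X ((v i).2, 1) :
      MvPolynomial (ℤ × Fin 4) F)) * ∏ i ∈ Finset.univ \ t,
        (-(MvPolynomial.X ((v i).1, 2) * MvPolynomial.X ((v i).2, 3))) =
      MvPolynomial.C ((-1) ^ tᶜ.card) *
        ((rankM (t.val.map v) (tᶜ.val.map v)).map
          (fun p => (MvPolynomial.X p : MvPolynomial (ℤ × Fin 4) F))).prod := by
    rw [← Finset.compl_eq_univ_sdiff, Finset.prod_neg, Finset.prod_mul_distrib,
      Finset.prod_mul_distrib]
    unfold rankM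
    simp only [Multiset.map_add, Multiset.prod_add, Multiset.map_map, Function.comp_def, map_pow,
      map_neg, map_one]
    rw [Finset.prod, Finset.prod, Finset.prod, Finset.prod]
    ring
  rw [h2, rank_monomial, MvPolynomial.coeff_C_mul, MvPolynomial.coeff_monomial]
  split_ifs with h
  · push_cast
    ring
  · rw [mul_zero]

theorem rank_indep (F : Type*) [Field F] (s : Finset (Multiset (ℤ × ℤ))) (hs : ∀ c ∈ s, NoNest c)
    (a : Multiset (ℤ × ℤ) → F) (h : ∑ c ∈ s, MvPolynomial.C (a c) * br F c = 0) :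
    ∀ c ∈ s, a c = 0 := by
  classical
  by_contra hcon
  push Not at hcon
  obtain ⟨c0, hc0, ha0⟩ := hcon
  obtain ⟨c, hc, hmin⟩ := Finset.exists_min_image (s.filter fun c => a c ≠ 0) phi
    ⟨c0, Finset.mem_filter.2 ⟨hc0, ha0⟩⟩
  obtain ⟨hcs, hac⟩ := Finset.mem_filter.1 hc
  obtain ⟨hN1, hN2⟩ := rank_split (hs c hcs)
  obtain ⟨c₁, hc₁⟩ : ∃ c₁, c₁ = c.filter fun e => ¬ RankIn c e := ⟨_, rfl⟩
  obtain ⟨c₂, hc₂⟩ : ∃ c₂, c₂ = c.filter fun e => RankIn c e := ⟨_, rfl⟩
  rw [← hc₁] at hN1
  rw [← hc₂] at hN2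
  have hadd : c₁ + c₂ = c := by
    rw [hc₁, hc₂, add_comm]
    exact Multiset.filter_add_not _ _
  -- which expansions give the monomial
  have key : ∀ B₁ B₂ : Multiset (ℤ × ℤ), phi c ≤ phi (B₁ + B₂) →
      rankM B₁ B₂ = rankM c₁ c₂ → B₁ = c₁ ∧ B₂ = c₂ := by
    intro B₁ B₂ hphi hM
    obtain ⟨⟨e1, e2⟩, e3, e4⟩ := rankM_inj hM
    obtain ⟨f1, f2⟩ := rank_rearr _ c₁ B₁ rfl hN1 e1 e2
    obtain ⟨g1, g2⟩ := rank_rearr _ c₂ B₂ rfl hN2 e3 e4
    rw [← hadd, rank_phi_add, rank_phi_add] at hphi
    exact ⟨f2 (by linarith), g2 (by linarith)⟩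
  obtain ⟨m, hm⟩ : ∃ m, m = Multiset.toFinsupp (rankM c₁ c₂) := ⟨_, rfl⟩
  have hlist : ∀ c' : Multiset (ℤ × ℤ), ∃ (n : ℕ) (v : Fin n → ℤ × ℤ),
      c' = (Finset.univ : Finset (Fin n)).val.map v := by
    intro c'
    refine ⟨c'.toList.length, fun i => c'.toList.get i, ?_⟩
    conv_lhs => rw [← Multiset.coe_toList c', ← List.ofFn_get c'.toList]
    rw [List.ofFn_eq_map]
    rfl
  have hcoeff := congrArg (MvPolynomial.coeff m) h
  rw [MvPolynomial.coeff_sum, MvPolynomial.coeff_zero, Finset.sum_eq_single c] at hcoeff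
  · rw [MvPolynomial.coeff_C_mul] at hcoeff
    rcases mul_eq_zero.1 hcoeff with h1 | h1
    · exact hac h1
    · obtain ⟨n, v, hv⟩ := hlist c
      obtain ⟨σ, hσ⟩ := rank_expand F v m
      rw [← hv] at hσ
      obtain ⟨t0, ht0⟩ : ∃ t0 : Finset (Fin n), t0 = Finset.univ.filter fun i => ¬ RankIn c (v i) :=
        ⟨_, rfl⟩
      have ht1 : t0.val.map v = c₁ := by
        rw [hc₁, hv, Multiset.filter_map, ht0]
        simp only [← hv]
        rfl
      have ht2 : t0ᶜ.val.map v = c₂ := by
        rw [hc₂, hv, Multiset.filter_map, ht0, Finset.compl_filter]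
        simp only [← hv, not_not]
        rfl
      rw [hσ, Finset.sum_eq_single t0] at h1
      · rw [ht1, ht2, ← hm, if_pos rfl] at h1
        rcases Int.units_eq_one_or (σ t0) with h2 | h2 <;> rw [h2] at h1 <;> simp at h1
      · intro t _ hne
        rw [if_neg]
        intro h2
        rw [hm] at h2
        have h3 := Multiset.toFinsupp.injective h2
        have h4 : t.val.map v + tᶜ.val.map v = c := by
          rw [hv, ← Multiset.map_add]
          congr 1
          rw [← Finset.disjUnion_val, Finset.disjUnion_eq_union]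
          · rw [Finset.union_compl]
          · exact disjoint_compl_right
        obtain ⟨h5, h6⟩ := key _ _ (by rw [h4]) h3
        apply hne
        ext i
        rw [ht0, Finset.mem_filter]
        constructor
        · intro hi
          refine ⟨Finset.mem_univ _, ?_⟩
          have h7 : v i ∈ c₁ := by
            rw [← h5]
            exact Multiset.mem_map_of_mem _ hi
          rw [hc₁, Multiset.mem_filter] at h7
          exact h7.2
        · rintro ⟨-, hi⟩
          by_contra hit
          have h7 : v i ∈ c₂ := by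
            rw [← h6]
            exact Multiset.mem_map_of_mem _ (Finset.mem_compl.2 hit)
          rw [hc₂, Multiset.mem_filter] at h7
          exact hi h7.2
      · intro h2
        exact absurd (Finset.mem_univ _) h2
  · intro c' hc' hne
    rw [MvPolynomial.coeff_C_mul]
    by_cases ha' : a c' = 0
    · rw [ha', zero_mul]
    · have hphi := hmin c' (Finset.mem_filter.2 ⟨hc', ha'⟩)
      obtain ⟨n, v, hv⟩ := hlist c'
      obtain ⟨σ, hσ⟩ := rank_expand F v m
      rw [hv, hσ, Finset.sum_eq_zero, mul_zero]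
      intro t _
      rw [if_neg]
      intro h2
      rw [hm] at h2
      have h3 := Multiset.toFinsupp.injective h2
      have h4 : t.val.map v + tᶜ.val.map v = c' := by
        rw [hv, ← Multiset.map_add]
        congr 1
        rw [← Finset.disjUnion_val, Finset.disjUnion_eq_union]
        · rw [Finset.union_compl]
        · exact disjoint_compl_right
      obtain ⟨h5, h6⟩ := key _ _ (by rw [h4]; exact hphi) h3
      apply hne
      rw [← h4, h5, h6, hadd]
  · intro h1
    exact absurd hcs h1

end Pool.Agent.Smt
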