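import Pool.Agent.Smt.Arcs
import Pool.Agent.Smt.A3

/-!
# Exchange of the tails of two blocks at a middle letter  (module Swap)

`A3` (times `E.val`): the difference is `n(x i) (T T - T T)` + four products of three traces +
element of `KS (wt - 1)`. The diagrams `bl (P₁++Q₁) + bl (P₂++Q₂) + nm i + E`, ... and
`bl (P₁++Q₁) + bl (P₂++[i]) + bl (i::Q₂) + E`, ... have the same content, the same `wt`, and
`ta` smaller by 2 (`tau_append`), so their values are in `LtS`.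
-/

set_option autoImplicit false
set_option linter.unusedSectionVars false

namespace Pool.Agent.Smt

variable {k A : Type*} [CommRing k] [NonAssocRing A] [Module k A] [IsScalarTower k A A]
  [SMulCommClass k A A] (Q : QA k A) (x : ℤ → A)

/-- a diagram of the same content and span with fewer middle letters -/
private theorem Swap_ta {D D' : Dg} (h : D'.Ok) (h1 : D'.ct = D.ct) (h2 : D'.wt = D.wt)
    (h3 : D'.ta < D.ta) : D'.val Q x ∈ LtS Q x D :=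
  mem_LtS Q x h ⟨h1, Or.inr ⟨h2, Or.inl h3⟩⟩

theorem swap_local (P₁ P₂ Q₁ Q₂ : List ℤ) (i : ℤ) (E : Dg) (h1 : P₁ ≠ []) (h2 : P₂ ≠ [])
    (h3 : Q₁ ≠ []) (h4 : Q₂ ≠ [])
    (hD : (Dg.bl (P₁ ++ i :: Q₁) + Dg.bl (P₂ ++ i :: Q₂) + E).Ok) :
    (Dg.bl (P₁ ++ i :: Q₂) + Dg.bl (P₂ ++ i :: Q₁) + E).Ok ∧
    (Dg.bl (P₁ ++ i :: Q₁) + Dg.bl (P₂ ++ i :: Q₂) + E).val Q x
      - (Dg.bl (P₁ ++ i :: Q₂) + Dg.bl (P₂ ++ i :: Q₁) + E).val Q x ∈
      LtS Q x (Dg.bl (P₁ ++ i :: Q₁) + Dg.bl (P₂ ++ i :: Q₂) + E) := by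
  have hE : E.Ok := (Dg.ok_add.1 hD).2
  have hA : Inc (P₁ ++ i :: Q₁) :=
    ((Dg.ok_add.1 (Dg.ok_add.1 hD).1).1 _ (by simp)).2
  have hB : Inc (P₂ ++ i :: Q₂) :=
    ((Dg.ok_add.1 (Dg.ok_add.1 hD).1).2 _ (by simp)).2
  obtain ⟨i1, hA', a1⟩ := inc_append.1 hA
  obtain ⟨j3, i3⟩ := inc_cons.1 hA'
  obtain ⟨i2, hB', a2⟩ := inc_append.1 hB
  obtain ⟨j4, i4⟩ := inc_cons.1 hB'
  have j1 : ∀ j ∈ P₁, j < i := fun j hj => a1 j hj i (by simp)
  have j2 : ∀ j ∈ P₂, j < i := fun j hj => a2 j hj i (by simp)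
  -- increasing words
  have inc3 : ∀ {P R : List ℤ}, Inc P → Inc R → (∀ j ∈ P, j < i) → (∀ j ∈ R, i < j) →
      Inc (P ++ i :: R) := by
    intro P R hP hR hj hj'
    refine inc_append.2 ⟨hP, inc_cons.2 ⟨hj', hR⟩, ?_⟩
    intro a ha b hb
    rcases List.mem_cons.1 hb with rfl | hb
    · exact hj a ha
    · exact (hj a ha).trans (hj' b hb)
  have inc2 : ∀ {P R : List ℤ}, Inc P → Inc R → (∀ j ∈ P, j < i) → (∀ j ∈ R, i < j) →
      Inc (P ++ R) := by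
    intro P R hP hR hj hj'
    exact inc_append.2 ⟨hP, hR, fun a ha b hb => (hj a ha).trans (hj' b hb)⟩
  have incl : ∀ {P : List ℤ}, Inc P → (∀ j ∈ P, j < i) → Inc (P ++ [i]) := by
    intro P hP hj
    refine inc_append.2 ⟨hP, inc_single i, fun a ha b hb => ?_⟩
    rw [List.mem_singleton.1 hb]
    exact hj a ha
  have incf : ∀ {R : List ℤ}, Inc R → (∀ j ∈ R, i < j) → Inc (i :: R) := by
    intro R hR hj
    exact inc_cons.2 ⟨hj, hR⟩
  -- the numbers of middle letters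
  have t3 : ∀ {P R : List ℤ}, P ≠ [] → tau (P ++ i :: R) = (P.length - 1) + R.length := by
    intro P R hP
    rw [tau_append hP (by simp)]
    simp
  have t2 : ∀ {P R : List ℤ}, P ≠ [] → R ≠ [] → tau (P ++ R) = (P.length - 1) + (R.length - 1) :=
    fun hP hR => tau_append hP hR
  have tf : ∀ {R : List ℤ}, R ≠ [] → tau (i :: R) = R.length - 1 := by
    intro R hR
    have := tau_append (P := [i]) (by simp) hR
    simpa using this
  have tl : ∀ {P : List ℤ}, P ≠ [] → tau (P ++ [i]) = P.length - 1 := by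
    intro P hP
    have := tau_append (Q := [i]) hP (by simp)
    simpa using this
  have p1 : 0 < P₁.length := List.length_pos_iff.2 h1
  have p2 : 0 < P₂.length := List.length_pos_iff.2 h2
  have p3 : 0 < Q₁.length := List.length_pos_iff.2 h3
  have p4 : 0 < Q₂.length := List.length_pos_iff.2 h4
  set D : Dg := Dg.bl (P₁ ++ i :: Q₁) + Dg.bl (P₂ ++ i :: Q₂) + E with hDdef
  have hct : D.ct = (P₁ : Multiset ℤ) + (P₂ : Multiset ℤ) + (Q₁ : Multiset ℤ) +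
      (Q₂ : Multiset ℤ) + {i} + {i} + E.ct := by
    rw [hDdef]
    simp only [Dg.ct_add, Dg.ct_bl, ← Multiset.coe_add, ← Multiset.cons_coe,
      ← Multiset.singleton_add]
    abel
  have hwt : D.wt = la Q₁ + la Q₂ - hd P₁ - hd P₂ + E.wt := by
    rw [hDdef]
    simp only [Dg.wt_add, Dg.wt_bl]
    rw [la_append (by simp), la_append (by simp), la_cons i h3, la_cons i h4, hd_append h1,
      hd_append h2]
    ring
  have hta : D.ta = (P₁.length - 1) + Q₁.length + ((P₂.length - 1) + Q₂.length) + E.ta := by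
    rw [hDdef]
    simp only [Dg.ta_add, Dg.ta_bl]
    rw [t3 h1, t3 h2]
  refine ⟨?_, ?_⟩
  · exact Dg.ok_add.2 ⟨Dg.ok_add.2 ⟨Dg.ok_bl (by simp) (inc3 i1 i4 j1 j4),
      Dg.ok_bl (by simp) (inc3 i2 i3 j2 j3)⟩, hE⟩
  -- the diagrams with the norm of `x i`
  have n1 : ∀ {R R' : List ℤ}, R ≠ [] → R' ≠ [] → Inc R → Inc R' → (∀ j ∈ R, i < j) →
      (∀ j ∈ R', i < j) → (R : Multiset ℤ) + (R' : Multiset ℤ) = (Q₁ : Multiset ℤ) + Q₂ →
      la R + la R' = la Q₁ + la Q₂ → R.length + R'.length = Q₁.length + Q₂.length →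
      (Dg.bl (P₁ ++ R) + Dg.bl (P₂ ++ R') + Dg.nm i + E).val Q x ∈ LtS Q x D := by
    intro R R' g1 g2 g3 g4 g5 g6 g7 g8 g9
    have q1 : 0 < R.length := List.length_pos_iff.2 g1
    have q2 : 0 < R'.length := List.length_pos_iff.2 g2
    apply Swap_ta
    · exact Dg.ok_add.2 ⟨Dg.ok_add.2 ⟨Dg.ok_add.2 ⟨Dg.ok_bl (by simp [h1]) (inc2 i1 g3 j1 g5),
        Dg.ok_bl (by simp [h2]) (inc2 i2 g4 j2 g6)⟩, Dg.ok_nm i⟩, hE⟩
    · rw [hct]
      simp only [Dg.ct_add, Dg.ct_bl, Dg.ct_nm, ← Multiset.coe_add]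
      have e1 : (P₁ : Multiset ℤ) + R + (P₂ + R') + ({i} + {i}) + E.ct =
          (P₁ : Multiset ℤ) + P₂ + (R + R') + {i} + {i} + E.ct := by abel
      rw [e1, g7]
      abel
    · rw [hwt]
      simp only [Dg.wt_add, Dg.wt_bl, Dg.wt_nm]
      rw [la_append g1, la_append g2, hd_append h1, hd_append h2]
      linarith
    · rw [hta]
      simp only [Dg.ta_add, Dg.ta_bl, Dg.ta_nm]
      rw [t2 h1 g1, t2 h2 g2]
      omega
  -- the diagrams with three blocks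
  have n2 : ∀ {P P' R R' : List ℤ}, P ≠ [] → P' ≠ [] → R ≠ [] → R' ≠ [] → Inc P → Inc P' →
      Inc R → Inc R' → (∀ j ∈ P, j < i) → (∀ j ∈ P', j < i) → (∀ j ∈ R, i < j) →
      (∀ j ∈ R', i < j) → (P : Multiset ℤ) + (P' : Multiset ℤ) = (P₁ : Multiset ℤ) + P₂ →
      (R : Multiset ℤ) + (R' : Multiset ℤ) = (Q₁ : Multiset ℤ) + Q₂ →
      hd P + hd P' = hd P₁ + hd P₂ → la R + la R' = la Q₁ + la Q₂ →
      P.length + P'.length = P₁.length + P₂.length →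
      R.length + R'.length = Q₁.length + Q₂.length →
      (Dg.bl (P ++ R) + Dg.bl (P' ++ [i]) + Dg.bl (i :: R') + E).val Q x ∈ LtS Q x D := by
    intro P P' R R' g1 g2 g3 g4 g5 g6 g7 g8 g9 g10 g11 g12 g13 g14 g15 g16 g17 g18
    have q1 : 0 < P.length := List.length_pos_iff.2 g1
    have q2 : 0 < P'.length := List.length_pos_iff.2 g2
    have q3 : 0 < R.length := List.length_pos_iff.2 g3
    have q4 : 0 < R'.length := List.length_pos_iff.2 g4
    apply Swap_ta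
    · exact Dg.ok_add.2 ⟨Dg.ok_add.2 ⟨Dg.ok_add.2 ⟨Dg.ok_bl (by simp [g1]) (inc2 g5 g7 g9 g11),
        Dg.ok_bl (by simp) (incl g6 g10)⟩, Dg.ok_bl (by simp) (incf g8 g12)⟩, hE⟩
    · rw [hct]
      simp only [Dg.ct_add, Dg.ct_bl, ← Multiset.coe_add, ← Multiset.cons_coe,
        ← Multiset.singleton_add, Multiset.coe_nil, add_zero]
      have e1 : (P : Multiset ℤ) + R + (P' + {i}) + ({i} + R') + E.ct =
          ((P : Multiset ℤ) + P') + (R + R') + {i} + {i} + E.ct := by abel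
      rw [e1, g13, g14]
      abel
    · rw [hwt]
      simp only [Dg.wt_add, Dg.wt_bl]
      rw [la_append g3, la_append_single, la_cons i g4, hd_append g1, hd_append g2, hd_cons]
      linarith
    · rw [hta]
      simp only [Dg.ta_add, Dg.ta_bl]
      rw [t2 g1 g3, tl g2, tf g4]
      omega
  have m1 := n1 h3 h4 i3 i4 j3 j4 rfl rfl rfl
  have m2 := n1 h4 h3 i4 i3 j4 j3 (add_comm _ _) (add_comm _ _) (add_comm _ _)
  have m3 := n2 h1 h2 h3 h4 i1 i2 i3 i4 j1 j2 j3 j4 rfl rfl rfl rfl rfl rfl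
  have m4 := n2 h1 h2 h4 h3 i1 i2 i4 i3 j1 j2 j4 j3 rfl (add_comm _ _) rfl (add_comm _ _) rfl
    (add_comm _ _)
  have m5 := n2 h2 h1 h3 h4 i2 i1 i3 i4 j2 j1 j3 j4 (add_comm _ _) rfl (add_comm _ _) rfl
    (add_comm _ _) rfl
  have m6 := n2 h2 h1 h4 h3 i2 i1 i4 i3 j2 j1 j4 j3 (add_comm _ _) (add_comm _ _) (add_comm _ _)
    (add_comm _ _) (add_comm _ _) (add_comm _ _)
  simp only [val_add, val_bl, val_nm] at m1 m2 m3 m4 m5 m6
  have m7 := KS_mul Q x (A3 Q x P₁ P₂ Q₁ Q₂ i h1 h2 h3 h4 i1 i2 i3 i4 j1 j2 j3 j4)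
    (mem_KS Q x hE (le_refl E.wt))
  rw [← hct] at m7
  have m8 := KS_le_LtS Q x D (by rw [hwt]; linarith) m7
  have m9 := add_mem m8 (add_mem (sub_mem m1 m2) (add_mem (sub_mem m3 m4) (sub_mem m6 m5)))
  have e2 : D.val Q x - (Dg.bl (P₁ ++ i :: Q₂) + Dg.bl (P₂ ++ i :: Q₁) + E).val Q x =
      (Q.T x (P₁ ++ i :: Q₁) * Q.T x (P₂ ++ i :: Q₂) -
          Q.T x (P₁ ++ i :: Q₂) * Q.T x (P₂ ++ i :: Q₁)) * E.val Q x := by
    rw [hDdef]
    simp only [val_add, val_bl]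
    ring
  rw [e2]
  refine (congrArg (fun z => z ∈ LtS Q x D) ?_).mp m9
  ring

end Pool.Agent.Smt
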