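import Pool.Agent.Smt.StrA
import Pool.Agent.Smt.Swap
import Pool.Agent.Smt.Conn

/-!
# The standard diagrams span  (module Span)

`relink`: from `conn`, `swap_local`; along the path `ct, wt, ta, ph` are constant
(`ct_eq_of_cf`, ...), so `LtS Q x D` is the same for all diagrams of the path.

`span_std`: well-founded induction for `Lt` with fixed content `d`: measure
`(wt.toNat, ta, (B - ph).toNat)` lexicographic, where `B` is a bound for `ph` on all `Ok` diagrams of
content `d` (`card_cf_le`, `cf_bound`). If `D.cf` has a 3-nest: `straighten`. If not: let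
`D₀ = choice D.cf D.m` (`Classical.epsilon_spec`); `D₀.Ok`, `D₀.cf = D.cf`, `D₀.m = D.m`, so `D₀.Rep`,
and `D.val - D₀.val ∈ LtS D` by `relink`; the elements of `LtS D` are in the span by induction.
-/

set_option autoImplicit false
set_option linter.unusedSectionVars false

namespace Pool.Agent.Smt

variable {k A : Type*} [CommRing k] [NonAssocRing A] [Module k A] [IsScalarTower k A A]
  [SMulCommClass k A A] (Q : QA k A) (x : ℤ → A)

omit [IsScalarTower k A A] [SMulCommClass k A A] in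
private theorem Span_LtS {D D' : Dg} (h1 : D'.ct = D.ct) (h2 : D'.wt = D.wt) (h3 : D'.ta = D.ta)
    (h4 : D'.ph = D.ph) : LtS Q x D' = LtS Q x D := by
  unfold LtS Dg.Lt
  rw [h1, h2, h3, h4]

theorem relink (D D' : Dg) (hD : D.Ok) (hD' : D'.Ok) (h : D.cf = D'.cf) (hm : D.m = D'.m) :
    D.val Q x - D'.val Q x ∈ LtS Q x D := by
  have key : ∀ D'', Relation.ReflTransGen Sw D D'' → D''.Ok ∧ D''.cf = D.cf ∧ D''.m = D.m ∧
      D.val Q x - D''.val Q x ∈ LtS Q x D := by
    intro D'' hp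
    induction hp with
    | refl => exact ⟨hD, rfl, rfl, by rw [sub_self]; exact zero_mem _⟩
    | @tail E F _ hs ih =>
      obtain ⟨h1, h2, h3, h4⟩ := ih
      have h5 := hs.ok h1
      obtain ⟨h6, h7⟩ := hs.cf_eq
      refine ⟨h5, h6.trans h2, h7.trans h3, ?_⟩
      have h8 : E.val Q x - F.val Q x ∈ LtS Q x E := by
        obtain ⟨P₁, P₂, Q₁, Q₂, i, G, g1, g2, g3, g4, rfl, rfl⟩ := hs
        exact (swap_local Q x P₁ P₂ Q₁ Q₂ i G g1 g2 g3 g4 h1).2
      rw [Span_LtS Q x (ct_eq_of_cf h1 hD h2 h3) (wt_eq_of_cf h1 hD h2) (ta_eq_of_cf h1 hD h2)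
        (congrArg phi h2)] at h8
      have h9 : D.val Q x - F.val Q x = (D.val Q x - E.val Q x) + (E.val Q x - F.val Q x) := by
        ring
      rw [h9]
      exact add_mem h4 h8
  exact (key D' (conn hD hD' h hm)).2.2.2

/-- the letters of a content are bounded -/
private theorem Span_letters (d : Multiset ℤ) : ∃ N : ℤ, 0 ≤ N ∧ ∀ i ∈ d, -N ≤ i ∧ i ≤ N := by
  induction d using Multiset.induction_on with
  | empty => exact ⟨0, le_rfl, fun i hi => absurd hi (Multiset.notMem_zero i)⟩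
  | cons a d ih =>
    obtain ⟨N, h0, h1⟩ := ih
    have ha1 := le_abs_self a
    have ha2 := neg_abs_le a
    have ha3 := abs_nonneg a
    refine ⟨N + |a|, by linarith, fun i hi => ?_⟩
    rcases Multiset.mem_cons.1 hi with rfl | hi
    · constructor <;> linarith
    · obtain ⟨h2, h3⟩ := h1 i hi
      constructor <;> linarith

/-- `ph` is bounded on the diagrams of a given content -/
private theorem Span_ph (d : Multiset ℤ) : ∃ B : ℤ, ∀ D : Dg, D.Ok → D.ct = d → D.ph ≤ B := by
  obtain ⟨N, h0, h1⟩ := Span_letters d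
  refine ⟨(Multiset.card d : ℤ) * (4 * N + 3) ^ 2, fun D hD hd => ?_⟩
  have h2 : ∀ a ∈ D.cf.map (fun e : ℤ × ℤ => e.1 * e.2), a ≤ (4 * N + 3) ^ 2 := by
    intro a ha
    obtain ⟨e, he, rfl⟩ := Multiset.mem_map.1 ha
    obtain ⟨g1, g2, g3, g4⟩ := cf_bound hD (m := -N) (M := N)
      (fun i hi => h1 i (by rw [← hd]; exact hi)) he
    have g5 : |e.1| ≤ 4 * N + 3 := abs_le.2 ⟨by linarith, g2⟩
    have g6 : |e.2| ≤ 4 * N + 3 := abs_le.2 ⟨by linarith, g4⟩
    calc e.1 * e.2 ≤ |e.1 * e.2| := le_abs_self _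
      _ = |e.1| * |e.2| := abs_mul _ _
      _ ≤ (4 * N + 3) * (4 * N + 3) :=
          mul_le_mul g5 g6 (abs_nonneg _) (by linarith)
      _ = (4 * N + 3) ^ 2 := by ring
  have h3 := Multiset.sum_le_card_nsmul _ _ h2
  rw [Multiset.card_map, nsmul_eq_mul] at h3
  have h4 : (Multiset.card D.cf : ℤ) ≤ Multiset.card d := by
    have := card_cf_le hD
    rw [hd] at this
    exact_mod_cast this
  calc D.ph ≤ (Multiset.card D.cf : ℤ) * (4 * N + 3) ^ 2 := h3
    _ ≤ _ := mul_le_mul_of_nonneg_right h4 (sq_nonneg _)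

theorem span_std (D : Dg) (hD : D.Ok) :
    D.val Q x ∈ AddSubgroup.closure {v | ∃ D' : Dg, D'.Rep ∧ D'.ct = D.ct ∧ D'.val Q x = v} := by
  obtain ⟨B, hB⟩ := Span_ph D.ct
  have key : ∀ (w t p : ℕ) (E : Dg), E.Ok → E.ct = D.ct → E.wt.toNat = w → E.ta = t →
      (B - E.ph).toNat = p →
      E.val Q x ∈ AddSubgroup.closure {v | ∃ D' : Dg, D'.Rep ∧ D'.ct = D.ct ∧
        D'.val Q x = v} := by
    intro w
    induction w using Nat.strong_induction_on with
    | _ w ihw =>
    intro t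
    induction t using Nat.strong_induction_on with
    | _ t iht =>
    intro p
    induction p using Nat.strong_induction_on with
    | _ p ihp =>
    intro E hE hct hw ht hp
    have hlt : LtS Q x E ≤ AddSubgroup.closure {v | ∃ D' : Dg, D'.Rep ∧ D'.ct = D.ct ∧
        D'.val Q x = v} := by
      unfold LtS
      rw [AddSubgroup.closure_le]
      rintro v ⟨E', hE', ⟨h1, h2⟩, rfl⟩
      have h3 := Dg.wt_nonneg hE
      have h4 := Dg.wt_nonneg hE'
      have h5 := hB E' hE' (h1.trans hct)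
      rcases h2 with h2 | ⟨h2, h6 | ⟨h6, h7⟩⟩
      · exact ihw E'.wt.toNat (by omega) E'.ta (B - E'.ph).toNat E' hE' (h1.trans hct) rfl rfl rfl
      · exact iht E'.ta (by omega) (B - E'.ph).toNat E' hE' (h1.trans hct) (by rw [h2]; exact hw)
          rfl rfl
      · exact ihp (B - E'.ph).toNat (by omega) E' hE' (h1.trans hct) (by rw [h2]; exact hw)
          (h6.trans ht) rfl
    by_cases hn : NoNest E.cf
    · have hex : ∃ E' : Dg, E'.Ok ∧ E'.cf = E.cf ∧ E'.m = E.m := ⟨E, hE, rfl, rfl⟩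
      obtain ⟨h1, h2, h3⟩ : (Dg.choice E.cf E.m).Ok ∧ (Dg.choice E.cf E.m).cf = E.cf ∧
          (Dg.choice E.cf E.m).m = E.m := Classical.epsilon_spec hex
      have h4 := relink Q x E (Dg.choice E.cf E.m) hE h1 h2.symm h3.symm
      have h5 : (Dg.choice E.cf E.m).Rep := ⟨h1, by rw [h2]; exact hn, by rw [h2, h3]⟩
      have h6 : (Dg.choice E.cf E.m).ct = D.ct := (ct_eq_of_cf h1 hE h2 h3).trans hct
      have h7 : E.val Q x = (E.val Q x - (Dg.choice E.cf E.m).val Q x) +
          (Dg.choice E.cf E.m).val Q x := by ring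
      rw [h7]
      exact add_mem (hlt h4) (AddSubgroup.subset_closure ⟨_, h5, h6, rfl⟩)
    · exact hlt (straighten Q x E hE hn)
  exact key _ _ _ D hD rfl rfl rfl rfl

end Pool.Agent.Smt
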