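import Mathlib
import Pool.Agent.H.MP_41922c_al.Stmt

/-!
# Identities with involution: definitions

`F{X, X*}` is the free nonassociative algebra on the letters `inl i` (= `x_i`) and `inr i`
(= `x_i*`), with the involution exchanging `x_i` and `x_i*` and reversing products.
-/

set_option autoImplicit false

namespace Pool.Agent.Smt

open FreeNonUnitalNonAssocAlgebra Pool.Agent.H.MP_41922c_al

/-- the free nonassociative algebra with involution on the variables `x_0, x_1, ...` -/
abbrev FS (F : Type*) [CommRing F] := FreeNonUnitalNonAssocAlgebra F (ℕ ⊕ ℕ)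

section

variable (F : Type*) [CommRing F]

/-- the involution of `F{X, X*}` as a homomorphism to the opposite algebra -/
noncomputable def invHom : FS F →ₙₐ[F] (FS F)ᵐᵒᵖ :=
  lift F (fun s : ℕ ⊕ ℕ => MulOpposite.op (of F s.swap))

variable {F}

/-- the involution of `F{X, X*}` -/
noncomputable def inv (f : FS F) : FS F := (invHom F f).unop

variable (F)

/-- `F`-subspaces of `F{X, X*}` that are two-sided ideals, stable under the involution and under all
endomorphisms commuting with the involution (`x_i ↦ v i`, `x_i* ↦ (v i)*`). -/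
structure IsStarTIdeal (I : Submodule F (FS F)) : Prop where
  mul_left : ∀ a f : FS F, f ∈ I → a * f ∈ I
  mul_right : ∀ a f : FS F, f ∈ I → f * a ∈ I
  inv : ∀ f ∈ I, inv f ∈ I
  map : ∀ v : ℕ → FS F, ∀ f ∈ I, lift F (Sum.elim v (fun i => Smt.inv (v i))) f ∈ I

/-- the smallest T-ideal with involution containing `S` -/
noncomputable def starTIdeal (S : Set (FS F)) : Submodule F (FS F) :=
  sInf {I | IsStarTIdeal F I ∧ S ⊆ I}

/-- The six identities: the alternative laws; `x + x*` and `x x*` commute and associate with
everything. -/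
def SS : Set (FS F) :=
  let x : ℕ → FS F := fun i => of F (Sum.inl i)
  let x' : ℕ → FS F := fun i => of F (Sum.inr i)
  {associator (x 0) (x 0) (x 1), associator (x 1) (x 0) (x 0),
    com (x 0 + x' 0) (x 1), associator (x 0 + x' 0) (x 1) (x 2),
    com (x 0 * x' 0) (x 1), associator (x 0 * x' 0) (x 1) (x 2)}

end

/-- the standard involution of the octonion algebra `Q + Q l`: `(p, q) ↦ (p*, -q)` -/
def cj {K : Type*} [CommRing K] {ν β γ : K} (x : CD K ν β γ) : CD K ν β γ := (star x.1, -x.2)

/-- `f` is an identity with involution of the octonion algebra: it is killed by every homomorphism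
`φ` of `F{X, X*}` to it with `φ(x_i*) = φ(x_i)*` for all `i`. -/
def IsStarIdentity {F : Type*} [CommRing F] (ν β γ : F) (f : FS F) : Prop :=
  ∀ φ : FS F →ₙₐ[F] CD F ν β γ, (∀ i, φ (of F (Sum.inr i)) = cj (φ (of F (Sum.inl i)))) → φ f = 0

end Pool.Agent.Smt
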