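import Pool.Agent.Smt.StarDefs
import Pool.Agent.Smt.Oc
import Pool.Agent.H.MP_41922c_al.Transfer

/-!
# Star identities of one octonion algebra hold in the split octonions over all rings  (module StarTr)

Same as `identity_all` of `Pool.Agent.H.MP_41922c_al.Generic` with the involution: (1) `CD` and
`Oct` are isomorphic (`CD.toOct`), `cj` ↔ `Oct.bar`; (2) base change to the generic point of
`Oct (MvPolynomial (ℕ × Fin 8) F)` (`eq_zero_of_map`, `mk8`), then to every `Oct K ν β γ`, `K` a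
commutative `F`-algebra, in particular `K` = the algebraic closure `L` of `F`; (3) `exists_split`
(`splitA`, `splitB`, `splitC` commute with `Oct.bar`: `ext8 <;> simp <;> ring`) gives
`Oct L 0 1 1`; (4) `Oct L 0 1 1 ≅ Oc L`: `(a + b w) + (c + d w) j ↦ m = [[a + b, c + d], [c, a]]`
(`w ↦ E₁₁`, `j ↦ E₁₂ + E₂₁`), the second component ↦ `α = [[a₁, a₂], [c₁, c₂]]` by the same formula,
`Oct.bar ↔ star`; (5) vanishing on `Oc L` for the infinite field `L ⊇ F` implies vanishing on
`Oc K` for every commutative `L`-algebra `K`, but we need every commutative `F`-algebra `K`: the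
value at the generic point of `Oc (MvPolynomial (ℕ × Fin 8) F)` maps to 0 in
`Oc (MvPolynomial (ℕ × Fin 8) L)` (injective coefficients), so it is 0, and it specialises to `K`.
-/

set_option autoImplicit false

namespace Pool.Agent.Smt

open FreeNonUnitalNonAssocAlgebra Pool.Agent.H.MP_41922c_al

/-- `f` vanishes under all substitutions compatible with the involution `bar` -/
private def StarTr_I (F : Type*) [CommSemiring F] (A : Type*) [NonUnitalNonAssocRing A] [Module F A]
    [IsScalarTower F A A] [SMulCommClass F A A] (bar : A → A)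
    (f : FreeNonUnitalNonAssocAlgebra F (ℕ ⊕ ℕ)) : Prop :=
  ∀ v : ℕ → A, lift F (Sum.elim v (fun i => bar (v i))) f = 0

section general

variable {F A B : Type*} [CommSemiring F] [NonUnitalNonAssocRing A] [Module F A]
  [IsScalarTower F A A] [SMulCommClass F A A] [NonUnitalNonAssocRing B] [Module F B]
  [IsScalarTower F B B] [SMulCommClass F B B] {bA : A → A} {bB : B → B}
  {f : FreeNonUnitalNonAssocAlgebra F (ℕ ⊕ ℕ)}

private theorem StarTr_lift (g : A →ₙₐ[F] B) (hb : ∀ x, g (bA x) = bB (g x)) (v : ℕ → A) :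
    g (lift F (Sum.elim v (fun i => bA (v i))) f) =
      lift F (Sum.elim (fun i => g (v i)) (fun i => bB (g (v i)))) f := by
  rw [← NonUnitalAlgHom.comp_apply]
  congr 1
  refine hom_ext _ (fun i => ?_)
  rw [NonUnitalAlgHom.comp_apply, lift_of_apply, lift_of_apply]
  rcases i with i | i
  · rfl
  · exact hb _

private theorem StarTr_surj (h : StarTr_I F A bA f) (g : A →ₙₐ[F] B)
    (hg : Function.Surjective g) (hb : ∀ x, g (bA x) = bB (g x)) : StarTr_I F B bB f := by
  intro v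
  choose s hs using hg
  have h1 := StarTr_lift (f := f) g hb (fun i => s (v i))
  rw [h, map_zero] at h1
  simp only [hs] at h1
  exact h1.symm

private theorem StarTr_inj (h : StarTr_I F B bB f) (g : A →ₙₐ[F] B)
    (hg : Function.Injective g) (hb : ∀ x, g (bA x) = bB (g x)) : StarTr_I F A bA f := by
  intro v
  refine hg ?_
  rw [StarTr_lift g hb, map_zero]
  exact h _

end general

section oct

variable {F : Type*} [Field F]

private theorem StarTr_map_bar {K K' : Type*} [CommRing K] [CommRing K'] [Algebra F K]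
    [Algebra F K'] (g : K →ₐ[F] K') {ν β γ : K} {ν' β' γ' : K'} (h1 : g ν = ν') (h2 : g β = β')
    (h3 : g γ = γ') (x : Oct K ν β γ) :
    Oct.map g h1 h2 h3 x.bar = (Oct.map g h1 h2 h3 x).bar := by
  rw [Oct.map_apply, Oct.map_apply]
  refine Oct.ext8 ?_ ?_ ?_ ?_ ?_ ?_ ?_ ?_ <;> simp

/-- extension of scalars for the octonions of the Cayley-Dickson process -/
private theorem StarTr_base [Infinite F] {ν β γ : F}
    {f : FreeNonUnitalNonAssocAlgebra F (ℕ ⊕ ℕ)}
    (hf : StarTr_I F (Oct F ν β γ) Oct.bar f) (K : Type*) [CommRing K] [Algebra F K]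
    {ν' β' γ' : K} (h1 : algebraMap F K ν = ν') (h2 : algebraMap F K β = β')
    (h3 : algebraMap F K γ = γ') : StarTr_I F (Oct K ν' β' γ') Oct.bar f := by
  let x : ℕ → Oct (MvPolynomial (ℕ × Fin 8) F) (MvPolynomial.C ν) (MvPolynomial.C β)
    (MvPolynomial.C γ) := fun i => Oct.mk8 (fun j => MvPolynomial.X (i, j))
  have hG : lift F (Sum.elim x (fun i => (x i).bar)) f = 0 := by
    refine Oct.eq_zero_of_map _ fun ρ => ?_
    rw [StarTr_lift (bA := Oct.bar) (bB := Oct.bar) _ (StarTr_map_bar _ _ _ _)]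
    exact hf _
  intro v
  let g : MvPolynomial (ℕ × Fin 8) F →ₐ[F] K := MvPolynomial.aeval (fun p => (v p.1).coord p.2)
  have e : ∀ i, Oct.map g (by simpa [g] using h1) (by simpa [g] using h2)
      (by simpa [g] using h3) (x i) = v i := by
    intro i
    rw [Oct.map_apply]
    refine Oct.ext8 ?_ ?_ ?_ ?_ ?_ ?_ ?_ ?_ <;> simp [x, Oct.mk8, g, Oct.coord]
  have h4 := StarTr_lift (f := f) (bA := Oct.bar) (bB := Oct.bar)
    (Oct.map g (by simpa [g] using h1) (by simpa [g] using h2) (by simpa [g] using h3))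
    (StarTr_map_bar _ _ _ _) x
  rw [hG, map_zero] at h4
  simp only [e] at h4
  exact h4.symm

end oct

section split

variable {F L : Type*} [Field F] [Field L] [Algebra F L]

private theorem StarTr_A (r β γ : L) (x : Oct L (r - r ^ 2) β γ) :
    Oct.splitA F r β γ x.bar = (Oct.splitA F r β γ x).bar := by
  rw [Oct.splitA_apply, Oct.splitA_apply]
  refine Oct.ext8 ?_ ?_ ?_ ?_ ?_ ?_ ?_ ?_ <;> simp <;> ring

private theorem StarTr_B (β γ : L) (x : Oct L 0 β γ) :
    Oct.splitB F β γ x.bar = (Oct.splitB F β γ x).bar := by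
  rw [Oct.splitB_apply, Oct.splitB_apply]
  refine Oct.ext8 ?_ ?_ ?_ ?_ ?_ ?_ ?_ ?_ <;> simp <;> ring

private theorem StarTr_C (γ : L) (x : Oct L 0 1 γ) :
    Oct.splitC F γ x.bar = (Oct.splitC F γ x).bar := by
  rw [Oct.splitC_apply, Oct.splitC_apply]
  refine Oct.ext8 ?_ ?_ ?_ ?_ ?_ ?_ ?_ ?_ <;> simp <;> ring

end split

section oc

variable {F : Type*} [CommRing F]

/-- `Oct K 0 1 1` is the algebra `Oc K` -/
private def StarTr_g (F : Type*) [CommRing F] (K : Type*) [CommRing K] [Algebra F K] :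
    Oct K 0 1 1 →ₙₐ[F] Oc K where
  toFun x := ⟨x.1.1.1 + x.1.1.2, x.1.2.1 + x.1.2.2, x.1.2.1, x.1.1.1,
    x.2.1.1 + x.2.1.2, x.2.2.1 + x.2.2.2, x.2.2.1, x.2.1.1⟩
  map_smul' k x := by ext <;> simp
  map_zero' := by ext <;> simp
  map_add' x y := by ext <;> simp <;> ring
  map_mul' x y := by ext <;> simp <;> ring

private theorem StarTr_g_apply {K : Type*} [CommRing K] [Algebra F K] (x : Oct K 0 1 1) :
    StarTr_g F K x = ⟨x.1.1.1 + x.1.1.2, x.1.2.1 + x.1.2.2, x.1.2.1, x.1.1.1,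
    x.2.1.1 + x.2.1.2, x.2.2.1 + x.2.2.2, x.2.2.1, x.2.1.1⟩ := rfl

private theorem StarTr_g_bar {K : Type*} [CommRing K] [Algebra F K] (x : Oct K 0 1 1) :
    StarTr_g F K x.bar = star (StarTr_g F K x) := by
  rw [StarTr_g_apply, StarTr_g_apply]
  ext <;> simp <;> ring

private theorem StarTr_g_surj {K : Type*} [CommRing K] [Algebra F K] :
    Function.Surjective (StarTr_g F K) := by
  intro y
  refine ⟨Oct.mk y.m₄ (y.m₁ - y.m₄) y.m₃ (y.m₂ - y.m₃) y.c₂ (y.a₁ - y.c₂) y.c₁ (y.a₂ - y.c₁), ?_⟩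
  rw [StarTr_g_apply]
  ext <;> simp

/-- functoriality -/
private def StarTr_m {K K' : Type*} [CommRing K] [CommRing K'] [Algebra F K] [Algebra F K']
    (g : K →ₐ[F] K') : Oc K →ₙₐ[F] Oc K' where
  toFun x := ⟨g x.m₁, g x.m₂, g x.m₃, g x.m₄, g x.a₁, g x.a₂, g x.c₁, g x.c₂⟩
  map_smul' k x := by ext <;> simp
  map_zero' := by ext <;> simp
  map_add' x y := by ext <;> simp
  map_mul' x y := by ext <;> simp

private theorem StarTr_m_apply {K K' : Type*} [CommRing K] [CommRing K'] [Algebra F K]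
    [Algebra F K'] (g : K →ₐ[F] K') (x : Oc K) :
    StarTr_m g x = ⟨g x.m₁, g x.m₂, g x.m₃, g x.m₄, g x.a₁, g x.a₂, g x.c₁, g x.c₂⟩ := rfl

private theorem StarTr_m_bar {K K' : Type*} [CommRing K] [CommRing K'] [Algebra F K]
    [Algebra F K'] (g : K →ₐ[F] K') (x : Oc K) :
    StarTr_m g (star x) = star (StarTr_m g x) := by
  rw [StarTr_m_apply, StarTr_m_apply]
  ext <;> simp

private theorem StarTr_m_inj {K K' : Type*} [CommRing K] [CommRing K'] [Algebra F K]
    [Algebra F K'] (g : K →ₐ[F] K') (hg : Function.Injective g) :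
    Function.Injective (StarTr_m g) := by
  intro x y hxy
  rw [StarTr_m_apply, StarTr_m_apply, Oc.mk.injEq] at hxy
  obtain ⟨e1, e2, e3, e4, e5, e6, e7, e8⟩ := hxy
  exact Oc.ext (hg e1) (hg e2) (hg e3) (hg e4) (hg e5) (hg e6) (hg e7) (hg e8)

end oc

/-- extension of scalars for the split octonions -/
private theorem StarTr_oc {F : Type*} [Field F] [Infinite F]
    {f : FreeNonUnitalNonAssocAlgebra F (ℕ ⊕ ℕ)} (hf : StarTr_I F (Oc F) star f) (K : Type*)
    [CommRing K] [Algebra F K] : StarTr_I F (Oc K) star f := by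
  let x : ℕ → Oc (MvPolynomial (ℕ × Fin 8) F) := fun i =>
    ⟨MvPolynomial.X (i, 0), MvPolynomial.X (i, 1), MvPolynomial.X (i, 2), MvPolynomial.X (i, 3),
      MvPolynomial.X (i, 4), MvPolynomial.X (i, 5), MvPolynomial.X (i, 6), MvPolynomial.X (i, 7)⟩
  have key : ∀ P : MvPolynomial (ℕ × Fin 8) F,
      (∀ ρ : ℕ × Fin 8 → F, MvPolynomial.aeval ρ P = 0) → P = 0 := by
    intro P hP
    refine MvPolynomial.funext fun ρ => ?_
    rw [map_zero, ← MvPolynomial.coe_aeval_eq_eval]
    exact hP ρ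
  have hG : lift F (Sum.elim x (fun i => star (x i))) f = 0 := by
    have h1 : ∀ ρ : ℕ × Fin 8 → F, StarTr_m (MvPolynomial.aeval ρ : _ →ₐ[F] F)
        (lift F (Sum.elim x (fun i => star (x i))) f) = 0 := by
      intro ρ
      rw [StarTr_lift (bA := star) (bB := star) _ (StarTr_m_bar _)]
      exact hf _
    refine Oc.ext ?_ ?_ ?_ ?_ ?_ ?_ ?_ ?_
    · exact key _ fun ρ => congrArg Oc.m₁ (h1 ρ)
    · exact key _ fun ρ => congrArg Oc.m₂ (h1 ρ)
    · exact key _ fun ρ => congrArg Oc.m₃ (h1 ρ)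
    · exact key _ fun ρ => congrArg Oc.m₄ (h1 ρ)
    · exact key _ fun ρ => congrArg Oc.a₁ (h1 ρ)
    · exact key _ fun ρ => congrArg Oc.a₂ (h1 ρ)
    · exact key _ fun ρ => congrArg Oc.c₁ (h1 ρ)
    · exact key _ fun ρ => congrArg Oc.c₂ (h1 ρ)
  intro v
  let co : ℕ × Fin 8 → K := fun p => (![(v p.1).m₁, (v p.1).m₂, (v p.1).m₃, (v p.1).m₄,
    (v p.1).a₁, (v p.1).a₂, (v p.1).c₁, (v p.1).c₂] : Fin 8 → K) p.2
  let g : MvPolynomial (ℕ × Fin 8) F →ₐ[F] K := MvPolynomial.aeval co
  have e : ∀ i, StarTr_m g (x i) = v i := by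
    intro i
    rw [StarTr_m_apply]
    refine Oc.ext ?_ ?_ ?_ ?_ ?_ ?_ ?_ ?_ <;> simp [x, g, co]
  have h4 := StarTr_lift (f := f) (bA := star) (bB := star) (StarTr_m g) (StarTr_m_bar g) x
  rw [hG, map_zero] at h4
  simp only [e] at h4
  exact h4.symm

theorem star_transfer {F : Type*} [Field F] [Infinite F] {ν β γ : F}
    (h : (1 - 4 * ν) * β * γ ≠ 0) {f : FS F} (hf : IsStarIdentity ν β γ f) (K : Type*) [CommRing K]
    [Algebra F K] (v : ℕ → Oc K) : lift F (Sum.elim v (fun i => star (v i))) f = 0 := by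
  have hβ : β ≠ 0 := fun h0 => h (by rw [h0]; ring)
  have hγ : γ ≠ 0 := fun h0 => h (by rw [h0]; ring)
  have hν : 1 - 4 * ν ≠ 0 := fun h0 => h (by rw [h0]; ring)
  -- the model `Oct`
  have h0 : StarTr_I F (Oct F ν β γ) Oct.bar f := by
    intro w
    have h1 := hf ((CD.ofOct F).comp (lift F (Sum.elim w (fun i => (w i).bar)))) (by
      intro i
      rw [NonUnitalAlgHom.comp_apply, NonUnitalAlgHom.comp_apply, lift_of_apply, lift_of_apply]
      show CD.ofFun (w i).bar = cj (CD.ofFun (w i))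
      refine Prod.ext ?_ ?_
      · refine QuaternionAlgebra.ext ?_ ?_ ?_ ?_ <;> simp [CD.ofFun, cj]
      · refine QuaternionAlgebra.ext ?_ ?_ ?_ ?_ <;> simp [CD.ofFun, cj])
    rw [NonUnitalAlgHom.comp_apply] at h1
    exact CD.ofOct_injective (h1.trans (map_zero _).symm)
  -- the split algebra over the algebraic closure
  obtain ⟨r, hr⟩ := Oct.exists_root (algebraMap F (AlgebraicClosure F) ν)
  have h1 : StarTr_I F (Oct (AlgebraicClosure F) (r - r ^ 2)
      (algebraMap F (AlgebraicClosure F) β) (algebraMap F (AlgebraicClosure F) γ)) Oct.bar f :=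
    StarTr_base h0 _ hr rfl rfl
  have hr2 : 1 - 2 * r ≠ 0 := by
    intro h0
    apply hν
    apply FaithfulSMul.algebraMap_injective F (AlgebraicClosure F)
    have : algebraMap F (AlgebraicClosure F) (1 - 4 * ν) = (1 - 2 * r) ^ 2 := by
      rw [map_sub, map_mul, hr, map_one, map_ofNat]; ring
    rw [this, h0, map_zero]; ring
  have hβ' : algebraMap F (AlgebraicClosure F) β ≠ 0 := by simpa using hβ
  have hγ' : algebraMap F (AlgebraicClosure F) γ ≠ 0 := by simpa using hγ
  have h2 := StarTr_surj h1 (Oct.splitA F r _ _) (Oct.splitA_bij F hr2 _ _).2 (StarTr_A r _ _)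
  have h3 := StarTr_surj h2 (Oct.splitB F _ _) (Oct.splitB_bij F hβ' _).2 (StarTr_B _ _)
  have h4 := StarTr_surj h3 (Oct.splitC F _) (Oct.splitC_bij F hγ').2 (StarTr_C _)
  have h5 := StarTr_surj (bB := star) h4 (StarTr_g F (AlgebraicClosure F)) StarTr_g_surj
    StarTr_g_bar
  have h6 : StarTr_I F (Oc F) star f :=
    StarTr_inj h5 (StarTr_m (Algebra.ofId F (AlgebraicClosure F)))
      (StarTr_m_inj _ (FaithfulSMul.algebraMap_injective F _)) (StarTr_m_bar _)
  exact StarTr_oc h6 K v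

end Pool.Agent.Smt
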