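import Pool.Agent.Smt.Arcs
import Pool.Agent.Smt.A5
import Pool.Agent.Smt.A6

/-!
# Straightening of a diagram with three nested arcs  (module StrA)

Let `e₁, e₂, e₃ ∈ D.cf`, `e₁.1 < e₂.1 < e₃.1`, `e₃.2 < e₂.2 < e₁.2`; `eⱼ ∈ arcs lⱼ`, `lⱼ ∈ D.b`. By
`arcs_mono` the blocks `l₁, l₂, l₃` are pairwise different, so
`D = bl l₁ + bl l₂ + bl l₃ + E`. `e₁`, `e₂` are not loops (`(4i+1, 4i+2)` has nothing strictly
inside, `arcs_lt`). So `l₁ = P₁ ++ Q₁`, `l₂ = P₂ ++ Q₂` with `e₁ = (al P₁, colE Q₁)`, ...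

Case A (`e₃` not a loop, `l₃ = P₃ ++ Q₃`): let `c = la P₃`. From `al P₁ < al P₂ < al P₃`:
`la P₁ ≤ la P₂ ≤ la P₃ = c`, and `colE Q₃ < colE Q₂ < colE Q₁` gives `c < hd Q₃ ≤ hd Q₂ ≤ hd Q₁`. By
`A6` (for `P₁ P₂ P₃ Q₁ Q₂ Q₃`) the product `T(P₁Q₁) T(P₂Q₂) T(P₃Q₃)` is minus the signed sum of the
other five products, plus an element of `KS (wt - 1)`. Multiply by `E.val` (`KS_mul`,
`KS_le_LtS`, `E.val ∈ KS E.wt E.ct`). The other five diagrams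
`bl (P₁ ++ Q_σ1) + bl (P₂ ++ Q_σ2) + bl (P₃ ++ Q_σ3) + E` are `Ok`, have the same `ct`, the same `wt`
(`la_append`, `hd_append`), the same `ta` (`tau_append`), and larger `ph`: by `arcs_append` the
difference is `∑ al Pⱼ colE Q_σj - ∑ al Pⱼ colE Qⱼ > 0` (`nlinarith`, five cases).

Case B (`e₃ = (4i+1, 4i+2)`, `l₃ = [i]`): `al P₂ < 4i+1` gives `la P₁ ≤ la P₂ < i` (an opener is
`≡ 1, 3 mod 4`), `4i+2 < colE Q₂ < colE Q₁` gives `i < hd Q₂ ≤ hd Q₁`. `A5` for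
`P₁ P₂ Q₂ Q₁` resp. `Q₁ Q₂`: the six terms are the six matchings of the openers
`al P₁ < al P₂ < 4i+1` with the closers `4i+2 < colE Q₂ < colE Q₁` (`arcs_middle`, `arcs_append`);
ours is the one with the smallest `ph`; `ct`, `wt` are the same, `ta` too (`tau [i] = 1`,
`tau (P ++ i :: Q) = (|P|-1) + |Q|`).
-/

set_option autoImplicit false
set_option linter.unusedSectionVars false

namespace Pool.Agent.Smt

private theorem StrA_ph_add (D E : Dg) : (D + E).ph = D.ph + E.ph := by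
  simp [Dg.ph, phi_add]

private theorem StrA_ct (P R : List ℤ) :
    (Dg.bl (P ++ R)).ct = (P : Multiset ℤ) + (R : Multiset ℤ) := by
  rw [Dg.ct_bl, Multiset.coe_add]

private theorem StrA_wt {P R : List ℤ} (hP : P ≠ []) (hR : R ≠ []) :
    (Dg.bl (P ++ R)).wt = la R - hd P := by
  rw [Dg.wt_bl, la_append hR, hd_append hP]

private theorem StrA_ta {P R : List ℤ} (hP : P ≠ []) (hR : R ≠ []) :
    (Dg.bl (P ++ R)).ta = (P.length - 1) + (R.length - 1) := by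
  rw [Dg.ta_bl, tau_append hP hR]

private theorem StrA_ph {P R : List ℤ} (hP : P ≠ []) (hR : R ≠ []) :
    (Dg.bl (P ++ R)).ph = phi (aL P) + al P * colE R + phi (arcsR R) := by
  unfold Dg.ph
  rw [Dg.cf_bl, arcs_append hP hR, phi_add, phi_add, phi_single]

private theorem StrA_ctm (P R : List ℤ) (i : ℤ) :
    (Dg.bl (P ++ i :: R)).ct = (P : Multiset ℤ) + (R : Multiset ℤ) + {i} := by
  rw [StrA_ct, ← Multiset.cons_coe, ← Multiset.singleton_add]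
  abel

private theorem StrA_wtm {P R : List ℤ} (i : ℤ) (hP : P ≠ []) (hR : R ≠ []) :
    (Dg.bl (P ++ i :: R)).wt = la R - hd P := by
  rw [StrA_wt hP (List.cons_ne_nil _ _), la_cons i hR]

private theorem StrA_tam {P R : List ℤ} (i : ℤ) (hP : P ≠ []) :
    (Dg.bl (P ++ i :: R)).ta = (P.length - 1) + R.length := by
  rw [StrA_ta hP (List.cons_ne_nil _ _), List.length_cons, Nat.add_sub_cancel]

private theorem StrA_phm {P R : List ℤ} (i : ℤ) (hP : P ≠ []) (hR : R ≠ []) :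
    (Dg.bl (P ++ i :: R)).ph =
      phi (aL P) + al P * (4 * i + 2) + (4 * i + 1) * colE R + phi (arcsR R) := by
  unfold Dg.ph
  rw [Dg.cf_bl, arcs_middle i hP hR, phi_add, phi_add, phi_add, phi_single, phi_single]

private theorem StrA_ok {P R : List ℤ} (hP : P ≠ []) (iP : Inc P) (iR : Inc R) {c : ℤ}
    (j1 : ∀ j ∈ P, j ≤ c) (j2 : ∀ j ∈ R, c < j) : (Dg.bl (P ++ R)).Ok :=
  Dg.ok_bl (fun h => hP (List.append_eq_nil_iff.1 h).1)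
    (inc_append.2 ⟨iP, iR, fun a ha b hb => (j1 a ha).trans_lt (j2 b hb)⟩)

private theorem StrA_okm {P R : List ℤ} {i : ℤ} (hP : P ≠ []) (iP : Inc P) (iR : Inc R)
    (j1 : ∀ j ∈ P, j < i) (j2 : ∀ j ∈ R, i < j) : (Dg.bl (P ++ i :: R)).Ok := by
  refine StrA_ok (c := i - 1) hP iP (inc_cons.2 ⟨j2, iR⟩) (fun j hj => by linarith [Int.le_sub_one_of_lt (j1 j hj)]) ?_
  intro j hj
  rcases List.mem_cons.1 hj with rfl | h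
  · linarith
  · linarith [j2 j h]

private theorem StrA_lt {D' D : Dg} (h1 : D'.ct = D.ct) (h2 : D'.wt = D.wt) (h3 : D'.ta = D.ta)
    (h4 : D.ph < D'.ph) : D'.Lt D := ⟨h1, Or.inr ⟨h2, Or.inr ⟨h3, h4⟩⟩⟩

private theorem StrA_al (P : List ℤ) : 4 * la P + 1 ≤ al P ∧ al P ≤ 4 * la P + 3 := by
  unfold al
  split_ifs <;> constructor <;> linarith

private theorem StrA_colE (R : List ℤ) : 4 * hd R ≤ colE R ∧ colE R ≤ 4 * hd R + 2 := by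
  unfold colE
  split_ifs <;> constructor <;> linarith

variable {k A : Type*} [CommRing k] [NonAssocRing A] [Module k A] [IsScalarTower k A A]
  [SMulCommClass k A A] (Q : QA k A) (x : ℤ → A)

private theorem StrA_mul {B E : Dg} (hE : E.Ok) {v : k} (hv : v ∈ LtS Q x B) :
    v * E.val Q x ∈ LtS Q x (B + E) := by
  induction hv using AddSubgroup.closure_induction with
  | mem v hv =>
    obtain ⟨B', h1, ⟨h2, h3⟩, rfl⟩ := hv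
    rw [← val_add]
    refine mem_LtS Q x (Dg.ok_add.2 ⟨h1, hE⟩) ⟨by rw [Dg.ct_add, Dg.ct_add, h2], ?_⟩
    rw [Dg.wt_add, Dg.wt_add, Dg.ta_add, Dg.ta_add, StrA_ph_add, StrA_ph_add]
    rcases h3 with h3 | ⟨h3, h4 | ⟨h4, h5⟩⟩
    · exact Or.inl (by linarith)
    · exact Or.inr ⟨by rw [h3], Or.inl (by omega)⟩
    · exact Or.inr ⟨by rw [h3], Or.inr ⟨by rw [h4], by linarith⟩⟩
  | zero => rw [zero_mul]; exact zero_mem _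
  | add a a' _ _ h h' => rw [add_mul]; exact add_mem h h'
  | neg a _ h => rw [neg_mul]; exact neg_mem h

private theorem StrA_caseA (P₁ P₂ P₃ Q₁ Q₂ Q₃ : List ℤ) (c : ℤ) (h1 : P₁ ≠ []) (h2 : P₂ ≠ [])
    (h3 : P₃ ≠ []) (h4 : Q₁ ≠ []) (h5 : Q₂ ≠ []) (h6 : Q₃ ≠ []) (i1 : Inc P₁) (i2 : Inc P₂)
    (i3 : Inc P₃) (i4 : Inc Q₁) (i5 : Inc Q₂) (i6 : Inc Q₃) (j1 : ∀ j ∈ P₁, j ≤ c)
    (j2 : ∀ j ∈ P₂, j ≤ c) (j3 : ∀ j ∈ P₃, j ≤ c) (j4 : ∀ j ∈ Q₁, c < j) (j5 : ∀ j ∈ Q₂, c < j)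
    (j6 : ∀ j ∈ Q₃, c < j) (a1 : al P₁ < al P₂) (a2 : al P₂ < al P₃) (c1 : colE Q₂ < colE Q₁)
    (c2 : colE Q₃ < colE Q₂) :
    (Dg.bl (P₁ ++ Q₁) + Dg.bl (P₂ ++ Q₂) + Dg.bl (P₃ ++ Q₃)).val Q x ∈
      LtS Q x (Dg.bl (P₁ ++ Q₁) + Dg.bl (P₂ ++ Q₂) + Dg.bl (P₃ ++ Q₃)) := by
  have hA := A6 Q x P₁ P₂ P₃ Q₁ Q₂ Q₃ c h1 h2 h3 h4 h5 h6 i1 i2 i3 i4 i5 i6 j1 j2 j3 j4 j5 j6
  have term : ∀ R₁ R₂ R₃ : List ℤ, R₁ ≠ [] → R₂ ≠ [] → R₃ ≠ [] → Inc R₁ → Inc R₂ → Inc R₃ →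
      (∀ j ∈ R₁, c < j) → (∀ j ∈ R₂, c < j) → (∀ j ∈ R₃, c < j) →
      (R₁ : Multiset ℤ) + (R₂ : Multiset ℤ) + (R₃ : Multiset ℤ) =
        (Q₁ : Multiset ℤ) + (Q₂ : Multiset ℤ) + (Q₃ : Multiset ℤ) →
      la R₁ + la R₂ + la R₃ = la Q₁ + la Q₂ + la Q₃ →
      (R₁.length - 1) + (R₂.length - 1) + (R₃.length - 1) =
        (Q₁.length - 1) + (Q₂.length - 1) + (Q₃.length - 1) →
      phi (arcsR R₁) + phi (arcsR R₂) + phi (arcsR R₃) =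
        phi (arcsR Q₁) + phi (arcsR Q₂) + phi (arcsR Q₃) →
      al P₁ * colE Q₁ + al P₂ * colE Q₂ + al P₃ * colE Q₃ <
        al P₁ * colE R₁ + al P₂ * colE R₂ + al P₃ * colE R₃ →
      Q.T x (P₁ ++ R₁) * Q.T x (P₂ ++ R₂) * Q.T x (P₃ ++ R₃) ∈
        LtS Q x (Dg.bl (P₁ ++ Q₁) + Dg.bl (P₂ ++ Q₂) + Dg.bl (P₃ ++ Q₃)) := by
    intro R₁ R₂ R₃ g1 g2 g3 k1 k2 k3 m1 m2 m3 e1 e2 e3 e4 e5
    have hv : Q.T x (P₁ ++ R₁) * Q.T x (P₂ ++ R₂) * Q.T x (P₃ ++ R₃) =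
        (Dg.bl (P₁ ++ R₁) + Dg.bl (P₂ ++ R₂) + Dg.bl (P₃ ++ R₃)).val Q x := by
      rw [val_add, val_add, val_bl, val_bl, val_bl]
    rw [hv]
    refine mem_LtS Q x (Dg.ok_add.2 ⟨Dg.ok_add.2 ⟨StrA_ok h1 i1 k1 j1 m1,
      StrA_ok h2 i2 k2 j2 m2⟩, StrA_ok h3 i3 k3 j3 m3⟩) (StrA_lt ?_ ?_ ?_ ?_)
    · simp only [Dg.ct_add, StrA_ct]
      calc _ = ((P₁ : Multiset ℤ) + (P₂ : Multiset ℤ) + (P₃ : Multiset ℤ)) +
            ((R₁ : Multiset ℤ) + (R₂ : Multiset ℤ) + (R₃ : Multiset ℤ)) := by abel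
        _ = _ := by rw [e1]; abel
    · simp only [Dg.wt_add]
      rw [StrA_wt h1 g1, StrA_wt h2 g2, StrA_wt h3 g3, StrA_wt h1 h4, StrA_wt h2 h5,
        StrA_wt h3 h6]
      linarith
    · simp only [Dg.ta_add]
      rw [StrA_ta h1 g1, StrA_ta h2 g2, StrA_ta h3 g3, StrA_ta h1 h4, StrA_ta h2 h5,
        StrA_ta h3 h6]
      omega
    · simp only [StrA_ph_add]
      rw [StrA_ph h1 g1, StrA_ph h2 g2, StrA_ph h3 g3, StrA_ph h1 h4, StrA_ph h2 h5,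
        StrA_ph h3 h6]
      linarith
  have hKS : Q.T x (P₁ ++ Q₁) * Q.T x (P₂ ++ Q₂) * Q.T x (P₃ ++ Q₃)
      - Q.T x (P₁ ++ Q₁) * Q.T x (P₂ ++ Q₃) * Q.T x (P₃ ++ Q₂)
      - Q.T x (P₁ ++ Q₂) * Q.T x (P₂ ++ Q₁) * Q.T x (P₃ ++ Q₃)
      + Q.T x (P₁ ++ Q₂) * Q.T x (P₂ ++ Q₃) * Q.T x (P₃ ++ Q₁)
      + Q.T x (P₁ ++ Q₃) * Q.T x (P₂ ++ Q₁) * Q.T x (P₃ ++ Q₂)
      - Q.T x (P₁ ++ Q₃) * Q.T x (P₂ ++ Q₂) * Q.T x (P₃ ++ Q₁) ∈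
      LtS Q x (Dg.bl (P₁ ++ Q₁) + Dg.bl (P₂ ++ Q₂) + Dg.bl (P₃ ++ Q₃)) := by
    refine KS_le_LtS Q x _ (w := la Q₁ + la Q₂ + la Q₃ - hd P₁ - hd P₂ - hd P₃ - 1) ?_ ?_
    · simp only [Dg.wt_add]
      rw [StrA_wt h1 h4, StrA_wt h2 h5, StrA_wt h3 h6]
      linarith
    · simp only [Dg.ct_add, StrA_ct]
      have e : (P₁ : Multiset ℤ) + (Q₁ : Multiset ℤ) + ((P₂ : Multiset ℤ) + (Q₂ : Multiset ℤ)) +
          ((P₃ : Multiset ℤ) + (Q₃ : Multiset ℤ)) = (P₁ : Multiset ℤ) + (P₂ : Multiset ℤ) +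
          (P₃ : Multiset ℤ) + (Q₁ : Multiset ℤ) + (Q₂ : Multiset ℤ) + (Q₃ : Multiset ℤ) := by abel
      rw [e]
      exact hA
  have p1 : 0 < al P₂ - al P₁ := by linarith
  have p2 : 0 < al P₃ - al P₂ := by linarith
  have p3 : 0 < colE Q₁ - colE Q₂ := by linarith
  have p4 : 0 < colE Q₂ - colE Q₃ := by linarith
  have q1 := mul_pos p1 p3
  have q2 := mul_pos p1 p4
  have q3 := mul_pos p2 p3
  have q4 := mul_pos p2 p4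
  have t1 := term Q₁ Q₃ Q₂ h4 h6 h5 i4 i6 i5 j4 j6 j5 (by abel) (by ring) (by omega) (by ring)
    (by nlinarith)
  have t2 := term Q₂ Q₁ Q₃ h5 h4 h6 i5 i4 i6 j5 j4 j6 (by abel) (by ring) (by omega) (by ring)
    (by nlinarith)
  have t3 := term Q₂ Q₃ Q₁ h5 h6 h4 i5 i6 i4 j5 j6 j4 (by abel) (by ring) (by omega) (by ring)
    (by nlinarith)
  have t4 := term Q₃ Q₁ Q₂ h6 h4 h5 i6 i4 i5 j6 j4 j5 (by abel) (by ring) (by omega) (by ring)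
    (by nlinarith)
  have t5 := term Q₃ Q₂ Q₁ h6 h5 h4 i6 i5 i4 j6 j5 j4 (by abel) (by ring) (by omega) (by ring)
    (by nlinarith)
  have hfin := add_mem (sub_mem (sub_mem (add_mem (add_mem hKS t1) t2) t3) t4) t5
  rw [val_add, val_add, val_bl, val_bl, val_bl]
  convert hfin using 1
  ring

private theorem StrA_caseB (P₁ P₂ Q₁ Q₂ : List ℤ) (i : ℤ) (h1 : P₁ ≠ []) (h2 : P₂ ≠ [])
    (h3 : Q₁ ≠ []) (h4 : Q₂ ≠ []) (i1 : Inc P₁) (i2 : Inc P₂) (i3 : Inc Q₁) (i4 : Inc Q₂)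
    (j1 : ∀ j ∈ P₁, j < i) (j2 : ∀ j ∈ P₂, j < i) (j3 : ∀ j ∈ Q₁, i < j) (j4 : ∀ j ∈ Q₂, i < j)
    (a1 : al P₁ < al P₂) (a2 : al P₂ < 4 * i + 1) (c1 : colE Q₂ < colE Q₁)
    (c2 : 4 * i + 2 < colE Q₂) :
    (Dg.bl (P₁ ++ Q₁) + Dg.bl (P₂ ++ Q₂) + Dg.bl [i]).val Q x ∈
      LtS Q x (Dg.bl (P₁ ++ Q₁) + Dg.bl (P₂ ++ Q₂) + Dg.bl [i]) := by
  have hA := A5 Q x P₁ P₂ Q₁ Q₂ i h1 h2 h3 h4 i1 i2 i3 i4 j1 j2 j3 j4
  have j1' : ∀ j ∈ P₁, j ≤ i := fun j hj => (j1 j hj).le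
  have j2' : ∀ j ∈ P₂, j ≤ i := fun j hj => (j2 j hj).le
  have n3 : 0 < Q₁.length := List.length_pos_iff.2 h3
  have n4 : 0 < Q₂.length := List.length_pos_iff.2 h4
  have ci : (Dg.bl [i]).ct = ({i} : Multiset ℤ) := by rw [Dg.ct_bl]; rfl
  have wi : (Dg.bl [i]).wt = 0 := by simp
  have ti : (Dg.bl [i]).ta = 1 := by rw [Dg.ta_bl]; rfl
  have pi : (Dg.bl [i]).ph = (4 * i + 1) * (4 * i + 2) := by
    unfold Dg.ph
    rw [Dg.cf_bl, arcs, phi_single]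
  have oi : (Dg.bl [i]).Ok := Dg.ok_bl (by simp) (by simp)
  have p1 : 0 < al P₂ - al P₁ := by linarith
  have p2 : 0 < (4 * i + 1) - al P₂ := by linarith
  have p3 : 0 < colE Q₁ - colE Q₂ := by linarith
  have p4 : 0 < colE Q₂ - (4 * i + 2) := by linarith
  have q1 := mul_pos p1 p3
  have q2 := mul_pos p1 p4
  have q3 := mul_pos p2 p3
  have q4 := mul_pos p2 p4
  set B := Dg.bl (P₁ ++ Q₁) + Dg.bl (P₂ ++ Q₂) + Dg.bl [i] with hB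
  have hct : B.ct = (P₁ : Multiset ℤ) + (P₂ : Multiset ℤ) + (Q₁ : Multiset ℤ) +
      (Q₂ : Multiset ℤ) + {i} := by
    rw [hB, Dg.ct_add, Dg.ct_add, StrA_ct, StrA_ct, ci]
    abel
  have hwt : B.wt = la Q₁ + la Q₂ - hd P₁ - hd P₂ := by
    rw [hB, Dg.wt_add, Dg.wt_add, StrA_wt h1 h3, StrA_wt h2 h4, wi]
    ring
  have hta : B.ta = (P₁.length - 1) + (P₂.length - 1) + (Q₁.length - 1) + (Q₂.length - 1) + 1 := by
    rw [hB, Dg.ta_add, Dg.ta_add, StrA_ta h1 h3, StrA_ta h2 h4, ti]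
    omega
  have hph : B.ph = phi (aL P₁) + phi (aL P₂) + phi (arcsR Q₁) + phi (arcsR Q₂) +
      (al P₁ * colE Q₁ + al P₂ * colE Q₂ + (4 * i + 1) * (4 * i + 2)) := by
    rw [hB, StrA_ph_add, StrA_ph_add, StrA_ph h1 h3, StrA_ph h2 h4, pi]
    ring
  have t1 : Q.T x [i] * Q.T x (P₁ ++ Q₂) * Q.T x (P₂ ++ Q₁) ∈ LtS Q x B := by
    have hv : Q.T x [i] * Q.T x (P₁ ++ Q₂) * Q.T x (P₂ ++ Q₁) =
        (Dg.bl [i] + Dg.bl (P₁ ++ Q₂) + Dg.bl (P₂ ++ Q₁)).val Q x := by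
      rw [val_add, val_add, val_bl, val_bl, val_bl]
    rw [hv]
    refine mem_LtS Q x (Dg.ok_add.2 ⟨Dg.ok_add.2 ⟨oi, StrA_ok h1 i1 i4 j1' j4⟩,
      StrA_ok h2 i2 i3 j2' j3⟩) (StrA_lt ?_ ?_ ?_ ?_)
    · rw [hct, Dg.ct_add, Dg.ct_add, StrA_ct, StrA_ct, ci]
      abel
    · rw [hwt, Dg.wt_add, Dg.wt_add, StrA_wt h1 h4, StrA_wt h2 h3, wi]
      ring
    · rw [hta, Dg.ta_add, Dg.ta_add, StrA_ta h1 h4, StrA_ta h2 h3, ti]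
      omega
    · rw [hph, StrA_ph_add, StrA_ph_add, StrA_ph h1 h4, StrA_ph h2 h3, pi]
      nlinarith
  have t2 : Q.T x (P₁ ++ Q₁) * Q.T x (P₂ ++ i :: Q₂) ∈ LtS Q x B := by
    have hv : Q.T x (P₁ ++ Q₁) * Q.T x (P₂ ++ i :: Q₂) =
        (Dg.bl (P₁ ++ Q₁) + Dg.bl (P₂ ++ i :: Q₂)).val Q x := by
      rw [val_add, val_bl, val_bl]
    rw [hv]
    refine mem_LtS Q x (Dg.ok_add.2 ⟨StrA_ok h1 i1 i3 j1' j3,
      StrA_okm h2 i2 i4 j2 j4⟩) (StrA_lt ?_ ?_ ?_ ?_)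
    · rw [hct, Dg.ct_add, StrA_ctm, StrA_ct]
      abel
    · rw [hwt, Dg.wt_add, StrA_wt h1 h3, StrA_wtm i h2 h4]
      ring
    · rw [hta, Dg.ta_add, StrA_ta h1 h3, StrA_tam i h2]
      omega
    · rw [hph, StrA_ph_add, StrA_ph h1 h3, StrA_phm i h2 h4]
      nlinarith
  have t3 : Q.T x (P₁ ++ Q₂) * Q.T x (P₂ ++ i :: Q₁) ∈ LtS Q x B := by
    have hv : Q.T x (P₁ ++ Q₂) * Q.T x (P₂ ++ i :: Q₁) =
        (Dg.bl (P₁ ++ Q₂) + Dg.bl (P₂ ++ i :: Q₁)).val Q x := by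
      rw [val_add, val_bl, val_bl]
    rw [hv]
    refine mem_LtS Q x (Dg.ok_add.2 ⟨StrA_ok h1 i1 i4 j1' j4,
      StrA_okm h2 i2 i3 j2 j3⟩) (StrA_lt ?_ ?_ ?_ ?_)
    · rw [hct, Dg.ct_add, StrA_ctm, StrA_ct]
      abel
    · rw [hwt, Dg.wt_add, StrA_wt h1 h4, StrA_wtm i h2 h3]
      ring
    · rw [hta, Dg.ta_add, StrA_ta h1 h4, StrA_tam i h2]
      omega
    · rw [hph, StrA_ph_add, StrA_ph h1 h4, StrA_phm i h2 h3]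
      nlinarith
  have t4 : Q.T x (P₁ ++ i :: Q₁) * Q.T x (P₂ ++ Q₂) ∈ LtS Q x B := by
    have hv : Q.T x (P₁ ++ i :: Q₁) * Q.T x (P₂ ++ Q₂) =
        (Dg.bl (P₁ ++ i :: Q₁) + Dg.bl (P₂ ++ Q₂)).val Q x := by
      rw [val_add, val_bl, val_bl]
    rw [hv]
    refine mem_LtS Q x (Dg.ok_add.2 ⟨StrA_okm h1 i1 i3 j1 j3,
      StrA_ok h2 i2 i4 j2' j4⟩) (StrA_lt ?_ ?_ ?_ ?_)
    · rw [hct, Dg.ct_add, StrA_ctm, StrA_ct]
      abel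
    · rw [hwt, Dg.wt_add, StrA_wt h2 h4, StrA_wtm i h1 h3]
      ring
    · rw [hta, Dg.ta_add, StrA_ta h2 h4, StrA_tam i h1]
      omega
    · rw [hph, StrA_ph_add, StrA_ph h2 h4, StrA_phm i h1 h3]
      nlinarith
  have t5 : Q.T x (P₁ ++ i :: Q₂) * Q.T x (P₂ ++ Q₁) ∈ LtS Q x B := by
    have hv : Q.T x (P₁ ++ i :: Q₂) * Q.T x (P₂ ++ Q₁) =
        (Dg.bl (P₁ ++ i :: Q₂) + Dg.bl (P₂ ++ Q₁)).val Q x := by
      rw [val_add, val_bl, val_bl]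
    rw [hv]
    refine mem_LtS Q x (Dg.ok_add.2 ⟨StrA_okm h1 i1 i4 j1 j4,
      StrA_ok h2 i2 i3 j2' j3⟩) (StrA_lt ?_ ?_ ?_ ?_)
    · rw [hct, Dg.ct_add, StrA_ctm, StrA_ct]
      abel
    · rw [hwt, Dg.wt_add, StrA_wt h2 h3, StrA_wtm i h1 h4]
      ring
    · rw [hta, Dg.ta_add, StrA_ta h2 h3, StrA_tam i h1]
      omega
    · rw [hph, StrA_ph_add, StrA_ph h2 h3, StrA_phm i h1 h4]
      nlinarith
  have hKS := KS_le_LtS Q x B (w := la Q₁ + la Q₂ - hd P₁ - hd P₂ - 1) (by rw [hwt]; linarith)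
    (by rw [hct]; exact hA)
  have hfin := sub_mem (add_mem (sub_mem (add_mem (add_mem hKS t1) t2) t3) t4) t5
  have hval : B.val Q x = Q.T x (P₁ ++ Q₁) * Q.T x (P₂ ++ Q₂) * Q.T x [i] := by
    rw [hB, val_add, val_add, val_bl, val_bl, val_bl]
  rw [hval]
  convert hfin using 1
  ring

theorem straighten (D : Dg) (hD : D.Ok) (hn : ¬ NoNest D.cf) : D.val Q x ∈ LtS Q x D := by
  unfold NoNest at hn
  rw [not_not] at hn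
  obtain ⟨e₁, m₁, e₂, m₂, e₃, m₃, o1, o2, o3, o4⟩ := hn
  have hmem : ∀ e ∈ D.cf, ∃ l ∈ D.b, e ∈ arcs l := by
    intro e he
    have h : e ∈ Multiset.join (D.b.map arcs) := he
    rw [Multiset.mem_join] at h
    obtain ⟨s, hs, hes⟩ := h
    obtain ⟨l, hl, rfl⟩ := Multiset.mem_map.1 hs
    exact ⟨l, hl, hes⟩
  obtain ⟨l₁, b₁, r₁⟩ := hmem e₁ m₁
  obtain ⟨l₂, b₂, r₂⟩ := hmem e₂ m₂
  obtain ⟨l₃, b₃, r₃⟩ := hmem e₃ m₃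
  have s₁ := arcs_lt (hD l₁ b₁).2 r₁
  have s₂ := arcs_lt (hD l₂ b₂).2 r₂
  have s₃ := arcs_lt (hD l₃ b₃).2 r₃
  have n21 : l₂ ≠ l₁ := by
    rintro rfl
    have := arcs_mono (hD l₂ b₂).2 r₁ r₂ o1
    omega
  have n32 : l₃ ≠ l₂ := by
    rintro rfl
    have := arcs_mono (hD l₃ b₃).2 r₂ r₃ o2
    omega
  have n31 : l₃ ≠ l₁ := by
    rintro rfl
    have := arcs_mono (hD l₃ b₃).2 r₁ r₃ (by omega)
    omega
  obtain ⟨u₁, hu₁⟩ := Multiset.exists_cons_of_mem b₁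
  have b₂' : l₂ ∈ u₁ := by
    rw [hu₁, Multiset.mem_cons] at b₂
    exact b₂.resolve_left n21
  have b₃' : l₃ ∈ u₁ := by
    rw [hu₁, Multiset.mem_cons] at b₃
    exact b₃.resolve_left n31
  obtain ⟨u₂, hu₂⟩ := Multiset.exists_cons_of_mem b₂'
  have b₃'' : l₃ ∈ u₂ := by
    rw [hu₂, Multiset.mem_cons] at b₃'
    exact b₃'.resolve_left n32
  obtain ⟨u₃, hu₃⟩ := Multiset.exists_cons_of_mem b₃''
  set E : Dg := ⟨u₃, D.m⟩ with hE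
  have hDE : D = Dg.bl l₁ + Dg.bl l₂ + Dg.bl l₃ + E := by
    apply Dg.ext
    · rw [hu₁, hu₂, hu₃]
      simp only [Dg.add_b, Dg.bl_b, hE]
      rw [← Multiset.singleton_add l₁, ← Multiset.singleton_add l₂, ← Multiset.singleton_add l₃]
      abel
    · simp only [Dg.add_m, Dg.bl_m, hE]
      abel
  have hEok : E.Ok := by
    intro l hl
    refine hD l ?_
    rw [hu₁, hu₂, hu₃]
    exact Multiset.mem_cons_of_mem (Multiset.mem_cons_of_mem (Multiset.mem_cons_of_mem hl))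
  suffices h : (Dg.bl l₁ + Dg.bl l₂ + Dg.bl l₃).val Q x ∈
      LtS Q x (Dg.bl l₁ + Dg.bl l₂ + Dg.bl l₃) by
    have h' := StrA_mul Q x hEok h
    rw [← val_add, ← hDE] at h'
    exact h'
  rcases mem_arcs r₁ with ⟨i, rfl, rfl⟩ | ⟨P₁, Q₁, hP₁, hQ₁, rfl, rfl⟩
  · simp only at o1 o2 o3 o4
    omega
  rcases mem_arcs r₂ with ⟨i, rfl, rfl⟩ | ⟨P₂, Q₂, hP₂, hQ₂, rfl, rfl⟩
  · simp only at o1 o2 o3 o4
    omega
  simp only at o1 o2 o3 o4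
  obtain ⟨iP₁, iQ₁, -⟩ := inc_append.1 (hD _ b₁).2
  obtain ⟨iP₂, iQ₂, -⟩ := inc_append.1 (hD _ b₂).2
  have A₁ := StrA_al P₁
  have A₂ := StrA_al P₂
  have C₁ := StrA_colE Q₁
  have C₂ := StrA_colE Q₂
  rcases mem_arcs r₃ with ⟨i, rfl, rfl⟩ | ⟨P₃, Q₃, hP₃, hQ₃, rfl, rfl⟩
  · simp only at o1 o2 o3 o4
    refine StrA_caseB Q x P₁ P₂ Q₁ Q₂ i hP₁ hP₂ hQ₁ hQ₂ iP₁ iP₂ iQ₁ iQ₂ ?_ ?_ ?_ ?_ o1 o2 o4 o3
    · intro j hj
      have := le_la iP₁ hj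
      omega
    · intro j hj
      have := le_la iP₂ hj
      omega
    · intro j hj
      have := hd_le iQ₁ hj
      omega
    · intro j hj
      have := hd_le iQ₂ hj
      omega
  · simp only at o1 o2 o3 o4
    obtain ⟨iP₃, iQ₃, hlt⟩ := inc_append.1 (hD _ b₃).2
    have A₃ := StrA_al P₃
    have C₃ := StrA_colE Q₃
    have hlq := hlt _ (la_mem hP₃) _ (hd_mem hQ₃)
    refine StrA_caseA Q x P₁ P₂ P₃ Q₁ Q₂ Q₃ (la P₃) hP₁ hP₂ hP₃ hQ₁ hQ₂ hQ₃ iP₁ iP₂ iP₃ iQ₁ iQ₂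
      iQ₃ ?_ ?_ ?_ ?_ ?_ ?_ o1 o2 o4 o3
    · intro j hj
      have := le_la iP₁ hj
      omega
    · intro j hj
      have := le_la iP₂ hj
      omega
    · intro j hj
      exact le_la iP₃ hj
    · intro j hj
      have := hd_le iQ₁ hj
      omega
    · intro j hj
      have := hd_le iQ₂ hj
      omega
    · intro j hj
      have := hd_le iQ₃ hj
      omega

end Pool.Agent.Smt
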